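import Mathlib

set_option autoImplicit false

/-!
# Maximum principle and the sub-mean value property
-/

open MeasureTheory Set Filter Topology InnerProductSpace
open scoped ENNReal Real ComplexConjugate

namespace Pool.Agent.Lib_helper51

theorem max_principle {f : ℂ → ℝ} {c : ℂ} {R : ℝ} {E : Set ℂ} (hE : IsClosed E)
    (hf : ContinuousOn f (Metric.closedBall c R))
    (hh : HarmonicOnNhd f (Metric.ball c R \ E))
    (hb : ∀ z ∈ Metric.sphere c R, f z ≤ 0)
    (hE0 : ∀ z ∈ Metric.closedBall c R, z ∈ E → f z ≤ 0) :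
    ∀ z ∈ Metric.closedBall c R, f z ≤ 0 := by
  by_contra hcon
  push Not at hcon
  obtain ⟨z1, hz1, hfz1⟩ := hcon
  obtain ⟨zm, hzm, hmax⟩ := (isCompact_closedBall c R).exists_isMaxOn ⟨z1, hz1⟩ hf
  set M := f zm with hMdef
  have hM : 0 < M := lt_of_lt_of_le hfz1 (hmax hz1)
  set A := Metric.closedBall c R ∩ f ⁻¹' {M} with hAdef
  have hAc : IsClosed A := hf.preimage_isClosed_of_isClosed Metric.isClosed_closedBall isClosed_singleton
  have hA : IsCompact A := (isCompact_closedBall c R).of_isClosed_subset hAc inter_subset_left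
  obtain ⟨z0, hz0, hmaxre⟩ := hA.exists_isMaxOn ⟨zm, hzm, rfl⟩ Complex.continuous_re.continuousOn
  have hz0M : f z0 = M := hz0.2
  have hz0mem : z0 ∈ Metric.ball c R \ E := by
    refine ⟨?_, ?_⟩
    · by_contra hnot
      have hs : z0 ∈ Metric.sphere c R := by
        have h1 := Metric.mem_closedBall.1 hz0.1
        have h2 : R ≤ dist z0 c := by
          by_contra h3
          push Not at h3
          exact hnot (Metric.mem_ball.2 h3)
        exact Metric.mem_sphere.2 (le_antisymm h1 h2)
      have := hb z0 hs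
      linarith
    · intro hzE
      have := hE0 z0 hz0.1 hzE
      linarith
  obtain ⟨r, hr, hball⟩ := Metric.isOpen_iff.1 (Metric.isOpen_ball.sdiff hE) z0 hz0mem
  set ρ := r / 2 with hρ
  have hρ0 : 0 < ρ := by positivity
  have hsub : Metric.closedBall z0 ρ ⊆ Metric.ball c R \ E :=
    (Metric.closedBall_subset_ball (by rw [hρ]; linarith)).trans hball
  have hmean : Real.circleAverage f z0 ρ = f z0 := by
    apply InnerProductSpace.HarmonicOnNhd.circleAverage_eq
    rw [abs_of_pos hρ0]
    exact hh.mono hsub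
  have hcm : ∀ θ, circleMap z0 ρ θ ∈ Metric.closedBall c R := fun θ =>
    Metric.ball_subset_closedBall (hsub (circleMap_mem_closedBall z0 hρ0.le θ)).1
  have hcont : Continuous fun θ => f (circleMap z0 ρ θ) :=
    hf.comp_continuous (continuous_circleMap z0 ρ) hcm
  have hle : ∀ θ, f (circleMap z0 ρ θ) ≤ M := fun θ => hmax (hcm θ)
  have hlt : f (circleMap z0 ρ 0) < M := by
    refine lt_of_le_of_ne (hle 0) ?_
    intro heq
    have hmem : circleMap z0 ρ 0 ∈ A := ⟨hcm 0, heq⟩
    have h1 : (circleMap z0 ρ 0).re ≤ z0.re := hmaxre hmem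
    have h2 : (circleMap z0 ρ 0).re = z0.re + ρ := by
      simp [circleMap]
    linarith
  have hpos : 0 < ∫ θ in (0:ℝ)..2 * π, (M - f (circleMap z0 ρ θ)) := by
    apply intervalIntegral.integral_pos (by positivity)
    · exact (continuous_const.sub hcont).continuousOn
    · intro θ _
      linarith [hle θ]
    · exact ⟨0, ⟨le_rfl, by positivity⟩, by linarith⟩
  rw [intervalIntegral.integral_sub intervalIntegrable_const (hcont.intervalIntegrable _ _),
    intervalIntegral.integral_const] at hpos
  rw [Real.circleAverage, hz0M] at hmean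
  have h3 : ∫ θ in (0:ℝ)..2 * π, f (circleMap z0 ρ θ) = 2 * π * M := by
    rw [← hmean, smul_eq_mul]
    field_simp
  rw [h3] at hpos
  simp at hpos

/-- functions on the circle that are analytic plus antianalytic -/
def SplitFn (f : C(AddCircle (2 * π), ℂ)) : Prop :=
  ∃ H1 H2 : ℂ → ℂ, Differentiable ℂ H1 ∧ Differentiable ℂ H2 ∧
    ∀ t, f t = H1 (AddCircle.toCircle t) + conj (H2 (AddCircle.toCircle t))

theorem splitFn_span (f : C(AddCircle (2 * π), ℂ))
    (hf : f ∈ Submodule.span ℂ (range (fourier (T := 2 * π)))) : SplitFn f := by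
  induction hf using Submodule.span_induction with
  | mem x hx =>
    obtain ⟨n, rfl⟩ := hx
    rcases Int.eq_nat_or_neg n with ⟨m, rfl | rfl⟩
    · refine ⟨fun z => z ^ m, fun _ => 0, differentiable_id.pow m, differentiable_const 0, fun t => ?_⟩
      rw [fourier_apply, AddCircle.toCircle_zsmul]
      simp
    · refine ⟨fun _ => 0, fun z => z ^ m, differentiable_const 0, differentiable_id.pow m, fun t => ?_⟩
      rw [fourier_neg, fourier_apply, AddCircle.toCircle_zsmul]
      simp
  | zero =>
    exact ⟨fun _ => 0, fun _ => 0, differentiable_const 0, differentiable_const 0, fun t => by simp⟩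
  | add x y _ _ hx hy =>
    obtain ⟨A1, A2, hA1, hA2, hA⟩ := hx
    obtain ⟨B1, B2, hB1, hB2, hB⟩ := hy
    refine ⟨fun z => A1 z + B1 z, fun z => A2 z + B2 z, hA1.add hB1, hA2.add hB2, fun t => ?_⟩
    rw [ContinuousMap.add_apply, hA, hB, map_add]
    ring
  | smul a x _ hx =>
    obtain ⟨A1, A2, hA1, hA2, hA⟩ := hx
    refine ⟨fun z => a * A1 z, fun z => conj a * A2 z, hA1.const_mul a, hA2.const_mul _, fun t => ?_⟩
    rw [ContinuousMap.smul_apply, hA, smul_eq_mul, map_mul, Complex.conj_conj]
    ring

theorem exists_entire_approx (g : ℂ → ℝ) (hg : Continuous g) (c : ℂ) {R : ℝ} (hR : 0 < R)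
    {ε : ℝ} (hε : 0 < ε) :
    ∃ H : ℂ → ℂ, Differentiable ℂ H ∧
      ∀ z ∈ Metric.sphere c R, |(H z).re - g z| ≤ ε := by
  have : Fact (0 < 2 * π) := ⟨by positivity⟩
  let f : C(AddCircle (2 * π), ℂ) :=
    ⟨fun t => ((g (c + R * (AddCircle.toCircle t : ℂ)) : ℝ) : ℂ), by
      have := AddCircle.continuous_toCircle (T := 2 * π)
      fun_prop⟩
  have hf : f ∈ (Submodule.span ℂ (range (fourier (T := 2 * π)))).topologicalClosure := by
    rw [span_fourier_closure_eq_top]
    trivial
  have hf' : f ∈ closure ((Submodule.span ℂ (range (fourier (T := 2 * π))) :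
      Submodule ℂ C(AddCircle (2 * π), ℂ)) : Set C(AddCircle (2 * π), ℂ)) := hf
  obtain ⟨f', hf'mem, hdist⟩ := Metric.mem_closure_iff.1 hf' ε hε
  obtain ⟨H1, H2, hH1, hH2, hH⟩ := splitFn_span f' hf'mem
  refine ⟨fun z => H1 ((z - c) / R) + H2 ((z - c) / R), ?_, ?_⟩
  · have h0 : Differentiable ℂ fun z : ℂ => (z - c) / R := by fun_prop
    exact (hH1.comp h0).add (hH2.comp h0)
  · intro z hz
    have hRne : (R : ℂ) ≠ 0 := by exact_mod_cast hR.ne'
    have hnorm : ‖(z - c) / R‖ = 1 := by
      rw [norm_div, Complex.norm_real, Real.norm_of_nonneg hR.le, ← dist_eq_norm,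
        Metric.mem_sphere.1 hz, div_self hR.ne']
    obtain ⟨θ, hθ⟩ : ∃ θ : ℝ, Complex.exp (θ * Complex.I) = (z - c) / R :=
      (Complex.norm_eq_one_iff _).1 hnorm
    have ht : ((AddCircle.toCircle ((θ : ℝ) : AddCircle (2 * π)) : Circle) : ℂ) = (z - c) / R := by
      rw [AddCircle.toCircle_apply_mk, Circle.coe_exp, ← hθ]
      congr 2
      have : (2 * π / (2 * π) : ℝ) = 1 := div_self (by positivity)
      rw [this, one_mul]
    have h1 := (ContinuousMap.dist_lt_iff hε).1 hdist ((θ : ℝ) : AddCircle (2 * π))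
    have h2 : f ((θ : ℝ) : AddCircle (2 * π)) = ((g z : ℝ) : ℂ) := by
      change ((g (c + R * ((AddCircle.toCircle ((θ : ℝ) : AddCircle (2 * π)) : Circle) : ℂ)) : ℝ) : ℂ) = _
      rw [ht, mul_div_cancel₀ _ hRne]
      congr 2
      ring
    rw [h2, hH, ht, dist_comm, dist_eq_norm] at h1
    have h3 := (Complex.abs_re_le_norm _).trans h1.le
    simpa using h3

theorem sub_mean {U : ℂ → ℝ} {E : Set ℂ} (hE : IsClosed E) (hc : Continuous U)
    (hn : ∀ z, 0 ≤ U z) (h0 : ∀ z ∈ E, U z = 0) (hh : HarmonicOnNhd U Eᶜ) (c : ℂ) {R : ℝ}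
    (hR : 0 < R) : U c ≤ Real.circleAverage U c R := by
  refine le_of_forall_pos_le_add fun ε hε => ?_
  obtain ⟨H, hH, happ⟩ := exists_entire_approx U hc c hR (half_pos hε)
  have hHre : Continuous fun z => (H z).re := Complex.continuous_re.comp hH.continuous
  have hHh : ∀ z, HarmonicAt (fun z => (H z).re) z := fun z =>
    (hH.analyticAt z).harmonicAt_re
  have hcball : c ∈ Metric.closedBall c R := Metric.mem_closedBall_self hR.le
  -- lower bound for the approximant
  have h1 : ∀ z ∈ Metric.closedBall c R, -(H z).re - ε / 2 ≤ 0 := by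
    refine max_principle (E := ∅) isClosed_empty ?_ ?_ ?_ ?_
    · exact (hHre.neg.sub continuous_const).continuousOn
    · intro z _
      exact ((hHh z).neg).sub (harmonicAt_const _)
    · intro z hz
      have := abs_le.1 (happ z hz)
      have := hn z
      linarith [this, (abs_le.1 (happ z hz)).1]
    · intro z _ hz
      exact absurd hz (notMem_empty z)
  have h2 : ∀ z ∈ Metric.closedBall c R, U z - (H z).re - ε / 2 ≤ 0 := by
    refine max_principle hE ?_ ?_ ?_ ?_
    · exact ((hc.sub hHre).sub continuous_const).continuousOn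
    · intro z hz
      exact ((hh z hz.2).sub (hHh z)).sub (harmonicAt_const _)
    · intro z hz
      have := abs_le.1 (happ z hz)
      linarith [this.1]
    · intro z hz hzE
      rw [h0 z hzE]
      linarith [h1 z hz]
  have h3 : Real.circleAverage (fun z => (H z).re) c R = (H c).re := by
    apply InnerProductSpace.HarmonicOnNhd.circleAverage_eq
    intro z _
    exact hHh z
  have h4 : Real.circleAverage (fun z => (H z).re) c R ≤
      Real.circleAverage (fun z => U z + ε / 2) c R := by
    apply Real.circleAverage_mono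
    · exact hHre.continuousOn.circleIntegrable'
    · exact (hc.add continuous_const).continuousOn.circleIntegrable'
    · intro z hz
      rw [abs_of_pos hR] at hz
      have := abs_le.1 (happ z hz)
      linarith [this.2]
  have h5 : Real.circleAverage (fun z => U z + ε / 2) c R = Real.circleAverage U c R + ε / 2 := by
    rw [Real.circleAverage_fun_add hc.continuousOn.circleIntegrable'
      continuousOn_const.circleIntegrable', Real.circleAverage_const]
  have h6 := h2 c hcball
  linarith

end Pool.Agent.Lib_helper51
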