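import Pool.Agent.Lib_helper51.UKL_Fourier

/-!
# Module M6 of the uniform Krasikov-Lagarias theorem: sup bound on the Fourier coefficients
-/

namespace UKL

open Finset

namespace M6

open Fou

/-! ### Binomial coefficients -/

lemma central_bound (k : ℕ) : (Nat.centralBinom k) ^ 2 * (2 * k + 1) ≤ 16 ^ k := by
  induction k with
  | zero => simp
  | succ k ih =>
    have h := Nat.succ_mul_centralBinom_succ k
    -- (k+1) * cb (k+1) = 2 (2k+1) cb k
    have h2 : (k + 1) ^ 2 * ((Nat.centralBinom (k + 1)) ^ 2 * (2 * (k + 1) + 1))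
        ≤ (k + 1) ^ 2 * 16 ^ (k + 1) := by
      calc (k + 1) ^ 2 * ((Nat.centralBinom (k + 1)) ^ 2 * (2 * (k + 1) + 1))
          = ((k + 1) * Nat.centralBinom (k + 1)) ^ 2 * (2 * (k + 1) + 1) := by ring
        _ = (2 * (2 * k + 1) * Nat.centralBinom k) ^ 2 * (2 * (k + 1) + 1) := by rw [h]
        _ = ((Nat.centralBinom k) ^ 2 * (2 * k + 1)) * (4 * ((2 * k + 1) * (2 * k + 3))) := by ring
        _ ≤ 16 ^ k * (4 * ((2 * k + 1) * (2 * k + 3))) := by gcongr
        _ ≤ 16 ^ k * (16 * (k + 1) ^ 2) := by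
            apply Nat.mul_le_mul_left
            nlinarith
        _ = (k + 1) ^ 2 * 16 ^ (k + 1) := by ring
    exact Nat.le_of_mul_le_mul_left h2 (by positivity)

lemma choose_sq_bound (m k : ℕ) : (m.choose k) ^ 2 * (m + 1) ≤ 4 ^ m := by
  have h1 : m.choose k ≤ m.choose (m / 2) := Nat.choose_le_middle k m
  have h2 : (m.choose (m / 2)) ^ 2 * (m + 1) ≤ 4 ^ m := by
    rcases Nat.even_or_odd' m with ⟨j, hj | hj⟩
    · subst hj
      have := central_bound j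
      rw [Nat.centralBinom_eq_two_mul_choose] at this
      rw [show 2 * j / 2 = j by omega]
      calc ((2 * j).choose j) ^ 2 * (2 * j + 1) ≤ 16 ^ j := this
        _ = 4 ^ (2 * j) := by rw [pow_mul]; norm_num
    · subst hj
      have := central_bound (j + 1)
      rw [Nat.centralBinom_eq_two_mul_choose] at this
      rw [show (2 * j + 1) / 2 = j by omega]
      have h3 : (2 * (j + 1)).choose (j + 1) = 2 * (2 * j + 1).choose j := by
        have h4 : (2 * j + 2).choose (j + 1) = (2 * j + 1).choose j + (2 * j + 1).choose (j + 1) :=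
          Nat.choose_succ_succ _ _
        have h5 : (2 * j + 1).choose (j + 1) = (2 * j + 1).choose j := by
          rw [← Nat.choose_symm_half j]
        rw [show 2 * (j + 1) = 2 * j + 2 by ring, h4, h5]; ring
      rw [h3] at this
      have h6 : (2 * (2 * j + 1).choose j) ^ 2 * (2 * (j + 1) + 1)
          = 4 * (((2 * j + 1).choose j) ^ 2 * (2 * j + 3)) := by ring
      rw [h6] at this
      have h7 : (16 : ℕ) ^ (j + 1) = 4 * 4 ^ (2 * j + 1) := by
        rw [show (16 : ℕ) = 4 ^ 2 by norm_num, ← pow_mul, ← pow_succ']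
        congr 1
      rw [h7] at this
      have h8 := Nat.le_of_mul_le_mul_left this (by norm_num)
      calc ((2 * j + 1).choose j) ^ 2 * (2 * j + 1 + 1)
          ≤ ((2 * j + 1).choose j) ^ 2 * (2 * j + 3) := by
            apply Nat.mul_le_mul_left; omega
        _ ≤ _ := h8
  calc (m.choose k) ^ 2 * (m + 1) ≤ (m.choose (m / 2)) ^ 2 * (m + 1) := by gcongr
    _ ≤ _ := h2

lemma choose_bound (m k : ℕ) : (1 / 2 : ℝ) ^ m * m.choose k ≤ 1 / Real.sqrt (m + 1) := by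
  have h := choose_sq_bound m k
  have h' : ((m.choose k : ℝ)) ^ 2 * (m + 1) ≤ 4 ^ m := by exact_mod_cast h
  have hs : 0 < Real.sqrt (m + 1) := Real.sqrt_pos.2 (by positivity)
  rw [le_div_iff₀ hs]
  have hsq : Real.sqrt (m + 1) ^ 2 = (m : ℝ) + 1 := Real.sq_sqrt (by positivity)
  have h1 : ((1 / 2 : ℝ) ^ m * m.choose k * Real.sqrt (m + 1)) ^ 2 ≤ 1 := by
    have : ((1 / 2 : ℝ) ^ m * m.choose k * Real.sqrt (m + 1)) ^ 2
        = (1 / 4) ^ m * (((m.choose k : ℝ)) ^ 2 * (m + 1)) := by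
      rw [mul_pow, mul_pow, hsq, ← pow_mul, mul_comm m 2, pow_mul]
      norm_num
      ring
    rw [this]
    calc (1 / 4 : ℝ) ^ m * (((m.choose k : ℝ)) ^ 2 * (m + 1)) ≤ (1 / 4) ^ m * 4 ^ m := by gcongr
      _ = 1 := by rw [← mul_pow]; norm_num
  have h2 : 0 ≤ (1 / 2 : ℝ) ^ m * m.choose k * Real.sqrt (m + 1) := by positivity
  by_contra h3
  push Not at h3
  nlinarith

/-! ### The coefficients `h` -/

lemma h_zero_left (ξ : ℤ) (V v n : ℕ) : h ξ V (v + 1) 0 n = 0 := by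
  cases V <;> simp [h]

lemma h_zero_right (ξ : ℤ) (V l n : ℕ) : h ξ V 0 (l + 1) n = 0 := by
  cases V <;> simp [h]

lemma h_zero_zero (ξ : ℤ) (V n : ℕ) : h ξ V 0 0 n = 1 := by
  cases V <;> simp [h]

lemma h_norm (ξ : ℤ) : ∀ V v l n : ℕ, ‖h ξ V (v + 1) (l + 1) n‖ ≤ (1 / 2 : ℝ) ^ (v + 1) * v.choose l := by
  intro V
  induction V with
  | zero =>
    intro v l n
    simp only [h, norm_zero]
    positivity
  | succ V ih =>
    intro v l n
    rw [h]
    have hn : ‖(1 / 2 : ℂ) * h ξ V v (l + 1) n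
        + (1 / 2) * e (-(2 ^ V * ξ : ℝ) / 3 ^ n) * h ξ V v l (n - 1)‖
        ≤ (1 / 2) * ‖h ξ V v (l + 1) n‖ + (1 / 2) * ‖h ξ V v l (n - 1)‖ := by
      refine (norm_add_le _ _).trans (le_of_eq ?_)
      rw [norm_mul, norm_mul, norm_mul, e_norm]
      norm_num
    refine hn.trans ?_
    cases v with
    | zero =>
      rw [h_zero_right, norm_zero, mul_zero, zero_add]
      cases l with
      | zero => rw [h_zero_zero]; norm_num
      | succ l => rw [h_zero_right]; simp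
    | succ v =>
      have h1 := ih v l n
      cases l with
      | zero =>
        rw [h_zero_left, norm_zero, mul_zero, add_zero]
        rw [Nat.choose_zero_right] at h1 ⊢
        rw [pow_succ]
        linarith
      | succ l =>
        have h2 := ih v l (n - 1)
        have h3 := ih v (l + 1) n
        rw [Nat.choose_succ_succ]
        push_cast
        rw [pow_succ]
        linarith

lemma h_norm_sqrt (ξ : ℤ) (V v l n : ℕ) : ‖h ξ V v (l + 1) n‖ ≤ 1 / Real.sqrt (l + 1) := by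
  have hl : 0 < Real.sqrt (l + 1) := Real.sqrt_pos.2 (by positivity)
  cases v with
  | zero => rw [h_zero_right, norm_zero]; positivity
  | succ v =>
    refine (h_norm ξ V v l n).trans ?_
    by_cases hv : v < l
    · rw [Nat.choose_eq_zero_of_lt hv]
      simp
    · push Not at hv
      have h1 := choose_bound v l
      have h2 : (1 / 2 : ℝ) ^ (v + 1) * v.choose l ≤ (1 / 2 : ℝ) ^ v * v.choose l := by
        rw [pow_succ]
        have : 0 ≤ (1 / 2 : ℝ) ^ v * v.choose l := by positivity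
        linarith
      refine h2.trans (h1.trans ?_)
      apply one_div_le_one_div_of_le hl
      apply Real.sqrt_le_sqrt
      have : (l : ℝ) ≤ v := by exact_mod_cast hv
      linarith

lemma h_lt (ξ : ℤ) (V v l n : ℕ) (hv : v < l) : h ξ V v l n = 0 := by
  cases l with
  | zero => omega
  | succ l =>
    cases v with
    | zero => exact h_zero_right _ _ _ _
    | succ v =>
      have := h_norm ξ V v l n
      rw [Nat.choose_eq_zero_of_lt (by omega)] at this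
      simpa using this

/-! ### Expansion of `chi` -/

lemma expansion (hrec : ∀ (n : ℕ) (ξ : ℤ), chi (n + 1) (2 * ξ)
      = (1 / 2) * chi (n + 1) ξ + (1 / 2) * e (-(ξ : ℝ) / 3 ^ (n + 1)) * chi n ξ)
    (hbd : ∀ (n : ℕ) (ξ : ℤ), ‖chi n ξ‖ ≤ 1) (ξ : ℤ) : ∀ V l n : ℕ, l ≤ n →
    ‖chi n (2 ^ V * ξ) - ∑ v ∈ range (V + 1), h ξ V v l n * chi (n - l) (2 ^ (V - v) * ξ)‖
      ≤ 2 ^ l * (3 / 4) ^ V := by
  intro V
  induction V with
  | zero =>
    intro l n hl
    cases l with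
    | zero =>
      simp [h_zero_zero]
    | succ l =>
      simp only [zero_add, range_one, sum_singleton, h_zero_right, zero_mul, sub_zero, pow_zero,
        mul_one, one_mul]
      refine (hbd n ξ).trans ?_
      exact one_le_pow₀ (by norm_num)
  | succ V ih =>
    intro l n hl
    cases l with
    | zero =>
      rw [sum_range_succ']
      simp only [h_zero_left, h_zero_zero, zero_mul, sum_const_zero, zero_add, one_mul,
        Nat.sub_zero, sub_self, norm_zero]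
      positivity
    | succ l =>
      obtain ⟨n, rfl⟩ : ∃ m, n = m + 1 := ⟨n - 1, by omega⟩
      have e1 : chi (n + 1) (2 ^ (V + 1) * ξ) = (1 / 2) * chi (n + 1) (2 ^ V * ξ)
          + (1 / 2) * e (-(2 ^ V * ξ : ℝ) / 3 ^ (n + 1)) * chi n (2 ^ V * ξ) := by
        have := hrec n (2 ^ V * ξ)
        rw [show (2 : ℤ) ^ (V + 1) * ξ = 2 * (2 ^ V * ξ) by ring, this]
        push_cast
        rfl
      have e2 : ∑ v ∈ range (V + 1 + 1), h ξ (V + 1) v (l + 1) (n + 1)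
            * chi (n + 1 - (l + 1)) (2 ^ (V + 1 - v) * ξ)
          = (1 / 2) * ∑ v ∈ range (V + 1), h ξ V v (l + 1) (n + 1)
              * chi (n + 1 - (l + 1)) (2 ^ (V - v) * ξ)
            + (1 / 2) * e (-(2 ^ V * ξ : ℝ) / 3 ^ (n + 1)) * ∑ v ∈ range (V + 1), h ξ V v l n
              * chi (n - l) (2 ^ (V - v) * ξ) := by
        rw [sum_range_succ', h_zero_right, zero_mul, add_zero, mul_sum, mul_sum, ← sum_add_distrib]
        apply sum_congr rfl
        intro v _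
        rw [h, show n + 1 - (l + 1) = n - l by omega, show V + 1 - (v + 1) = V - v by omega,
          show n + 1 - 1 = n by omega]
        ring
      rw [e1, e2]
      have e3 : (1 / 2) * chi (n + 1) (2 ^ V * ξ)
          + (1 / 2) * e (-(2 ^ V * ξ : ℝ) / 3 ^ (n + 1)) * chi n (2 ^ V * ξ)
          - ((1 / 2) * ∑ v ∈ range (V + 1), h ξ V v (l + 1) (n + 1)
              * chi (n + 1 - (l + 1)) (2 ^ (V - v) * ξ)
            + (1 / 2) * e (-(2 ^ V * ξ : ℝ) / 3 ^ (n + 1)) * ∑ v ∈ range (V + 1), h ξ V v l n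
              * chi (n - l) (2 ^ (V - v) * ξ))
          = (1 / 2) * (chi (n + 1) (2 ^ V * ξ) - ∑ v ∈ range (V + 1), h ξ V v (l + 1) (n + 1)
              * chi (n + 1 - (l + 1)) (2 ^ (V - v) * ξ))
            + (1 / 2) * e (-(2 ^ V * ξ : ℝ) / 3 ^ (n + 1)) * (chi n (2 ^ V * ξ)
              - ∑ v ∈ range (V + 1), h ξ V v l n * chi (n - l) (2 ^ (V - v) * ξ)) := by ring
      rw [e3]
      refine (norm_add_le _ _).trans ?_
      rw [norm_mul, norm_mul, norm_mul, e_norm]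
      have h1 := ih (l + 1) (n + 1) hl
      have h2 := ih l n (by omega)
      have h3 : ‖(1 / 2 : ℂ)‖ = 1 / 2 := by norm_num
      rw [h3, mul_one]
      have h4 : (2 : ℝ) ^ (l + 1) * (3 / 4) ^ (V + 1)
          = (1 / 2) * (2 ^ (l + 1) * (3 / 4) ^ V) + (1 / 2) * (2 ^ l * (3 / 4) ^ V) := by
        rw [pow_succ, pow_succ]; ring
      rw [h4]
      gcongr

/-! ### Fourier transform of `g` -/

/-- Fourier coefficients of `g S n` -/
noncomputable def ghat (S n : ℕ) (ξ : ℤ) : ℂ :=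
  (1 / (3 : ℂ) ^ n) * ∑ y ∈ range (3 ^ n), (g S n y : ℂ) * e (-(ξ * y : ℝ) / 3 ^ n)

lemma ghat_per (S n : ℕ) (ξ k : ℤ) : ghat S n (ξ + 3 ^ n * k) = ghat S n ξ := by
  unfold ghat
  congr 1
  apply sum_congr rfl
  intro y _
  congr 1
  have h3 : (3 : ℝ) ^ n ≠ 0 := by positivity
  have : (-(((ξ + 3 ^ n * k : ℤ) : ℝ) * y) / 3 ^ n) = (-(ξ * y : ℝ) / 3 ^ n) + ((-(k * y) : ℤ) : ℝ) := by
    push_cast
    field_simp
    ring
  rw [this, e_add_int]

lemma chi_per (n : ℕ) (ξ k : ℤ) : chi n (ξ + 3 ^ n * k) = chi n ξ := by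
  unfold chi
  congr 1
  apply sum_congr rfl
  intro y _
  congr 1
  have h3 : (3 : ℝ) ^ n ≠ 0 := by positivity
  have : (-(((ξ + 3 ^ n * k : ℤ) : ℝ) * y) / 3 ^ n) = (-(ξ * y : ℝ) / 3 ^ n) + ((-(k * y) : ℤ) : ℝ) := by
    push_cast
    field_simp
    ring
  rw [this, e_add_int]

lemma ghat_parseval (S n : ℕ) :
    ∑ x ∈ range (3 ^ n), ‖ghat S n x‖ ^ 2 = (1 / 3 ^ n) * ∑ y ∈ range (3 ^ n), (g S n y) ^ 2 := by
  have hp := parseval (q := 3 ^ n) (by positivity) (fun y => ((g S n y : ℝ) : ℂ))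
  have h3 : (3 : ℝ) ^ n ≠ 0 := by positivity
  have h1 : ∀ x ∈ range (3 ^ n), ‖ghat S n x‖ ^ 2
      = (1 / 3 ^ n) ^ 2 * ‖∑ y ∈ range (3 ^ n), ((g S n y : ℝ) : ℂ) *
        e (-((x : ℝ) * y) / ((3 ^ n : ℕ) : ℝ))‖ ^ 2 := by
    intro x _
    unfold ghat
    rw [norm_mul, mul_pow]
    congr 1
    · rw [norm_div, norm_pow]; norm_num
    · congr 3
      push_cast
      rfl
  rw [sum_congr rfl h1, ← mul_sum, hp]
  have h2 : ∀ y ∈ range (3 ^ n), ‖((g S n y : ℝ) : ℂ)‖ ^ 2 = (g S n y) ^ 2 := by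
    intro y _
    rw [Complex.norm_real, Real.norm_eq_abs, sq_abs]
  rw [sum_congr rfl h2]
  push_cast
  field_simp

lemma ghat_bessel (S n : ℕ) (s : Finset ℕ) (φ : ℕ → ℤ)
    (hφ : ∀ v ∈ s, ∀ w ∈ s, (3 : ℤ) ^ n ∣ φ v - φ w → v = w) :
    ∑ v ∈ s, ‖ghat S n (φ v)‖ ^ 2 ≤ (1 / 3 ^ n) * ∑ y ∈ range (3 ^ n), (g S n y) ^ 2 := by
  classical
  rw [← ghat_parseval]
  set ψ : ℕ → ℕ := fun v => (φ v % 3 ^ n).toNat with hψ
  have h3 : (0 : ℤ) < 3 ^ n := by positivity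
  have hcast : ∀ v, ((ψ v : ℕ) : ℤ) = φ v % 3 ^ n := fun v =>
    Int.toNat_of_nonneg (Int.emod_nonneg _ h3.ne')
  have hval : ∀ v, ghat S n (φ v) = ghat S n ((ψ v : ℕ) : ℤ) := by
    intro v
    rw [hcast]
    conv_lhs => rw [← Int.emod_add_mul_ediv (φ v) (3 ^ n)]
    rw [ghat_per]
  have hinj : Set.InjOn ψ (s : Set ℕ) := by
    intro v hv w hw hvw
    apply hφ v hv w hw
    have : φ v % 3 ^ n = φ w % 3 ^ n := by
      rw [← hcast, ← hcast, hvw]
    exact Int.ModEq.dvd (show φ w ≡ φ v [ZMOD 3 ^ n] from this.symm)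
  calc ∑ v ∈ s, ‖ghat S n (φ v)‖ ^ 2 = ∑ v ∈ s, ‖ghat S n ((ψ v : ℕ) : ℤ)‖ ^ 2 := by
        apply sum_congr rfl; intro v _; rw [hval]
    _ = ∑ x ∈ s.image ψ, ‖ghat S n (x : ℤ)‖ ^ 2 := by rw [sum_image hinj]
    _ ≤ ∑ x ∈ range (3 ^ n), ‖ghat S n (x : ℤ)‖ ^ 2 := by
        apply sum_le_sum_of_subset_of_nonneg
        · intro x hx
          obtain ⟨v, _, rfl⟩ := mem_image.1 hx
          rw [mem_range]
          have h1 : φ v % 3 ^ n < 3 ^ n := Int.emod_lt_of_pos _ h3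
          have h2 : ((ψ v : ℕ) : ℤ) < ((3 ^ n : ℕ) : ℤ) := by rw [hcast]; push_cast; exact h1
          exact_mod_cast h2
        · intro x _ _
          positivity

/-! ### The order of two modulo powers of three -/

lemma ord_two {R k : ℕ} (hR : 1 ≤ R) (hk : 0 < k) (hd : 3 ^ R ∣ 2 ^ k - 1) :
    2 * 3 ^ (R - 1) ≤ k := by
  rcases Nat.even_or_odd' k with ⟨m, hm | hm⟩
  · subst hm
    have hm0 : m ≠ 0 := by omega
    have h4 : (2 : ℕ) ^ (2 * m) - 1 = 4 ^ m - 1 ^ m := by rw [pow_mul]; norm_num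
    rw [h4] at hd
    have : Fact (Nat.Prime 3) := ⟨by norm_num⟩
    have hv := padicValNat.pow_sub_pow (p := 3) (x := 4) (y := 1) (by decide) (by norm_num)
      (by norm_num) (by norm_num) hm0
    have hne : (4 : ℕ) ^ m - 1 ^ m ≠ 0 := by
      have : 1 < 4 ^ m := Nat.one_lt_pow hm0 (by norm_num)
      simp; omega
    have h5 : R ≤ padicValNat 3 (4 ^ m - 1 ^ m) := (padicValNat_dvd_iff_le hne).1 hd
    rw [hv] at h5
    have h6 : padicValNat 3 (4 - 1) = 1 := by norm_num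
    rw [h6] at h5
    have h7 : 3 ^ (R - 1) ∣ m := (padicValNat_dvd_iff_le hm0).2 (by omega)
    have h8 := Nat.le_of_dvd (by omega) h7
    omega
  · exfalso
    have h3 : 3 ∣ 2 ^ k - 1 := (dvd_pow_self 3 (by omega)).trans hd
    subst hm
    have h9 : 2 ^ (2 * m + 1) % 3 = 2 := by
      rw [pow_succ, pow_mul, Nat.mul_mod, Nat.pow_mod]
      norm_num
    generalize 2 ^ (2 * m + 1) = X at h3 h9
    omega

lemma freq_inj {R V : ℕ} {ξ : ℤ} (hR : 1 ≤ R) (hξ : ¬ (3 ∣ ξ)) {l : ℕ} (hV : V - l < 2 * 3 ^ (R - 1)) :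
    ∀ v ∈ Icc l V, ∀ w ∈ Icc l V, (3 : ℤ) ^ R ∣ 2 ^ (V - v) * ξ - 2 ^ (V - w) * ξ → v = w := by
  have main : ∀ a b : ℕ, a < b → b ≤ V - l → ¬ ((3 : ℤ) ^ R ∣ 2 ^ b * ξ - 2 ^ a * ξ) := by
    intro a b hab hb hd
    have h1 : (2 : ℤ) ^ b * ξ - 2 ^ a * ξ = 2 ^ a * ((2 ^ (b - a) - 1) * ξ) := by
      have : b = a + (b - a) := by omega
      conv_lhs => rw [this, pow_add]
      ring
    rw [h1] at hd
    have hc2 : IsCoprime ((3 : ℤ) ^ R) (2 ^ a) := IsCoprime.pow (by norm_num)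
    have h2 := hc2.dvd_of_dvd_mul_left hd
    have hc3 : IsCoprime ((3 : ℤ) ^ R) ξ := by
      apply IsCoprime.pow_left
      rw [Int.isCoprime_iff_gcd_eq_one]
      have hp : Nat.Prime 3 := by norm_num
      have := (Nat.Prime.coprime_iff_not_dvd hp (n := ξ.natAbs)).2 (by
        intro h; exact hξ (Int.natCast_dvd.2 h))
      simpa [Int.gcd] using this
    have h3 := hc3.dvd_of_dvd_mul_right h2
    have h4 : 3 ^ R ∣ 2 ^ (b - a) - 1 := by
      have h5 : ((3 ^ R : ℕ) : ℤ) ∣ ((2 ^ (b - a) - 1 : ℕ) : ℤ) := by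
        rw [Nat.cast_sub Nat.one_le_two_pow]
        push_cast
        exact h3
      exact_mod_cast h5
    have h6 := ord_two hR (by omega) h4
    omega
  intro v hv w hw hd
  rw [mem_Icc] at hv hw
  rcases lt_trichotomy v w with h | h | h
  · exfalso
    exact main (V - w) (V - v) (by omega) (by omega) hd
  · exact h
  · exfalso
    apply main (V - v) (V - w) (by omega) (by omega)
    rw [← neg_sub]
    exact (dvd_neg).2 hd

/-! ### The main estimate -/

lemma main_bound (hrec : ∀ (n : ℕ) (ξ : ℤ), chi (n + 1) (2 * ξ)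
      = (1 / 2) * chi (n + 1) ξ + (1 / 2) * e (-(ξ : ℝ) / 3 ^ (n + 1)) * chi n ξ)
    (hbd : ∀ (n : ℕ) (ξ : ℤ), ‖chi n ξ‖ ≤ 1)
    (hdiff : ∀ (S n : ℕ) (ξ : ℤ), ‖chi n ξ - ghat S n ξ‖ ≤ 2 ^ n * (3 / 4) ^ S)
    (hS : SecondMoment) {A : ℝ} {R l V : ℕ} {ξ : ℤ} (hR : 1 ≤ R) (hξ : ¬ (3 ∣ ξ))
    (hA : ∑ v ∈ range (V + 1), ‖h ξ V v (l + 1) (R + (l + 1))‖ ≤ A)
    (hV : V - (l + 1) < 2 * 3 ^ (R - 1)) (S : ℕ) :
    ‖chi (R + (l + 1)) (2 ^ V * ξ)‖ ≤
      Real.sqrt (1 / Real.sqrt (l + 1) * A) * Real.sqrt (2 * ((S : ℝ) + 1) * (R + 1))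
        + A * (2 ^ R * (3 / 4) ^ S) + 2 ^ (l + 1) * (3 / 4) ^ V := by
  set n := R + (l + 1) with hn
  have hnl : n - (l + 1) = R := by omega
  have h1 := expansion hrec hbd ξ V (l + 1) n (by omega)
  rw [hnl] at h1
  set H : ℕ → ℂ := fun v => h ξ V v (l + 1) n with hH
  set F : ℕ → ℤ := fun v => 2 ^ (V - v) * ξ with hF
  have hsplit : ∑ v ∈ range (V + 1), H v * chi R (F v)
      = ∑ v ∈ range (V + 1), H v * ghat S R (F v)
        + ∑ v ∈ range (V + 1), H v * (chi R (F v) - ghat S R (F v)) := by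
    rw [← sum_add_distrib]
    apply sum_congr rfl; intro v _; ring
  have h2 : ‖∑ v ∈ range (V + 1), H v * (chi R (F v) - ghat S R (F v))‖
      ≤ A * (2 ^ R * (3 / 4) ^ S) := by
    calc ‖∑ v ∈ range (V + 1), H v * (chi R (F v) - ghat S R (F v))‖
        ≤ ∑ v ∈ range (V + 1), ‖H v * (chi R (F v) - ghat S R (F v))‖ := norm_sum_le _ _
      _ ≤ ∑ v ∈ range (V + 1), ‖H v‖ * (2 ^ R * (3 / 4) ^ S) := by
          apply sum_le_sum
          intro v _
          rw [norm_mul]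
          exact mul_le_mul_of_nonneg_left (hdiff S R (F v)) (norm_nonneg _)
      _ = (∑ v ∈ range (V + 1), ‖H v‖) * (2 ^ R * (3 / 4) ^ S) := by rw [sum_mul]
      _ ≤ _ := mul_le_mul_of_nonneg_right hA (by positivity)
  have h3 : ∑ v ∈ range (V + 1), H v * ghat S R (F v) = ∑ v ∈ Icc (l + 1) V, H v * ghat S R (F v) := by
    symm
    apply sum_subset
    · intro v hv
      rw [mem_Icc] at hv
      exact mem_range.2 (by omega)
    · intro v hv hv'
      rw [mem_range] at hv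
      rw [mem_Icc] at hv'
      have : H v = 0 := h_lt ξ V v (l + 1) n (by omega)
      rw [this, zero_mul]
  have h4 : ∑ v ∈ Icc (l + 1) V, ‖H v‖ ^ 2 ≤ 1 / Real.sqrt (l + 1) * A := by
    calc ∑ v ∈ Icc (l + 1) V, ‖H v‖ ^ 2 ≤ ∑ v ∈ range (V + 1), ‖H v‖ ^ 2 := by
          apply sum_le_sum_of_subset_of_nonneg
          · intro v hv
            rw [mem_Icc] at hv
            exact mem_range.2 (by omega)
          · intro v _ _; positivity
      _ ≤ ∑ v ∈ range (V + 1), 1 / Real.sqrt (l + 1) * ‖H v‖ := by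
          apply sum_le_sum
          intro v _
          rw [sq]
          exact mul_le_mul_of_nonneg_right (h_norm_sqrt ξ V v l n) (norm_nonneg _)
      _ = 1 / Real.sqrt (l + 1) * ∑ v ∈ range (V + 1), ‖H v‖ := by rw [mul_sum]
      _ ≤ _ := mul_le_mul_of_nonneg_left hA (by positivity)
  have h5 : ∑ v ∈ Icc (l + 1) V, ‖ghat S R (F v)‖ ^ 2 ≤ 2 * ((S : ℝ) + 1) * (R + 1) := by
    refine (ghat_bessel S R (Icc (l + 1) V) F (freq_inj hR hξ hV)).trans ?_
    have := hS S R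
    have h3 : (0 : ℝ) < 3 ^ R := by positivity
    calc (1 / 3 ^ R : ℝ) * ∑ y ∈ range (3 ^ R), (g S R y) ^ 2
        ≤ (1 / 3 ^ R : ℝ) * (3 ^ R * (2 * ((S : ℝ) + 1) * (R + 1))) := by gcongr
      _ = _ := by field_simp
  have h6 : ‖∑ v ∈ range (V + 1), H v * ghat S R (F v)‖
      ≤ Real.sqrt (1 / Real.sqrt (l + 1) * A) * Real.sqrt (2 * ((S : ℝ) + 1) * (R + 1)) := by
    rw [h3]
    refine (cs _ _ _).trans ?_
    exact mul_le_mul (Real.sqrt_le_sqrt h4) (Real.sqrt_le_sqrt h5) (Real.sqrt_nonneg _)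
      (Real.sqrt_nonneg _)
  have h7 : chi n (2 ^ V * ξ) = (chi n (2 ^ V * ξ) - ∑ v ∈ range (V + 1), H v * chi R (F v))
      + (∑ v ∈ range (V + 1), H v * ghat S R (F v)
        + ∑ v ∈ range (V + 1), H v * (chi R (F v) - ghat S R (F v))) := by
    rw [← hsplit]; ring
  rw [h7]
  refine (norm_add_le _ _).trans ?_
  have h8 := norm_add_le (∑ v ∈ range (V + 1), H v * ghat S R (F v))
    (∑ v ∈ range (V + 1), H v * (chi R (F v) - ghat S R (F v)))
  linarith

/-- every unit frequency is `2^V` times a unit frequency -/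
lemma exists_freq {n : ℕ} (hn : 1 ≤ n) (V : ℕ) {η : ℤ} (hη : ¬ (3 ∣ η)) :
    ∃ ξ : ℤ, ¬ (3 ∣ ξ) ∧ chi n (2 ^ V * ξ) = chi n η := by
  obtain ⟨u, hu⟩ : ∃ u : ℤ, 2 * u = 3 ^ n + 1 := by
    have hodd : Odd ((3 : ℤ) ^ n) := Odd.pow (by decide)
    obtain ⟨k, hk⟩ := hodd
    exact ⟨k + 1, by rw [hk]; ring⟩
  have hu3 : ¬ (3 ∣ u) := by
    intro h
    have h1 : (3 : ℤ) ∣ 2 * u := h.mul_left 2
    rw [hu] at h1
    have h2 : (3 : ℤ) ∣ 3 ^ n := dvd_pow_self 3 (by omega)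
    have h3 : (3 : ℤ) ∣ 1 := (dvd_add_right h2).1 h1
    norm_num at h3
  have hp : Prime (3 : ℤ) := Int.prime_three
  refine ⟨η * u ^ V, ?_, ?_⟩
  · intro h
    rcases hp.dvd_or_dvd h with h | h
    · exact hη h
    · exact hu3 (hp.dvd_of_dvd_pow h)
  · have h1 : (3 : ℤ) ^ n ∣ (3 ^ n + 1) ^ V - 1 ^ V := by
      have := sub_dvd_pow_sub_pow ((3 : ℤ) ^ n + 1) 1 V
      simpa using this
    obtain ⟨k, hk⟩ := h1
    have h2 : (2 : ℤ) ^ V * (η * u ^ V) = η + 3 ^ n * (η * k) := by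
      have h3 : (2 : ℤ) ^ V * (η * u ^ V) = η * (2 * u) ^ V := by rw [mul_pow]; ring
      have h4 : ((3 : ℤ) ^ n + 1) ^ V = 1 + 3 ^ n * k := by
        rw [one_pow] at hk; linarith
      rw [h3, hu, h4]; ring
    rw [h2, chi_per]

/-! ### Numerical lemmas -/

lemma pow_R_ge {R : ℕ} (hR : 6 ≤ R) : 2 * R ≤ 3 ^ (R - 3) := by
  obtain ⟨k, rfl⟩ : ∃ k, R = k + 6 := ⟨R - 6, by omega⟩
  rw [show k + 6 - 3 = k + 3 by omega]
  induction k with
  | zero => norm_num
  | succ k ih =>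
    have h1 := ih (by omega)
    rw [show k + 1 + 3 = (k + 3) + 1 by ring, pow_succ]
    omega

lemma half_pow_le {n : ℕ} (hn : 1 ≤ n) : (1 / 2 : ℝ) ^ n ≤ 1 / n := by
  have h1 : (n : ℝ) ≤ 2 ^ n := by exact_mod_cast Nat.lt_two_pow_self.le
  have h2 : (0 : ℝ) < n := by exact_mod_cast hn
  rw [div_pow, one_pow]
  exact one_div_le_one_div_of_le h2 h1

end M6

open M6 in
/-- the basic facts of module M3 used here -/
def Basics : Prop :=
  (∀ (n : ℕ) (ξ : ℤ), chi (n + 1) (2 * ξ)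
      = (1 / 2) * chi (n + 1) ξ + (1 / 2) * e (-(ξ : ℝ) / 3 ^ (n + 1)) * chi n ξ) ∧
  (∀ (n : ℕ) (ξ : ℤ), ‖chi n ξ‖ ≤ 1) ∧
  (∀ (S n : ℕ) (ξ : ℤ), ‖chi n ξ - ghat S n ξ‖ ≤ 2 ^ n * (3 / 4) ^ S)

open M6 in
theorem supBound (hB : Basics) (hWh : Whiteness) (hS : SecondMoment) : SupBound := by
  obtain ⟨hrec, hbd, hdiff⟩ := hB
  obtain ⟨c, hc, C0, R0, hWh⟩ := hWh
  set C := |C0| with hC
  have hC0 : 0 ≤ C := abs_nonneg _
  set δ := c / (2 * (c + 2)) with hδ
  have hδ0 : 0 < δ := by positivity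
  set K := 4 + 1 / δ with hK
  have hK1 : 1 ≤ K := by
    have : 0 < 1 / δ := by positivity
    linarith
  set K1 := Real.sqrt (C * K ^ (c + 2) * 80) with hK1def
  set η := min (c / 4) (1 / 4) with hη
  have hη0 : 0 < η := lt_min (by positivity) (by norm_num)
  have hηc : η ≤ c / 4 := min_le_left _ _
  have hη4 : η ≤ 1 / 4 := min_le_right _ _
  set n1 := 3 ^ (R0 + 5) with hn1
  refine ⟨max (K1 + C + 1) ((n1 : ℝ) ^ (1 / 4 + η)), η, hη0, ?_⟩
  intro n hn ζ hζ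
  have hnR : (1 : ℝ) ≤ n := by exact_mod_cast hn
  have hn0 : (0 : ℝ) < n := by linarith
  have hpow0 : 0 < (n : ℝ) ^ (-(1 / 4 + η)) := Real.rpow_pos_of_pos hn0 _
  by_cases hbig : n1 ≤ n
  swap
  · -- small n
    push Not at hbig
    refine (hbd n ζ).trans ?_
    have h1 : (n : ℝ) ≤ n1 := by exact_mod_cast hbig.le
    have h2 : (n : ℝ) ^ (1 / 4 + η) ≤ (n1 : ℝ) ^ (1 / 4 + η) :=
      Real.rpow_le_rpow hn0.le h1 (by positivity)
    calc (1 : ℝ) = (n : ℝ) ^ (1 / 4 + η) * (n : ℝ) ^ (-(1 / 4 + η)) := by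
          rw [← Real.rpow_add hn0]; simp
      _ ≤ (n1 : ℝ) ^ (1 / 4 + η) * (n : ℝ) ^ (-(1 / 4 + η)) := by gcongr
      _ ≤ _ := by
          apply mul_le_mul_of_nonneg_right (le_max_right _ _) hpow0.le
  · -- large n
    set R := Nat.clog 3 (3 * n) + 1 with hR
    have hRpow : 3 * n ≤ 3 ^ (R - 1) := by
      rw [hR, Nat.add_sub_cancel]
      exact Nat.le_pow_clog (by norm_num) _
    have hRbig : R0 + 6 ≤ R - 1 := by
      have h1 : 3 ^ (R0 + 6) ≤ 3 ^ (R - 1) := by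
        calc 3 ^ (R0 + 6) = 3 * n1 := by rw [hn1, pow_succ' 3 (R0 + 5)]
          _ ≤ 3 * n := by omega
          _ ≤ _ := hRpow
      exact (Nat.pow_le_pow_iff_right (by norm_num)).1 h1
    have hRlow : 3 ^ (R - 3) < n := by
      have h1 := Nat.pow_pred_clog_lt_self (b := 3) (by norm_num) (x := 3 * n) (by omega)
      have h2 : (Nat.clog 3 (3 * n)).pred = (R - 3) + 1 := by
        rw [Nat.pred_eq_sub_one]; omega
      rw [h2, pow_succ] at h1
      omega
    have h2R : 2 * R < n := lt_of_le_of_lt (pow_R_ge (by omega)) hRlow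
    obtain ⟨l, hl⟩ : ∃ l, n = R + (l + 1) := ⟨n - R - 1, by omega⟩
    have hln : n ≤ 2 * (l + 1) := by omega
    obtain ⟨ξ, hξ, hξe⟩ := exists_freq hn (6 * n) hζ
    rw [← hξe]
    set A := C * (((R : ℝ) + 1) / n) ^ c with hA
    have hnl : (n : ℝ) = R + ((l + 1 : ℕ) : ℝ) := by rw [hl]; push_cast; ring
    have hAb : ∑ v ∈ range (6 * n + 1), ‖h ξ (6 * n) v (l + 1) (R + (l + 1))‖ ≤ A := by
      refine (hWh R (by omega) (l + 1) (6 * n) ξ hξ).trans ?_
      rw [hA, ← hnl]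
      apply mul_le_mul_of_nonneg_right (le_abs_self C0)
      positivity
    have hmain := main_bound hrec hbd hdiff hS (R := R) (l := l) (V := 6 * n) (ξ := ξ)
      (by omega) hξ hAb (by omega) (20 * R)
    rw [← hl] at hmain
    refine hmain.trans ?_
    -- logarithmic bound on R
    have hlog : (R : ℝ) + 1 ≤ K * (n : ℝ) ^ δ := by
      have h1 : (Real.exp 1) ^ (R - 3) ≤ n := by
        have h2 : (Real.exp 1) ^ (R - 3) ≤ (3 : ℝ) ^ (R - 3) :=
          pow_le_pow_left₀ (Real.exp_pos 1).le (by have := Real.exp_one_lt_d9; linarith) _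
        have h3 : ((3 : ℝ)) ^ (R - 3) ≤ n := by exact_mod_cast hRlow.le
        linarith
      have h4 : ((R - 3 : ℕ) : ℝ) ≤ Real.log n := by
        rw [Real.le_log_iff_exp_le hn0, ← Real.exp_one_pow]
        exact h1
      have h5 : ((R - 3 : ℕ) : ℝ) = (R : ℝ) - 3 := by
        rw [Nat.cast_sub (by omega)]; norm_num
      have h6 := Real.log_le_rpow_div hn0.le hδ0
      have h7 : (1 : ℝ) ≤ (n : ℝ) ^ δ := Real.one_le_rpow hnR hδ0.le
      have h8 : (n : ℝ) ^ δ / δ = (1 / δ) * (n : ℝ) ^ δ := by ring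
      rw [hK]
      nlinarith
    have hR0' : (0 : ℝ) < (R : ℝ) + 1 := by positivity
    have hl0 : (0 : ℝ) < (l : ℝ) + 1 := by positivity
    have hRn : (R : ℝ) + 1 ≤ n := by
      have : R + 1 ≤ n := by omega
      exact_mod_cast this
    -- third term
    have hT3 : (2 : ℝ) ^ (l + 1) * (3 / 4) ^ (6 * n) ≤ 1 / n := by
      calc (2 : ℝ) ^ (l + 1) * (3 / 4) ^ (6 * n) ≤ 2 ^ n * (3 / 4) ^ (6 * n) := by
            gcongr
            · norm_num
            · omega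
        _ = (2 * (3 / 4) ^ 6) ^ n := by rw [mul_pow, ← pow_mul]
        _ ≤ (1 / 2) ^ n := by
            apply pow_le_pow_left₀ (by norm_num)
            norm_num
        _ ≤ 1 / n := half_pow_le hn
    -- second term
    have hAC : A ≤ C := by
      rw [hA]
      have : (((R : ℝ) + 1) / n) ^ c ≤ 1 := by
        apply Real.rpow_le_one (by positivity) _ hc.le
        rw [div_le_one hn0]
        exact hRn
      calc C * (((R : ℝ) + 1) / n) ^ c ≤ C * 1 := by gcongr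
        _ = C := mul_one C
    have hA0 : 0 ≤ A := by rw [hA]; positivity
    have hT2 : A * (2 ^ R * (3 / 4) ^ (20 * R)) ≤ C * (1 / n) := by
      have h1 : (2 : ℝ) ^ R * (3 / 4) ^ (20 * R) ≤ 1 / n := by
        calc (2 : ℝ) ^ R * (3 / 4) ^ (20 * R) = (2 * (3 / 4) ^ 20) ^ R := by
              rw [mul_pow, ← pow_mul]
          _ ≤ (1 / 3) ^ R := by
              apply pow_le_pow_left₀ (by norm_num)
              norm_num
          _ = 1 / 3 ^ R := by rw [div_pow, one_pow]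
          _ ≤ 1 / n := by
              apply one_div_le_one_div_of_le hn0
              have h2 : n ≤ 3 ^ R := by
                calc n ≤ 3 * n := by omega
                  _ ≤ 3 ^ (R - 1) := hRpow
                  _ ≤ 3 ^ R := Nat.pow_le_pow_right (by norm_num) (by omega)
              exact_mod_cast h2
      exact mul_le_mul hAC h1 (by positivity) hC0
    -- first term
    have hsq1 : 1 / Real.sqrt ((l : ℝ) + 1) ≤ 2 * (n : ℝ) ^ (-(1 / 2 : ℝ)) := by
      have h1 : Real.sqrt n ≤ 2 * Real.sqrt ((l : ℝ) + 1) := by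
        rw [show (2 : ℝ) = Real.sqrt 4 by
          rw [show (4 : ℝ) = 2 ^ 2 by norm_num, Real.sqrt_sq (by norm_num)]]
        rw [← Real.sqrt_mul (by norm_num)]
        apply Real.sqrt_le_sqrt
        have : (n : ℝ) ≤ 2 * ((l : ℝ) + 1) := by exact_mod_cast hln
        linarith
      have h2 : (n : ℝ) ^ (-(1 / 2 : ℝ)) = 1 / Real.sqrt n := by
        rw [Real.rpow_neg hn0.le, Real.sqrt_eq_rpow, inv_eq_one_div]
      have h3 : 0 < Real.sqrt ((l : ℝ) + 1) := Real.sqrt_pos.2 hl0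
      have h4 : 0 < Real.sqrt (n : ℝ) := Real.sqrt_pos.2 hn0
      rw [h2, ← mul_div_assoc, mul_one, div_le_div_iff₀ h3 h4]
      linarith
    have hrp : ((R : ℝ) + 1) ^ c * ((R : ℝ) + 1) ^ 2 ≤ K ^ (c + 2) * (n : ℝ) ^ (c / 2) := by
      have h1 : ((R : ℝ) + 1) ^ c * ((R : ℝ) + 1) ^ 2 = ((R : ℝ) + 1) ^ (c + 2) := by
        rw [Real.rpow_add hR0']
        norm_num
      rw [h1]
      have h2 : ((R : ℝ) + 1) ^ (c + 2) ≤ (K * (n : ℝ) ^ δ) ^ (c + 2) :=
        Real.rpow_le_rpow hR0'.le hlog (by positivity)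
      refine h2.trans (le_of_eq ?_)
      rw [Real.mul_rpow (by linarith) (by positivity), ← Real.rpow_mul hn0.le]
      congr 2
      rw [hδ]
      field_simp
    have hT1sq : (1 / Real.sqrt ((l : ℝ) + 1) * A) * (2 * (((20 * R : ℕ) : ℝ) + 1) * ((R : ℝ) + 1))
        ≤ (C * K ^ (c + 2) * 80) * (n : ℝ) ^ (-(1 / 2 + c / 2)) := by
      have hA2 : A = C * (((R : ℝ) + 1) ^ c * (n : ℝ) ^ (-c)) := by
        rw [hA, Real.div_rpow hR0'.le hn0.le, Real.rpow_neg hn0.le]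
        rfl
      have h20 : (((20 * R : ℕ) : ℝ) + 1) ≤ 20 * ((R : ℝ) + 1) := by
        push_cast; linarith
      calc (1 / Real.sqrt ((l : ℝ) + 1) * A) * (2 * (((20 * R : ℕ) : ℝ) + 1) * ((R : ℝ) + 1))
          ≤ (2 * (n : ℝ) ^ (-(1 / 2 : ℝ)) * A) * (2 * (20 * ((R : ℝ) + 1)) * ((R : ℝ) + 1)) := by
            gcongr
        _ = 80 * C * (((R : ℝ) + 1) ^ c * ((R : ℝ) + 1) ^ 2)
              * ((n : ℝ) ^ (-(1 / 2 : ℝ)) * (n : ℝ) ^ (-c)) := by rw [hA2]; ring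
        _ ≤ 80 * C * (K ^ (c + 2) * (n : ℝ) ^ (c / 2))
              * ((n : ℝ) ^ (-(1 / 2 : ℝ)) * (n : ℝ) ^ (-c)) := by gcongr
        _ = (C * K ^ (c + 2) * 80) * ((n : ℝ) ^ (c / 2) * ((n : ℝ) ^ (-(1 / 2 : ℝ))
              * (n : ℝ) ^ (-c))) := by ring
        _ = _ := by
            rw [← Real.rpow_add hn0, ← Real.rpow_add hn0]
            congr 2
            ring
    have hT1 : Real.sqrt (1 / Real.sqrt ((l : ℝ) + 1) * A)
        * Real.sqrt (2 * (((20 * R : ℕ) : ℝ) + 1) * ((R : ℝ) + 1))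
        ≤ K1 * (n : ℝ) ^ (-(1 / 4 + c / 4)) := by
      rw [← Real.sqrt_mul (by positivity)]
      refine (Real.sqrt_le_sqrt hT1sq).trans (le_of_eq ?_)
      have hKnn : 0 ≤ C * K ^ (c + 2) * 80 := by positivity
      rw [Real.sqrt_mul hKnn, Real.sqrt_eq_rpow (n ^ _), ← Real.rpow_mul hn0.le]
      congr 2
      ring
    have hK10 : 0 ≤ K1 := Real.sqrt_nonneg _
    have hmono : (n : ℝ) ^ (-(1 / 4 + c / 4)) ≤ (n : ℝ) ^ (-(1 / 4 + η)) :=
      Real.rpow_le_rpow_of_exponent_le hnR (by linarith)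
    have hinv : 1 / (n : ℝ) ≤ (n : ℝ) ^ (-(1 / 4 + η)) := by
      have h1 : 1 / (n : ℝ) = (n : ℝ) ^ (-(1 : ℝ)) := by
        rw [Real.rpow_neg hn0.le, Real.rpow_one, one_div]
      rw [h1]
      exact Real.rpow_le_rpow_of_exponent_le hnR (by linarith)
    calc Real.sqrt (1 / Real.sqrt ((l : ℝ) + 1) * A)
            * Real.sqrt (2 * (((20 * R : ℕ) : ℝ) + 1) * ((R : ℝ) + 1))
          + A * (2 ^ R * (3 / 4) ^ (20 * R)) + 2 ^ (l + 1) * (3 / 4) ^ (6 * n)
        ≤ K1 * (n : ℝ) ^ (-(1 / 4 + η)) + C * (n : ℝ) ^ (-(1 / 4 + η))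
          + (n : ℝ) ^ (-(1 / 4 + η)) := by
          have e1 := hT1.trans (mul_le_mul_of_nonneg_left hmono hK10)
          have e2 := hT2.trans (mul_le_mul_of_nonneg_left hinv hC0)
          have e3 := hT3.trans hinv
          linarith
      _ = (K1 + C + 1) * (n : ℝ) ^ (-(1 / 4 + η)) := by ring
      _ ≤ _ := mul_le_mul_of_nonneg_right (le_max_left _ _) hpow0.le

end UKL
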