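import Pool.Agent.Lib_helper51.UKL_M5
import Pool.Agent.Lib_helper51.UKL_M6
import Pool.Agent.Lib_helper62.UKL_M4
import Pool.Agent.Lib_helper80.UKL.M3b

/-!
# The sup bound on the Fourier coefficients, unconditionally
-/

namespace UKL

theorem basics : Basics := by
  refine ⟨chi_succ_two_mul, chi_norm_le_one, fun S n ξ => ?_⟩
  have h : M6.ghat S n ξ = ghat S n ξ := by
    unfold M6.ghat ghat ft
    push_cast
    rfl
  rw [h]
  exact norm_chi_sub_ghat_le S n ξ

/-- (C3) holds -/
theorem supBound_holds : SupBound := supBound basics whiteness secondMoment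

end UKL

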