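import Pool.Agent.Lib_helper51.Fill

set_option autoImplicit false

/-!
# Symmetric layer-cake comparison and product swaps
-/

open MeasureTheory Set intervalIntegral
open scoped ENNReal

namespace Pool.Agent.Lib_helper51

theorem withDensity_symm_le {F G : ℝ → ℝ≥0∞} (hF : Measurable F) (hG : Measurable G)
    (h : ∀ r : ℝ, 0 ≤ r → ∫⁻ x in Icc (-r) r, F x ≤ ∫⁻ x in Icc (-r) r, G x)
    {S : Set ℝ} (hS : ∀ x ∈ S, ∀ y : ℝ, |y| ≤ |x| → y ∈ S) :
    (volume.withDensity F) S ≤ (volume.withDensity G) S := by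
  by_cases hne : S = ∅
  · simp [hne]
  obtain ⟨x0, hx0⟩ := nonempty_iff_ne_empty.2 hne
  by_cases hb : BddAbove ((fun x : ℝ => |x|) '' S)
  · set r := sSup ((fun x : ℝ => |x|) '' S) with hr
    have hr0 : 0 ≤ r := (abs_nonneg x0).trans (le_csSup hb ⟨x0, hx0, rfl⟩)
    have h1 : S ⊆ Icc (-r) r := fun x hx => abs_le.1 (le_csSup hb ⟨x, hx, rfl⟩)
    have h2 : Ioo (-r) r ⊆ S := by
      intro x hx
      have hxr : |x| < r := abs_lt.2 hx
      have hne' : ((fun x : ℝ => |x|) '' S).Nonempty := ⟨_, ⟨x0, hx0, rfl⟩⟩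
      obtain ⟨y, ⟨z, hz, rfl⟩, hy⟩ := exists_lt_of_lt_csSup hne' hxr
      exact hS z hz x hy.le
    have hae : S =ᵐ[volume] Icc (-r) r := by
      refine Filter.EventuallyLE.antisymm h1.eventuallyLE ?_
      exact (Ioo_ae_eq_Icc.symm.le).trans h2.eventuallyLE
    have e : ∀ {H : ℝ → ℝ≥0∞}, Measurable H →
        (volume.withDensity H) S = ∫⁻ x in Icc (-r) r, H x := by
      intro H hH
      rw [← withDensity_apply H measurableSet_Icc]
      exact measure_congr ((withDensity_absolutelyContinuous _ _).ae_eq hae)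
    rw [e hF, e hG]
    exact h r hr0
  · have huniv : S = univ := by
      refine eq_univ_of_forall fun y => ?_
      rw [not_bddAbove_iff] at hb
      obtain ⟨z, ⟨x, hx, rfl⟩, hz⟩ := hb |y|
      exact hS x hx y hz.le
    have hun : (univ : Set ℝ) = ⋃ n : ℕ, Icc (-(n:ℝ)) n := by
      symm
      refine eq_univ_of_forall fun y => ?_
      obtain ⟨n, hn⟩ := exists_nat_gt |y|
      exact mem_iUnion.2 ⟨n, abs_le.1 hn.le⟩
    have hmono : Monotone fun n : ℕ => Icc (-(n:ℝ)) (n:ℝ) := by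
      intro m n hmn
      have : (m:ℝ) ≤ n := by exact_mod_cast hmn
      exact Icc_subset_Icc (by linarith) this
    rw [huniv, hun, hmono.measure_iUnion, hmono.measure_iUnion]
    refine iSup_mono fun n => ?_
    rw [withDensity_apply _ measurableSet_Icc, withDensity_apply _ measurableSet_Icc]
    exact h n (by positivity)

theorem sym_abel {κ : ℝ → ℝ} (hm : Measurable κ) (h0 : ∀ x, 0 ≤ κ x) (heven : ∀ x, κ (-x) = κ x)
    (hanti : AntitoneOn κ (Ici 0)) {F G : ℝ → ℝ≥0∞} (hF : Measurable F) (hG : Measurable G)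
    (h : ∀ r : ℝ, 0 ≤ r → ∫⁻ x in Icc (-r) r, F x ≤ ∫⁻ x in Icc (-r) r, G x) :
    ∫⁻ x, F x * ENNReal.ofReal (κ x) ≤ ∫⁻ x, G x * ENNReal.ofReal (κ x) := by
  have e : ∀ {H : ℝ → ℝ≥0∞}, Measurable H → ∫⁻ x, H x * ENNReal.ofReal (κ x)
      = ∫⁻ t in Ioi (0:ℝ), (volume.withDensity H) {a | t < κ a} := by
    intro H hH
    have := lintegral_withDensity_eq_lintegral_mul volume hH hm.ennreal_ofReal
    simp only [Pi.mul_apply] at this
    rw [← this, lintegral_eq_lintegral_meas_lt _ (Filter.Eventually.of_forall h0) hm.aemeasurable]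
  rw [e hF, e hG]
  refine lintegral_mono fun t => ?_
  refine withDensity_symm_le hF hG h ?_
  intro x hx y hy
  change t < κ x at hx
  change t < κ y
  have ha : ∀ z, κ |z| = κ z := by
    intro z
    rcases abs_cases z with ⟨hz, _⟩ | ⟨hz, _⟩ <;> rw [hz]
    exact heven z
  rw [← ha x] at hx
  rw [← ha y]
  exact hx.trans_le (hanti (mem_Ici.2 (abs_nonneg _)) (mem_Ici.2 (abs_nonneg _)) hy)

/-- product swap for bounded measurable functions -/
theorem swap_ii {F : ℝ → ℝ → ℝ} (hF : Measurable (Function.uncurry F)) {C : ℝ}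
    (hC : ∀ x y, |F x y| ≤ C) {a b c d : ℝ} (hab : a ≤ b) (hcd : c ≤ d) :
    ∫ x in a..b, ∫ y in c..d, F x y = ∫ y in c..d, ∫ x in a..b, F x y := by
  simp only [intervalIntegral.integral_of_le hab, intervalIntegral.integral_of_le hcd]
  refine integral_integral_swap ?_
  refine Integrable.of_bound hF.aestronglyMeasurable C ?_
  exact Filter.Eventually.of_forall fun p => by rw [Real.norm_eq_abs]; exact hC p.1 p.2

theorem measurable_param {F : ℝ → ℝ → ℝ} (hF : Measurable (Function.uncurry F)) {c d : ℝ}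
    (hcd : c ≤ d) : Measurable fun x => ∫ y in c..d, F x y := by
  simp only [intervalIntegral.integral_of_le hcd]
  exact (hF.stronglyMeasurable.integral_prod_right' (ν := volume.restrict (Ioc c d))).measurable

theorem layer_ind {h m : ℝ} (h0 : 0 ≤ h) (hm : h ≤ m) :
    ∫ τ in (0:ℝ)..m, (if τ < h then (1:ℝ) else 0) = h := by
  rw [← intervalIntegral.integral_add_adjacent_intervals (b := h)]
  · have e1 : ∫ τ in (0:ℝ)..h, (if τ < h then (1:ℝ) else 0) = ∫ τ in (0:ℝ)..h, (1:ℝ) :=
      integral_congr_Ioo h0 fun x hx => if_pos hx.2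
    have e2 : ∫ τ in h..m, (if τ < h then (1:ℝ) else 0) = ∫ τ in h..m, (0:ℝ) :=
      integral_congr_Ioo hm fun x hx => if_neg (not_lt.2 hx.1.le)
    rw [e1, e2]; simp
  · refine BNM.ii ⟨?_, ?_, ⟨1, ?_⟩⟩ _ _
    · exact Measurable.ite measurableSet_Iio measurable_const measurable_const
    · intro x; split_ifs <;> norm_num
    · intro x; split_ifs <;> norm_num
  · refine BNM.ii ⟨?_, ?_, ⟨1, ?_⟩⟩ _ _
    · exact Measurable.ite measurableSet_Iio measurable_const measurable_const
    · intro x; split_ifs <;> norm_num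
    · intro x; split_ifs <;> norm_num

end Pool.Agent.Lib_helper51
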