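import Pool.Agent.Lib_helper51.Unique

set_option autoImplicit false

/-!
# Translations and dilations
-/

open MeasureTheory Set Filter Topology InnerProductSpace
open scoped Real ENNReal

namespace Pool.Agent.Lib_helper51

variable {E : Set ℝ} {U : ℂ → ℝ}

theorem NF.translate (h : NF E U) (hE : IsClosed E) {δ : ℝ} (h0 : 0 < δ) (hd : Dens δ E) (x0 : ℝ) :
    NF {t | t + x0 ∈ E} (fun z => U (z + x0)) := by
  obtain ⟨M, hM⟩ := h.bdd hE h0 hd
  have hB := h.bnm hE h0 hd
  have hmk : ∀ x y : ℝ, (⟨x, y⟩ : ℂ) + (x0 : ℂ) = ⟨x + x0, y⟩ := by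
    intro x y
    apply Complex.ext <;> simp
  have hcont : Continuous fun z : ℂ => U (z + x0) := h.cont.comp (continuous_id.add continuous_const)
  have hiff : ∀ z : ℂ, (z + x0).im = 0 ∧ (z + x0).re ∈ E ↔ z.im = 0 ∧ z.re ∈ {t | t + x0 ∈ E} := by
    intro z
    rw [Complex.add_im, Complex.add_re, Complex.ofReal_im, Complex.ofReal_re, add_zero]
    rfl
  have hharm : ∀ z : ℂ, ¬ (z.im = 0 ∧ z.re ∈ {t | t + x0 ∈ E}) → HarmonicAt (fun z : ℂ => U (z + x0)) z := by
    intro z hz
    refine harm_comp (h := fun z : ℂ => z + x0) (h.harm _ fun h' => hz ((hiff z).1 h')) ?_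
    exact analyticAt_id.add analyticAt_const
  have hV : HP (fun z : ℂ => U (z + x0)) := by
    refine ⟨hcont, fun z hz => hharm z ?_, fun z _ => h.nonneg _⟩
    rintro ⟨h1, -⟩
    change 0 < z.im at hz
    linarith
  refine ⟨hcont, ?_, ?_, hharm, ?_, ?_⟩
  · intro x hx
    rw [hmk]
    exact h.zero _ hx
  · intro z hz
    exact h.pos _ fun h' => hz ((hiff z).1 h')
  · intro z
    rw [← h.sym]
    congr 1
    simp
  · -- the limit
    have hlow : ∀ η : ℝ, 0 < η → 1 ≤ U ⟨x0, η⟩ / η := by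
      intro η hη
      have h1 : ∀ᶠ y : ℝ in atTop, U ⟨0, y⟩ / y ≤ M / y + U ⟨x0, η⟩ / η := by
        filter_upwards [eventually_gt_atTop 0] with y hy
        have h2 := half_upper hV (x := -x0) hy hη
        simp only [hmk, neg_add_cancel, zero_add] at h2
        have h3 : cv (pk y) (fun t : ℝ => U ⟨t + x0, 0⟩) (-x0) ≤ M :=
          cvpk_le (hB.comp (measurable_add_const x0)) (fun x => hM _) hy _
        rw [div_le_iff₀ hy]
        have e : (M / y + U ⟨x0, η⟩ / η) * y = M + y / η * U ⟨x0, η⟩ := by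
          field_simp
        rw [e]
        linarith
      have h4 : Tendsto (fun y : ℝ => M / y + U ⟨x0, η⟩ / η) atTop (𝓝 (0 + U ⟨x0, η⟩ / η)) :=
        Tendsto.add (Tendsto.div_atTop tendsto_const_nhds tendsto_id) tendsto_const_nhds
      have h5 := le_of_tendsto_of_tendsto h.lim h4 h1
      linarith
    have h6 : Tendsto (fun y : ℝ => 1 + M / y) atTop (𝓝 (1 + 0)) :=
      Tendsto.add tendsto_const_nhds (Tendsto.div_atTop tendsto_const_nhds tendsto_id)
    rw [add_zero] at h6
    refine tendsto_of_tendsto_of_tendsto_of_le_of_le' tendsto_const_nhds h6 ?_ ?_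
    · filter_upwards [eventually_gt_atTop 0] with y hy
      rw [hmk, zero_add]
      exact hlow y hy
    · filter_upwards [eventually_gt_atTop 0] with y hy
      rw [hmk, zero_add, div_le_iff₀ hy]
      have h7 := h.A2 x0 y hy
      have h8 := cvpk_le hB hM hy x0
      have e : (1 + M / y) * y = y + M := by field_simp
      linarith

theorem dens_translate {δ : ℝ} (hd : Dens δ E) (x0 : ℝ) : Dens δ {t | t + x0 ∈ E} := by
  intro x
  have h1 := hd (x + x0)
  have e : {t | t + x0 ∈ E} ∩ Icc x (x + 1) = (fun t => t + x0) ⁻¹' (E ∩ Icc (x + x0) (x + x0 + 1)) := by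
    ext t
    simp only [mem_inter_iff, mem_preimage, mem_Icc]
    constructor
    · rintro ⟨a, b, c⟩
      exact ⟨a, by linarith, by linarith⟩
    · rintro ⟨a, b, c⟩
      exact ⟨a, by linarith, by linarith⟩
  rw [e, volume_shift]
  exact h1

theorem NF.unique_set (h : NF E U) (hE : IsClosed E) {δ : ℝ} (h0 : 0 < δ) (h1 : δ < 1)
    (hd : Dens δ E) {x0 : ℝ} (heq : U ⟨x0, 0⟩ = (1 / π) * Real.log (Real.cot (π * δ / 4))) (t : ℝ) :
    t + x0 ∈ E ↔ |Real.cos (π * t)| ≤ Real.sin (π * δ / 2) := by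
  have h2 := h.translate hE h0 hd x0
  have hE' : IsClosed {t | t + x0 ∈ E} := hE.preimage (continuous_id.add continuous_const)
  refine h2.unique_zero hE' h0 h1 (dens_translate hd x0) ?_ t
  have e : (⟨0, 0⟩ : ℂ) + (x0 : ℂ) = ⟨x0, 0⟩ := by apply Complex.ext <;> simp
  rw [e, heq, ← wm_zero h0 h1]
  rfl

/-- dilation -/
theorem NF.dilate (h : NF E U) {N : ℝ} (hN : 0 < N) :
    NF {t | N * t ∈ E} (fun z => U (N * z) / N) := by
  have hmk : ∀ x y : ℝ, (N : ℂ) * (⟨x, y⟩ : ℂ) = ⟨N * x, N * y⟩ := by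
    intro x y
    apply Complex.ext <;> simp
  have hcont : Continuous fun z : ℂ => U (N * z) / N :=
    (h.cont.comp (continuous_const.mul continuous_id)).div_const N
  have hiff : ∀ z : ℂ, ((N : ℂ) * z).im = 0 ∧ ((N : ℂ) * z).re ∈ E ↔ z.im = 0 ∧ z.re ∈ {t | N * t ∈ E} := by
    intro z
    have h1 : ((N : ℂ) * z).im = N * z.im := by simp
    have h2 : ((N : ℂ) * z).re = N * z.re := by simp
    rw [h1, h2]
    constructor
    · rintro ⟨a, b⟩
      rcases mul_eq_zero.1 a with h3 | h3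
      · exact absurd h3 hN.ne'
      · exact ⟨h3, b⟩
    · rintro ⟨a, b⟩
      exact ⟨by rw [a, mul_zero], b⟩
  refine ⟨hcont, ?_, ?_, ?_, ?_, ?_⟩
  · intro x hx
    rw [hmk, mul_zero, h.zero _ hx, zero_div]
  · intro z hz
    exact div_pos (h.pos _ fun h' => hz ((hiff z).1 h')) hN
  · intro z hz
    have h1 : HarmonicAt (fun z : ℂ => U (N * z)) z := by
      refine harm_comp (h := fun z : ℂ => N * z) (h.harm _ fun h' => hz ((hiff z).1 h')) ?_
      exact analyticAt_const.mul analyticAt_id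
    have h2 := h1.const_smul (c := N⁻¹)
    have e : (fun z : ℂ => U (N * z) / N) = N⁻¹ • fun z : ℂ => U (N * z) := by
      funext z
      simp only [Pi.smul_apply, smul_eq_mul]
      rw [div_eq_inv_mul]
    rw [e]
    exact h2
  · intro z
    congr 1
    rw [← h.sym]
    congr 1
    simp
  · have h1 : Tendsto (fun y : ℝ => N * y) atTop atTop := tendsto_id.const_mul_atTop hN
    have h2 := h.lim.comp h1
    refine h2.congr fun y => ?_
    simp only [Function.comp]
    rw [hmk, mul_zero, div_div]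

end Pool.Agent.Lib_helper51
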