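import Mathlib

set_option autoImplicit false

/-!
# Window-wise majorization: basic definitions and lemmas
-/

open MeasureTheory Set intervalIntegral

namespace Pool.Agent.Lib_helper51

/-- bounded, nonnegative, measurable functions -/
structure BNM (v : ℝ → ℝ) : Prop where
  meas : Measurable v
  nonneg : ∀ x, 0 ≤ v x
  bdd : ∃ M, ∀ x, v x ≤ M

/-- symmetric decreasing 1-periodic profile -/
structure Profile (f : ℝ → ℝ) : Prop where
  bnm : BNM f
  even : ∀ x, f (-x) = f x
  per : ∀ x, f (x + 1) = f x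
  anti : AntitoneOn f (Icc 0 (1/2))

/-- window-wise majorization of `v` by the profile `f` -/
def Maj (v f : ℝ → ℝ) : Prop :=
  ∀ a : ℝ, ∀ B : Set ℝ, MeasurableSet B → B ⊆ Icc a (a + 1) →
    ∫ x in B, v x ≤ ∫ x in (-((volume B).toReal / 2))..((volume B).toReal / 2), f x

theorem BNM.integrableOn {v : ℝ → ℝ} (hv : BNM v) {s : Set ℝ} (hs : volume s ≠ ⊤) :
    IntegrableOn v s := by
  obtain ⟨M, hM⟩ := hv.bdd
  refine Measure.integrableOn_of_bounded hs hv.meas.aestronglyMeasurable (M := M) ?_
  refine Filter.Eventually.of_forall fun x => ?_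
  rw [Real.norm_eq_abs, abs_of_nonneg (hv.nonneg x)]
  exact hM x

theorem BNM.ii {v : ℝ → ℝ} (hv : BNM v) (a b : ℝ) : IntervalIntegrable v volume a b := by
  constructor
  · exact hv.integrableOn (by simp)
  · exact hv.integrableOn (by simp)

theorem BNM.posPart {v : ℝ → ℝ} (hv : BNM v) {l : ℝ} (hl : 0 ≤ l) :
    BNM (fun x => max (v x - l) 0) := by
  obtain ⟨M, hM⟩ := hv.bdd
  refine ⟨(hv.meas.sub_const l).max measurable_const, fun x => le_max_right _ _, ⟨max M 0, ?_⟩⟩
  intro x
  exact max_le_max (by linarith [hM x]) le_rfl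

theorem BNM.max_const {v : ℝ → ℝ} (hv : BNM v) (l : ℝ) (hl : 0 ≤ l) :
    BNM (fun x => max (v x) l) := by
  obtain ⟨M, hM⟩ := hv.bdd
  refine ⟨hv.meas.max measurable_const, fun x => le_max_of_le_right hl, ⟨max M l, ?_⟩⟩
  intro x
  exact max_le_max (hM x) le_rfl

theorem BNM.comp {v : ℝ → ℝ} (hv : BNM v) {g : ℝ → ℝ} (hg : Measurable g) :
    BNM (fun x => v (g x)) := by
  obtain ⟨M, hM⟩ := hv.bdd
  exact ⟨hv.meas.comp hg, fun x => hv.nonneg _, ⟨M, fun x => hM _⟩⟩

theorem vol_sub_one {a : ℝ} {B : Set ℝ} (hB : B ⊆ Icc a (a + 1)) :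
    (volume B).toReal ≤ 1 ∧ volume B ≠ ⊤ := by
  have h1 : volume B ≤ volume (Icc a (a + 1)) := measure_mono hB
  have h2 : volume (Icc a (a + 1)) = 1 := by simp
  rw [h2] at h1
  constructor
  · have := ENNReal.toReal_mono (by simp) h1
    simpa using this
  · exact ne_top_of_le_ne_top (by simp) h1

/-- majorization gives the level form -/
theorem Maj.pos_part {v f : ℝ → ℝ} (h : Maj v f) (hv : BNM v) (hf : Profile f)
    (a : ℝ) {l : ℝ} (hl : 0 ≤ l) :
    ∫ x in a..(a + 1), max (v x - l) 0 ≤ ∫ x in (-(1/2 : ℝ))..(1/2), max (f x - l) 0 := by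
  set B : Set ℝ := Ioc a (a + 1) ∩ {x | l < v x} with hB
  have hBm : MeasurableSet B := measurableSet_Ioc.inter (measurableSet_lt measurable_const hv.meas)
  have hBs : B ⊆ Icc a (a + 1) := fun x hx => Ioc_subset_Icc_self hx.1
  obtain ⟨hm1, hmt⟩ := vol_sub_one hBs
  set m := (volume B).toReal with hm
  have hm0 : 0 ≤ m := ENNReal.toReal_nonneg
  have key := h a B hBm hBs
  rw [intervalIntegral.integral_of_le (by linarith)]
  have e1 : ∫ x in Ioc a (a + 1), max (v x - l) 0 = ∫ x in B, (v x - l) := by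
    rw [hB, ← setIntegral_indicator (measurableSet_lt measurable_const hv.meas)]
    refine setIntegral_congr_fun measurableSet_Ioc fun x _ => ?_
    by_cases hx : l < v x
    · rw [indicator_of_mem (by exact hx), max_eq_left (by linarith)]
    · rw [indicator_of_notMem (by exact hx), max_eq_right (by linarith)]
  rw [e1, integral_sub (hv.integrableOn hmt) (integrableOn_const hmt (by simp)), setIntegral_const]
  have e2 : ∫ x in (-(m/2))..(m/2), (f x - l) ≤ ∫ x in (-(1/2 : ℝ))..(1/2), max (f x - l) 0 := by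
    calc ∫ x in (-(m/2))..(m/2), (f x - l)
        ≤ ∫ x in (-(m/2))..(m/2), max (f x - l) 0 := by
          refine intervalIntegral.integral_mono_on (by linarith)
            ((hf.bnm.ii _ _).sub (by simp)) ((hf.bnm.posPart hl).ii _ _) fun x _ => le_max_left _ _
      _ ≤ ∫ x in (-(1/2 : ℝ))..(1/2), max (f x - l) 0 := by
          refine intervalIntegral.integral_mono_interval (by linarith) (by linarith) (by linarith)
            (Filter.Eventually.of_forall fun x => le_max_right _ _) ((hf.bnm.posPart hl).ii _ _)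
  rw [intervalIntegral.integral_sub (hf.bnm.ii _ _) (by simp)] at e2
  simp only [intervalIntegral.integral_const, smul_eq_mul] at e2 ⊢
  have e3 : volume.real B = m := rfl
  rw [e3]
  nlinarith [key]

end Pool.Agent.Lib_helper51
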