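import Pool.Agent.Lib_helper51.Disc

set_option autoImplicit false

/-!
# Boundedness
-/

open MeasureTheory Set Filter Topology InnerProductSpace
open scoped Real ENNReal

namespace Pool.Agent.Lib_helper51

/-- the Poisson kernel as a harmonic function -/
noncomputable def PV (Y : ℝ) (z : ℂ) : ℝ := pk (Y + max z.im 0) z.re

theorem PV_hp {Y : ℝ} (hY : 0 < Y) : HP (PV Y) := by
  refine ⟨?_, ?_, ?_⟩
  · unfold PV pk
    have h : ∀ z : ℂ, z.re ^ 2 + (Y + max z.im 0) ^ 2 ≠ 0 := by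
      intro z
      have : 0 < Y + max z.im 0 := by
        have := le_max_right z.im 0
        linarith
      positivity
    have hre := Complex.continuous_re
    have him := Complex.continuous_im
    have h1 : Continuous fun z : ℂ => Y + max z.im 0 := continuous_const.add (him.max continuous_const)
    exact continuous_const.mul (h1.div ((hre.pow 2).add (h1.pow 2)) h)
  · intro z hz
    change 0 < z.im at hz
    have hne : z + Y * Complex.I ≠ 0 := by
      intro h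
      have := congrArg Complex.im h
      simp at this
      linarith
    have han : AnalyticAt ℂ (fun z : ℂ => 1 / (z + Y * Complex.I)) z := by
      refine AnalyticAt.div analyticAt_const ?_ hne
      exact analyticAt_id.add analyticAt_const
    have h1 := (han.harmonicAt_im).const_smul (c := -(1/π))
    refine (harmonicAt_congr_nhds ?_).1 h1
    have hopen : ∀ᶠ w : ℂ in 𝓝 z, 0 < w.im :=
      Complex.continuous_im.continuousAt.eventually_const_lt hz
    filter_upwards [hopen] with w hw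
    simp only [PV, Pi.smul_apply, smul_eq_mul, max_eq_left hw.le]
    have h2 := pk_eq_im (y := Y + w.im) (s := w.re)
    have h3 : w + Y * Complex.I = (w.re : ℂ) + ((Y + w.im : ℝ) : ℂ) * Complex.I := by
      apply Complex.ext
      · simp
      · simp [add_comm]
    rw [h2, h3]
  · intro z hz
    refine pk_nonneg ?_ _
    have := le_max_right z.im 0
    linarith

theorem pk_semigroup {Y y : ℝ} (hY : 0 < Y) (hy : 0 < y) (z : ℝ) :
    ∫⁻ s, ENNReal.ofReal (pk Y (z + s)) * ENNReal.ofReal (pk y s) ≤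
      ENNReal.ofReal (pk (Y + y) z) := by
  have h := half_lower_cv (PV_hp hY) (x := -z) hy
  simp only [PV, max_self, add_zero, max_eq_left hy.le] at h
  have e : ∀ s, ENNReal.ofReal (pk Y (-z - s) * pk y s) =
      ENNReal.ofReal (pk Y (z + s)) * ENNReal.ofReal (pk y s) := by
    intro s
    rw [← ENNReal.ofReal_mul (pk_nonneg hY.le _)]
    congr 2
    unfold pk
    ring_nf
  simp_rw [e] at h
  refine h.trans (le_of_eq ?_)
  congr 1
  unfold pk
  ring_nf

theorem pk_slow {Y : ℝ} (hY : 0 < Y) (z ξ : ℝ) : pk Y (z - ξ) ≤ (1 + |ξ| / Y) ^ 2 * pk Y z := by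
  unfold pk
  have h1 : 0 < (z - ξ) ^ 2 + Y ^ 2 := by positivity
  have h2 : 0 < z ^ 2 + Y ^ 2 := by positivity
  have e : (1 + |ξ| / Y) ^ 2 * (1 / π * (Y / (z ^ 2 + Y ^ 2))) =
      (1 / π) * (Y * ((Y + |ξ|) ^ 2 / Y ^ 2) / (z ^ 2 + Y ^ 2)) := by
    field_simp
  rw [e]
  apply mul_le_mul_of_nonneg_left _ (by positivity)
  rw [div_le_div_iff₀ h1 h2]
  have key : (z ^ 2 + Y ^ 2) * Y ^ 2 ≤ (Y + |ξ|) ^ 2 * ((z - ξ) ^ 2 + Y ^ 2) := by
    set w := z - ξ with hw
    have hz : z = w + ξ := by rw [hw]; ring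
    have h3 : z ^ 2 ≤ (|w| + |ξ|) ^ 2 := by
      rw [hz, ← sq_abs (w + ξ)]
      exact pow_le_pow_left₀ (abs_nonneg _) (abs_add_le _ _) 2
    have h4 : w ^ 2 = |w| ^ 2 := (sq_abs w).symm
    have h5 := abs_nonneg w
    have h6 := abs_nonneg ξ
    rw [h4]
    have h7 : (z ^ 2 + Y ^ 2) * Y ^ 2 ≤ ((|w| + |ξ|) ^ 2 + Y ^ 2) * Y ^ 2 := by
      apply mul_le_mul_of_nonneg_right _ (by positivity)
      linarith
    refine h7.trans ?_
    have h8 : 0 ≤ 2 * Y * |ξ| * (|w| ^ 2 - |w| * Y + Y ^ 2) + |ξ| ^ 2 * |w| ^ 2 := by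
      have : 0 ≤ |w| ^ 2 - |w| * Y + Y ^ 2 := by nlinarith [sq_nonneg (|w| - Y), sq_nonneg (|w|)]
      positivity
    nlinarith [h8]
  have h9 : Y * (z ^ 2 + Y ^ 2) = Y / Y ^ 2 * ((z ^ 2 + Y ^ 2) * Y ^ 2) := by field_simp
  have h10 : Y * ((Y + |ξ|) ^ 2 / Y ^ 2) * ((z - ξ) ^ 2 + Y ^ 2) =
      Y / Y ^ 2 * ((Y + |ξ|) ^ 2 * ((z - ξ) ^ 2 + Y ^ 2)) := by field_simp
  rw [h9, h10]
  exact mul_le_mul_of_nonneg_left key (by positivity)

theorem pk_raise {Y y : ℝ} (hY : 0 < Y) (hy : 0 ≤ y) (z : ℝ) :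
    pk (Y + y) z ≤ (1 + y / Y) * pk Y z := by
  unfold pk
  have e : (1 + y / Y) * (1 / π * (Y / (z ^ 2 + Y ^ 2))) = (1 / π) * ((Y + y) / (z ^ 2 + Y ^ 2)) := by
    field_simp
  rw [e]
  apply mul_le_mul_of_nonneg_left _ (by positivity)
  apply div_le_div_of_nonneg_left (by positivity) (by positivity)
  nlinarith

/-- the half disc measure -/
noncomputable def mu (R : ℝ) : Measure (ℝ × ℝ) := (volume : Measure (ℝ × ℝ)).restrict (HDs R)

/-- the full kernel -/
noncomputable def KA (R : ℝ) (t : ℝ) : ℝ≥0∞ := ∫⁻ p, ENNReal.ofReal (pk p.2 (t + p.1)) ∂(mu R)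

instance mu_sfinite (R : ℝ) : SFinite (mu R) := by unfold mu; infer_instance

theorem mu_ae (R : ℝ) {P : ℝ × ℝ → Prop} (h : ∀ p ∈ HDs R, P p) : ∀ᵐ p ∂(mu R), P p :=
  (ae_restrict_iff' (HDs_meas R)).2 (Eventually.of_forall h)

theorem KA_joint_meas : Measurable fun q : ℝ × (ℝ × ℝ) => ENNReal.ofReal (pk q.2.2 (q.1 + q.2.1)) := by
  have h : Measurable fun q : ℝ × (ℝ × ℝ) => (q.2.2, q.1 + q.2.1) := by fun_prop
  exact (measurable_pk2.comp h).ennreal_ofReal

theorem KA_meas (R : ℝ) : Measurable (KA R) := by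
  unfold KA
  exact KA_joint_meas.lintegral_prod_right'

/-- Tonelli for the kernel -/
theorem KA_tonelli (R : ℝ) {f : ℝ → ℝ≥0∞} (hf : Measurable f) :
    ∫⁻ t, f t * KA R t = ∫⁻ p, (∫⁻ t, f t * ENNReal.ofReal (pk p.2 (t + p.1))) ∂(mu R) := by
  unfold KA
  have h1 : ∀ t, f t * ∫⁻ p, ENNReal.ofReal (pk p.2 (t + p.1)) ∂(mu R) =
      ∫⁻ p, f t * ENNReal.ofReal (pk p.2 (t + p.1)) ∂(mu R) := by
    intro t
    rw [lintegral_const_mul]
    have h : Measurable fun p : ℝ × ℝ => (t, p) := by fun_prop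
    exact KA_joint_meas.comp h
  simp_rw [h1]
  rw [lintegral_lintegral_swap]
  exact ((hf.comp measurable_fst).mul KA_joint_meas).aemeasurable

theorem KA_le_R {R : ℝ} (hR : 0 < R) (t : ℝ) : KA R t ≤ ENNReal.ofReal R := by
  unfold KA mu
  rw [← lintegral_indicator (HDs_meas R)]
  have h0 : Measurable fun p : ℝ × ℝ => (t, p) := by fun_prop
  have hm : Measurable ((HDs R).indicator fun p : ℝ × ℝ => ENNReal.ofReal (pk p.2 (t + p.1))) :=
    (KA_joint_meas.comp h0).indicator (HDs_meas R)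
  rw [Measure.volume_eq_prod, lintegral_prod_symm' _ hm]
  have h1 : ∀ y, ∫⁻ x, (HDs R).indicator (fun p : ℝ × ℝ => ENNReal.ofReal (pk p.2 (t + p.1))) (x, y) ≤
      (Ioc 0 R).indicator (fun _ => 1) y := by
    intro y
    by_cases hy : y ∈ Ioc 0 R
    · rw [indicator_of_mem hy]
      calc ∫⁻ x, (HDs R).indicator (fun p : ℝ × ℝ => ENNReal.ofReal (pk p.2 (t + p.1))) (x, y)
          ≤ ∫⁻ x, ENNReal.ofReal (pk y (x + t)) := by
            refine lintegral_mono fun x => ?_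
            refine (indicator_le_self _ _ _).trans ?_
            simp only
            rw [add_comm]
        _ = ∫⁻ x, ENNReal.ofReal (pk y x) :=
            lintegral_add_right_eq_self (fun x => ENNReal.ofReal (pk y x)) t
        _ = 1 := by
            rw [← ofReal_integral_eq_lintegral_ofReal (pk_integrable hy.1)
              (Eventually.of_forall fun x => pk_nonneg hy.1.le x), pk_integral hy.1, ENNReal.ofReal_one]
    · rw [indicator_of_notMem hy]
      have : ∀ x, (HDs R).indicator (fun p : ℝ × ℝ => ENNReal.ofReal (pk p.2 (t + p.1))) (x, y) = 0 := by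
        intro x
        rw [indicator_of_notMem]
        rintro ⟨h3, h4⟩
        apply hy
        simp only at h3 h4
        exact ⟨h3, (abs_le_of_sq_le_sq' (by nlinarith [sq_nonneg x]) hR.le).2⟩
      simp [this]
  refine (lintegral_mono h1).trans ?_
  rw [lintegral_indicator measurableSet_Ioc]
  simp

theorem ofReal_HD {F : ℂ → ℝ} (hF : Continuous F) (h0 : ∀ z : ℂ, 0 ≤ z.im → 0 ≤ F z) {R : ℝ}
    (hR : 0 < R) (x : ℝ) :
    ENNReal.ofReal (HD R F x) = ∫⁻ p, ENNReal.ofReal (F ⟨x + p.1, p.2⟩) ∂(mu R) := by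
  rw [HD_eq_integral hF hR, MeasureTheory.integral_indicator (HDs_meas R)]
  have hG : Continuous fun p : ℝ × ℝ => F ⟨x + p.1, p.2⟩ :=
    hF.comp (continuous_mk.comp ((continuous_const.add continuous_fst).prodMk continuous_snd))
  rw [ofReal_integral_eq_lintegral_ofReal (HDs_integrable hG hR.le)]
  · rfl
  · exact mu_ae R fun p hp => h0 _ hp.1.le

theorem mu_one {R : ℝ} (hR : 0 < R) : ∫⁻ _, 1 ∂(mu R) = ENNReal.ofReal (NR R) := by
  have h := ofReal_HD (F := fun _ => (1:ℝ)) continuous_const (fun _ _ => zero_le_one) hR 0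
  have h2 : HD R (fun _ => (1:ℝ)) 0 = NR R := by
    unfold HD NR
    simp only [intervalIntegral.integral_const, smul_eq_mul, mul_one]
    congr 1
    funext y
    ring
  rw [← h2, h]
  simp

theorem mu_y {R : ℝ} (hR : 0 < R) : ∫⁻ p, ENNReal.ofReal p.2 ∂(mu R) = ENNReal.ofReal (tR R) := by
  have h := ofReal_HD (F := fun z : ℂ => z.im) Complex.continuous_im (fun _ h => h) hR 0
  have h2 : HD R (fun z : ℂ => z.im) 0 = tR R := by
    unfold HD tR
    simp only [intervalIntegral.integral_const, smul_eq_mul]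
    congr 1
    funext y
    ring
  rw [← h2, h]

/-- basic inequality in extended form -/
theorem B1 {U : ℂ → ℝ} (hU : HP U) (hA2 : ∀ x y : ℝ, 0 < y → U ⟨x, y⟩ ≤ y + cv (pk y) (fun t => U ⟨t, 0⟩) x)
    {R : ℝ} (hR : 0 < R) (x : ℝ) :
    ENNReal.ofReal (HD R U x) ≤ ENNReal.ofReal (tR R) +
      ∫⁻ t, ENNReal.ofReal (U ⟨x - t, 0⟩) * KA R t := by
  have hum : Measurable fun t : ℝ => ENNReal.ofReal (U ⟨t, 0⟩) :=
    (continuous_line hU.cont).measurable.ennreal_ofReal
  have hum' : Measurable fun t : ℝ => ENNReal.ofReal (U ⟨x - t, 0⟩) :=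
    hum.comp (measurable_const.sub measurable_id)
  rw [ofReal_HD hU.cont hU.nonneg hR, KA_tonelli R hum', ← mu_y hR, ← lintegral_add_left
    (measurable_snd.ennreal_ofReal)]
  refine lintegral_mono_ae (mu_ae R ?_)
  rintro ⟨ξ, y⟩ ⟨hy, -⟩
  simp only at hy ⊢
  have h1 := hA2 (x + ξ) y hy
  have h2 : ENNReal.ofReal (cv (pk y) (fun t => U ⟨t, 0⟩) (x + ξ)) =
      ∫⁻ t, ENNReal.ofReal (U ⟨x - t, 0⟩) * ENNReal.ofReal (pk y (t + ξ)) := by
    unfold cv
    rw [ofReal_integral_eq_lintegral_ofReal (half_integrable_cv hU (x + ξ) hy)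
      (Eventually.of_forall fun s => mul_nonneg (hU.nonneg _ le_rfl) (pk_nonneg hy.le s))]
    rw [← lintegral_add_right_eq_self (fun s => ENNReal.ofReal (U ⟨x + ξ - s, 0⟩ * pk y s)) ξ]
    refine lintegral_congr fun t => ?_
    rw [← ENNReal.ofReal_mul (hU.nonneg _ le_rfl)]
    congr 4
    ring
  rw [← h2, ← ENNReal.ofReal_add hy.le]
  · exact ENNReal.ofReal_le_ofReal h1
  · unfold cv
    exact integral_nonneg fun s => mul_nonneg (hU.nonneg _ le_rfl) (pk_nonneg hy.le s)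

/-- the weight -/
noncomputable def wt (Y x0 : ℝ) (t : ℝ) : ℝ≥0∞ := ENNReal.ofReal (pk Y (t - x0))

theorem wt_meas (Y x0 : ℝ) : Measurable (wt Y x0) :=
  ((pk_measurable Y).comp (measurable_id.sub_const x0)).ennreal_ofReal

theorem B3 {R Y : ℝ} (hR : 0 < R) (hY : 0 < Y) (x0 x : ℝ) :
    ∫⁻ t, wt Y x0 (x + t) * KA R t ≤ ENNReal.ofReal (NR R * (1 + R / Y) ^ 3) * wt Y x0 x := by
  have hm : Measurable fun t => wt Y x0 (x + t) := (wt_meas Y x0).comp (measurable_const_add x)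
  rw [KA_tonelli R hm]
  have h1 : ∀ᵐ p ∂(mu R), ∫⁻ t, wt Y x0 (x + t) * ENNReal.ofReal (pk p.2 (t + p.1)) ≤
      ENNReal.ofReal ((1 + R / Y) ^ 3) * wt Y x0 x := by
    refine mu_ae R ?_
    rintro ⟨ξ, y⟩ ⟨hy, hq⟩
    simp only at hy hq ⊢
    have hyR : y ≤ R := (abs_le_of_sq_le_sq' (by nlinarith [sq_nonneg ξ]) hR.le).2
    have hξR : |ξ| ≤ R := abs_le_of_sq_le_sq (by nlinarith [sq_nonneg y]) hR.le
    have e1 : ∫⁻ t, wt Y x0 (x + t) * ENNReal.ofReal (pk y (t + ξ)) =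
        ∫⁻ s, ENNReal.ofReal (pk Y ((x - x0 - ξ) + s)) * ENNReal.ofReal (pk y s) := by
      rw [← lintegral_add_right_eq_self
        (fun s => ENNReal.ofReal (pk Y ((x - x0 - ξ) + s)) * ENNReal.ofReal (pk y s)) ξ]
      refine lintegral_congr fun t => ?_
      unfold wt
      congr 3
      ring
    rw [e1]
    refine (pk_semigroup hY hy _).trans ?_
    unfold wt
    rw [← ENNReal.ofReal_mul (by positivity)]
    refine ENNReal.ofReal_le_ofReal ?_
    have hp := pk_nonneg hY.le (x - x0)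
    calc pk (Y + y) (x - x0 - ξ) ≤ (1 + y / Y) * pk Y (x - x0 - ξ) := pk_raise hY hy.le _
      _ ≤ (1 + y / Y) * ((1 + |ξ| / Y) ^ 2 * pk Y (x - x0)) :=
          mul_le_mul_of_nonneg_left (pk_slow hY _ _) (by positivity)
      _ ≤ (1 + R / Y) * ((1 + R / Y) ^ 2 * pk Y (x - x0)) := by
          gcongr
      _ = (1 + R / Y) ^ 3 * pk Y (x - x0) := by ring
  refine (lintegral_mono_ae h1).trans (le_of_eq ?_)
  rw [lintegral_const, ← lintegral_one, mu_one hR, mul_right_comm, ← ENNReal.ofReal_mul (by positivity)]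
  congr 2
  ring

theorem KA_lower {R : ℝ} (hR : 0 < R) (hR2 : R ≤ 1/2) {t : ℝ} (ht : t ∈ Icc (0:ℝ) 1) :
    ENNReal.ofReal (2 / (5 * π) * tR R) ≤ KA R t := by
  unfold KA
  rw [ENNReal.ofReal_mul (by positivity), ← mu_y hR, ← lintegral_const_mul _ measurable_snd.ennreal_ofReal]
  refine lintegral_mono_ae (mu_ae R ?_)
  rintro ⟨ξ, y⟩ ⟨hy, hq⟩
  simp only at hy hq ⊢
  rw [← ENNReal.ofReal_mul (by positivity)]
  refine ENNReal.ofReal_le_ofReal ?_
  have hyR : y ≤ R := (abs_le_of_sq_le_sq' (by nlinarith [sq_nonneg ξ]) hR.le).2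
  have hξR : |ξ| ≤ R := abs_le_of_sq_le_sq (by nlinarith [sq_nonneg y]) hR.le
  have hξ := abs_le.1 hξR
  have h1 : (t + ξ) ^ 2 ≤ 9 / 4 := by
    have : |t + ξ| ≤ 3 / 2 := abs_le.2 ⟨by linarith [ht.1], by linarith [ht.2]⟩
    rw [← sq_abs]
    nlinarith [abs_nonneg (t + ξ)]
  have h2 : y ^ 2 ≤ 1 / 4 := by nlinarith
  unfold pk
  have h3 : 2 / (5 * π) * y = (1 / π) * (y / (5 / 2)) := by field_simp
  rw [h3]
  apply mul_le_mul_of_nonneg_left _ (by positivity)
  exact div_le_div_of_nonneg_left hy.le (by positivity) (by linarith)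

theorem B4 {R Y δ : ℝ} (hR : 0 < R) (hR2 : R ≤ 1/2) (hY : 1 ≤ Y) {E : Set ℝ}
    (hE : MeasurableSet E) (hdens : ∀ x, ENNReal.ofReal δ ≤ volume (E ∩ Icc x (x + 1))) (x0 x : ℝ) :
    ENNReal.ofReal (δ * (2 / (5 * π) * tR R) / 4) * wt Y x0 x ≤
      ∫⁻ t, E.indicator (wt Y x0) (x + t) * KA R t := by
  have hY0 : 0 < Y := by linarith
  have htR := tR_pos hR
  set S : Set ℝ := (fun t => x + t) ⁻¹' (E ∩ Icc x (x + 1)) with hS
  have hSm : MeasurableSet S := (hE.inter measurableSet_Icc).preimage (measurable_const_add x)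
  have hSv : volume S = volume (E ∩ Icc x (x + 1)) := measure_preimage_add volume x _
  have hS1 : ∀ t ∈ S, t ∈ Icc (0:ℝ) 1 := by
    intro t ht
    have h2 := ht.2
    simp only [mem_Icc] at h2
    exact ⟨by linarith [h2.1], by linarith [h2.2]⟩
  calc ENNReal.ofReal (δ * (2 / (5 * π) * tR R) / 4) * wt Y x0 x
      = (ENNReal.ofReal (1/4) * wt Y x0 x * ENNReal.ofReal (2 / (5 * π) * tR R)) *
          ENNReal.ofReal δ := by
        rw [show δ * (2 / (5 * π) * tR R) / 4 = (1/4) * (2 / (5 * π) * tR R) * δ by ring,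
          ENNReal.ofReal_mul (by positivity), ENNReal.ofReal_mul (by positivity)]
        ring
    _ ≤ (ENNReal.ofReal (1/4) * wt Y x0 x * ENNReal.ofReal (2 / (5 * π) * tR R)) * volume S := by
        rw [hSv]
        gcongr
        exact hdens x
    _ = ∫⁻ t in S, ENNReal.ofReal (1/4) * wt Y x0 x * ENNReal.ofReal (2 / (5 * π) * tR R) := by
        rw [setLIntegral_const]
    _ ≤ ∫⁻ t in S, E.indicator (wt Y x0) (x + t) * KA R t := by
        refine setLIntegral_mono' hSm fun t ht => ?_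
        have htE : x + t ∈ E := ht.1
        rw [indicator_of_mem htE]
        have ht1 := hS1 t ht
        refine mul_le_mul' ?_ (KA_lower hR hR2 ht1)
        unfold wt
        rw [← ENNReal.ofReal_mul (by positivity)]
        refine ENNReal.ofReal_le_ofReal ?_
        have h1 := pk_slow hY0 (x + t - x0) t
        have h2 : x + t - x0 - t = x - x0 := by ring
        rw [h2, abs_of_nonneg ht1.1] at h1
        have h3 : (1 + t / Y) ^ 2 ≤ 4 := by
          have : t / Y ≤ 1 := (div_le_one hY0).2 (ht1.2.trans hY)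
          have h0 : 0 ≤ t / Y := div_nonneg ht1.1 hY0.le
          nlinarith
        have h4 := mul_le_mul_of_nonneg_right h3 (pk_nonneg hY0.le (x + t - x0))
        linarith
    _ ≤ ∫⁻ t, E.indicator (wt Y x0) (x + t) * KA R t := setLIntegral_le_lintegral _ _

theorem wt_ne_top (Y x0 t : ℝ) : wt Y x0 t ≠ ⊤ := ENNReal.ofReal_ne_top

theorem B5 {R Y δ : ℝ} (hR : 0 < R) (hR2 : R ≤ 1/2) (hY : 1 ≤ Y) (hδ : 0 ≤ δ) {E : Set ℝ}
    (hE : MeasurableSet E) (hdens : ∀ x, ENNReal.ofReal δ ≤ volume (E ∩ Icc x (x + 1))) (x0 x : ℝ) :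
    ∫⁻ t, Eᶜ.indicator (wt Y x0) (x + t) * KA R t ≤
      ENNReal.ofReal (NR R * (1 + R / Y) ^ 3 - δ * (2 / (5 * π) * tR R) / 4) * wt Y x0 x := by
  have hY0 : 0 < Y := by linarith
  have htR := tR_pos hR
  have h3 := B3 hR hY0 x0 x
  have h4 := B4 hR hR2 hY hE hdens x0 x
  have hsum : (∫⁻ t, Eᶜ.indicator (wt Y x0) (x + t) * KA R t) +
      (∫⁻ t, E.indicator (wt Y x0) (x + t) * KA R t) = ∫⁻ t, wt Y x0 (x + t) * KA R t := by
    rw [← lintegral_add_left]
    · refine lintegral_congr fun t => ?_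
      rw [← add_mul]
      congr 1
      by_cases h : x + t ∈ E
      · rw [indicator_of_mem h, indicator_of_notMem (fun h' : x + t ∈ Eᶜ => h' h), zero_add]
      · rw [indicator_of_notMem h, indicator_of_mem (by exact h), add_zero]
    · exact (((wt_meas Y x0).indicator hE.compl).comp (measurable_const_add x)).mul (KA_meas R)
  have h5 : (∫⁻ t, Eᶜ.indicator (wt Y x0) (x + t) * KA R t) +
      ENNReal.ofReal (δ * (2 / (5 * π) * tR R) / 4) * wt Y x0 x ≤
      ENNReal.ofReal (NR R * (1 + R / Y) ^ 3) * wt Y x0 x := by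
    refine le_trans ?_ h3
    rw [← hsum]
    gcongr
  have h6 := ENNReal.le_sub_of_add_le_right
    (ENNReal.mul_ne_top ENNReal.ofReal_ne_top (wt_ne_top Y x0 x)) h5
  rwa [← ENNReal.sub_mul (fun _ _ => wt_ne_top Y x0 x), ← ENNReal.ofReal_sub _ (by positivity)] at h6

theorem KA_upper {R Y : ℝ} (hR : 0 < R) (hR2 : R ≤ 1/2) (hY : 0 < Y) (t : ℝ) :
    KA R t ≤ ENNReal.ofReal ((2 + 4 * tR R) * (1 + Y ^ 2) / Y * pk Y t) := by
  have htR := tR_pos hR
  rcases le_or_gt |t| 1 with ht | ht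
  · refine (KA_le_R hR t).trans (ENNReal.ofReal_le_ofReal (hR2.trans ?_))
    have h1 : t ^ 2 ≤ 1 := by
      rw [← sq_abs]
      nlinarith [abs_nonneg t]
    have h2 : (1 / π) * (Y / (1 + Y ^ 2)) ≤ pk Y t := by
      unfold pk
      apply mul_le_mul_of_nonneg_left _ (by positivity)
      exact div_le_div_of_nonneg_left hY.le (by positivity) (by linarith)
    have h3 : (2 + 4 * tR R) * (1 + Y ^ 2) / Y * ((1 / π) * (Y / (1 + Y ^ 2))) =
        (2 + 4 * tR R) / π := by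
      field_simp
    have h4 : (1:ℝ) / 2 ≤ (2 + 4 * tR R) / π := by
      rw [div_le_div_iff₀ (by norm_num) Real.pi_pos]
      nlinarith [Real.pi_lt_four]
    calc (1:ℝ) / 2 ≤ (2 + 4 * tR R) / π := h4
      _ = (2 + 4 * tR R) * (1 + Y ^ 2) / Y * ((1 / π) * (Y / (1 + Y ^ 2))) := h3.symm
      _ ≤ _ := mul_le_mul_of_nonneg_left h2 (by positivity)
  · have ht2 : 1 ≤ t ^ 2 := by
      rw [← sq_abs]
      nlinarith
    have ht0 : 0 < t ^ 2 := by linarith
    have h1 : KA R t ≤ ENNReal.ofReal (4 / (π * t ^ 2) * tR R) := by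
      unfold KA
      rw [ENNReal.ofReal_mul (by positivity), ← mu_y hR,
        ← lintegral_const_mul _ measurable_snd.ennreal_ofReal]
      refine lintegral_mono_ae (mu_ae R ?_)
      rintro ⟨ξ, y⟩ ⟨hy, hq⟩
      simp only at hy hq ⊢
      rw [← ENNReal.ofReal_mul (by positivity)]
      refine ENNReal.ofReal_le_ofReal ?_
      have hξR : |ξ| ≤ R := abs_le_of_sq_le_sq (by nlinarith [sq_nonneg y]) hR.le
      have h2 : |t| / 2 ≤ |t + ξ| := by
        have := abs_sub_abs_le_abs_sub t (-ξ)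
        rw [abs_neg, sub_neg_eq_add] at this
        linarith
      have h3 : t ^ 2 / 4 ≤ (t + ξ) ^ 2 := by
        rw [← sq_abs t, ← sq_abs (t + ξ)]
        have := pow_le_pow_left₀ (by positivity) h2 2
        linarith [this]
      unfold pk
      have h4 : 4 / (π * t ^ 2) * y = (1 / π) * (y / (t ^ 2 / 4)) := by field_simp
      rw [h4]
      apply mul_le_mul_of_nonneg_left _ (by positivity)
      exact div_le_div_of_nonneg_left hy.le (by positivity) (by nlinarith)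
    refine h1.trans (ENNReal.ofReal_le_ofReal ?_)
    have h2 : (1 / π) * (Y / (t ^ 2 * (1 + Y ^ 2))) ≤ pk Y t := by
      unfold pk
      apply mul_le_mul_of_nonneg_left _ (by positivity)
      exact div_le_div_of_nonneg_left hY.le (by positivity) (by nlinarith)
    calc 4 / (π * t ^ 2) * tR R ≤ (2 + 4 * tR R) / (π * t ^ 2) := by
          rw [div_mul_eq_mul_div]
          exact div_le_div_of_nonneg_right (by linarith) (by positivity)
      _ = (2 + 4 * tR R) * (1 + Y ^ 2) / Y * ((1 / π) * (Y / (t ^ 2 * (1 + Y ^ 2)))) := by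
          field_simp
      _ ≤ _ := mul_le_mul_of_nonneg_left h2 (by positivity)

/-- weighted mass -/
noncomputable def mW (U : ℂ → ℝ) (Y x0 : ℝ) : ℝ≥0∞ := ∫⁻ x, ENNReal.ofReal (U ⟨x, 0⟩) * wt Y x0 x

theorem mW_ne_top {U : ℂ → ℝ} (hU : HP U) {Y : ℝ} (hY : 0 < Y) (x0 : ℝ) : mW U Y x0 ≠ ⊤ := by
  have h := half_lower hU (x := x0) hY
  refine ne_top_of_le_ne_top ENNReal.ofReal_ne_top (le_trans (le_of_eq ?_) h)
  unfold mW wt
  refine lintegral_congr fun s => ?_
  rw [← ENNReal.ofReal_mul (hU.nonneg _ le_rfl), mul_comm]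

theorem wt_total {Y : ℝ} (hY : 0 < Y) (x0 : ℝ) : ∫⁻ x, wt Y x0 x = 1 := by
  unfold wt
  rw [lintegral_sub_right_eq_self (fun x => ENNReal.ofReal (pk Y x)) x0,
    ← ofReal_integral_eq_lintegral_ofReal (pk_integrable hY)
      (Eventually.of_forall fun x => pk_nonneg hY.le x), pk_integral hY, ENNReal.ofReal_one]

theorem B6 {U : ℂ → ℝ} (hU : HP U) {R Y q : ℝ} (hY : 0 < Y) {E : Set ℝ} (hE : MeasurableSet E)
    (h0 : ∀ x ∈ E, U ⟨x, 0⟩ = 0)
    (hkey : ∀ x, ENNReal.ofReal (NR R * U ⟨x, 0⟩) ≤ ENNReal.ofReal (tR R) +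
      ∫⁻ t, ENNReal.ofReal (U ⟨x - t, 0⟩) * KA R t) (hN : 0 ≤ NR R) (x0 : ℝ)
    (hq : ∀ x, ∫⁻ t, Eᶜ.indicator (wt Y x0) (x + t) * KA R t ≤ ENNReal.ofReal q * wt Y x0 x) :
    ENNReal.ofReal (NR R) * mW U Y x0 ≤ ENNReal.ofReal (tR R) + ENNReal.ofReal q * mW U Y x0 := by
  have hum : Measurable fun t : ℝ => ENNReal.ofReal (U ⟨t, 0⟩) :=
    (continuous_line hU.cont).measurable.ennreal_ofReal
  have hwm := wt_meas Y x0
  set φ : ℝ → ℝ≥0∞ := Eᶜ.indicator (wt Y x0) with hφ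
  have hφm : Measurable φ := hwm.indicator hE.compl
  have hφle : ∀ x, φ x ≤ wt Y x0 x := fun x => indicator_le_self _ _ _
  have hmW : Measurable fun x => ENNReal.ofReal (U ⟨x, 0⟩) * wt Y x0 x := hum.mul hwm
  have e1 : ENNReal.ofReal (NR R) * mW U Y x0 =
      ∫⁻ x, φ x * ENNReal.ofReal (NR R * U ⟨x, 0⟩) := by
    unfold mW
    rw [← lintegral_const_mul _ hmW]
    refine lintegral_congr fun x => ?_
    rw [ENNReal.ofReal_mul hN]
    by_cases hx : x ∈ E
    · rw [h0 x hx]; simp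
    · rw [hφ, indicator_of_mem (by exact hx)]
      ring
  rw [e1]
  have hm1 : Measurable fun x => φ x * ENNReal.ofReal (tR R) := hφm.mul_const _
  have hjoint : Measurable fun z : ℝ × ℝ => ENNReal.ofReal (U ⟨z.1 - z.2, 0⟩) * KA R z.2 :=
    (hum.comp (measurable_fst.sub measurable_snd)).mul ((KA_meas R).comp measurable_snd)
  have e2 : ∫⁻ x, φ x * ∫⁻ t, ENNReal.ofReal (U ⟨x - t, 0⟩) * KA R t =
      ∫⁻ x, ENNReal.ofReal (U ⟨x, 0⟩) * ∫⁻ t, φ (x + t) * KA R t := by
    have a1 : ∀ x, φ x * ∫⁻ t, ENNReal.ofReal (U ⟨x - t, 0⟩) * KA R t =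
        ∫⁻ t, φ x * (ENNReal.ofReal (U ⟨x - t, 0⟩) * KA R t) := by
      intro x
      rw [lintegral_const_mul]
      have : Measurable fun t : ℝ => (x, t) := by fun_prop
      exact hjoint.comp this
    have a2 : ∀ x, ENNReal.ofReal (U ⟨x, 0⟩) * ∫⁻ t, φ (x + t) * KA R t =
        ∫⁻ t, ENNReal.ofReal (U ⟨x, 0⟩) * (φ (x + t) * KA R t) := by
      intro x
      rw [lintegral_const_mul]
      exact (hφm.comp (measurable_const_add x)).mul (KA_meas R)
    simp_rw [a1, a2]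
    have s1 : ∫⁻ x, ∫⁻ t, φ x * (ENNReal.ofReal (U ⟨x - t, 0⟩) * KA R t) =
        ∫⁻ t, ∫⁻ x, φ x * (ENNReal.ofReal (U ⟨x - t, 0⟩) * KA R t) :=
      lintegral_lintegral_swap ((hφm.comp measurable_fst).mul hjoint).aemeasurable
    have s2 : ∫⁻ x, ∫⁻ t, ENNReal.ofReal (U ⟨x, 0⟩) * (φ (x + t) * KA R t) =
        ∫⁻ t, ∫⁻ x, ENNReal.ofReal (U ⟨x, 0⟩) * (φ (x + t) * KA R t) :=
      lintegral_lintegral_swap ((hum.comp measurable_fst).mul
        ((hφm.comp (measurable_fst.add measurable_snd)).mul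
        ((KA_meas R).comp measurable_snd))).aemeasurable
    rw [s1, s2]
    refine lintegral_congr fun t => ?_
    rw [← lintegral_add_right_eq_self
      (fun x => φ x * (ENNReal.ofReal (U ⟨x - t, 0⟩) * KA R t)) t]
    refine lintegral_congr fun x => ?_
    rw [add_sub_cancel_right]
    ring
  calc ∫⁻ x, φ x * ENNReal.ofReal (NR R * U ⟨x, 0⟩)
      ≤ ∫⁻ x, (φ x * ENNReal.ofReal (tR R) +
          φ x * ∫⁻ t, ENNReal.ofReal (U ⟨x - t, 0⟩) * KA R t) := by
        refine lintegral_mono fun x => ?_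
        rw [← mul_add]
        exact mul_le_mul_right (hkey x) _
    _ = (∫⁻ x, φ x * ENNReal.ofReal (tR R)) +
          ∫⁻ x, ENNReal.ofReal (U ⟨x, 0⟩) * ∫⁻ t, φ (x + t) * KA R t := by
        rw [lintegral_add_left hm1, e2]
    _ ≤ ENNReal.ofReal (tR R) + ENNReal.ofReal q * mW U Y x0 := by
        refine add_le_add ?_ ?_
        · rw [lintegral_mul_const _ hφm]
          have : ∫⁻ x, φ x ≤ 1 := by
            rw [← wt_total hY x0]
            exact lintegral_mono hφle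
          calc (∫⁻ x, φ x) * ENNReal.ofReal (tR R) ≤ 1 * ENNReal.ofReal (tR R) := by gcongr
            _ = ENNReal.ofReal (tR R) := one_mul _
        · unfold mW
          rw [← lintegral_const_mul _ hmW]
          refine lintegral_mono fun x => ?_
          simp only
          calc ENNReal.ofReal (U ⟨x, 0⟩) * ∫⁻ t, φ (x + t) * KA R t
              ≤ ENNReal.ofReal (U ⟨x, 0⟩) * (ENNReal.ofReal q * wt Y x0 x) := by
                gcongr
                exact hq x
            _ = ENNReal.ofReal q * (ENNReal.ofReal (U ⟨x, 0⟩) * wt Y x0 x) := by ring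

theorem bounded_of {U : ℂ → ℝ} (hU : HP U)
    (hA2 : ∀ x y : ℝ, 0 < y → U ⟨x, y⟩ ≤ y + cv (pk y) (fun t => U ⟨t, 0⟩) x)
    {R : ℝ} (hR : 0 < R) (hR2 : R ≤ 1/2) (hsub : ∀ x, NR R * U ⟨x, 0⟩ ≤ HD R U x)
    {E : Set ℝ} (hE : MeasurableSet E) (h0 : ∀ x ∈ E, U ⟨x, 0⟩ = 0) {δ : ℝ} (hδ : 0 < δ)
    (hdens : ∀ x, ENNReal.ofReal δ ≤ volume (E ∩ Icc x (x + 1))) :
    ∃ M, ∀ x, U ⟨x, 0⟩ ≤ M := by
  have hN := NR_pos hR
  have htR := tR_pos hR
  set c0 := δ * (2 / (5 * π) * tR R) / 4 with hc0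
  have hc0pos : 0 < c0 := by positivity
  -- choice of the scale
  have hlim : Tendsto (fun Y : ℝ => NR R * (1 + R / Y) ^ 3) atTop (𝓝 (NR R * (1 + 0) ^ 3)) := by
    refine Tendsto.mul tendsto_const_nhds (Tendsto.pow (Tendsto.add tendsto_const_nhds ?_) 3)
    exact Tendsto.div_atTop tendsto_const_nhds tendsto_id
  have hev : ∀ᶠ Y : ℝ in atTop, NR R * (1 + R / Y) ^ 3 < NR R + c0 / 2 := by
    apply hlim.eventually_lt_const
    linarith
  obtain ⟨Y, hY2, hY1⟩ := (hev.and (eventually_ge_atTop 1)).exists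
  have hY0 : 0 < Y := by linarith
  set q := max (NR R - c0 / 2) 0 with hq
  have hqN : q < NR R := max_lt (by linarith) hN
  have hkey : ∀ x, ENNReal.ofReal (NR R * U ⟨x, 0⟩) ≤ ENNReal.ofReal (tR R) +
      ∫⁻ t, ENNReal.ofReal (U ⟨x - t, 0⟩) * KA R t := fun x =>
    (ENNReal.ofReal_le_ofReal (hsub x)).trans (B1 hU hA2 hR x)
  have hmass : ∀ x0, mW U Y x0 ≤ ENNReal.ofReal (tR R / (NR R - q)) := by
    intro x0
    have hqb : ∀ x, ∫⁻ t, Eᶜ.indicator (wt Y x0) (x + t) * KA R t ≤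
        ENNReal.ofReal q * wt Y x0 x := by
      intro x
      refine (B5 hR hR2 hY1 hδ.le hE hdens x0 x).trans ?_
      gcongr
      rw [← hc0]
      exact le_trans (by linarith) (le_max_left _ _)
    have h6 := B6 hU hY0 hE h0 hkey hN.le x0 hqb
    have hfin := mW_ne_top hU hY0 x0
    set m := mW U Y x0 with hm
    rw [← ENNReal.ofReal_toReal hfin, ← ENNReal.ofReal_mul hN.le, ← ENNReal.ofReal_mul (le_max_right _ _),
      ← ENNReal.ofReal_add htR.le (mul_nonneg (le_max_right _ _) ENNReal.toReal_nonneg),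
      ENNReal.ofReal_le_ofReal_iff (add_nonneg htR.le (mul_nonneg (le_max_right _ _)
        ENNReal.toReal_nonneg))] at h6
    rw [← ENNReal.ofReal_toReal hfin]
    apply ENNReal.ofReal_le_ofReal
    rw [le_div_iff₀ (by linarith)]
    linarith
  set C := (2 + 4 * tR R) * (1 + Y ^ 2) / Y with hC
  have hCpos : 0 ≤ C := by positivity
  refine ⟨(tR R + C * (tR R / (NR R - q))) / NR R, fun x => ?_⟩
  rw [le_div_iff₀ hN, mul_comm]
  have hdq : 0 ≤ tR R / (NR R - q) := div_nonneg htR.le (by linarith)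
  have hfin : 0 ≤ tR R + C * (tR R / (NR R - q)) := add_nonneg htR.le (mul_nonneg hCpos hdq)
  rw [← ENNReal.ofReal_le_ofReal_iff hfin]
  refine (hkey x).trans ?_
  rw [ENNReal.ofReal_add htR.le (mul_nonneg hCpos hdq), ENNReal.ofReal_mul hCpos]
  gcongr
  have e1 : ∫⁻ t, ENNReal.ofReal (U ⟨x - t, 0⟩) * wt Y 0 t = mW U Y x := by
    unfold mW
    rw [← lintegral_sub_left_eq_self (fun s => ENNReal.ofReal (U ⟨s, 0⟩) * wt Y x s) x]
    refine lintegral_congr fun t => ?_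
    congr 1
    unfold wt
    congr 1
    unfold pk
    ring_nf
  have hum : Measurable fun t : ℝ => ENNReal.ofReal (U ⟨x - t, 0⟩) :=
    ((continuous_line hU.cont).measurable.ennreal_ofReal).comp (measurable_const.sub measurable_id)
  calc ∫⁻ t, ENNReal.ofReal (U ⟨x - t, 0⟩) * KA R t
      ≤ ∫⁻ t, ENNReal.ofReal C * (ENNReal.ofReal (U ⟨x - t, 0⟩) * wt Y 0 t) := by
        refine lintegral_mono fun t => ?_
        have h1 := KA_upper hR hR2 hY0 t
        rw [ENNReal.ofReal_mul hCpos] at h1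
        simp only
        calc ENNReal.ofReal (U ⟨x - t, 0⟩) * KA R t
            ≤ ENNReal.ofReal (U ⟨x - t, 0⟩) * (ENNReal.ofReal C * ENNReal.ofReal (pk Y t)) := by
              gcongr
          _ = ENNReal.ofReal C * (ENNReal.ofReal (U ⟨x - t, 0⟩) * wt Y 0 t) := by
              unfold wt
              rw [sub_zero]
              ring
    _ = ENNReal.ofReal C * mW U Y x := by
        rw [lintegral_const_mul, e1]
        exact hum.mul (wt_meas Y 0)
    _ ≤ ENNReal.ofReal C * ENNReal.ofReal (tR R / (NR R - q)) := by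
        gcongr
        exact hmass x

end Pool.Agent.Lib_helper51
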