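import Pool.Agent.Lib_helper51.Abel

set_option autoImplicit false

/-!
# Rearrangement on the circle for box kernels
-/

open MeasureTheory Set intervalIntegral
open scoped ENNReal

namespace Pool.Agent.Lib_helper51

theorem bnm_ite {S : Set ℝ} (hS : MeasurableSet S) [DecidablePred (· ∈ S)] :
    BNM (fun x => if x ∈ S then (1:ℝ) else 0) := by
  refine ⟨Measurable.ite hS measurable_const measurable_const, ?_, ⟨1, ?_⟩⟩
  · intro x; split_ifs <;> norm_num
  · intro x; split_ifs <;> norm_num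

theorem bnm_lt {h : ℝ → ℝ} (hh : Measurable h) (τ : ℝ) :
    BNM (fun x => if τ < h x then (1:ℝ) else 0) := by
  refine ⟨Measurable.ite (measurableSet_lt measurable_const hh) measurable_const measurable_const,
    ?_, ⟨1, ?_⟩⟩
  · intro x; split_ifs <;> norm_num
  · intro x; split_ifs <;> norm_num

theorem cont_of_lip {h : ℝ → ℝ} (hL : ∀ x y, |h x - h y| ≤ |x - y|) : Continuous h := by
  have : LipschitzWith 1 h := by
    refine LipschitzWith.of_dist_le_mul fun x y => ?_
    rw [Real.dist_eq, Real.dist_eq, NNReal.coe_one, one_mul]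
    exact hL x y
  exact this.continuous

theorem rise {h : ℝ → ℝ} (hL : ∀ x y, |h x - h y| ≤ |x - y|) {p q τ τ' : ℝ} (hpq : p ≤ q)
    (hp : h p ≤ τ) (hq : τ' ≤ h q) (hττ : τ < τ') :
    τ' - τ ≤ ∫ x in p..q, ((if τ < h x then (1:ℝ) else 0) - (if τ' < h x then (1:ℝ) else 0)) := by
  have hc := cont_of_lip hL
  have hA : IsCompact (Icc p q ∩ h ⁻¹' Iic τ) :=
    isCompact_Icc.inter_right (isClosed_Iic.preimage hc)
  obtain ⟨x1, hx1, hx1m⟩ := hA.exists_isGreatest ⟨p, ⟨le_rfl, hpq⟩, hp⟩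
  have hB : IsCompact (Icc x1 q ∩ h ⁻¹' Ici τ') :=
    isCompact_Icc.inter_right (isClosed_Ici.preimage hc)
  obtain ⟨x2, hx2, hx2m⟩ := hB.exists_isLeast ⟨q, ⟨hx1.1.2, le_rfl⟩, hq⟩
  have hx1p := hx1.1.1
  have hx12 := hx2.1.1
  have hx2q := hx2.1.2
  have h1 : h x1 ≤ τ := hx1.2
  have h2 : τ' ≤ h x2 := hx2.2
  set g : ℝ → ℝ := fun x => (if τ < h x then (1:ℝ) else 0) - (if τ' < h x then (1:ℝ) else 0) with hg
  have hgii : ∀ a b, IntervalIntegrable g volume a b := fun a b =>
    ((bnm_lt hc.measurable τ).ii a b).sub ((bnm_lt hc.measurable τ').ii a b)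
  have hg0 : ∀ x, 0 ≤ g x := by
    intro x
    simp only [hg]
    split_ifs with c1 c2 c2 <;> first | linarith | norm_num
  have e2 : ∫ x in x1..x2, g x = x2 - x1 := by
    rw [integral_congr_Ioo (H := fun _ => (1:ℝ)) hx12]
    · simp
    · intro x hx
      have a1 : τ < h x := by
        by_contra hcon
        have := hx1m ⟨⟨by linarith [hx.1], by linarith [hx.2]⟩, not_lt.1 hcon⟩
        linarith [hx.1]
      have a2 : ¬ τ' < h x := by
        intro hcon
        have := hx2m ⟨⟨hx.1.le, by linarith [hx.2]⟩, hcon.le⟩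
        linarith [hx.2]
      simp [hg, a1, a2]
  have e1 : 0 ≤ ∫ x in p..x1, g x := intervalIntegral.integral_nonneg hx1p fun x _ => hg0 x
  have e3 : 0 ≤ ∫ x in x2..q, g x := intervalIntegral.integral_nonneg hx2q fun x _ => hg0 x
  rw [← intervalIntegral.integral_add_adjacent_intervals (hgii p x1) (hgii x1 q),
    ← intervalIntegral.integral_add_adjacent_intervals (hgii x1 x2) (hgii x2 q), e2]
  have := hL x2 x1
  rw [abs_of_nonneg (by linarith : (0:ℝ) ≤ x2 - x1)] at this
  have := (abs_le.1 this).2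
  linarith

theorem crossing {h : ℝ → ℝ} (hL : ∀ x y, |h x - h y| ≤ |x - y|) (hper : ∀ x, h (x + 1) = h x)
    {xm xM τ τ' : ℝ} (hm : h xm ≤ τ) (hM : τ' ≤ h xM) (hττ : τ < τ') :
    2 * (τ' - τ) ≤ ∫ x in (0:ℝ)..1,
      ((if τ < h x then (1:ℝ) else 0) - (if τ' < h x then (1:ℝ) else 0)) := by
  have hc := cont_of_lip hL
  have hper' : Function.Periodic h 1 := hper
  set g : ℝ → ℝ := fun x => (if τ < h x then (1:ℝ) else 0) - (if τ' < h x then (1:ℝ) else 0) with hg
  have hgii : ∀ a b, IntervalIntegrable g volume a b := fun a b =>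
    ((bnm_lt hc.measurable τ).ii a b).sub ((bnm_lt hc.measurable τ').ii a b)
  have hgper : Function.Periodic g 1 := by
    intro x
    simp only [hg, hper x]
  set y := xm + Int.fract (xM - xm) with hy
  have hyM : h y = h xM := by
    have : y = xM - (⌊xM - xm⌋ : ℤ) * (1:ℝ) := by
      rw [hy, Int.fract]; ring
    rw [this]
    exact hper'.sub_int_mul_eq _
  have hy1 : xm ≤ y := by rw [hy]; linarith [Int.fract_nonneg (xM - xm)]
  have hy2 : y ≤ xm + 1 := by rw [hy]; linarith [Int.fract_lt_one (xM - xm)]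
  have r1 := rise hL hy1 hm (hyM ▸ hM) hττ
  have r2 : τ' - τ ≤ ∫ x in y..(xm + 1), g x := by
    have hL' : ∀ x z, |h (-x) - h (-z)| ≤ |x - z| := by
      intro x z
      have := hL (-x) (-z)
      rwa [show -x - -z = -(x - z) by ring, abs_neg] at this
    have := rise (h := fun x => h (-x)) hL' (p := -(xm + 1)) (q := -y) (τ := τ) (τ' := τ')
      (by linarith) (by simp only [neg_neg]; rw [hper]; exact hm) (by simp only [neg_neg]; rw [hyM]; exact hM)
      hττ
    refine this.trans (le_of_eq ?_)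
    have e := intervalIntegral.integral_comp_neg (a := -(xm + 1)) (b := -y) g
    rw [neg_neg, neg_neg] at e
    rw [← e]
  have e0 : ∫ x in (0:ℝ)..1, g x = ∫ x in xm..(xm + 1), g x := by
    have := hgper.intervalIntegral_add_eq 0 xm
    rwa [zero_add] at this
  rw [e0, ← intervalIntegral.integral_add_adjacent_intervals (hgii xm y) (hgii y (xm + 1))]
  linarith

theorem periodic_integral_shift {g : ℝ → ℝ} (hg : ∀ x, g (x + 1) = g x) (t : ℝ) :
    ∫ x in (0:ℝ)..1, g (x + t) = ∫ x in (0:ℝ)..1, g x := by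
  have hg' : Function.Periodic g 1 := hg
  rw [intervalIntegral.integral_comp_add_right]
  have := hg'.intervalIntegral_add_eq t 0
  rw [zero_add] at this
  rw [zero_add, add_comm 1 t, this]

theorem box_swap {χ w : ℝ → ℝ} (hχ : BNM χ) (hχp : ∀ x, χ (x + 1) = χ x) (hw : BNM w)
    (hwp : ∀ x, w (x + 1) = w x) {r : ℝ} (hr : 0 ≤ r) :
    ∫ b in (0:ℝ)..1, χ b * ∫ s in (b - r)..(b + r), w s
      = ∫ s in (0:ℝ)..1, w s * ∫ b in (s - r)..(s + r), χ b := by
  obtain ⟨M1, hM1⟩ := hχ.bdd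
  obtain ⟨M2, hM2⟩ := hw.bdd
  have hM1' : 0 ≤ M1 := (hχ.nonneg 0).trans (hM1 0)
  have e1 : ∀ b, χ b * ∫ s in (b - r)..(b + r), w s = ∫ t in (-r)..r, χ b * w (b + t) := by
    intro b
    rw [intervalIntegral.integral_const_mul, intervalIntegral.integral_comp_add_left]
    congr 2
  have e2 : ∀ s, w s * ∫ b in (s - r)..(s + r), χ b = ∫ t in (-r)..r, w s * χ (s - t) := by
    intro s
    rw [intervalIntegral.integral_const_mul, intervalIntegral.integral_comp_sub_left]
    congr 2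
    ring
  simp_rw [e1, e2]
  rw [swap_ii (F := fun b t => χ b * w (b + t)) (C := M1 * M2) ?_ ?_ zero_le_one (by linarith),
    swap_ii (F := fun s t => w s * χ (s - t)) (C := M1 * M2) ?_ ?_ zero_le_one (by linarith)]
  · refine intervalIntegral.integral_congr fun t _ => ?_
    have := periodic_integral_shift (g := fun b => w b * χ (b - t)) (fun x => by
      have : x + 1 - t = (x - t) + 1 := by ring
      simp only [hwp, this, hχp]) t
    simp only [add_sub_cancel_right] at this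
    rw [← this]
    refine intervalIntegral.integral_congr fun b _ => ?_
    exact mul_comm _ _
  · exact (hw.meas.comp measurable_fst).mul (hχ.meas.comp (measurable_fst.sub measurable_snd))
  · intro x y
    rw [abs_mul, abs_of_nonneg (hw.nonneg _), abs_of_nonneg (hχ.nonneg _), mul_comm]
    exact mul_le_mul (hM1 _) (hM2 _) (hw.nonneg _) hM1'
  · exact (hχ.meas.comp measurable_fst).mul (hw.meas.comp (measurable_fst.add measurable_snd))
  · intro x y
    rw [abs_mul, abs_of_nonneg (hw.nonneg _), abs_of_nonneg (hχ.nonneg _)]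
    exact mul_le_mul (hM1 _) (hM2 _) (hw.nonneg _) hM1'

/-- the box sum -/
noncomputable def box (r : ℝ) (χ : ℝ → ℝ) (s : ℝ) : ℝ := ∫ b in (s - r)..(s + r), χ b

theorem box_lip {χ : ℝ → ℝ} (hχ : BNM χ) (hχ1 : ∀ x, χ x ≤ 1) {r : ℝ} :
    ∀ x y, |box r χ x - box r χ y| ≤ |x - y| := by
  have key : ∀ x y, x ≤ y → |box r χ x - box r χ y| ≤ |x - y| := by
    intro x y hxy
    unfold box
    have e : (∫ b in (x - r)..(x + r), χ b) - (∫ b in (y - r)..(y + r), χ b)
        = (∫ b in (x - r)..(y - r), χ b) - ∫ b in (x + r)..(y + r), χ b := by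
      have i1 := intervalIntegral.integral_add_adjacent_intervals (hχ.ii (x - r) (x + r)) (hχ.ii (x + r) (y + r))
      have i2 := intervalIntegral.integral_add_adjacent_intervals (hχ.ii (x - r) (y - r)) (hχ.ii (y - r) (y + r))
      linarith
    have b1 : ∀ c, ∫ b in (x + c)..(y + c), χ b ≤ y - x := by
      intro c
      calc ∫ b in (x + c)..(y + c), χ b ≤ ∫ b in (x + c)..(y + c), (1:ℝ) :=
            intervalIntegral.integral_mono_on (by linarith) (hχ.ii _ _) (by simp) fun b _ => hχ1 b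
        _ = y - x := by simp
    have b0 : ∀ c, 0 ≤ ∫ b in (x + c)..(y + c), χ b := fun c =>
      intervalIntegral.integral_nonneg (by linarith) fun b _ => hχ.nonneg b
    rw [e, abs_sub_comm x y, abs_of_nonneg (by linarith : (0:ℝ) ≤ y - x)]
    have := b1 (-r)
    have := b0 (-r)
    have := b1 r
    have := b0 r
    rw [← sub_eq_add_neg, ← sub_eq_add_neg] at *
    rw [abs_le]
    constructor <;> linarith
  intro x y
  rcases le_total x y with h | h
  · exact key x y h
  · rw [abs_sub_comm, abs_sub_comm x y]; exact key y x h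

theorem box_per {χ : ℝ → ℝ} (hχp : ∀ x, χ (x + 1) = χ x) {r : ℝ} :
    ∀ x, box r χ (x + 1) = box r χ x := by
  intro x
  unfold box
  have : ∫ b in (x - r)..(x + r), χ b = ∫ b in (x - r)..(x + r), χ (b + 1) := by simp_rw [hχp]
  rw [this, intervalIntegral.integral_comp_add_right]
  congr 1 <;> ring

theorem box_nonneg {χ : ℝ → ℝ} (hχ : BNM χ) {r : ℝ} (hr : 0 ≤ r) (s : ℝ) : 0 ≤ box r χ s :=
  intervalIntegral.integral_nonneg (by linarith) fun b _ => hχ.nonneg b

theorem box_le_two {χ : ℝ → ℝ} (hχ : BNM χ) (hχ1 : ∀ x, χ x ≤ 1) {r : ℝ} (hr : 0 ≤ r) (s : ℝ) :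
    box r χ s ≤ 2 * r := by
  calc box r χ s ≤ ∫ b in (s - r)..(s + r), (1:ℝ) :=
        intervalIntegral.integral_mono_on (by linarith) (hχ.ii _ _) (by simp) fun b _ => hχ1 b
    _ = 2 * r := by simp; ring

theorem box_le_beta {χ : ℝ → ℝ} (hχ : BNM χ) (hχp : ∀ x, χ (x + 1) = χ x)
    {r : ℝ} (hr : 0 ≤ r) (hr2 : r ≤ 1/2) (s : ℝ) :
    box r χ s ≤ ∫ b in (0:ℝ)..1, χ b := by
  have hp : Function.Periodic χ 1 := hχp
  have e : ∫ b in (0:ℝ)..1, χ b = ∫ b in (s - r)..(s - r + 1), χ b := by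
    have := hp.intervalIntegral_add_eq 0 (s - r)
    rwa [zero_add] at this
  rw [e]
  exact intervalIntegral.integral_mono_interval le_rfl (by linarith) (by linarith)
    (Filter.Eventually.of_forall hχ.nonneg) (hχ.ii _ _)

theorem box_ge {χ : ℝ → ℝ} (hχ : BNM χ) (hχ1 : ∀ x, χ x ≤ 1) (hχp : ∀ x, χ (x + 1) = χ x)
    {r : ℝ} (hr2 : r ≤ 1/2) (s : ℝ) :
    (∫ b in (0:ℝ)..1, χ b) + 2 * r - 1 ≤ box r χ s := by
  have hp : Function.Periodic χ 1 := hχp
  have e : ∫ b in (0:ℝ)..1, χ b = ∫ b in (s - r)..(s - r + 1), χ b := by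
    have := hp.intervalIntegral_add_eq 0 (s - r)
    rwa [zero_add] at this
  rw [e, ← intervalIntegral.integral_add_adjacent_intervals (hχ.ii (s - r) (s + r)) (hχ.ii _ _)]
  have : ∫ b in (s + r)..(s - r + 1), χ b ≤ ∫ b in (s + r)..(s - r + 1), (1:ℝ) :=
    intervalIntegral.integral_mono_on (by linarith) (hχ.ii _ _) (by simp) fun b _ => hχ1 b
  simp only [intervalIntegral.integral_const, smul_eq_mul] at this
  unfold box
  linarith

theorem box_total {χ : ℝ → ℝ} (hχ : BNM χ) (hχp : ∀ x, χ (x + 1) = χ x)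
    {r : ℝ} (hr : 0 ≤ r) :
    ∫ s in (0:ℝ)..1, box r χ s = 2 * r * ∫ b in (0:ℝ)..1, χ b := by
  have h1 : BNM (fun _ : ℝ => (1:ℝ)) := ⟨measurable_const, fun _ => zero_le_one, ⟨1, fun _ => le_rfl⟩⟩
  have := box_swap hχ hχp h1 (fun _ => rfl) hr
  simp only [one_mul, intervalIntegral.integral_const, smul_eq_mul, mul_one] at this
  have e : ∀ b, χ b * (b + r - (b - r)) = (2 * r) * χ b := fun b => by ring
  simp_rw [e] at this
  rw [intervalIntegral.integral_const_mul] at this
  unfold box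
  rw [← this]

end Pool.Agent.Lib_helper51
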