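import Pool.Agent.Lib_helper51.Circle

set_option autoImplicit false

/-!
# Single crossing and the circle rearrangement inequality for box kernels
-/

open MeasureTheory Set intervalIntegral
open scoped ENNReal

namespace Pool.Agent.Lib_helper51

/-- `m ↦ ∫_{-m/2}^{m/2} f` -/
noncomputable def FF (f : ℝ → ℝ) (m : ℝ) : ℝ := ∫ x in (-(m/2))..(m/2), f x

theorem FF_mono {f : ℝ → ℝ} (hf : BNM f) : Monotone (FF f) := by
  intro x y hxy
  unfold FF
  have i1 := intervalIntegral.integral_add_adjacent_intervals (hf.ii (-(y/2)) (-(x/2))) (hf.ii (-(x/2)) (x/2))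
  have i2 := intervalIntegral.integral_add_adjacent_intervals (hf.ii (-(y/2)) (x/2)) (hf.ii (x/2) (y/2))
  have p1 : 0 ≤ ∫ t in (-(y/2))..(-(x/2)), f t :=
    intervalIntegral.integral_nonneg (by linarith) fun t _ => hf.nonneg t
  have p2 : 0 ≤ ∫ t in (x/2)..(y/2), f t :=
    intervalIntegral.integral_nonneg (by linarith) fun t _ => hf.nonneg t
  linarith

theorem FF_zero {f : ℝ → ℝ} : FF f 0 = 0 := by simp [FF]

theorem FF_nonneg {f : ℝ → ℝ} (hf : BNM f) {m : ℝ} (hm : 0 ≤ m) : 0 ≤ FF f m := by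
  have := FF_mono hf hm
  rwa [FF_zero] at this

theorem FF_concave {f : ℝ → ℝ} (hf : Profile f) {x y : ℝ} (hx : x ∈ Icc (0:ℝ) 1) (hy : y ∈ Icc (0:ℝ) 1) :
    FF f x - FF f y ≤ f (y/2) * (x - y) := by
  have hB := hf.bnm
  unfold FF
  rcases le_total y x with h | h
  · have i1 := intervalIntegral.integral_add_adjacent_intervals (hB.ii (-(x/2)) (-(y/2))) (hB.ii (-(y/2)) (y/2))
    have i2 := intervalIntegral.integral_add_adjacent_intervals (hB.ii (-(x/2)) (y/2)) (hB.ii (y/2) (x/2))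
    have p1 : ∫ t in (-(x/2))..(-(y/2)), f t ≤ ∫ t in (-(x/2))..(-(y/2)), f (y/2) := by
      refine intervalIntegral.integral_mono_on (by linarith) (hB.ii _ _) (by simp) fun t ht => ?_
      rw [← hf.abs_eq t]
      refine hf.anti ⟨by linarith [hy.1], by linarith [hy.2]⟩ ⟨abs_nonneg _, ?_⟩ ?_
      · rw [abs_of_nonpos (by linarith [ht.2, hy.1])]; linarith [ht.1, hx.2]
      · rw [abs_of_nonpos (by linarith [ht.2, hy.1])]; linarith [ht.2]
    have p2 : ∫ t in (y/2)..(x/2), f t ≤ ∫ t in (y/2)..(x/2), f (y/2) := by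
      refine intervalIntegral.integral_mono_on (by linarith) (hB.ii _ _) (by simp) fun t ht => ?_
      exact hf.anti ⟨by linarith [hy.1], by linarith [hy.2]⟩
        ⟨by linarith [ht.1, hy.1], by linarith [ht.2, hx.2]⟩ ht.1
    simp only [intervalIntegral.integral_const, smul_eq_mul] at p1 p2
    nlinarith
  · have i1 := intervalIntegral.integral_add_adjacent_intervals (hB.ii (-(y/2)) (-(x/2))) (hB.ii (-(x/2)) (x/2))
    have i2 := intervalIntegral.integral_add_adjacent_intervals (hB.ii (-(y/2)) (x/2)) (hB.ii (x/2) (y/2))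
    have p1 : ∫ t in (-(y/2))..(-(x/2)), f (y/2) ≤ ∫ t in (-(y/2))..(-(x/2)), f t := by
      refine intervalIntegral.integral_mono_on (by linarith) (by simp) (hB.ii _ _) fun t ht => ?_
      rw [← hf.abs_eq t]
      refine hf.anti ⟨abs_nonneg _, ?_⟩ ⟨by linarith [hy.1], by linarith [hy.2]⟩ ?_
      · rw [abs_of_nonpos (by linarith [ht.2, hx.1])]; linarith [ht.1, hy.2]
      · rw [abs_of_nonpos (by linarith [ht.2, hx.1])]; linarith [ht.1]
    have p2 : ∫ t in (x/2)..(y/2), f (y/2) ≤ ∫ t in (x/2)..(y/2), f t := by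
      refine intervalIntegral.integral_mono_on (by linarith) (by simp) (hB.ii _ _) fun t ht => ?_
      exact hf.anti ⟨by linarith [ht.1, hx.1], by linarith [ht.2, hy.2]⟩
        ⟨by linarith [hy.1], by linarith [hy.2]⟩ ht.2
    simp only [intervalIntegral.integral_const, smul_eq_mul] at p1 p2
    nlinarith

/-- distribution function of the extremal trapezoid -/
noncomputable def bT (β r τ : ℝ) : ℝ :=
  if τ < max 0 (β + 2 * r - 1) then 1 else max 0 (β + 2 * r - 2 * τ)

theorem bT_mem {β r τ : ℝ} : bT β r τ ∈ Icc (0:ℝ) 1 := by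
  unfold bT
  split_ifs with h
  · exact ⟨zero_le_one, le_rfl⟩
  · refine ⟨le_max_left _ _, max_le zero_le_one ?_⟩
    push Not at h
    have h1 := (le_max_left 0 (β + 2 * r - 1)).trans h
    have h2 := (le_max_right 0 (β + 2 * r - 1)).trans h
    linarith

theorem bT_anti {β r : ℝ} : Antitone (bT β r) := by
  intro x y hxy
  by_cases hy : y < max 0 (β + 2 * r - 1)
  · have hx : x < max 0 (β + 2 * r - 1) := lt_of_le_of_lt hxy hy
    simp only [bT, if_pos hx, if_pos hy]
    exact le_rfl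
  · by_cases hx : x < max 0 (β + 2 * r - 1)
    · have := (bT_mem (β := β) (r := r) (τ := y)).2
      have e : bT β r x = 1 := by simp only [bT, if_pos hx]
      rw [e]; exact this
    · simp only [bT, if_neg hx, if_neg hy]
      exact max_le_max le_rfl (by linarith)

theorem bT_int {β r : ℝ} (hβ : β ∈ Icc (0:ℝ) 1) (hr : r ∈ Icc (0:ℝ) (1/2)) :
    ∫ τ in (0:ℝ)..(min β (2 * r)), bT β r τ = 2 * r * β := by
  have hB : BNM (bT β r) := ⟨bT_anti.measurable, fun x => bT_mem.1, ⟨1, fun x => bT_mem.2⟩⟩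
  obtain ⟨hβ0, hβ1⟩ := hβ
  obtain ⟨hr0, hr1⟩ := hr
  set m0 := max 0 (β + 2 * r - 1) with hm0
  have hm00 : 0 ≤ m0 := le_max_left _ _
  have hm0' : β + 2 * r - 1 ≤ m0 := le_max_right _ _
  have hm01 : m0 ≤ min β (2 * r) := by
    refine max_le (le_min hβ0 (by linarith)) (le_min (by linarith) (by linarith))
  have hmb : min β (2 * r) ≤ β := min_le_left _ _
  have hmr : min β (2 * r) ≤ 2 * r := min_le_right _ _
  rw [← intervalIntegral.integral_add_adjacent_intervals (hB.ii 0 m0) (hB.ii m0 _)]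
  have e1 : ∫ τ in (0:ℝ)..m0, bT β r τ = m0 := by
    rw [integral_congr_Ioo (H := fun _ => (1:ℝ)) hm00]
    · simp
    · intro x hx
      simp only [bT]
      exact if_pos hx.2
  have e2 : ∫ τ in m0..(min β (2 * r)), bT β r τ
      = (β + 2 * r) * (min β (2 * r) - m0) - ((min β (2 * r)) ^ 2 - m0 ^ 2) := by
    rw [integral_congr_Ioo (H := fun τ => (β + 2 * r) - 2 * τ) hm01]
    · have hcc : Continuous fun θ : ℝ => 2 * θ := by fun_prop
      have hc1 : IntervalIntegrable (fun _ : ℝ => β + 2 * r) volume m0 (min β (2 * r)) := by simp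
      rw [intervalIntegral.integral_sub hc1 (hcc.intervalIntegrable _ _),
        intervalIntegral.integral_const_mul, integral_id]
      simp only [intervalIntegral.integral_const, smul_eq_mul]
      ring
    · intro x hx
      simp only [bT]
      rw [if_neg (not_lt.2 hx.1.le), max_eq_right]
      linarith [hx.2]
  rw [e1, e2]
  have hq : m0 = 0 ∨ m0 = β + 2 * r - 1 := by
    rcases max_choice 0 (β + 2 * r - 1) with h | h
    · left; exact h
    · right; exact h
  have hp : min β (2 * r) = β ∨ min β (2 * r) = 2 * r := min_choice _ _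
  rcases hq with hq | hq <;> rcases hp with hp | hp <;> rw [hq, hp] <;> ring

theorem circle_layer {χ f : ℝ → ℝ} (hχ : BNM χ) (hχ1 : ∀ x, χ x ≤ 1) (hχp : ∀ x, χ (x + 1) = χ x)
    (hf : Profile f) {r : ℝ} (hr : r ∈ Icc (0:ℝ) (1/2)) :
    ∫ τ in (0:ℝ)..(min (∫ b in (0:ℝ)..1, χ b) (2 * r)),
        FF f (∫ s in (0:ℝ)..1, (if τ < box r χ s then (1:ℝ) else 0))
      ≤ ∫ τ in (0:ℝ)..(min (∫ b in (0:ℝ)..1, χ b) (2 * r)), FF f (bT (∫ b in (0:ℝ)..1, χ b) r τ) := by
  set β := ∫ b in (0:ℝ)..1, χ b with hβdef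
  have hβ0 : 0 ≤ β := intervalIntegral.integral_nonneg zero_le_one fun b _ => hχ.nonneg b
  have hβ1 : β ≤ 1 := by
    calc β ≤ ∫ b in (0:ℝ)..1, (1:ℝ) :=
          intervalIntegral.integral_mono_on zero_le_one (hχ.ii _ _) (by simp) fun b _ => hχ1 b
      _ = 1 := by simp
  obtain ⟨hr0, hr1⟩ := hr
  set h := box r χ with hh
  have hL := box_lip hχ hχ1 (r := r)
  have hc : Continuous h := cont_of_lip hL
  have hper := box_per hχp (r := r)
  set m1 := min β (2 * r) with hm1
  have hm1β : m1 ≤ β := min_le_left _ _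
  have hm1r : m1 ≤ 2 * r := min_le_right _ _
  have hm10 : 0 ≤ m1 := le_min hβ0 (by linarith)
  have hhm1 : ∀ s, h s ≤ m1 := fun s => le_min (box_le_beta hχ hχp hr0 hr1 s) (box_le_two hχ hχ1 hr0 s)
  have hh0 : ∀ s, 0 ≤ h s := fun s => box_nonneg hχ hr0 s
  have hhge : ∀ s, β + 2 * r - 1 ≤ h s := fun s => box_ge hχ hχ1 hχp hr1 s
  set b : ℝ → ℝ := fun τ => ∫ s in (0:ℝ)..1, (if τ < h s then (1:ℝ) else 0) with hb
  have hbanti : Antitone b := by
    intro x y hxy
    refine intervalIntegral.integral_mono_on zero_le_one ((bnm_lt hc.measurable y).ii _ _)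
      ((bnm_lt hc.measurable x).ii _ _) fun s _ => ?_
    split_ifs with c1 c2 c2
    · exact le_rfl
    · exact absurd (lt_of_le_of_lt hxy c1) c2
    · exact zero_le_one
    · exact le_rfl
  have hb0 : ∀ τ, 0 ≤ b τ := fun τ =>
    intervalIntegral.integral_nonneg zero_le_one fun s _ => (bnm_lt hc.measurable τ).nonneg s
  have hb1 : ∀ τ, b τ ≤ 1 := by
    intro τ
    calc b τ ≤ ∫ s in (0:ℝ)..1, (1:ℝ) := by
          refine intervalIntegral.integral_mono_on zero_le_one ((bnm_lt hc.measurable τ).ii _ _)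
            (by simp) fun s _ => ?_
          split_ifs <;> norm_num
      _ = 1 := by simp
  have hbB : BNM b := ⟨hbanti.measurable, hb0, ⟨1, hb1⟩⟩
  -- minimum and maximum
  obtain ⟨xm, -, hxm⟩ := isCompact_Icc.exists_isMinOn (nonempty_Icc.2 (zero_le_one (α := ℝ))) hc.continuousOn
  obtain ⟨xM, -, hxM⟩ := isCompact_Icc.exists_isMaxOn (nonempty_Icc.2 (zero_le_one (α := ℝ))) hc.continuousOn
  have hperf : ∀ s, h (Int.fract s) = h s := by
    intro s
    have hper' : Function.Periodic h 1 := hper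
    have := hper'.sub_int_mul_eq (x := s) ⌊s⌋
    rwa [mul_one] at this
  have hmin : ∀ s, h xm ≤ h s := by
    intro s
    rw [← hperf s]
    exact hxm ⟨Int.fract_nonneg s, (Int.fract_lt_one s).le⟩
  have hmax : ∀ s, h s ≤ h xM := by
    intro s
    rw [← hperf s]
    exact hxM ⟨Int.fract_nonneg s, (Int.fract_lt_one s).le⟩
  have hblow : ∀ τ, τ < h xm → b τ = 1 := by
    intro τ hτ
    have : ∀ s, (if τ < h s then (1:ℝ) else 0) = 1 := fun s => if_pos (hτ.trans_le (hmin s))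
    simp [hb, this]
  have hbhigh : ∀ τ, h xM ≤ τ → b τ = 0 := by
    intro τ hτ
    have : ∀ s, (if τ < h s then (1:ℝ) else 0) = 0 := fun s => if_neg (not_lt.2 ((hmax s).trans hτ))
    simp [hb, this]
  have hcross : ∀ τ τ', h xm ≤ τ → τ < τ' → τ' < h xM → 2 * (τ' - τ) ≤ b τ - b τ' := by
    intro τ τ' h1 h2 h3
    have := crossing hL hper h1 h3.le h2
    rw [intervalIntegral.integral_sub ((bnm_lt hc.measurable τ).ii _ _)
      ((bnm_lt hc.measurable τ').ii _ _)] at this
    exact this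
  have hbTval : ∀ τ, h xm ≤ τ → τ ≤ m1 → bT β r τ = β + 2 * r - 2 * τ := by
    intro τ h1 h2
    simp only [bT]
    rw [if_neg, max_eq_right (by linarith)]
    rw [not_lt]
    exact max_le ((hh0 xm).trans h1) ((hhge xm).trans h1)
  -- crossing level
  set A : Set ℝ := {τ | 0 ≤ τ ∧ τ < h xM ∧ bT β r τ ≤ b τ} ∪ {0} with hA
  have hAne : A.Nonempty := ⟨0, Or.inr rfl⟩
  have hAm : ∀ τ ∈ A, τ ≤ m1 := by
    rintro τ (hτ | hτ)
    · exact hτ.2.1.le.trans (hhm1 _)
    · rw [hτ]; exact hm10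
  have hAb : BddAbove A := ⟨m1, hAm⟩
  set τs := sSup A with hτs
  have hτs0 : 0 ≤ τs := le_csSup hAb (Or.inr rfl)
  have hτs1 : τs ≤ m1 := csSup_le hAne hAm
  have hlt : ∀ τ, 0 ≤ τ → τ < τs → bT β r τ ≤ b τ := by
    intro τ h0 hτ
    obtain ⟨τ'', hτ''A, hττ⟩ := exists_lt_of_lt_csSup hAne hτ
    rcases hτ''A with h'' | h''
    · rcases lt_or_ge τ (h xm) with hl | hl
      · rw [hblow τ hl]; exact bT_mem.2
      · have c := hcross τ τ'' hl hττ h''.2.1
        have v1 := hbTval τ hl (hττ.le.trans (h''.2.1.le.trans (hhm1 _)))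
        have v2 := hbTval τ'' (hl.trans hττ.le) (h''.2.1.le.trans (hhm1 _))
        have := h''.2.2
        linarith
    · rw [h''] at hττ; linarith
  have hgt : ∀ τ, 0 ≤ τ → τs < τ → b τ ≤ bT β r τ := by
    intro τ h0 hτ
    rcases lt_or_ge τ (h xM) with hl | hl
    · by_contra hcon
      push Not at hcon
      have : τ ≤ τs := le_csSup hAb (Or.inl ⟨h0, hl, hcon.le⟩)
      linarith
    · rw [hbhigh τ hl]; exact bT_mem.1
  set Λ := f (bT β r τs / 2) with hΛ
  have hpt : ∀ τ ∈ Icc (0:ℝ) m1, FF f (b τ) - FF f (bT β r τ) ≤ Λ * (b τ - bT β r τ) := by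
    intro τ hτ
    have c1 := FF_concave hf (x := b τ) (y := bT β r τ) ⟨hb0 τ, hb1 τ⟩ bT_mem
    have hmem : ∀ σ, bT β r σ / 2 ∈ Icc (0:ℝ) (1/2) := fun σ => by
      have := bT_mem (β := β) (r := r) (τ := σ)
      exact ⟨by linarith [this.1], by linarith [this.2]⟩
    rcases lt_trichotomy τ τs with h | h | h
    · have a1 := hlt τ hτ.1 h
      have a2 : f (bT β r τ / 2) ≤ Λ := hf.anti (hmem _) (hmem _) (by linarith [bT_anti (β := β) (r := r) h.le])
      nlinarith
    · rw [h] at c1 ⊢; exact c1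
    · have a1 := hgt τ hτ.1 h
      have a2 : Λ ≤ f (bT β r τ / 2) := hf.anti (hmem _) (hmem _) (by linarith [bT_anti (β := β) (r := r) h.le])
      nlinarith
  have hbTB : BNM (bT β r) := ⟨bT_anti.measurable, fun x => bT_mem.1, ⟨1, fun x => bT_mem.2⟩⟩
  have hF1 : BNM (fun τ => FF f (b τ)) :=
    ⟨(FF_mono hf.bnm).measurable.comp hbanti.measurable, fun τ => FF_nonneg hf.bnm (hb0 τ),
      ⟨FF f 1, fun τ => FF_mono hf.bnm (hb1 τ)⟩⟩
  have hF2 : BNM (fun τ => FF f (bT β r τ)) :=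
    ⟨(FF_mono hf.bnm).measurable.comp bT_anti.measurable, fun τ => FF_nonneg hf.bnm bT_mem.1,
      ⟨FF f 1, fun τ => FF_mono hf.bnm bT_mem.2⟩⟩
  have key : ∫ τ in (0:ℝ)..m1, (FF f (b τ) - FF f (bT β r τ)) ≤ ∫ τ in (0:ℝ)..m1, Λ * (b τ - bT β r τ) :=
    intervalIntegral.integral_mono_on hm10 ((hF1.ii _ _).sub (hF2.ii _ _))
      (((hbB.ii _ _).sub (hbTB.ii _ _)).const_mul _) hpt
  rw [intervalIntegral.integral_sub (hF1.ii _ _) (hF2.ii _ _), intervalIntegral.integral_const_mul,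
    intervalIntegral.integral_sub (hbB.ii _ _) (hbTB.ii _ _)] at key
  have t1 : ∫ τ in (0:ℝ)..m1, bT β r τ = 2 * r * β := bT_int ⟨hβ0, hβ1⟩ ⟨hr0, hr1⟩
  have t2 : ∫ τ in (0:ℝ)..m1, b τ = 2 * r * β := by
    have hsw := swap_ii (F := fun τ s => if τ < h s then (1:ℝ) else 0) (C := 1) ?_ ?_ hm10
      (zero_le_one (α := ℝ))
    · simp only [hb]
      rw [hsw]
      have : ∀ s, ∫ τ in (0:ℝ)..m1, (if τ < h s then (1:ℝ) else 0) = h s := fun s =>
        layer_ind (hh0 s) (hhm1 s)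
      simp_rw [this]
      exact box_total hχ hχp hr0
    · exact Measurable.ite (measurableSet_lt measurable_fst (hc.measurable.comp measurable_snd))
        measurable_const measurable_const
    · intro x y
      split_ifs <;> simp
  rw [t1, t2] at key
  linarith

end Pool.Agent.Lib_helper51
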