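import Pool.Agent.Lib_helper51.Circle2

set_option autoImplicit false

/-!
# The circle rearrangement inequality for box kernels
-/

open MeasureTheory Set intervalIntegral
open scoped ENNReal

namespace Pool.Agent.Lib_helper51

theorem circle_upper {w χ f : ℝ → ℝ} (hw : BNM w) (hf : Profile f)
    (hset : ∀ A : Set ℝ, MeasurableSet A → A ⊆ Icc 0 1 → ∫ x in A, w x ≤ FF f (volume A).toReal)
    (hχ : BNM χ) (hχ1 : ∀ x, χ x ≤ 1) (hχp : ∀ x, χ (x + 1) = χ x)
    {r : ℝ} (hr : r ∈ Icc (0:ℝ) (1/2)) :
    ∫ s in (0:ℝ)..1, w s * box r χ s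
      ≤ ∫ τ in (0:ℝ)..(min (∫ b in (0:ℝ)..1, χ b) (2 * r)),
        FF f (∫ s in (0:ℝ)..1, (if τ < box r χ s then (1:ℝ) else 0)) := by
  set β := ∫ b in (0:ℝ)..1, χ b with hβdef
  have hβ0 : 0 ≤ β := intervalIntegral.integral_nonneg zero_le_one fun b _ => hχ.nonneg b
  obtain ⟨hr0, hr1⟩ := hr
  set h := box r χ with hh
  have hL := box_lip hχ hχ1 (r := r)
  have hc : Continuous h := cont_of_lip hL
  set m1 := min β (2 * r) with hm1
  have hm10 : 0 ≤ m1 := le_min hβ0 (by linarith)
  have hhm1 : ∀ s, h s ≤ m1 := fun s => le_min (box_le_beta hχ hχp hr0 hr1 s) (box_le_two hχ hχ1 hr0 s)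
  have hh0 : ∀ s, 0 ≤ h s := fun s => box_nonneg hχ hr0 s
  obtain ⟨Mw, hMw⟩ := hw.bdd
  have hMw0 : 0 ≤ Mw := (hw.nonneg 0).trans (hMw 0)
  have hind : Measurable (Function.uncurry fun s τ => w s * (if τ < h s then (1:ℝ) else 0)) :=
    (hw.meas.comp measurable_fst).mul
      (Measurable.ite (measurableSet_lt measurable_snd (hc.measurable.comp measurable_fst))
        measurable_const measurable_const)
  have e1 : ∫ s in (0:ℝ)..1, w s * h s
      = ∫ τ in (0:ℝ)..m1, ∫ s in (0:ℝ)..1, w s * (if τ < h s then (1:ℝ) else 0) := by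
    rw [← swap_ii hind (C := Mw) ?_ zero_le_one hm10]
    · refine intervalIntegral.integral_congr fun s _ => ?_
      change w s * h s = ∫ τ in (0:ℝ)..m1, w s * (if τ < h s then (1:ℝ) else 0)
      rw [intervalIntegral.integral_const_mul, layer_ind (hh0 s) (hhm1 s)]
    · intro s τ
      rw [abs_mul, abs_of_nonneg (hw.nonneg _)]
      split_ifs
      · simpa using hMw s
      · simpa using hMw0
  rw [e1]
  have hb0 : ∀ τ, 0 ≤ ∫ s in (0:ℝ)..1, (if τ < h s then (1:ℝ) else 0) := fun τ =>
    intervalIntegral.integral_nonneg zero_le_one fun s _ => (bnm_lt hc.measurable τ).nonneg s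
  have hb1 : ∀ τ, ∫ s in (0:ℝ)..1, (if τ < h s then (1:ℝ) else 0) ≤ 1 := by
    intro τ
    calc _ ≤ ∫ s in (0:ℝ)..1, (1:ℝ) := by
          refine intervalIntegral.integral_mono_on zero_le_one ((bnm_lt hc.measurable τ).ii _ _)
            (by simp) fun s _ => ?_
          split_ifs <;> norm_num
      _ = 1 := by simp
  have hindm : Measurable (Function.uncurry fun τ s => if τ < h s then (1:ℝ) else 0) :=
    Measurable.ite (measurableSet_lt measurable_fst (hc.measurable.comp measurable_snd))
      measurable_const measurable_const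
  have hB1 : BNM (fun τ => FF f (∫ s in (0:ℝ)..1, (if τ < h s then (1:ℝ) else 0))) :=
    ⟨(FF_mono hf.bnm).measurable.comp (measurable_param hindm zero_le_one),
      fun τ => FF_nonneg hf.bnm (hb0 τ), ⟨FF f 1, fun τ => FF_mono hf.bnm (hb1 τ)⟩⟩
  have hB2 : BNM (fun τ => ∫ s in (0:ℝ)..1, w s * (if τ < h s then (1:ℝ) else 0)) := by
    refine ⟨measurable_param (F := fun τ s => w s * (if τ < h s then (1:ℝ) else 0)) ?_ zero_le_one,
      ?_, ⟨Mw, ?_⟩⟩
    · exact (hw.meas.comp measurable_snd).mul hindm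
    · intro τ
      refine intervalIntegral.integral_nonneg zero_le_one fun s _ => ?_
      exact mul_nonneg (hw.nonneg _) ((bnm_lt hc.measurable τ).nonneg s)
    · intro τ
      have hint : BNM (fun s => w s * (if τ < h s then (1:ℝ) else 0)) := by
        refine ⟨hw.meas.mul (bnm_lt hc.measurable τ).meas, fun s =>
          mul_nonneg (hw.nonneg _) ((bnm_lt hc.measurable τ).nonneg s), ⟨Mw, fun s => ?_⟩⟩
        split_ifs
        · simpa using hMw s
        · simpa using hMw0
      calc ∫ s in (0:ℝ)..1, w s * (if τ < h s then (1:ℝ) else 0) ≤ ∫ s in (0:ℝ)..1, Mw := by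
            refine intervalIntegral.integral_mono_on zero_le_one (hint.ii _ _) (by simp) fun s _ => ?_
            split_ifs
            · simpa using hMw s
            · simpa using hMw0
        _ = Mw := by simp
  refine intervalIntegral.integral_mono_on hm10 (hB2.ii _ _) (hB1.ii _ _) fun τ _ => ?_
  set A : Set ℝ := Ioc (0:ℝ) 1 ∩ {s | τ < h s} with hA
  have hAm : MeasurableSet A := measurableSet_Ioc.inter (measurableSet_lt measurable_const hc.measurable)
  have hAs : A ⊆ Icc 0 1 := fun x hx => Ioc_subset_Icc_self hx.1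
  have q1 : ∫ s in (0:ℝ)..1, w s * (if τ < h s then (1:ℝ) else 0) = ∫ x in A, w x := by
    rw [intervalIntegral.integral_of_le zero_le_one, hA,
      ← setIntegral_indicator (measurableSet_lt measurable_const hc.measurable)]
    refine setIntegral_congr_fun measurableSet_Ioc fun s _ => ?_
    by_cases hs : τ < h s
    · rw [indicator_of_mem (by exact hs)]; simp [hs]
    · rw [indicator_of_notMem (by exact hs)]; simp [hs]
  have q2 : ∫ s in (0:ℝ)..1, (if τ < h s then (1:ℝ) else 0) = (volume A).toReal := by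
    have : ∫ s in (0:ℝ)..1, (if τ < h s then (1:ℝ) else 0) = ∫ x in A, (1:ℝ) := by
      rw [intervalIntegral.integral_of_le zero_le_one, hA,
        ← setIntegral_indicator (measurableSet_lt measurable_const hc.measurable)]
      refine setIntegral_congr_fun measurableSet_Ioc fun s _ => ?_
      by_cases hs : τ < h s
      · rw [indicator_of_mem (by exact hs)]; simp [hs]
      · rw [indicator_of_notMem (by exact hs)]; simp [hs]
    rw [this]
    simp [Measure.real]
  rw [q1, q2]
  exact hset A hAm hAs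

/-- the centred periodic indicator -/
noncomputable def chiT (β x : ℝ) : ℝ := if |x - round x| < β / 2 then 1 else 0

theorem chiT_bnm {β : ℝ} : BNM (chiT β) := by
  refine ⟨?_, ?_, ⟨1, ?_⟩⟩
  · refine Measurable.ite (measurableSet_lt ?_ measurable_const) measurable_const measurable_const
    have hr : Measurable (fun x : ℝ => (round x : ℝ)) := by
      have h1 : (fun x : ℝ => (round x : ℝ)) = fun x => ((⌊x + 1/2⌋ : ℤ) : ℝ) := by
        funext x; rw [round_eq]
      rw [h1]
      exact (Measurable.of_discrete (f := fun n : ℤ => (n : ℝ))).comp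
        (Int.measurable_floor.comp (measurable_id.add_const _))
    exact (measurable_id.sub hr).abs
  · intro x; unfold chiT; split_ifs <;> norm_num
  · intro x; unfold chiT; split_ifs <;> norm_num

theorem chiT_le {β : ℝ} (x : ℝ) : chiT β x ≤ 1 := by unfold chiT; split_ifs <;> norm_num

theorem chiT_per {β : ℝ} (x : ℝ) : chiT β (x + 1) = chiT β x := by
  unfold chiT
  rw [round_add_one]
  push_cast
  rw [show x + 1 - ((round x : ℝ) + 1) = x - round x by ring]

theorem chiT_eq {β x : ℝ} (hx : x ∈ Ioo (-(1/2) : ℝ) (1/2)) :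
    chiT β x = if |x| < β / 2 then 1 else 0 := by
  unfold chiT
  have : round x = 0 := by
    rw [round_eq, Int.floor_eq_iff]
    constructor
    · push_cast; linarith [hx.1]
    · push_cast; linarith [hx.2]
  rw [this]
  simp

theorem int_half_eq {g : ℝ → ℝ} (hg : ∀ x, g (x + 1) = g x) :
    ∫ x in (-(1/2) : ℝ)..(1/2), g x = ∫ x in (0:ℝ)..1, g x := by
  have hg' : Function.Periodic g 1 := hg
  have := hg'.intervalIntegral_add_eq (-(1/2)) 0
  rw [zero_add] at this
  rw [← this]
  congr 1
  norm_num

theorem chiT_int {β : ℝ} (hβ : β ∈ Icc (0:ℝ) 1) : ∫ x in (0:ℝ)..1, chiT β x = β := by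
  rw [← int_half_eq chiT_per]
  have hB := chiT_bnm (β := β)
  obtain ⟨h0, h1⟩ := hβ
  rw [← intervalIntegral.integral_add_adjacent_intervals (hB.ii (-(1/2)) (-(β/2))) (hB.ii _ _),
    ← intervalIntegral.integral_add_adjacent_intervals (hB.ii (-(β/2)) (β/2)) (hB.ii _ _)]
  have e1 : ∫ x in (-(1/2) : ℝ)..(-(β/2)), chiT β x = 0 := by
    rw [integral_congr_Ioo (H := fun _ => (0:ℝ)) (by linarith)]
    · simp
    · intro x hx
      rw [chiT_eq ⟨by linarith [hx.1], by linarith [hx.2]⟩, if_neg]
      rw [abs_of_nonpos (by linarith [hx.2])]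
      linarith [hx.2]
  have e3 : ∫ x in (β/2)..(1/2), chiT β x = 0 := by
    rw [integral_congr_Ioo (H := fun _ => (0:ℝ)) (by linarith)]
    · simp
    · intro x hx
      rw [chiT_eq ⟨by linarith [hx.1], by linarith [hx.2]⟩, if_neg]
      rw [abs_of_nonneg (by linarith [hx.1])]
      linarith [hx.1]
  have e2 : ∫ x in (-(β/2))..(β/2), chiT β x = β := by
    rw [integral_congr_Ioo (H := fun _ => (1:ℝ)) (by linarith)]
    · simp
    · intro x hx
      rw [chiT_eq ⟨by linarith [hx.1], by linarith [hx.2]⟩, if_pos]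
      exact abs_lt.2 hx
  rw [e1, e2, e3]; ring

theorem circle_lower {f : ℝ → ℝ} (hf : Profile f) {β r : ℝ} (hβ : β ∈ Icc (0:ℝ) 1)
    (hr : r ∈ Icc (0:ℝ) (1/2)) :
    ∫ τ in (0:ℝ)..(min β (2 * r)), FF f (bT β r τ) ≤ ∫ b in (-(β/2))..(β/2), box r f b := by
  obtain ⟨hβ0, hβ1⟩ := hβ
  obtain ⟨hr0, hr1⟩ := hr
  have hfB := hf.bnm
  obtain ⟨Mf, hMf⟩ := hfB.bdd
  have hMf0 : 0 ≤ Mf := (hfB.nonneg 0).trans (hMf 0)
  have hTB := chiT_bnm (β := β)
  set T := box r (chiT β) with hT
  have hTc : Continuous T := cont_of_lip (box_lip hTB chiT_le)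
  have hTper := box_per (chiT_per (β := β)) (r := r)
  set m1 := min β (2 * r) with hm1
  have hm1β : m1 ≤ β := min_le_left _ _
  have hm1r : m1 ≤ 2 * r := min_le_right _ _
  have hm10 : 0 ≤ m1 := le_min hβ0 (by linarith)
  have hint := chiT_int (β := β) ⟨hβ0, hβ1⟩
  have hTm1 : ∀ s, T s ≤ m1 := fun s =>
    le_min ((box_le_beta hTB chiT_per hr0 hr1 s).trans hint.le) (box_le_two hTB chiT_le hr0 s)
  have hT0 : ∀ s, 0 ≤ T s := fun s => box_nonneg hTB hr0 s
  have hTge : ∀ s, β + 2 * r - 1 ≤ T s := fun s => by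
    have := box_ge hTB chiT_le chiT_per hr1 s
    rwa [hint] at this
  have hboxfB : BNM (box r f) := by
    refine ⟨?_, fun s => box_nonneg hfB hr0 s, ⟨Mf * (2 * r), fun s => ?_⟩⟩
    · unfold box
      have e : ∀ s, ∫ b in (s - r)..(s + r), f b = ∫ t in (-r)..r, f (s + t) := by
        intro s
        rw [intervalIntegral.integral_comp_add_left]
        congr 1
      simp_rw [e]
      exact measurable_param (F := fun s t => f (s + t))
        (hfB.meas.comp (measurable_fst.add measurable_snd)) (by linarith)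
    · calc box r f s ≤ ∫ b in (s - r)..(s + r), Mf :=
            intervalIntegral.integral_mono_on (by linarith) (hfB.ii _ _) (by simp) fun b _ => hMf b
        _ = Mf * (2 * r) := by
            simp only [intervalIntegral.integral_const, smul_eq_mul]; ring
  -- rewrite the right-hand side
  have hprod : BNM (fun b => chiT β b * box r f b) := by
    obtain ⟨K, hK⟩ := hboxfB.bdd
    refine ⟨hTB.meas.mul hboxfB.meas, fun b => mul_nonneg (hTB.nonneg _) (hboxfB.nonneg _), ⟨K, fun b => ?_⟩⟩
    calc chiT β b * box r f b ≤ 1 * box r f b :=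
          mul_le_mul_of_nonneg_right (chiT_le b) (hboxfB.nonneg _)
      _ ≤ K := by rw [one_mul]; exact hK b
  have r1 : ∫ b in (-(β/2))..(β/2), box r f b = ∫ b in (-(1/2) : ℝ)..(1/2), chiT β b * box r f b := by
    rw [← intervalIntegral.integral_add_adjacent_intervals (hprod.ii (-(1/2)) (-(β/2))) (hprod.ii _ _),
      ← intervalIntegral.integral_add_adjacent_intervals (hprod.ii (-(β/2)) (β/2)) (hprod.ii _ _)]
    have e1 : ∫ x in (-(1/2) : ℝ)..(-(β/2)), chiT β x * box r f x = 0 := by
      rw [integral_congr_Ioo (H := fun _ => (0:ℝ)) (by linarith)]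
      · simp
      · intro x hx
        rw [chiT_eq ⟨by linarith [hx.1], by linarith [hx.2]⟩, if_neg, zero_mul]
        rw [abs_of_nonpos (by linarith [hx.2])]
        linarith [hx.2]
    have e3 : ∫ x in (β/2)..(1/2), chiT β x * box r f x = 0 := by
      rw [integral_congr_Ioo (H := fun _ => (0:ℝ)) (by linarith)]
      · simp
      · intro x hx
        rw [chiT_eq ⟨by linarith [hx.1], by linarith [hx.2]⟩, if_neg, zero_mul]
        rw [abs_of_nonneg (by linarith [hx.1])]
        linarith [hx.1]
    have e2 : ∫ x in (-(β/2))..(β/2), chiT β x * box r f x = ∫ x in (-(β/2))..(β/2), box r f x := by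
      refine integral_congr_Ioo (by linarith) ?_
      intro x hx
      rw [chiT_eq ⟨by linarith [hx.1], by linarith [hx.2]⟩, if_pos, one_mul]
      exact abs_lt.2 hx
    rw [e1, e2, e3]; ring
  have r2 : ∫ b in (-(1/2) : ℝ)..(1/2), chiT β b * box r f b = ∫ s in (-(1/2) : ℝ)..(1/2), f s * T s := by
    rw [int_half_eq (g := fun b => chiT β b * box r f b)
      (fun x => by simp only [chiT_per, box_per hf.per]),
      int_half_eq (g := fun s => f s * T s) (fun x => by
        change f (x + 1) * T (x + 1) = f x * T x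
        rw [hf.per, hT, hTper])]
    exact box_swap hTB chiT_per hfB hf.per hr0
  rw [r1, r2]
  -- pointwise lower bound for T
  have hTlow : ∀ s, min m1 (β/2 + r - |s|) ≤ T s := by
    intro s
    by_cases hneg : min m1 (β/2 + r - |s|) ≤ 0
    · exact hneg.trans (hT0 s)
    push Not at hneg
    have hp2 : 0 < β/2 + r - |s| := lt_of_lt_of_le hneg (min_le_right _ _)
    have hs1 := neg_abs_le s
    have hs2 := le_abs_self s
    set lo := max (s - r) (-(β/2)) with hlo
    set hi := min (s + r) (β/2) with hhi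
    have hlohi : lo ≤ hi := by
      refine max_le (le_min (by linarith) ?_) (le_min ?_ (by linarith)) <;> linarith
    have hsub : ∫ b in lo..hi, chiT β b ≤ T s :=
      intervalIntegral.integral_mono_interval (le_max_left _ _) hlohi (min_le_left _ _)
        (Filter.Eventually.of_forall hTB.nonneg) (hTB.ii _ _)
    have hval : ∫ b in lo..hi, chiT β b = hi - lo := by
      rw [integral_congr_Ioo (H := fun _ => (1:ℝ)) hlohi]
      · simp
      · intro x hx
        have a1 : -(β/2) < x := lt_of_le_of_lt (le_max_right _ _) hx.1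
        have a2 : x < β/2 := lt_of_lt_of_le hx.2 (min_le_right _ _)
        rw [chiT_eq ⟨by linarith, by linarith⟩, if_pos (abs_lt.2 ⟨a1, a2⟩)]
    rw [hval] at hsub
    refine le_trans ?_ hsub
    have k1 : hi = s + r ∨ hi = β/2 := min_choice _ _
    have k2 : lo = s - r ∨ lo = -(β/2) := max_choice _ _
    have l1 := min_le_left m1 (β/2 + r - |s|)
    have l2 := min_le_right m1 (β/2 + r - |s|)
    rcases k1 with k1 | k1 <;> rcases k2 with k2 | k2 <;> rw [k1, k2] <;> linarith
  have hTind : ∀ s τ, 0 < τ → τ < m1 → (if |s| < bT β r τ / 2 then (1:ℝ) else 0)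
      ≤ (if τ < T s then (1:ℝ) else 0) := by
    intro s τ h0 h1
    by_cases hc : |s| < bT β r τ / 2
    · rw [if_pos hc, if_pos]
      by_cases hτ : τ < max 0 (β + 2 * r - 1)
      · exact hτ.trans_le (max_le (hT0 s) (hTge s))
      · have e : bT β r τ = β + 2 * r - 2 * τ := by
          simp only [bT]
          rw [if_neg hτ, max_eq_right (by linarith)]
        rw [e] at hc
        refine lt_of_lt_of_le ?_ (hTlow s)
        exact lt_min h1 (by linarith)
    · rw [if_neg hc]
      split_ifs <;> norm_num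
  have hbTm : Measurable (bT β r) := bT_anti.measurable
  have hindm : Measurable (Function.uncurry fun s τ => f s * (if |s| < bT β r τ / 2 then (1:ℝ) else 0)) :=
    (hfB.meas.comp measurable_fst).mul
      (Measurable.ite (measurableSet_lt measurable_fst.abs ((hbTm.comp measurable_snd).div_const 2))
        measurable_const measurable_const)
  have hTB2 : BNM T := ⟨hTc.measurable, hT0, ⟨m1, hTm1⟩⟩
  have hfT : BNM (fun s => f s * T s) := by
    refine ⟨hfB.meas.mul hTB2.meas, fun b => mul_nonneg (hfB.nonneg _) (hT0 _), ⟨Mf * m1, fun b => ?_⟩⟩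
    exact mul_le_mul (hMf _) (hTm1 _) (hT0 _) hMf0
  have step : ∫ s in (-(1/2) : ℝ)..(1/2), ∫ τ in (0:ℝ)..m1, f s * (if |s| < bT β r τ / 2 then (1:ℝ) else 0)
      ≤ ∫ s in (-(1/2) : ℝ)..(1/2), f s * T s := by
    have hlhsB : BNM (fun s => ∫ τ in (0:ℝ)..m1, f s * (if |s| < bT β r τ / 2 then (1:ℝ) else 0)) := by
      refine ⟨measurable_param hindm hm10, fun s => ?_, ⟨Mf * m1, fun s => ?_⟩⟩
      · refine intervalIntegral.integral_nonneg hm10 fun τ _ => mul_nonneg (hfB.nonneg _) ?_
        split_ifs <;> norm_num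
      · have hBi : BNM (fun τ => f s * (if |s| < bT β r τ / 2 then (1:ℝ) else 0)) := by
          refine ⟨measurable_const.mul (Measurable.ite (measurableSet_lt measurable_const
            (hbTm.div_const 2)) measurable_const measurable_const), fun τ => mul_nonneg (hfB.nonneg _) ?_,
            ⟨Mf, fun τ => ?_⟩⟩
          · split_ifs <;> norm_num
          · split_ifs
            · simpa using hMf s
            · simpa using hMf0
        calc _ ≤ ∫ τ in (0:ℝ)..m1, Mf := by
              refine intervalIntegral.integral_mono_on hm10 (hBi.ii _ _) (by simp) fun τ _ => ?_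
              split_ifs
              · simpa using hMf s
              · simpa using hMf0
          _ = Mf * m1 := by simp [mul_comm]
    refine intervalIntegral.integral_mono_on (by norm_num) (hlhsB.ii _ _) (hfT.ii _ _) fun s _ => ?_
    rw [intervalIntegral.integral_const_mul]
    refine mul_le_mul_of_nonneg_left ?_ (hfB.nonneg s)
    have hI1 : BNM (fun τ => if |s| < bT β r τ / 2 then (1:ℝ) else 0) := by
      refine ⟨Measurable.ite (measurableSet_lt measurable_const
            (hbTm.div_const 2)) measurable_const measurable_const, fun τ => ?_, ⟨1, fun τ => ?_⟩⟩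
      · split_ifs <;> norm_num
      · split_ifs <;> norm_num
    have hI2 : BNM (fun τ => if τ < T s then (1:ℝ) else 0) := by
      refine ⟨Measurable.ite measurableSet_Iio measurable_const measurable_const, fun τ => ?_, ⟨1, fun τ => ?_⟩⟩
      · split_ifs <;> norm_num
      · split_ifs <;> norm_num
    calc ∫ τ in (0:ℝ)..m1, (if |s| < bT β r τ / 2 then (1:ℝ) else 0)
        ≤ ∫ τ in (0:ℝ)..m1, (if τ < T s then (1:ℝ) else 0) := by
          rw [intervalIntegral.integral_of_le hm10, intervalIntegral.integral_of_le hm10,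
            integral_Ioc_eq_integral_Ioo, integral_Ioc_eq_integral_Ioo]
          refine setIntegral_mono_on (hI1.integrableOn (by simp)) (hI2.integrableOn (by simp))
            measurableSet_Ioo fun τ hτ => hTind s τ hτ.1 hτ.2
      _ = T s := layer_ind (hT0 s) (hTm1 s)
  refine le_trans (le_of_eq ?_) step
  rw [swap_ii hindm (C := Mf) ?_ (by norm_num) hm10]
  · refine intervalIntegral.integral_congr fun τ _ => ?_
    change FF f (bT β r τ) = ∫ s in (-(1/2) : ℝ)..(1/2), f s * (if |s| < bT β r τ / 2 then (1:ℝ) else 0)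
    obtain ⟨hb0, hb1⟩ := bT_mem (β := β) (r := r) (τ := τ)
    set m := bT β r τ with hm
    have hBi : BNM (fun s => f s * (if |s| < m / 2 then (1:ℝ) else 0)) := by
      refine ⟨hfB.meas.mul (Measurable.ite (measurableSet_lt measurable_id.abs
            measurable_const) measurable_const measurable_const), fun s => mul_nonneg (hfB.nonneg _) ?_,
            ⟨Mf, fun s => ?_⟩⟩
      · split_ifs <;> norm_num
      · split_ifs
        · simpa using hMf s
        · simpa using hMf0
    rw [← intervalIntegral.integral_add_adjacent_intervals (hBi.ii (-(1/2)) (-(m/2))) (hBi.ii _ _),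
      ← intervalIntegral.integral_add_adjacent_intervals (hBi.ii (-(m/2)) (m/2)) (hBi.ii _ _)]
    have e1 : ∫ s in (-(1/2) : ℝ)..(-(m/2)), f s * (if |s| < m / 2 then (1:ℝ) else 0) = 0 := by
      rw [integral_congr_Ioo (H := fun _ => (0:ℝ)) (by linarith)]
      · simp
      · intro x hx
        rw [if_neg, mul_zero]
        rw [abs_of_nonpos (by linarith [hx.2])]
        linarith [hx.2]
    have e3 : ∫ s in (m/2)..(1/2), f s * (if |s| < m / 2 then (1:ℝ) else 0) = 0 := by
      rw [integral_congr_Ioo (H := fun _ => (0:ℝ)) (by linarith)]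
      · simp
      · intro x hx
        rw [if_neg, mul_zero]
        rw [abs_of_nonneg (by linarith [hx.1])]
        linarith [hx.1]
    have e2 : ∫ s in (-(m/2))..(m/2), f s * (if |s| < m / 2 then (1:ℝ) else 0)
        = ∫ s in (-(m/2))..(m/2), f s := by
      refine integral_congr_Ioo (by linarith) ?_
      intro x hx
      rw [if_pos (abs_lt.2 hx), mul_one]
    rw [e1, e2, e3]
    unfold FF
    ring
  · intro s τ
    rw [abs_mul, abs_of_nonneg (hfB.nonneg _)]
    split_ifs
    · simpa using hMf s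
    · simpa using hMf0

/-- Circle rearrangement for box kernels. -/
theorem circle_box {w χ f : ℝ → ℝ} (hw : BNM w) (hf : Profile f)
    (hset : ∀ A : Set ℝ, MeasurableSet A → A ⊆ Icc 0 1 → ∫ x in A, w x ≤ FF f (volume A).toReal)
    (hχ : BNM χ) (hχ1 : ∀ x, χ x ≤ 1) (hχp : ∀ x, χ (x + 1) = χ x)
    {r : ℝ} (hr : r ∈ Icc (0:ℝ) (1/2)) :
    ∫ s in (0:ℝ)..1, w s * box r χ s
      ≤ ∫ b in (-((∫ b in (0:ℝ)..1, χ b)/2))..((∫ b in (0:ℝ)..1, χ b)/2), box r f b := by
  have hβ0 : 0 ≤ ∫ b in (0:ℝ)..1, χ b :=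
    intervalIntegral.integral_nonneg zero_le_one fun b _ => hχ.nonneg b
  have hβ1 : ∫ b in (0:ℝ)..1, χ b ≤ 1 := by
    calc ∫ b in (0:ℝ)..1, χ b ≤ ∫ b in (0:ℝ)..1, (1:ℝ) :=
          intervalIntegral.integral_mono_on zero_le_one (hχ.ii _ _) (by simp) fun b _ => hχ1 b
      _ = 1 := by simp
  exact (circle_upper hw hf hset hχ hχ1 hχp hr).trans
    ((circle_layer hχ hχ1 hχp hf hr).trans (circle_lower hf ⟨hβ0, hβ1⟩ hr))

end Pool.Agent.Lib_helper51
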