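import Pool.Agent.Lib_helper51.Circle3

set_option autoImplicit false

/-!
# Window-wise majorization is preserved by convolution with good kernels
-/

open MeasureTheory Set intervalIntegral
open scoped ENNReal

namespace Pool.Agent.Lib_helper51

/-- good kernels: symmetric decreasing on the line with symmetric decreasing periodization -/
structure Ker (κ : ℝ → ℝ) : Prop where
  meas : Measurable κ
  nonneg : ∀ x, 0 ≤ κ x
  even : ∀ x, κ (-x) = κ x
  anti : AntitoneOn κ (Ici 0)
  int : Integrable κ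
  per : ∃ K : ℝ → ℝ, Measurable K ∧ (∀ x, 0 ≤ K x) ∧ (∀ x, K (-x) = K x) ∧
    AntitoneOn K (Icc 0 (1/2)) ∧
    ∀ g : ℝ → ℝ≥0∞, Measurable g → (∀ x, g (x + 1) = g x) →
      ∫⁻ s, g s * ENNReal.ofReal (κ s) = ∫⁻ s in Icc (-(1/2) : ℝ) (1/2), g s * ENNReal.ofReal (K s)

/-- convolution -/
noncomputable def cv (κ v : ℝ → ℝ) (x : ℝ) : ℝ := ∫ s, v (x - s) * κ s

theorem sym_abel_half {K : ℝ → ℝ} (hm : Measurable K) (h0 : ∀ x, 0 ≤ K x) (heven : ∀ x, K (-x) = K x)
    (hanti : AntitoneOn K (Icc 0 (1/2))) {F G : ℝ → ℝ≥0∞} (hF : Measurable F) (hG : Measurable G)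
    (h : ∀ r ∈ Icc (0:ℝ) (1/2), ∫⁻ x in Icc (-r) r, F x ≤ ∫⁻ x in Icc (-r) r, G x) :
    ∫⁻ x in Icc (-(1/2) : ℝ) (1/2), F x * ENNReal.ofReal (K x)
      ≤ ∫⁻ x in Icc (-(1/2) : ℝ) (1/2), G x * ENNReal.ofReal (K x) := by
  set I : Set ℝ := Icc (-(1/2) : ℝ) (1/2) with hI
  have hIm : MeasurableSet I := measurableSet_Icc
  have hIsym : ∀ x, -x ∈ I ↔ x ∈ I := by
    intro x; simp only [hI, mem_Icc]; constructor <;> rintro ⟨a, b⟩ <;> constructor <;> linarith
  have key := sym_abel (κ := I.indicator K) (hm.indicator hIm)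
    (fun x => indicator_nonneg (fun y _ => h0 y) x) ?_ ?_ (hF.indicator hIm) (hG.indicator hIm) ?_
  · have e : ∀ H : ℝ → ℝ≥0∞, ∫⁻ x, I.indicator H x * ENNReal.ofReal (I.indicator K x)
        = ∫⁻ x in I, H x * ENNReal.ofReal (K x) := by
      intro H
      rw [← lintegral_indicator hIm]
      refine lintegral_congr fun x => ?_
      by_cases hx : x ∈ I
      · simp [indicator_of_mem hx]
      · simp [indicator_of_notMem hx]
    rwa [e, e] at key
  · intro x
    by_cases hx : x ∈ I
    · rw [indicator_of_mem hx, indicator_of_mem ((hIsym x).2 hx), heven]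
    · rw [indicator_of_notMem hx, indicator_of_notMem (fun h => hx ((hIsym x).1 h))]
  · intro x hx y hy hxy
    rw [mem_Ici] at hx hy
    by_cases hyI : y ∈ I
    · have hxI : x ∈ I := ⟨by linarith [hyI.1], by linarith [hyI.2]⟩
      rw [indicator_of_mem hxI, indicator_of_mem hyI]
      exact hanti ⟨hx, hxI.2⟩ ⟨hy, hyI.2⟩ hxy
    · rw [indicator_of_notMem hyI]
      exact indicator_nonneg (fun y _ => h0 y) x
  · intro r hr
    rw [setLIntegral_indicator hIm, setLIntegral_indicator hIm]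
    have : I ∩ Icc (-r) r = Icc (-(min r (1/2))) (min r (1/2)) := by
      rcases le_total r (1/2) with h' | h'
      · rw [min_eq_left h', hI]
        exact inter_eq_right.2 (Icc_subset_Icc (by linarith) h')
      · rw [min_eq_right h', hI]
        exact inter_eq_left.2 (Icc_subset_Icc (by linarith) h')
    rw [this]
    exact h _ ⟨le_min hr (by norm_num), min_le_right _ _⟩

theorem BNM.integrable_mul {v κ : ℝ → ℝ} (hv : BNM v) (hκ : Integrable κ) (x : ℝ) :
    Integrable (fun s => v (x - s) * κ s) := by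
  obtain ⟨M, hM⟩ := hv.bdd
  refine hκ.bdd_mul (c := M) ((hv.meas.comp (measurable_const.sub measurable_id)).aestronglyMeasurable) ?_
  refine Filter.Eventually.of_forall fun s => ?_
  rw [Real.norm_eq_abs, abs_of_nonneg (hv.nonneg _)]
  exact hM _

theorem cv_ofReal {v κ : ℝ → ℝ} (hv : BNM v) (hκ : Integrable κ) (hκ0 : ∀ x, 0 ≤ κ x) (x : ℝ) :
    ENNReal.ofReal (cv κ v x) = ∫⁻ s, ENNReal.ofReal (v (x - s)) * ENNReal.ofReal (κ s) := by
  unfold cv
  rw [ofReal_integral_eq_lintegral_ofReal (hv.integrable_mul hκ x)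
    (Filter.Eventually.of_forall fun s => mul_nonneg (hv.nonneg _) (hκ0 _))]
  exact lintegral_congr fun s => ENNReal.ofReal_mul (hv.nonneg _)

theorem cv_bnm {v κ : ℝ → ℝ} (hv : BNM v) (hκm : Measurable κ) (hκ : Integrable κ) (hκ0 : ∀ x, 0 ≤ κ x) :
    BNM (cv κ v) := by
  obtain ⟨M, hM⟩ := hv.bdd
  refine ⟨?_, fun x => integral_nonneg fun s => mul_nonneg (hv.nonneg _) (hκ0 _),
    ⟨M * ∫ s, κ s, fun x => ?_⟩⟩
  · have : Measurable (Function.uncurry fun x s => v (x - s) * κ s) :=
      (hv.meas.comp (measurable_fst.sub measurable_snd)).mul (hκm.comp measurable_snd)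
    exact (this.stronglyMeasurable.integral_prod_right' (ν := volume)).measurable
  · unfold cv
    rw [← MeasureTheory.integral_const_mul]
    exact integral_mono (hv.integrable_mul hκ x) (hκ.const_mul M)
      fun s => mul_le_mul_of_nonneg_right (hM _) (hκ0 s)

theorem f_shift_le {f : ℝ → ℝ} (hf : Profile f) {s r : ℝ} (hs : s ∈ Icc (0:ℝ) (1/2))
    (hr : r ∈ Icc (0:ℝ) (1/2)) : f (s + r) ≤ f (s - r) := by
  rw [← hf.abs_eq (s - r)]
  have h1 : |s - r| ≤ s + r := abs_le.2 ⟨by linarith [hs.1, hr.1], by linarith [hs.1, hr.1]⟩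
  have h2 : |s - r| ≤ 1 - s - r := abs_le.2 ⟨by linarith [hs.2, hr.2], by linarith [hs.2, hr.2]⟩
  rcases le_total (s + r) (1/2) with h | h
  · exact hf.anti ⟨abs_nonneg _, by linarith⟩ ⟨by linarith [hs.1, hr.1], h⟩ h1
  · have e : f (s + r) = f (1 - s - r) := by
      have := hf.per (s + r - 1)
      rw [sub_add_cancel] at this
      rw [this, ← hf.even]
      congr 1; ring
    rw [e]
    exact hf.anti ⟨abs_nonneg _, by linarith⟩ ⟨by linarith [hs.2, hr.2], by linarith⟩ h2

theorem box_anti {f : ℝ → ℝ} (hf : Profile f) {r : ℝ} (hr : r ∈ Icc (0:ℝ) (1/2)) :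
    AntitoneOn (box r f) (Icc 0 (1/2)) := by
  intro x hx y hy hxy
  have hB := hf.bnm
  unfold box
  have i1 := intervalIntegral.integral_add_adjacent_intervals (hB.ii (x - r) (x + r)) (hB.ii (x + r) (y + r))
  have i2 := intervalIntegral.integral_add_adjacent_intervals (hB.ii (x - r) (y - r)) (hB.ii (y - r) (y + r))
  have e1 : ∫ s in x..y, f (s + r) = ∫ s in (x + r)..(y + r), f s := by
    rw [intervalIntegral.integral_comp_add_right]
  have e2 : ∫ s in x..y, f (s - r) = ∫ s in (x - r)..(y - r), f s := by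
    rw [intervalIntegral.integral_comp_sub_right]
  have : ∫ s in x..y, f (s + r) ≤ ∫ s in x..y, f (s - r) := by
    refine intervalIntegral.integral_mono_on hxy
      ((hB.comp (measurable_id.add_const r)).ii _ _) ((hB.comp (measurable_id.sub_const r)).ii _ _)
      fun s hs => f_shift_le hf ⟨by linarith [hs.1, hx.1], by linarith [hs.2, hy.2]⟩ hr
  linarith

theorem box_eq_sub {f : ℝ → ℝ} {r x : ℝ} : ∫ s in (-r)..r, f (x - s) = box r f x := by
  unfold box
  rw [intervalIntegral.integral_comp_sub_left]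
  congr 1; ring

theorem ofReal_ii {g : ℝ → ℝ} (hg : BNM g) {a b : ℝ} (hab : a ≤ b) :
    ∫⁻ s in Icc a b, ENNReal.ofReal (g s) = ENNReal.ofReal (∫ s in a..b, g s) := by
  rw [intervalIntegral.integral_of_le hab, ← integral_Icc_eq_integral_Ioc,
    ofReal_integral_eq_lintegral_ofReal (hg.integrableOn (by simp))
      (Filter.Eventually.of_forall fun s => hg.nonneg _)]

theorem cv_profile {f κ : ℝ → ℝ} (hf : Profile f) (hκ : Ker κ) : Profile (cv κ f) := by
  have hB := cv_bnm hf.bnm hκ.meas hκ.int hκ.nonneg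
  refine ⟨hB, ?_, ?_, ?_⟩
  · intro x
    unfold cv
    rw [← integral_neg_eq_self]
    refine integral_congr_ae (Filter.Eventually.of_forall fun s => ?_)
    simp only
    rw [hκ.even, ← hf.even (x - s)]
    congr 2; ring
  · intro x
    unfold cv
    refine integral_congr_ae (Filter.Eventually.of_forall fun s => ?_)
    simp only
    rw [← hf.per (x - s)]
    congr 2; ring
  · intro x hx y hy hxy
    obtain ⟨K, hKm, hK0, hKe, hKa, hKint⟩ := hκ.per
    have hle : ENNReal.ofReal (cv κ f y) ≤ ENNReal.ofReal (cv κ f x) := by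
      have hm : ∀ z : ℝ, Measurable fun s => ENNReal.ofReal (f (z - s)) := fun z =>
        (hf.bnm.meas.comp (measurable_const.sub measurable_id)).ennreal_ofReal
      have hp : ∀ z : ℝ, ∀ s, ENNReal.ofReal (f (z - (s + 1))) = ENNReal.ofReal (f (z - s)) := by
        intro z s
        rw [← hf.per (z - (s + 1))]
        congr 2; ring
      rw [cv_ofReal hf.bnm hκ.int hκ.nonneg, cv_ofReal hf.bnm hκ.int hκ.nonneg,
        hKint _ (hm y) (hp y), hKint _ (hm x) (hp x)]
      refine sym_abel_half hKm hK0 hKe hKa (hm y) (hm x) fun r hr => ?_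
      rw [ofReal_ii (g := fun s => f (y - s)) (hf.bnm.comp (measurable_const.sub measurable_id))
          (by linarith [hr.1]),
        ofReal_ii (g := fun s => f (x - s)) (hf.bnm.comp (measurable_const.sub measurable_id))
          (by linarith [hr.1]), box_eq_sub, box_eq_sub]
      exact ENNReal.ofReal_le_ofReal (box_anti hf hr hx hy hxy)
    exact (ENNReal.ofReal_le_ofReal_iff (hB.nonneg x)).1 hle

end Pool.Agent.Lib_helper51
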