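import Pool.Agent.Lib_helper51.Conv

set_option autoImplicit false

/-!
# Window-wise majorization is preserved by convolution with good kernels (main step)
-/

open MeasureTheory Set intervalIntegral
open scoped ENNReal

namespace Pool.Agent.Lib_helper51

theorem setIntegral_shift (g : ℝ → ℝ) (a : ℝ) (A : Set ℝ) :
    ∫ x in (fun x => x + a) ⁻¹' A, g (x + a) = ∫ x in A, g x := by
  have hmp : MeasurePreserving (fun x : ℝ => x + a) volume volume :=
    measurePreserving_add_right volume a
  exact hmp.setIntegral_preimage_emb (measurableEmbedding_addRight a) g A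

theorem volume_shift (a : ℝ) (A : Set ℝ) : volume ((fun x => x + a) ⁻¹' A) = volume A := by
  have hmp : MeasurePreserving (fun x : ℝ => x + a) volume volume :=
    measurePreserving_add_right volume a
  exact hmp.measure_preimage_emb (measurableEmbedding_addRight a) A

theorem Maj.shift {v f : ℝ → ℝ} (h : Maj v f) (a : ℝ) : Maj (fun x => v (x + a)) f := by
  intro c A hA hAs
  have hA' : MeasurableSet ((fun x => x + -a) ⁻¹' A) := hA.preimage (measurable_add_const _)
  have hs : (fun x => x + -a) ⁻¹' A ⊆ Icc (c + a) (c + a + 1) := by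
    intro x hx
    have := hAs hx
    simp only [mem_Icc] at this ⊢
    constructor <;> linarith [this.1, this.2]
  have key := h (c + a) _ hA' hs
  rw [volume_shift] at key
  refine le_trans (le_of_eq ?_) key
  have := setIntegral_shift (fun x => v (x + a)) (-a) A
  rw [← this]
  refine setIntegral_congr_fun hA' fun x _ => ?_
  simp only [neg_add_cancel_right]

theorem int01_ind {B : Set ℝ} (hB : MeasurableSet B) (hBs : B ⊆ Icc 0 1) {χ g : ℝ → ℝ}
    (hχ : ∀ x ∈ Ioo (0:ℝ) 1, χ x = B.indicator (fun _ => (1:ℝ)) x) :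
    ∫ x in (0:ℝ)..1, χ x * g x = ∫ x in B, g x := by
  rw [intervalIntegral.integral_of_le zero_le_one, integral_Ioc_eq_integral_Ioo]
  have e1 : ∫ x in Ioo (0:ℝ) 1, χ x * g x = ∫ x in Ioo (0:ℝ) 1, B.indicator g x := by
    refine setIntegral_congr_fun measurableSet_Ioo fun x hx => ?_
    rw [hχ x hx]
    by_cases hxB : x ∈ B
    · simp [indicator_of_mem hxB]
    · simp [indicator_of_notMem hxB]
  rw [e1, setIntegral_indicator hB]
  refine setIntegral_congr_set ?_
  have h1 : Ioo (0:ℝ) 1 =ᵐ[volume] Icc 0 1 := Ioo_ae_eq_Icc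
  have h2 : (Ioo (0:ℝ) 1 ∩ B : Set ℝ) =ᵐ[volume] (Icc 0 1 ∩ B : Set ℝ) := h1.inter (ae_eq_refl B)
  rwa [inter_eq_right.2 hBs] at h2

theorem maj_cv {v f κ : ℝ → ℝ} (hv : BNM v) (hf : Profile f) (hκ : Ker κ) (h : Maj v f) :
    Maj (cv κ v) (cv κ f) := by
  intro a B0 hB0 hB0s
  have hv' : BNM (fun x => v (x + a)) := hv.comp (measurable_add_const a)
  obtain ⟨w, hwB, hwp, hwset, hwdom⟩ := exists_fill hv' hf (h.shift a)
  obtain ⟨K, hKm, hK0, hKe, hKa, hKint⟩ := hκ.per
  set B : Set ℝ := (fun x => x + a) ⁻¹' B0 with hBdef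
  have hB : MeasurableSet B := hB0.preimage (measurable_add_const _)
  have hBs : B ⊆ Icc 0 1 := by
    intro x hx
    have := hB0s hx
    simp only [mem_Icc] at this ⊢
    constructor <;> linarith [this.1, this.2]
  have hvol : volume B = volume B0 := volume_shift a B0
  have hBt : volume B ≠ ⊤ := (vol_sub_one (a := 0) (by simpa using hBs)).2
  have hB1 : (volume B).toReal ≤ 1 := (vol_sub_one (a := 0) (by simpa using hBs)).1
  rw [← hvol]
  set β := (volume B).toReal with hβ
  have hβ0 : 0 ≤ β := ENNReal.toReal_nonneg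
  have e1 : ∫ x in B0, cv κ v x = ∫ x in B, cv κ (fun x => v (x + a)) x := by
    rw [← setIntegral_shift _ a B0]
    refine setIntegral_congr_fun hB fun x _ => ?_
    unfold cv
    refine integral_congr_ae (Filter.Eventually.of_forall fun s => ?_)
    simp only
    congr 2; ring
  rw [e1]
  have hcw := cv_bnm hwB hκ.meas hκ.int hκ.nonneg
  have hcv' := cv_bnm hv' hκ.meas hκ.int hκ.nonneg
  have hcf := cv_bnm hf.bnm hκ.meas hκ.int hκ.nonneg
  have hsubm : ∀ {g : ℝ → ℝ}, BNM g → ∀ b : ℝ, BNM (fun s => g (b - s)) := fun hg b =>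
    hg.comp (measurable_const.sub measurable_id)
  have step1 : ∫ x in B, cv κ (fun x => v (x + a)) x ≤ ∫ x in B, cv κ w x := by
    refine setIntegral_mono_on (hcv'.integrableOn hBt) (hcw.integrableOn hBt) hB fun b hb => ?_
    have hb01 := hBs hb
    rw [← ENNReal.ofReal_le_ofReal_iff (hcw.nonneg b), cv_ofReal hv' hκ.int hκ.nonneg,
      cv_ofReal hwB hκ.int hκ.nonneg]
    refine sym_abel hκ.meas hκ.nonneg hκ.even hκ.anti (hsubm hv' b).meas.ennreal_ofReal
      (hsubm hwB b).meas.ennreal_ofReal fun r hr => ?_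
    rw [ofReal_ii (hsubm hv' b) (by linarith), ofReal_ii (hsubm hwB b) (by linarith),
      box_eq_sub (f := fun x => v (x + a)), box_eq_sub]
    refine ENNReal.ofReal_le_ofReal (hwdom (b - r) (b + r) (by linarith) ?_ ?_)
    · linarith [hb01.1]
    · linarith [hb01.2]
  refine step1.trans ?_
  have hRHS0 : 0 ≤ ∫ x in (-(β/2))..(β/2), cv κ f x :=
    intervalIntegral.integral_nonneg (by linarith) fun x _ => hcf.nonneg x
  rw [← ENNReal.ofReal_le_ofReal_iff hRHS0, ← ofReal_ii hcf (by linarith),
    ofReal_integral_eq_lintegral_ofReal (hcw.integrableOn hBt)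
      (Filter.Eventually.of_forall fun s => hcw.nonneg _)]
  -- general unfolding
  have hunf : ∀ {g : ℝ → ℝ} (_ : BNM g) (_ : ∀ x, g (x + 1) = g x) (A : Set ℝ),
      ∫⁻ b in A, ENNReal.ofReal (cv κ g b)
        = ∫⁻ s in Icc (-(1/2) : ℝ) (1/2), (∫⁻ b in A, ENNReal.ofReal (g (b - s))) * ENNReal.ofReal (K s) := by
    intro g hg hgp A
    have hm2 : Measurable (Function.uncurry fun b s : ℝ => ENNReal.ofReal (g (b - s))) :=
      (hg.meas.comp (measurable_fst.sub measurable_snd)).ennreal_ofReal
    have hm2' : Measurable (Function.uncurry fun s b : ℝ => ENNReal.ofReal (g (b - s))) :=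
      (hg.meas.comp (measurable_snd.sub measurable_fst)).ennreal_ofReal
    simp_rw [cv_ofReal hg hκ.int hκ.nonneg]
    rw [lintegral_lintegral_swap]
    · have : ∀ s, ∫⁻ b in A, ENNReal.ofReal (g (b - s)) * ENNReal.ofReal (κ s)
          = (∫⁻ b in A, ENNReal.ofReal (g (b - s))) * ENNReal.ofReal (κ s) := fun s =>
        lintegral_mul_const _ (hg.meas.comp (measurable_id.sub measurable_const)).ennreal_ofReal
      simp_rw [this]
      refine hKint (fun s => ∫⁻ b in A, ENNReal.ofReal (g (b - s))) ?_ ?_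
      · exact hm2'.lintegral_prod_right'
      · intro s
        refine lintegral_congr fun b => ?_
        rw [← hgp (b - (s + 1))]
        congr 2; ring
    · exact (hm2.mul (hκ.meas.comp measurable_snd).ennreal_ofReal).aemeasurable
  rw [hunf hwB hwp B, hunf hf.bnm hf.per]
  have hFm : ∀ {g : ℝ → ℝ} (_ : BNM g) (A : Set ℝ),
      Measurable fun s => ∫⁻ b in A, ENNReal.ofReal (g (b - s)) := by
    intro g hg A
    have hm2' : Measurable (Function.uncurry fun s b : ℝ => ENNReal.ofReal (g (b - s))) :=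
      (hg.meas.comp (measurable_snd.sub measurable_fst)).ennreal_ofReal
    exact hm2'.lintegral_prod_right'
  refine sym_abel_half hKm hK0 hKe hKa (hFm hwB B) (hFm hf.bnm _) fun r hr => ?_
  -- swap on both sides
  have hsw : ∀ {g : ℝ → ℝ} (_ : BNM g) (A : Set ℝ),
      ∫⁻ s in Icc (-r) r, ∫⁻ b in A, ENNReal.ofReal (g (b - s))
        = ∫⁻ b in A, ENNReal.ofReal (box r g b) := by
    intro g hg A
    have hm2' : Measurable (Function.uncurry fun s b : ℝ => ENNReal.ofReal (g (b - s))) :=
      (hg.meas.comp (measurable_snd.sub measurable_fst)).ennreal_ofReal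
    rw [lintegral_lintegral_swap hm2'.aemeasurable]
    refine lintegral_congr fun b => ?_
    rw [ofReal_ii (hsubm hg b) (by linarith [hr.1]), box_eq_sub]
  rw [hsw hwB, hsw hf.bnm]
  have hboxB : ∀ {g : ℝ → ℝ} (_ : BNM g), BNM (box r g) := by
    intro g hg
    obtain ⟨M, hM⟩ := hg.bdd
    refine ⟨?_, fun s => box_nonneg hg hr.1 s, ⟨M * (2 * r), fun s => ?_⟩⟩
    · have e : box r g = fun b => ∫ s in (-r)..r, g (b - s) := by
        funext b; exact box_eq_sub.symm
      rw [e]
      exact measurable_param (F := fun b s => g (b - s))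
        (hg.meas.comp (measurable_fst.sub measurable_snd)) (by linarith [hr.1])
    · calc box r g s ≤ ∫ b in (s - r)..(s + r), M :=
            intervalIntegral.integral_mono_on (by linarith [hr.1]) (hg.ii _ _) (by simp) fun b _ => hM b
        _ = M * (2 * r) := by
            simp only [intervalIntegral.integral_const, smul_eq_mul]; ring
  rw [ofReal_ii (hboxB hf.bnm) (by linarith),
    ← ofReal_integral_eq_lintegral_ofReal ((hboxB hwB).integrableOn hBt)
      (Filter.Eventually.of_forall fun s => (hboxB hwB).nonneg _)]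
  refine ENNReal.ofReal_le_ofReal ?_
  -- periodic indicator
  set B1 : Set ℝ := Int.fract ⁻¹' B with hB1def
  have hB1m : MeasurableSet B1 := hB.preimage measurable_fract
  set χ : ℝ → ℝ := B1.indicator (fun _ => (1:ℝ)) with hχdef
  have hχB : BNM χ := by
    refine ⟨measurable_const.indicator hB1m, fun x => indicator_nonneg (fun _ _ => zero_le_one) x,
      ⟨1, fun x => ?_⟩⟩
    exact indicator_le_self' (fun _ _ => zero_le_one) x
  have hχ1 : ∀ x, χ x ≤ 1 := fun x => indicator_le_self' (fun _ _ => zero_le_one) x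
  have hχp : ∀ x, χ (x + 1) = χ x := by
    intro x
    have : (x + 1 ∈ B1) ↔ (x ∈ B1) := by
      simp only [hB1def, mem_preimage, Int.fract_add_one]
    by_cases hx : x ∈ B1
    · rw [hχdef, indicator_of_mem hx, indicator_of_mem (this.2 hx)]
    · rw [hχdef, indicator_of_notMem hx, indicator_of_notMem (fun h => hx (this.1 h))]
  have hχ01 : ∀ x ∈ Ioo (0:ℝ) 1, χ x = B.indicator (fun _ => (1:ℝ)) x := by
    intro x hx
    have : (x ∈ B1) ↔ (x ∈ B) := by
      simp only [hB1def, mem_preimage]
      rw [Int.fract_eq_self.2 ⟨hx.1.le, hx.2⟩]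
    by_cases hxB : x ∈ B
    · rw [hχdef, indicator_of_mem hxB, indicator_of_mem (this.2 hxB)]
    · rw [hχdef, indicator_of_notMem hxB, indicator_of_notMem (fun h => hxB (this.1 h))]
  have hχint : ∫ x in (0:ℝ)..1, χ x = β := by
    have := int01_ind hB hBs (g := fun _ => (1:ℝ)) hχ01
    simp only [mul_one] at this
    rw [this]
    simp [Measure.real, hβ]
  have hfin := circle_box hwB hf (fun A hA hAs => hwset A hA hAs) hχB hχ1 hχp hr
  rw [hχint] at hfin
  refine le_trans (le_of_eq ?_) hfin
  rw [← int01_ind hB hBs (g := box r w) hχ01]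
  exact box_swap hχB hχp hwB hwp hr.1

end Pool.Agent.Lib_helper51
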