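import Pool.Agent.Lib_helper51.Poisson

set_option autoImplicit false

/-!
# Positive harmonic functions in the upper half plane
-/

open MeasureTheory Set Filter Topology InnerProductSpace
open scoped ENNReal Real

namespace Pool.Agent.Lib_helper51

/-- continuous functions, harmonic and nonnegative in the upper half plane -/
structure HP (V : ℂ → ℝ) : Prop where
  cont : Continuous V
  harm : HarmonicOnNhd V {z : ℂ | 0 < z.im}
  nonneg : ∀ z : ℂ, 0 ≤ z.im → 0 ≤ V z

/-- parametrisation of a circle tangent to the real axis -/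
noncomputable def Zl (ε s : ℝ) : ℂ := ⟨s / (1 + ε ^ 2 * s ^ 2), ε * s ^ 2 / (1 + ε ^ 2 * s ^ 2)⟩

/-- the Poisson kernel of the disc in the line coordinate -/
noncomputable def kl (ε x y s : ℝ) : ℝ :=
  (1 / π) * ((y - ε * (x ^ 2 + y ^ 2)) / ((s - x - ε * s * y) ^ 2 + (y - ε * s * x) ^ 2))

theorem circleMap_arctan {ε : ℝ} (hε : 0 < ε) (s : ℝ) :
    circleMap (⟨0, 1 / (2 * ε)⟩ : ℂ) (1 / (2 * ε)) (2 * Real.arctan (ε * s) - π / 2) = Zl ε s := by
  have h1 : Real.cos (2 * Real.arctan (ε * s) - π / 2) = 2 * (ε * s) / (1 + ε ^ 2 * s ^ 2) := by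
    rw [Real.cos_sub_pi_div_two, Real.sin_two_mul, Real.sin_arctan, Real.cos_arctan, mul_pow]
    have h : √(1 + ε ^ 2 * s ^ 2) ^ 2 = 1 + ε ^ 2 * s ^ 2 := Real.sq_sqrt (by positivity)
    have h' : √(1 + ε ^ 2 * s ^ 2) ≠ 0 := by positivity
    field_simp
    rw [h]
  have h2 : Real.sin (2 * Real.arctan (ε * s) - π / 2) =
      - (1 - ε ^ 2 * s ^ 2) / (1 + ε ^ 2 * s ^ 2) := by
    rw [Real.sin_sub_pi_div_two, Real.cos_two_mul, Real.cos_sq_arctan, mul_pow]
    have h' : 1 + ε ^ 2 * s ^ 2 ≠ 0 := by positivity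
    field_simp
    ring
  have h' : 1 + ε ^ 2 * s ^ 2 ≠ 0 := by positivity
  unfold circleMap Zl
  apply Complex.ext
  · simp only [Complex.add_re, Complex.mul_re, Complex.exp_ofReal_mul_I_re,
      Complex.exp_ofReal_mul_I_im, Complex.ofReal_re, Complex.ofReal_im]
    rw [h1]
    field_simp
    ring_nf
  · simp only [Complex.add_im, Complex.mul_im, Complex.exp_ofReal_mul_I_re,
      Complex.exp_ofReal_mul_I_im, Complex.ofReal_re, Complex.ofReal_im]
    rw [h2]
    field_simp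
    ring_nf

theorem circleAverage_line {ε : ℝ} (hε : 0 < ε) (h : ℂ → ℝ) :
    Real.circleAverage h (⟨0, 1 / (2 * ε)⟩ : ℂ) (1 / (2 * ε)) =
      ∫ s : ℝ, (1 / π) * (ε / (1 + ε ^ 2 * s ^ 2)) * h (Zl ε s) := by
  set c : ℂ := ⟨0, 1 / (2 * ε)⟩
  set R : ℝ := 1 / (2 * ε)
  set g : ℝ → ℝ := fun θ => h (circleMap c R θ) with hg
  have hper : Function.Periodic g (2 * π) := (periodic_circleMap c R).comp h
  unfold Real.circleAverage
  have h1 : ∫ θ in (0:ℝ)..2 * π, g θ = ∫ θ in Ioo (-π) π, g (θ - π / 2) := by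
    have e1 := hper.intervalIntegral_add_eq 0 (-π - π / 2)
    rw [zero_add] at e1
    rw [e1, ← integral_Ioc_eq_integral_Ioo, ← intervalIntegral.integral_of_le (by linarith [Real.pi_pos]),
      intervalIntegral.integral_comp_sub_right (fun θ => g θ)]
    congr 1
    ring
  have himg : (fun s : ℝ => 2 * Real.arctan (ε * s)) '' univ = Ioo (-π) π := by
    ext t
    constructor
    · rintro ⟨s, -, rfl⟩
      have := Real.neg_pi_div_two_lt_arctan (ε * s)
      have := Real.arctan_lt_pi_div_two (ε * s)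
      constructor <;> simp only <;> linarith
    · rintro ⟨ht1, ht2⟩
      refine ⟨Real.tan (t / 2) / ε, mem_univ _, ?_⟩
      simp only
      rw [mul_div_cancel₀ _ hε.ne', Real.arctan_tan (by linarith) (by linarith)]
      ring
  have hderiv : ∀ s ∈ (univ : Set ℝ), HasDerivWithinAt (fun s : ℝ => 2 * Real.arctan (ε * s))
      (2 * (1 / (1 + (ε * s) ^ 2) * ε)) univ s := by
    intro s _
    have h1 : HasDerivAt (fun s : ℝ => ε * s) ε s := by
      simpa using (hasDerivAt_id s).const_mul ε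
    exact (((Real.hasDerivAt_arctan (ε * s)).comp s h1).const_mul 2).hasDerivWithinAt
  have hinj : InjOn (fun s : ℝ => 2 * Real.arctan (ε * s)) univ := by
    intro a _ b _ hab
    have h3 : Real.arctan (ε * a) = Real.arctan (ε * b) := by simpa using hab
    exact mul_left_cancel₀ hε.ne' (Real.arctan_injective h3)
  have h2 := integral_image_eq_integral_abs_deriv_smul MeasurableSet.univ hderiv hinj
    (fun θ => g (θ - π / 2))
  rw [himg] at h2
  rw [h1, h2, setIntegral_univ, smul_eq_mul, ← MeasureTheory.integral_const_mul]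
  apply integral_congr_ae
  refine Eventually.of_forall fun s => ?_
  simp only [hg, smul_eq_mul]
  rw [circleMap_arctan hε, abs_of_pos (by positivity)]
  have : 1 + ε ^ 2 * s ^ 2 ≠ 0 := by positivity
  rw [mul_pow]
  field_simp

theorem Zl_im_nonneg {ε : ℝ} (hε : 0 ≤ ε) (s : ℝ) : 0 ≤ (Zl ε s).im := by
  unfold Zl
  simp only
  positivity

theorem kl_den_identity (ε x y s : ℝ) :
    (s - x - ε * s * y) ^ 2 + (y - ε * s * x) ^ 2 =
      (s - x) ^ 2 + y ^ 2 + ε ^ 2 * s ^ 2 * (x ^ 2 + y ^ 2) - 2 * ε * s ^ 2 * y := by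
  ring

theorem kl_den_pos {ε x y : ℝ} (hw : ε * (x ^ 2 + y ^ 2) < y) (s : ℝ) :
    0 < (s - x - ε * s * y) ^ 2 + (y - ε * s * x) ^ 2 := by
  have h0 : 0 ≤ (s - x - ε * s * y) ^ 2 + (y - ε * s * x) ^ 2 := by positivity
  rcases h0.lt_or_eq with h | h
  · exact h
  · exfalso
    have h1 : (s - x - ε * s * y) ^ 2 = 0 := by
      nlinarith [sq_nonneg (s - x - ε * s * y), sq_nonneg (y - ε * s * x)]
    have h2 : (y - ε * s * x) ^ 2 = 0 := by
      nlinarith [sq_nonneg (s - x - ε * s * y), sq_nonneg (y - ε * s * x)]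
    have h3 : s - x - ε * s * y = 0 := by simpa using h1
    have h4 : y - ε * s * x = 0 := by simpa using h2
    -- s (1 - ε y) = x, ε s x = y
    have h5 : s * (1 - ε * y) = x := by linarith
    have h6 : ε * x * x = y * (1 - ε * y) := by
      calc ε * x * x = ε * x * (s * (1 - ε * y)) := by rw [h5]
        _ = (ε * s * x) * (1 - ε * y) := by ring
        _ = y * (1 - ε * y) := by rw [show ε * s * x = y by linarith]
    nlinarith

theorem kl_nonneg {ε x y : ℝ} (hw : ε * (x ^ 2 + y ^ 2) < y) (s : ℝ) :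
    0 ≤ kl ε x y s := by
  unfold kl
  have : 0 ≤ y - ε * (x ^ 2 + y ^ 2) := by linarith
  positivity

theorem line_integrable {ε : ℝ} (hε : 0 < ε) (h : ℂ → ℝ)
    (hcont : Continuous fun θ : ℝ => h (circleMap (⟨0, 1 / (2 * ε)⟩ : ℂ) (1 / (2 * ε)) θ)) :
    Integrable fun s : ℝ => (1 / π) * (ε / (1 + ε ^ 2 * s ^ 2)) * h (Zl ε s) := by
  set c : ℂ := ⟨0, 1 / (2 * ε)⟩
  set R : ℝ := 1 / (2 * ε)
  set g : ℝ → ℝ := fun θ => h (circleMap c R θ) with hg
  have himg : (fun s : ℝ => 2 * Real.arctan (ε * s)) '' univ ⊆ Icc (-π) π := by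
    rintro _ ⟨s, -, rfl⟩
    have := Real.neg_pi_div_two_lt_arctan (ε * s)
    have := Real.arctan_lt_pi_div_two (ε * s)
    constructor <;> simp only <;> linarith
  have hderiv : ∀ s ∈ (univ : Set ℝ), HasDerivWithinAt (fun s : ℝ => 2 * Real.arctan (ε * s))
      (2 * (1 / (1 + (ε * s) ^ 2) * ε)) univ s := by
    intro s _
    have h1 : HasDerivAt (fun s : ℝ => ε * s) ε s := by
      simpa using (hasDerivAt_id s).const_mul ε
    exact (((Real.hasDerivAt_arctan (ε * s)).comp s h1).const_mul 2).hasDerivWithinAt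
  have hinj : InjOn (fun s : ℝ => 2 * Real.arctan (ε * s)) univ := by
    intro a _ b _ hab
    have h3 : Real.arctan (ε * a) = Real.arctan (ε * b) := by simpa using hab
    exact mul_left_cancel₀ hε.ne' (Real.arctan_injective h3)
  have h2 := integrableOn_image_iff_integrableOn_abs_deriv_smul MeasurableSet.univ hderiv hinj
    (fun θ => g (θ - π / 2))
  have h3 : IntegrableOn (fun θ => g (θ - π / 2)) ((fun s : ℝ => 2 * Real.arctan (ε * s)) '' univ) := by
    refine IntegrableOn.mono_set ?_ himg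
    exact (hcont.comp (continuous_id.sub continuous_const)).continuousOn.integrableOn_Icc
  have h4 := (h2.1 h3)
  rw [integrableOn_univ] at h4
  refine (h4.const_mul (1 / (2 * π))).congr (Eventually.of_forall fun s => ?_)
  simp only [hg, smul_eq_mul]
  rw [circleMap_arctan hε, abs_of_pos (by positivity)]
  have : 1 + ε ^ 2 * s ^ 2 ≠ 0 := by positivity
  rw [mul_pow]
  field_simp

theorem mem_ball_tangent {ε x y : ℝ} (hε : 0 < ε) (hw : ε * (x ^ 2 + y ^ 2) < y) :
    (⟨x, y⟩ : ℂ) ∈ Metric.ball (⟨0, 1 / (2 * ε)⟩ : ℂ) (1 / (2 * ε)) := by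
  rw [Metric.mem_ball, dist_eq_norm]
  apply lt_of_pow_lt_pow_left₀ 2 (by positivity)
  rw [Complex.sq_norm, Complex.normSq_apply]
  simp only [Complex.sub_re, Complex.sub_im]
  have : (x - 0) * (x - 0) + (y - 1 / (2 * ε)) * (y - 1 / (2 * ε)) =
    (1 / (2 * ε)) ^ 2 + (ε * (x ^ 2 + y ^ 2) - y) / ε := by
    field_simp; ring
  rw [this]
  have : (ε * (x ^ 2 + y ^ 2) - y) / ε < 0 := div_neg_of_neg_of_pos (by linarith) hε
  linarith

theorem kl_eq {ε x y : ℝ} (hε : 0 < ε) (hw : ε * (x ^ 2 + y ^ 2) < y) (s : ℝ) :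
    kl ε x y s = (1 / π) * (ε / (1 + ε ^ 2 * s ^ 2)) *
      poissonKernel (⟨0, 1 / (2 * ε)⟩ : ℂ) (⟨x, y⟩ : ℂ) (Zl ε s) := by
  have hy : 0 < y := lt_of_le_of_lt (by positivity) hw
  set c : ℂ := ⟨0, 1 / (2 * ε)⟩ with hc
  set R : ℝ := 1 / (2 * ε) with hR
  rw [poissonKernel_def]
  have hden := kl_den_pos hw s
  have hA : 1 + ε ^ 2 * s ^ 2 ≠ 0 := by positivity
  have e1 : ‖Zl ε s - c‖ ^ 2 = R ^ 2 := by
    rw [Complex.sq_norm, Complex.normSq_apply]
    simp only [Complex.sub_re, Complex.sub_im, Zl, hc, hR]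
    field_simp
    ring
  have e2 : ‖(⟨x, y⟩ : ℂ) - c‖ ^ 2 = R ^ 2 + (ε * (x ^ 2 + y ^ 2) - y) / ε := by
    rw [Complex.sq_norm, Complex.normSq_apply]
    simp only [Complex.sub_re, Complex.sub_im, hc, hR]
    field_simp
    ring
  have e3 : ‖(Zl ε s - c) - ((⟨x, y⟩ : ℂ) - c)‖ ^ 2 =
      ((s - x - ε * s * y) ^ 2 + (y - ε * s * x) ^ 2) / (1 + ε ^ 2 * s ^ 2) := by
    rw [Complex.sq_norm, Complex.normSq_apply]
    simp only [Complex.sub_re, Complex.sub_im, Zl, hc]
    field_simp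
    ring
  rw [e1, e2, e3]
  unfold kl
  have hden' := hden.ne'
  field_simp
  ring

theorem half_formula {V : ℂ → ℝ} (hV : HP V) {ε x y : ℝ} (hε : 0 < ε)
    (hw : ε * (x ^ 2 + y ^ 2) < y) :
    V ⟨x, y⟩ = ∫ s : ℝ, kl ε x y s * V (Zl ε s) := by
  set c : ℂ := ⟨0, 1 / (2 * ε)⟩ with hc
  set R : ℝ := 1 / (2 * ε) with hR
  have hball : Metric.ball c R ⊆ {z : ℂ | 0 < z.im} := by
    intro z hz
    rw [Metric.mem_ball, dist_eq_norm] at hz
    have h1 := Complex.abs_im_le_norm (z - c)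
    rw [Complex.sub_im] at h1
    have h2 : |z.im - R| < R := lt_of_le_of_lt h1 hz
    have h3 := (abs_lt.1 h2).1
    change 0 < z.im
    linarith
  have hcl : HarmonicContOnCl V (Metric.ball c R) :=
    ⟨hV.harm.mono hball, hV.cont.continuousOn⟩
  have h1 := hcl.circleAverage_poissonKernel_smul (mem_ball_tangent hε hw)
  rw [circleAverage_line hε] at h1
  rw [← h1]
  apply integral_congr_ae
  refine Eventually.of_forall fun s => ?_
  simp only [Pi.smul_apply', smul_eq_mul]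
  rw [kl_eq hε hw s, ← mul_assoc]

theorem half_integrable {V : ℂ → ℝ} (hV : Continuous V) {ε x y : ℝ} (hε : 0 < ε)
    (hw : ε * (x ^ 2 + y ^ 2) < y) :
    Integrable fun s : ℝ => kl ε x y s * V (Zl ε s) := by
  have h1 := line_integrable hε (fun z => poissonKernel (⟨0, 1 / (2 * ε)⟩ : ℂ) (⟨x, y⟩ : ℂ) z * V z) ?_
  · refine h1.congr (Eventually.of_forall fun s => ?_)
    simp only
    rw [kl_eq hε hw s, ← mul_assoc]
  · set c : ℂ := ⟨0, 1 / (2 * ε)⟩ with hc
    set R : ℝ := 1 / (2 * ε) with hR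
    refine Continuous.mul ?_ (hV.comp (continuous_circleMap c R))
    simp only [poissonKernel_def]
    refine Continuous.div ?_ ?_ ?_
    · exact (((continuous_circleMap c R).sub continuous_const).norm.pow 2).sub continuous_const
    · exact ((((continuous_circleMap c R).sub continuous_const).sub continuous_const).norm.pow 2)
    · intro θ
      have h2 : circleMap c R θ ≠ (⟨x, y⟩ : ℂ) := circleMap_ne_mem_ball (mem_ball_tangent hε hw) θ
      have h3 : (circleMap c R θ - c) - ((⟨x, y⟩ : ℂ) - c) ≠ 0 := by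
        intro h
        apply h2
        have : circleMap c R θ - ⟨x, y⟩ = 0 := by rw [← h]; ring
        exact sub_eq_zero.1 this
      positivity

theorem tendsto_kl {x y : ℝ} (hy : 0 < y) (s : ℝ) :
    Tendsto (fun ε => kl ε x y s) (𝓝 0) (𝓝 (pk y (s - x))) := by
  have h : ContinuousAt (fun ε => kl ε x y s) 0 := by
    unfold kl
    refine ContinuousAt.mul continuousAt_const (ContinuousAt.div (by fun_prop) (by fun_prop) ?_)
    have : (0:ℝ) < (s - x) ^ 2 + y ^ 2 := by positivity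
    simpa using this.ne'
  have h2 : kl 0 x y s = pk y (s - x) := by
    unfold kl pk
    simp
  have h3 := h.tendsto
  rw [h2] at h3
  exact h3

theorem tendsto_Zl (s : ℝ) : Tendsto (fun ε => Zl ε s) (𝓝 0) (𝓝 (⟨s, 0⟩ : ℂ)) := by
  have h1 : Tendsto (fun ε : ℝ => ((s / (1 + ε ^ 2 * s ^ 2) : ℝ) : ℂ) +
      ((ε * s ^ 2 / (1 + ε ^ 2 * s ^ 2) : ℝ) : ℂ) * Complex.I) (𝓝 0)
      (𝓝 (((s / (1 + (0:ℝ) ^ 2 * s ^ 2) : ℝ) : ℂ) +
      (((0:ℝ) * s ^ 2 / (1 + (0:ℝ) ^ 2 * s ^ 2) : ℝ) : ℂ) * Complex.I)) := by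
    refine Continuous.tendsto ?_ 0
    have h0 : ∀ ε : ℝ, 1 + ε ^ 2 * s ^ 2 ≠ 0 := fun ε => by positivity
    refine Continuous.add ?_ (Continuous.mul ?_ continuous_const)
    · exact Complex.continuous_ofReal.comp (continuous_const.div (by fun_prop) h0)
    · exact Complex.continuous_ofReal.comp (Continuous.div (by fun_prop) (by fun_prop) h0)
  have e1 : ∀ ε : ℝ, ((s / (1 + ε ^ 2 * s ^ 2) : ℝ) : ℂ) +
      ((ε * s ^ 2 / (1 + ε ^ 2 * s ^ 2) : ℝ) : ℂ) * Complex.I = Zl ε s := by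
    intro ε
    exact (Complex.mk_eq_add_mul_I _ _).symm
  have e2 : ((s / (1 + (0:ℝ) ^ 2 * s ^ 2) : ℝ) : ℂ) +
      (((0:ℝ) * s ^ 2 / (1 + (0:ℝ) ^ 2 * s ^ 2) : ℝ) : ℂ) * Complex.I = (⟨s, 0⟩ : ℂ) := by
    apply Complex.ext <;> simp
  rw [e2] at h1
  exact h1.congr e1

theorem measurable_kl (ε x y : ℝ) : Measurable (kl ε x y) := by
  unfold kl
  fun_prop

theorem continuous_Zl (ε : ℝ) : Continuous (Zl ε) := by
  have e1 : ∀ s : ℝ, Zl ε s = ((s / (1 + ε ^ 2 * s ^ 2) : ℝ) : ℂ) +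
      ((ε * s ^ 2 / (1 + ε ^ 2 * s ^ 2) : ℝ) : ℂ) * Complex.I := by
    intro s
    exact Complex.mk_eq_add_mul_I _ _
  have h0 : ∀ s : ℝ, 1 + ε ^ 2 * s ^ 2 ≠ 0 := fun s => by positivity
  have : Zl ε = fun s : ℝ => ((s / (1 + ε ^ 2 * s ^ 2) : ℝ) : ℂ) +
      ((ε * s ^ 2 / (1 + ε ^ 2 * s ^ 2) : ℝ) : ℂ) * Complex.I := funext e1
  rw [this]
  refine Continuous.add ?_ (Continuous.mul ?_ continuous_const)
  · exact Complex.continuous_ofReal.comp (continuous_id.div (by fun_prop) h0)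
  · exact Complex.continuous_ofReal.comp (Continuous.div (by fun_prop) (by fun_prop) h0)

theorem norm_Zl_le (ε s : ℝ) : ‖Zl ε s‖ ≤ |s| := by
  apply le_of_sq_le_sq _ (abs_nonneg s)
  rw [Complex.sq_norm, Complex.normSq_apply, sq_abs]
  unfold Zl
  simp only
  have h0 : 0 < 1 + ε ^ 2 * s ^ 2 := by positivity
  have : s / (1 + ε ^ 2 * s ^ 2) * (s / (1 + ε ^ 2 * s ^ 2)) +
      ε * s ^ 2 / (1 + ε ^ 2 * s ^ 2) * (ε * s ^ 2 / (1 + ε ^ 2 * s ^ 2)) =
      s ^ 2 / (1 + ε ^ 2 * s ^ 2) := by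
    field_simp
  rw [this]
  apply div_le_self (sq_nonneg s)
  nlinarith [sq_nonneg (ε * s)]

theorem tendsto_eps : Tendsto (fun n : ℕ => 1 / ((n : ℝ) + 1)) atTop (𝓝 0) :=
  tendsto_one_div_add_atTop_nhds_zero_nat

theorem ev_small {C y : ℝ} (hy : 0 < y) : ∀ᶠ n : ℕ in atTop, 1 / ((n : ℝ) + 1) * C < y := by
  have h := tendsto_eps.mul_const C
  rw [zero_mul] at h
  exact h.eventually_lt_const hy

theorem half_lower {V : ℂ → ℝ} (hV : HP V) {x y : ℝ} (hy : 0 < y) :
    ∫⁻ s, ENNReal.ofReal (pk y (s - x) * V ⟨s, 0⟩) ≤ ENNReal.ofReal (V ⟨x, y⟩) := by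
  set e : ℕ → ℝ := fun n => 1 / ((n : ℝ) + 1) with he
  set f : ℕ → ℝ → ℝ≥0∞ := fun n s => ENNReal.ofReal (kl (e n) x y s * V (Zl (e n) s)) with hf
  have hpos : ∀ n, 0 < e n := fun n => by rw [he]; positivity
  have hmeas : ∀ n, Measurable (f n) := fun n =>
    ((measurable_kl _ _ _).mul (hV.cont.comp (continuous_Zl _)).measurable).ennreal_ofReal
  have hlim : ∀ s, Tendsto (fun n => f n s) atTop (𝓝 (ENNReal.ofReal (pk y (s - x) * V ⟨s, 0⟩))) := by
    intro s
    refine ENNReal.tendsto_ofReal ?_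
    exact ((tendsto_kl hy s).comp tendsto_eps).mul
      ((hV.cont.tendsto _).comp ((tendsto_Zl s).comp tendsto_eps))
  have h1 : ∫⁻ s, liminf (fun n => f n s) atTop ≤ liminf (fun n => ∫⁻ s, f n s) atTop :=
    lintegral_liminf_le hmeas
  have h2 : ∀ s, liminf (fun n => f n s) atTop = ENNReal.ofReal (pk y (s - x) * V ⟨s, 0⟩) :=
    fun s => (hlim s).liminf_eq
  have h1' : ∫⁻ s, ENNReal.ofReal (pk y (s - x) * V ⟨s, 0⟩) ≤
      liminf (fun n => ∫⁻ s, f n s) atTop := by
    refine le_trans (le_of_eq ?_) h1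
    exact lintegral_congr fun s => (h2 s).symm
  refine h1'.trans ?_
  have h3 : ∀ᶠ n in atTop, ENNReal.ofReal (V ⟨x, y⟩) = ∫⁻ s, f n s := by
    filter_upwards [ev_small (C := x ^ 2 + y ^ 2) hy] with n hn
    rw [half_formula hV (hpos n) hn]
    rw [ofReal_integral_eq_lintegral_ofReal (half_integrable hV.cont (hpos n) hn)]
    refine Eventually.of_forall fun s => mul_nonneg (kl_nonneg hn s) (hV.nonneg _ ?_)
    exact Zl_im_nonneg (hpos n).le s
  have h4 : Tendsto (fun n => ∫⁻ s, f n s) atTop (𝓝 (ENNReal.ofReal (V ⟨x, y⟩))) :=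
    tendsto_const_nhds.congr' h3
  rw [h4.liminf_eq]

theorem half_lower_cv {V : ℂ → ℝ} (hV : HP V) {x y : ℝ} (hy : 0 < y) :
    ∫⁻ s, ENNReal.ofReal (V ⟨x - s, 0⟩ * pk y s) ≤ ENNReal.ofReal (V ⟨x, y⟩) := by
  refine le_trans (le_of_eq ?_) (half_lower hV hy)
  rw [← lintegral_sub_left_eq_self (fun s => ENNReal.ofReal (pk y (s - x) * V ⟨s, 0⟩)) x]
  refine lintegral_congr fun s => ?_
  congr 1
  rw [mul_comm]
  congr 1
  unfold pk
  ring_nf

theorem half_integrable_cv {V : ℂ → ℝ} (hV : HP V) (x : ℝ) {y : ℝ} (hy : 0 < y) :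
    Integrable fun s => V ⟨x - s, 0⟩ * pk y s := by
  have hc : Continuous fun s : ℝ => V ⟨x - s, 0⟩ := by
    have : Continuous fun s : ℝ => (⟨x - s, 0⟩ : ℂ) := by
      have e : ∀ s : ℝ, (⟨x - s, 0⟩ : ℂ) = ((x - s : ℝ) : ℂ) := fun s => rfl
      simp_rw [e]
      exact Complex.continuous_ofReal.comp (continuous_const.sub continuous_id)
    exact hV.cont.comp this
  refine ⟨(hc.measurable.mul (pk_measurable y)).aestronglyMeasurable, ?_⟩
  rw [hasFiniteIntegral_iff_ofReal]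
  · exact lt_of_le_of_lt (half_lower_cv hV hy) ENNReal.ofReal_lt_top
  · exact Eventually.of_forall fun s => mul_nonneg (hV.nonneg _ le_rfl) (pk_nonneg hy.le s)

theorem half_lower_real {V : ℂ → ℝ} (hV : HP V) {x y : ℝ} (hy : 0 < y) :
    cv (pk y) (fun t => V ⟨t, 0⟩) x ≤ V ⟨x, y⟩ := by
  unfold cv
  have h1 := half_lower_cv hV (x := x) hy
  rw [← ofReal_integral_eq_lintegral_ofReal (half_integrable_cv hV x hy)
    (Eventually.of_forall fun s => mul_nonneg (hV.nonneg _ le_rfl) (pk_nonneg hy.le s))] at h1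
  exact (ENNReal.ofReal_le_ofReal_iff (hV.nonneg _ hy.le)).1 h1

theorem kl_ratio {ε x y η N s : ℝ} (hε : 0 < ε) (hN : 0 < N) (hs : N < |s|) (hy : 0 < y)
    (hη : 0 < η) (h1 : ε * η < 1) (h2 : 0 < 1 - ε * y - |x| / N)
    (hw : ε * (x ^ 2 + y ^ 2) < y) :
    kl ε x y s ≤ (y / η) * (1 / (1 - ε * η)) * (1 + η ^ 2 / N ^ 2) / (1 - ε * y - |x| / N) ^ 2 *
      kl ε 0 η s := by
  set q := 1 - ε * y - |x| / N with hq
  set Q := 1 + η ^ 2 / N ^ 2 with hQ
  have hs0 : 0 < |s| := hN.trans hs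
  have hs2 : 0 < s ^ 2 := by rw [← sq_abs]; positivity
  have hQpos : 0 < Q := by positivity
  have hD1 : s ^ 2 * q ^ 2 ≤ (s - x - ε * s * y) ^ 2 + (y - ε * s * x) ^ 2 := by
    have a1 : |s| * q ≤ |s - x - ε * s * y| := by
      have b1 : |x| ≤ |s| * (|x| / N) := by
        have : |x| = N * (|x| / N) := by field_simp
        calc |x| = N * (|x| / N) := this
          _ ≤ |s| * (|x| / N) := by
            apply mul_le_mul_of_nonneg_right hs.le (by positivity)
      have b3 : |s| * (1 - ε * y) ≤ |s * (1 - ε * y)| := by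
        rw [abs_mul]
        exact mul_le_mul_of_nonneg_left (le_abs_self _) hs0.le
      have b4 : |s * (1 - ε * y)| - |x| ≤ |s * (1 - ε * y) - x| := abs_sub_abs_le_abs_sub _ _
      have b5 : s * (1 - ε * y) - x = s - x - ε * s * y := by ring
      rw [b5] at b4
      calc |s| * q = |s| * (1 - ε * y) - |s| * (|x| / N) := by rw [hq]; ring
        _ ≤ |s| * (1 - ε * y) - |x| := by linarith
        _ ≤ |s - x - ε * s * y| := by linarith
    have a2 : (|s| * q) ^ 2 ≤ (s - x - ε * s * y) ^ 2 := by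
      rw [← sq_abs (s - x - ε * s * y)]
      exact pow_le_pow_left₀ (by positivity) a1 2
    rw [mul_pow, sq_abs] at a2
    nlinarith [sq_nonneg (y - ε * s * x)]
  have hD2 : (s - 0 - ε * s * η) ^ 2 + (η - ε * s * 0) ^ 2 ≤ s ^ 2 * Q := by
    have a1 : (1 - ε * η) ^ 2 ≤ 1 := by
      have : 0 < ε * η := by positivity
      nlinarith
    have a2 : N ^ 2 ≤ s ^ 2 := by
      rw [← sq_abs s]
      exact pow_le_pow_left₀ hN.le hs.le 2
    have a3 : η ^ 2 ≤ s ^ 2 * (η ^ 2 / N ^ 2) := by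
      have : η ^ 2 = N ^ 2 * (η ^ 2 / N ^ 2) := by field_simp
      calc η ^ 2 = N ^ 2 * (η ^ 2 / N ^ 2) := this
        _ ≤ s ^ 2 * (η ^ 2 / N ^ 2) := mul_le_mul_of_nonneg_right a2 (by positivity)
    calc (s - 0 - ε * s * η) ^ 2 + (η - ε * s * 0) ^ 2 = s ^ 2 * (1 - ε * η) ^ 2 + η ^ 2 := by ring
      _ ≤ s ^ 2 * 1 + s ^ 2 * (η ^ 2 / N ^ 2) := by
        gcongr
      _ = s ^ 2 * Q := by rw [hQ]; ring
  have hD2pos : 0 < (s - 0 - ε * s * η) ^ 2 + (η - ε * s * 0) ^ 2 := by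
    have : (s - 0 - ε * s * η) ^ 2 + (η - ε * s * 0) ^ 2 = (s - 0 - ε * s * η) ^ 2 + η ^ 2 := by ring
    rw [this]; positivity
  have hsq : 0 < s ^ 2 * q ^ 2 := by positivity
  have hne : 1 - ε * η ≠ 0 := by
    have : 0 < 1 - ε * η := by linarith
    exact this.ne'
  unfold kl
  have e1 : (y / η) * (1 / (1 - ε * η)) * Q / q ^ 2 * ((1 / π) * ((η - ε * (0 ^ 2 + η ^ 2)) /
      ((s - 0 - ε * s * η) ^ 2 + (η - ε * s * 0) ^ 2))) =
      (1 / π) * (y * Q / (q ^ 2 * ((s - 0 - ε * s * η) ^ 2 + (η - ε * s * 0) ^ 2))) := by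
    have hD2ne := hD2pos.ne'
    have e2 : η - ε * (0 ^ 2 + η ^ 2) = η * (1 - ε * η) := by ring
    rw [e2]
    generalize (s - 0 - ε * s * η) ^ 2 + (η - ε * s * 0) ^ 2 = D at hD2ne
    generalize 1 - ε * η = t at hne
    field_simp
  rw [e1]
  apply mul_le_mul_of_nonneg_left _ (by positivity)
  calc (y - ε * (x ^ 2 + y ^ 2)) / ((s - x - ε * s * y) ^ 2 + (y - ε * s * x) ^ 2)
      ≤ y / (s ^ 2 * q ^ 2) := by
        apply div_le_div₀ hy.le _ hsq hD1
        have : 0 ≤ ε * (x ^ 2 + y ^ 2) := by positivity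
        linarith
    _ = y * Q / (q ^ 2 * (s ^ 2 * Q)) := by field_simp
    _ ≤ y * Q / (q ^ 2 * ((s - 0 - ε * s * η) ^ 2 + (η - ε * s * 0) ^ 2)) := by
        apply div_le_div_of_nonneg_left (by positivity) (by positivity)
        exact mul_le_mul_of_nonneg_left hD2 (by positivity)

theorem continuous_line {V : ℂ → ℝ} (hV : Continuous V) : Continuous fun s : ℝ => V ⟨s, 0⟩ := by
  have : Continuous fun s : ℝ => (⟨s, 0⟩ : ℂ) := by
    have e : ∀ s : ℝ, (⟨s, 0⟩ : ℂ) = ((s : ℝ) : ℂ) := fun s => rfl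
    simp_rw [e]
    exact Complex.continuous_ofReal
  exact hV.comp this

theorem half_upper_aux {V : ℂ → ℝ} (hV : HP V) {x y η N : ℝ} (hy : 0 < y) (hη : 0 < η)
    (hN : |x| < N) :
    V ⟨x, y⟩ ≤ cv (pk y) (fun t => V ⟨t, 0⟩) x +
      (y / η) * (1 + η ^ 2 / N ^ 2) / (1 - |x| / N) ^ 2 * V ⟨0, η⟩ := by
  have hN0 : 0 < N := lt_of_le_of_lt (abs_nonneg x) hN
  set e : ℕ → ℝ := fun n => 1 / ((n : ℝ) + 1) with he
  have hpos : ∀ n, 0 < e n := fun n => by rw [he]; positivity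
  set f : ℕ → ℝ → ℝ := fun n s => kl (e n) x y s * V (Zl (e n) s) with hf
  set g : ℕ → ℝ → ℝ := fun n s => kl (e n) 0 η s * V (Zl (e n) s) with hg
  set ρ : ℕ → ℝ := fun n => (y / η) * (1 / (1 - e n * η)) * (1 + η ^ 2 / N ^ 2) /
    (1 - e n * y - |x| / N) ^ 2 with hρ
  have hxN : |x| / N < 1 := (div_lt_one hN0).2 hN
  -- limits
  have hl0 : Tendsto (fun n => ρ n) atTop
      (𝓝 ((y / η) * (1 / (1 - 0 * η)) * (1 + η ^ 2 / N ^ 2) / (1 - 0 * y - |x| / N) ^ 2)) := by
    have hc : ContinuousAt (fun ε : ℝ => (y / η) * (1 / (1 - ε * η)) * (1 + η ^ 2 / N ^ 2) /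
        (1 - ε * y - |x| / N) ^ 2) 0 := by
      refine ContinuousAt.div ?_ (by fun_prop) ?_
      · refine ContinuousAt.mul (ContinuousAt.mul continuousAt_const ?_) continuousAt_const
        refine ContinuousAt.div continuousAt_const (by fun_prop) ?_
        simp
      · have : (1 - 0 * y - |x| / N) ≠ 0 := by
          have : 0 < 1 - 0 * y - |x| / N := by linarith
          exact this.ne'
        positivity
    exact hc.tendsto.comp tendsto_eps
  have hlρ : Tendsto (fun n => ρ n) atTop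
      (𝓝 ((y / η) * (1 + η ^ 2 / N ^ 2) / (1 - |x| / N) ^ 2)) := by
    convert hl0 using 2
    simp
  have hIN : MeasurableSet (Icc (-N) N) := measurableSet_Icc
  -- bound for V on a compact set
  obtain ⟨M, hM⟩ : ∃ M, ∀ z ∈ Metric.closedBall (0:ℂ) N, ‖V z‖ ≤ M :=
    (isCompact_closedBall (0:ℂ) N).exists_bound_of_continuousOn hV.cont.continuousOn
  have hl1 : Tendsto (fun n => ∫ s in Icc (-N) N, f n s) atTop
      (𝓝 (∫ s in Icc (-N) N, pk y (s - x) * V ⟨s, 0⟩)) := by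
    refine tendsto_integral_filter_of_dominated_convergence (fun _ => (1 / π) * (y / (y / 2) ^ 2) * M)
      ?_ ?_ ?_ ?_
    · refine Eventually.of_forall fun n => ?_
      exact ((measurable_kl _ _ _).mul
        (hV.cont.comp (continuous_Zl _)).measurable).aestronglyMeasurable
    · filter_upwards [ev_small (C := x ^ 2 + y ^ 2) hy, ev_small (C := N * |x|) (half_pos hy)]
        with n hn1 hn2
      refine (ae_restrict_iff' hIN).2 (Eventually.of_forall fun s hs => ?_)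
      have hsN : |s| ≤ N := abs_le.2 ⟨hs.1, hs.2⟩
      rw [hf]
      simp only
      rw [norm_mul, Real.norm_of_nonneg (kl_nonneg hn1 s)]
      refine mul_le_mul ?_ (hM _ ?_) (norm_nonneg _) (by positivity)
      · unfold kl
        apply mul_le_mul_of_nonneg_left _ (by positivity)
        have a0 : 0 ≤ e n * (x ^ 2 + y ^ 2) := mul_nonneg (hpos n).le (by positivity)
        apply div_le_div₀ hy.le (by linarith) (by positivity)
        have a1 : e n * s * x ≤ y / 2 := by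
          calc e n * s * x ≤ |e n * s * x| := le_abs_self _
            _ = e n * (|s| * |x|) := by
              rw [abs_mul, abs_mul, abs_of_pos (hpos n)]; ring
            _ ≤ e n * (N * |x|) := by
              apply mul_le_mul_of_nonneg_left _ (hpos n).le
              exact mul_le_mul_of_nonneg_right hsN (abs_nonneg x)
            _ ≤ y / 2 := hn2.le
        have a2 : (y / 2) ^ 2 ≤ (y - e n * s * x) ^ 2 :=
          pow_le_pow_left₀ (by positivity) (by linarith) 2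
        nlinarith [sq_nonneg (s - x - e n * s * y)]
      · rw [Metric.mem_closedBall, dist_zero_right]
        exact (norm_Zl_le _ _).trans hsN
    · exact integrable_const _
    · refine Eventually.of_forall fun s => ?_
      exact ((tendsto_kl hy s).comp tendsto_eps).mul
        ((hV.cont.tendsto _).comp ((tendsto_Zl s).comp tendsto_eps))
  -- the inequality
  have hineq : ∀ᶠ n in atTop, V ⟨x, y⟩ ≤ (∫ s in Icc (-N) N, f n s) + ρ n * V ⟨0, η⟩ := by
    filter_upwards [ev_small (C := x ^ 2 + y ^ 2) hy, ev_small (C := 0 ^ 2 + η ^ 2) hη,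
      ev_small (C := η) one_pos, ev_small (C := y) (y := 1 - |x| / N) (by linarith)]
      with n hn1 hn2 hn3 hn4
    have hfi : Integrable (f n) := half_integrable hV.cont (hpos n) hn1
    have hgi : Integrable (g n) := half_integrable hV.cont (hpos n) hn2
    have hVZ : ∀ s, 0 ≤ V (Zl (e n) s) := fun s => hV.nonneg _ (Zl_im_nonneg (hpos n).le s)
    have hgnn : ∀ s, 0 ≤ g n s := fun s => mul_nonneg (kl_nonneg hn2 s) (hVZ s)
    have hρ0 : 0 ≤ ρ n := by
      rw [hρ]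
      have : 0 < 1 - e n * η := by linarith
      positivity
    rw [half_formula hV (hpos n) hn1, half_formula hV (hpos n) hn2]
    change ∫ s, f n s ≤ (∫ s in Icc (-N) N, f n s) + ρ n * ∫ s, g n s
    rw [← integral_add_compl hIN hfi]
    gcongr
    calc ∫ s in (Icc (-N) N)ᶜ, f n s ≤ ∫ s in (Icc (-N) N)ᶜ, ρ n * g n s := by
          apply setIntegral_mono_on hfi.integrableOn (hgi.const_mul _).integrableOn hIN.compl
          intro s hs
          have hs' : N < |s| := by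
            by_contra hcon
            push Not at hcon
            exact hs ⟨(abs_le.1 hcon).1, (abs_le.1 hcon).2⟩
          have := kl_ratio (hpos n) hN0 hs' hy hη hn3 (by linarith) hn1
          rw [hf, hg]
          simp only
          rw [← mul_assoc]
          exact mul_le_mul_of_nonneg_right this (hVZ s)
      _ = ρ n * ∫ s in (Icc (-N) N)ᶜ, g n s := MeasureTheory.integral_const_mul _ _
      _ ≤ ρ n * ∫ s, g n s := by
          apply mul_le_mul_of_nonneg_left _ hρ0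
          exact setIntegral_le_integral hgi (Eventually.of_forall hgnn)
  have h1 := ge_of_tendsto (hl1.add (hlρ.mul_const (V ⟨0, η⟩))) hineq
  refine h1.trans ?_
  gcongr
  -- compare the integrals
  have hint : Integrable fun s => pk y (s - x) * V ⟨s, 0⟩ := by
    have := (half_integrable_cv hV x hy).comp_sub_left x
    refine this.congr (Eventually.of_forall fun s => ?_)
    simp only [sub_sub_cancel]
    rw [mul_comm]
    congr 1
    unfold pk
    ring_nf
  have hle : ∫ s in Icc (-N) N, pk y (s - x) * V ⟨s, 0⟩ ≤ ∫ s, pk y (s - x) * V ⟨s, 0⟩ :=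
    setIntegral_le_integral hint (Eventually.of_forall fun s =>
      mul_nonneg (pk_nonneg hy.le _) (hV.nonneg _ le_rfl))
  refine hle.trans (le_of_eq ?_)
  unfold cv
  rw [← integral_sub_left_eq_self (fun s => pk y (s - x) * V ⟨s, 0⟩) volume x]
  refine integral_congr_ae (Eventually.of_forall fun s => ?_)
  simp only
  rw [mul_comm]
  congr 1
  unfold pk
  ring_nf

theorem half_upper {V : ℂ → ℝ} (hV : HP V) {x y η : ℝ} (hy : 0 < y) (hη : 0 < η) :
    V ⟨x, y⟩ ≤ cv (pk y) (fun t => V ⟨t, 0⟩) x + (y / η) * V ⟨0, η⟩ := by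
  have hlim : Tendsto (fun N : ℝ => cv (pk y) (fun t => V ⟨t, 0⟩) x +
      (y / η) * (1 + η ^ 2 / N ^ 2) / (1 - |x| / N) ^ 2 * V ⟨0, η⟩) atTop
      (𝓝 (cv (pk y) (fun t => V ⟨t, 0⟩) x +
      (y / η) * (1 + 0) / (1 - 0) ^ 2 * V ⟨0, η⟩)) := by
    refine Tendsto.add tendsto_const_nhds (Tendsto.mul_const _ (Tendsto.div ?_ ?_ (by norm_num)))
    · refine Tendsto.mul tendsto_const_nhds (Tendsto.add tendsto_const_nhds ?_)
      exact Tendsto.div_atTop tendsto_const_nhds (tendsto_pow_atTop (by norm_num))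
    · refine Tendsto.pow (Tendsto.sub tendsto_const_nhds ?_) 2
      exact Tendsto.div_atTop tendsto_const_nhds tendsto_id
  have h := ge_of_tendsto hlim (by
    filter_upwards [eventually_gt_atTop |x|] with N hN
    exact half_upper_aux hV hy hη hN)
  simpa using h

end Pool.Agent.Lib_helper51
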