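import Pool.Agent.Lib_helper51.Iter
import Pool.Agent.Lib_helper51.Half
import Pool.Agent.Lib_helper51.SubMean

set_option autoImplicit false

/-!
# Half disc integrals in polar and Cartesian coordinates
-/

open MeasureTheory Set intervalIntegral InnerProductSpace
open scoped Real

namespace Pool.Agent.Lib_helper51

/-- the open upper half disc -/
def HDs (R : ℝ) : Set (ℝ × ℝ) := {p | 0 < p.2 ∧ p.1 ^ 2 + p.2 ^ 2 < R ^ 2}

/-- half disc integral by horizontal slices -/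
noncomputable def HD (R : ℝ) (F : ℂ → ℝ) (x : ℝ) : ℝ :=
  ∫ y in (0:ℝ)..R, ∫ ξ in (-√(R ^ 2 - y ^ 2))..(√(R ^ 2 - y ^ 2)), F ⟨x + ξ, y⟩

theorem continuous_mk : Continuous fun p : ℝ × ℝ => (⟨p.1, p.2⟩ : ℂ) :=
  Complex.equivRealProdCLM.symm.continuous

theorem HDs_meas (R : ℝ) : MeasurableSet (HDs R) := by
  apply IsOpen.measurableSet
  have h1 : IsOpen {p : ℝ × ℝ | 0 < p.2} := isOpen_lt continuous_const continuous_snd
  have h2 : IsOpen {p : ℝ × ℝ | p.1 ^ 2 + p.2 ^ 2 < R ^ 2} := isOpen_lt (by fun_prop) continuous_const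
  exact h1.inter h2

theorem HDs_sub {R : ℝ} (hR : 0 ≤ R) : HDs R ⊆ Icc (-R) R ×ˢ Icc (-R) R := by
  rintro ⟨a, b⟩ ⟨h1, h2⟩
  simp only at h1 h2
  have ha : |a| ≤ R := abs_le_of_sq_le_sq (by nlinarith [sq_nonneg b]) hR
  have hb : |b| ≤ R := abs_le_of_sq_le_sq (by nlinarith [sq_nonneg a]) hR
  exact ⟨abs_le.1 ha, abs_le.1 hb⟩

theorem HDs_integrable {G : ℝ × ℝ → ℝ} (hG : Continuous G) {R : ℝ} (hR : 0 ≤ R) :
    IntegrableOn G (HDs R) := by
  refine IntegrableOn.mono_set ?_ (HDs_sub hR)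
  exact hG.continuousOn.integrableOn_compact (isCompact_Icc.prod isCompact_Icc)

theorem HD_slice (F : ℂ → ℝ) {R : ℝ} (hR : 0 < R) (x y : ℝ) :
    ∫ ξ, (HDs R).indicator (fun p : ℝ × ℝ => F ⟨x + p.1, p.2⟩) (ξ, y) = (Ioc 0 R).indicator
      (fun y => ∫ ξ in (-√(R ^ 2 - y ^ 2))..(√(R ^ 2 - y ^ 2)), F ⟨x + ξ, y⟩) y := by
  set f : ℝ × ℝ → ℝ := (HDs R).indicator (fun p => F ⟨x + p.1, p.2⟩) with hf
  by_cases hy : y ∈ Ioc 0 R
  · rw [indicator_of_mem hy, intervalIntegral.integral_of_le (by linarith [Real.sqrt_nonneg (R ^ 2 - y ^ 2)]),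
      integral_Ioc_eq_integral_Ioo, ← MeasureTheory.integral_indicator measurableSet_Ioo]
    congr 1
    funext ξ
    by_cases hξ : ξ ∈ Ioo (-√(R ^ 2 - y ^ 2)) (√(R ^ 2 - y ^ 2))
    · rw [indicator_of_mem hξ, hf, indicator_of_mem]
      refine ⟨hy.1, ?_⟩
      have h3 : |ξ| < √(R ^ 2 - y ^ 2) := abs_lt.2 hξ
      have h4 := Real.lt_sqrt (abs_nonneg ξ) |>.1 h3
      rw [sq_abs] at h4
      simp only
      linarith
    · rw [indicator_of_notMem hξ, hf, indicator_of_notMem]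
      rintro ⟨-, h3⟩
      apply hξ
      simp only at h3
      have h4 : |ξ| < √(R ^ 2 - y ^ 2) := by
        apply Real.lt_sqrt_of_sq_lt
        rw [sq_abs]; linarith
      exact abs_lt.1 h4
  · rw [indicator_of_notMem hy]
    have : ∀ ξ, f (ξ, y) = 0 := by
      intro ξ
      rw [hf, indicator_of_notMem]
      rintro ⟨h3, h4⟩
      apply hy
      simp only at h3 h4
      exact ⟨h3, (abs_le_of_sq_le_sq' (by nlinarith [sq_nonneg ξ]) hR.le).2⟩
    simp [this]

theorem HD_full_integrable {F : ℂ → ℝ} (hF : Continuous F) {R : ℝ} (hR : 0 < R) (x : ℝ) :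
    Integrable ((HDs R).indicator (fun p : ℝ × ℝ => F ⟨x + p.1, p.2⟩)) := by
  have hG : Continuous fun p : ℝ × ℝ => F ⟨x + p.1, p.2⟩ :=
    hF.comp (continuous_mk.comp ((continuous_const.add continuous_fst).prodMk continuous_snd))
  exact (integrable_indicator_iff (HDs_meas R)).2 (HDs_integrable hG hR.le)

theorem HD_eq_integral {F : ℂ → ℝ} (hF : Continuous F) {R : ℝ} (hR : 0 < R) (x : ℝ) :
    HD R F x = ∫ p, (HDs R).indicator (fun p => F ⟨x + p.1, p.2⟩) p := by
  set f : ℝ × ℝ → ℝ := (HDs R).indicator (fun p => F ⟨x + p.1, p.2⟩) with hf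
  have hfi : Integrable f := HD_full_integrable hF hR x
  have h1 : ∫ p, f p = ∫ y, ∫ ξ, f (ξ, y) := integral_prod_symm f hfi
  rw [h1]
  simp_rw [hf, HD_slice F hR x]
  rw [MeasureTheory.integral_indicator measurableSet_Ioc, ← intervalIntegral.integral_of_le hR.le]
  rfl

theorem HD_slice_integrable {F : ℂ → ℝ} (hF : Continuous F) {R : ℝ} (hR : 0 < R) (x : ℝ) :
    IntegrableOn (fun y => ∫ ξ in (-√(R ^ 2 - y ^ 2))..(√(R ^ 2 - y ^ 2)), F ⟨x + ξ, y⟩)
      (Ioc 0 R) := by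
  have h := (HD_full_integrable hF hR x).integral_prod_right
  simp_rw [HD_slice F hR x] at h
  exact (integrable_indicator_iff measurableSet_Ioc).1 h

theorem HD_polar {F : ℂ → ℝ} (hF : Continuous F) {R : ℝ} (hR : 0 < R) (x : ℝ) :
    HD R F x = ∫ r in (0:ℝ)..R, r * ∫ θ in (0:ℝ)..π, F ⟨x + r * Real.cos θ, r * Real.sin θ⟩ := by
  rw [HD_eq_integral hF hR, ← integral_comp_polarCoord_symm]
  set G : ℝ × ℝ → ℝ := fun p => p.1 * F ⟨x + p.1 * Real.cos p.2, p.1 * Real.sin p.2⟩ with hG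
  have hGc : Continuous G := by
    have h0 : Continuous fun p : ℝ × ℝ => (x + p.1 * Real.cos p.2, p.1 * Real.sin p.2) := by
      fun_prop
    have h1 := hF.comp (continuous_mk.comp h0)
    exact continuous_fst.mul h1
  have h1 : ∫ p in polarCoord.target, p.1 • (HDs R).indicator (fun p => F ⟨x + p.1, p.2⟩)
      (polarCoord.symm p) = ∫ p in polarCoord.target, (Ioo 0 R ×ˢ Ioo 0 π).indicator G p := by
    refine setIntegral_congr_fun (measurableSet_Ioi.prod measurableSet_Ioo) ?_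
    rintro ⟨r, θ⟩ ⟨hr, hθ⟩
    simp only [mem_Ioi] at hr
    simp only at hθ
    have hsymm : polarCoord.symm (r, θ) = (r * Real.cos θ, r * Real.sin θ) := rfl
    simp only [hsymm, smul_eq_mul]
    have hsq : (r * Real.cos θ) ^ 2 + (r * Real.sin θ) ^ 2 = r ^ 2 := by
      have := Real.sin_sq_add_cos_sq θ
      nlinarith
    by_cases hm : (r, θ) ∈ Ioo 0 R ×ˢ Ioo 0 π
    · rw [indicator_of_mem hm, indicator_of_mem]
      refine ⟨?_, ?_⟩
      · exact mul_pos hr (Real.sin_pos_of_mem_Ioo hm.2)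
      · simp only
        rw [hsq]
        exact pow_lt_pow_left₀ hm.1.2 hr.le (by norm_num)
    · rw [indicator_of_notMem hm, indicator_of_notMem, mul_zero]
      rintro ⟨h2, h3⟩
      apply hm
      simp only at h2 h3
      rw [hsq] at h3
      refine ⟨⟨hr, lt_of_pow_lt_pow_left₀ 2 hR.le h3⟩, ?_, hθ.2⟩
      by_contra hcon
      push Not at hcon
      have := Real.sin_nonpos_of_nonpos_of_neg_pi_le hcon hθ.1.le
      simp only at this
      nlinarith
  rw [h1, setIntegral_indicator (measurableSet_Ioo.prod measurableSet_Ioo)]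
  have h2 : polarCoord.target ∩ Ioo 0 R ×ˢ Ioo 0 π = Ioo 0 R ×ˢ Ioo 0 π := by
    apply inter_eq_right.2
    rintro ⟨r, θ⟩ ⟨hr, hθ⟩
    exact ⟨hr.1, ⟨by linarith [hθ.1, Real.pi_pos], hθ.2⟩⟩
  rw [h2, Measure.volume_eq_prod, setIntegral_prod]
  · rw [intervalIntegral.integral_of_le hR.le, integral_Ioc_eq_integral_Ioo]
    refine setIntegral_congr_fun measurableSet_Ioo fun r _ => ?_
    simp only [hG]
    rw [MeasureTheory.integral_const_mul, intervalIntegral.integral_of_le Real.pi_pos.le,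
      integral_Ioc_eq_integral_Ioo]
  · refine IntegrableOn.mono_set ?_ (prod_mono Ioo_subset_Icc_self Ioo_subset_Icc_self)
    exact hGc.continuousOn.integrableOn_compact (isCompact_Icc.prod isCompact_Icc)

theorem NR_eq {R : ℝ} (hR : 0 < R) : NR R = π * R ^ 2 / 2 := by
  have h := HD_polar (F := fun _ => (1:ℝ)) continuous_const hR 0
  unfold HD at h
  simp only [intervalIntegral.integral_const, smul_eq_mul, mul_one, sub_zero] at h
  unfold NR
  have e1 : ∫ y in (0:ℝ)..R, 2 * √(R ^ 2 - y ^ 2) =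
      ∫ y in (0:ℝ)..R, (√(R ^ 2 - y ^ 2) - -√(R ^ 2 - y ^ 2)) := by
    congr 1
    funext y
    ring
  rw [e1, h, intervalIntegral.integral_mul_const, integral_id]
  ring

theorem circleAverage_sym {F : ℂ → ℝ} (hF : Continuous F) (hs : ∀ z, F (starRingEnd ℂ z) = F z)
    (x r : ℝ) : Real.circleAverage F (⟨x, 0⟩ : ℂ) r =
      (1 / π) * ∫ θ in (0:ℝ)..π, F ⟨x + r * Real.cos θ, r * Real.sin θ⟩ := by
  have hmap : ∀ θ, circleMap (⟨x, 0⟩ : ℂ) r θ = ⟨x + r * Real.cos θ, r * Real.sin θ⟩ := by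
    intro θ
    unfold circleMap
    apply Complex.ext
    · simp only [Complex.add_re, Complex.mul_re, Complex.exp_ofReal_mul_I_re,
        Complex.exp_ofReal_mul_I_im, Complex.ofReal_re, Complex.ofReal_im, zero_mul, sub_zero]
    · simp only [Complex.add_im, Complex.mul_im, Complex.exp_ofReal_mul_I_re,
        Complex.exp_ofReal_mul_I_im, Complex.ofReal_re, Complex.ofReal_im, zero_mul, add_zero, zero_add]
  set g : ℝ → ℝ := fun θ => F ⟨x + r * Real.cos θ, r * Real.sin θ⟩ with hg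
  have hgc : Continuous g := by
    have h0 : Continuous fun θ : ℝ => (x + r * Real.cos θ, r * Real.sin θ) := by fun_prop
    exact hF.comp (continuous_mk.comp h0)
  unfold Real.circleAverage
  have e0 : ∫ θ in (0:ℝ)..2 * π, F (circleMap (⟨x, 0⟩ : ℂ) r θ) = ∫ θ in (0:ℝ)..2 * π, g θ := by
    congr 1
    funext θ
    rw [hmap]
  have e1 : ∫ θ in (0:ℝ)..2 * π, g θ = (∫ θ in (0:ℝ)..π, g θ) + ∫ θ in π..2 * π, g θ :=
    (intervalIntegral.integral_add_adjacent_intervals (hgc.intervalIntegrable _ _)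
      (hgc.intervalIntegrable _ _)).symm
  have e2 : ∫ θ in π..2 * π, g θ = ∫ θ in (0:ℝ)..π, g θ := by
    have h1 := intervalIntegral.integral_comp_sub_left (a := 0) (b := π) g (2 * π)
    rw [show 2 * π - π = π by ring, sub_zero] at h1
    rw [← h1]
    congr 1
    funext θ
    simp only [hg]
    rw [← hs ⟨x + r * Real.cos θ, r * Real.sin θ⟩]
    congr 1
    apply Complex.ext
    · simp [Real.cos_two_pi_sub]
    · simp [Real.sin_two_pi_sub]
  rw [e0, e1, e2, smul_eq_mul]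
  field_simp
  ring

theorem HD_inner_continuous {F : ℂ → ℝ} (hF : Continuous F) (x : ℝ) :
    Continuous fun r : ℝ => r * ∫ θ in (0:ℝ)..π, F ⟨x + r * Real.cos θ, r * Real.sin θ⟩ := by
  refine continuous_id.mul (intervalIntegral.continuous_parametric_intervalIntegral_of_continuous' ?_ _ _)
  have h0 : Continuous fun p : ℝ × ℝ => (x + p.1 * Real.cos p.2, p.1 * Real.sin p.2) := by
    fun_prop
  exact hF.comp (continuous_mk.comp h0)

theorem NR_mul_eq {R : ℝ} (hR : 0 < R) (c : ℝ) :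
    NR R * c = ∫ r in (0:ℝ)..R, r * (π * c) := by
  rw [intervalIntegral.integral_mul_const, integral_id, NR_eq hR]
  ring

theorem HD_submean {F : ℂ → ℝ} (hF : Continuous F) (hs : ∀ z, F (starRingEnd ℂ z) = F z)
    {x R : ℝ} (hR : 0 < R) (h : ∀ r, 0 < r → F ⟨x, 0⟩ ≤ Real.circleAverage F (⟨x, 0⟩ : ℂ) r) :
    NR R * F ⟨x, 0⟩ ≤ HD R F x := by
  rw [HD_polar hF hR, NR_mul_eq hR]
  rw [intervalIntegral.integral_of_le hR.le, intervalIntegral.integral_of_le hR.le]
  refine setIntegral_mono_on ?_ ((HD_inner_continuous hF x).intervalIntegrable 0 R).1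
    measurableSet_Ioc fun r hr => ?_
  · exact ((by fun_prop : Continuous fun r : ℝ => r * (π * F ⟨x, 0⟩)).intervalIntegrable 0 R).1
  · have h1 := h r hr.1
    rw [circleAverage_sym hF hs] at h1
    apply mul_le_mul_of_nonneg_left _ hr.1.le
    have h2 := mul_le_mul_of_nonneg_left h1 Real.pi_pos.le
    refine h2.trans (le_of_eq ?_)
    field_simp

theorem HD_mean {F : ℂ → ℝ} (hF : Continuous F) (hs : ∀ z, F (starRingEnd ℂ z) = F z)
    {x R : ℝ} (hR : 0 < R)
    (hh : HarmonicOnNhd F (Metric.ball (⟨x, 0⟩ : ℂ) R)) :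
    NR R * F ⟨x, 0⟩ = HD R F x := by
  rw [HD_polar hF hR, NR_mul_eq hR]
  rw [intervalIntegral.integral_of_le hR.le, intervalIntegral.integral_of_le hR.le,
    integral_Ioc_eq_integral_Ioo, integral_Ioc_eq_integral_Ioo]
  refine setIntegral_congr_fun measurableSet_Ioo fun r hr => ?_
  have h1 : Real.circleAverage F (⟨x, 0⟩ : ℂ) r = F ⟨x, 0⟩ := by
    apply InnerProductSpace.HarmonicOnNhd.circleAverage_eq
    rw [abs_of_pos hr.1]
    exact hh.mono (Metric.closedBall_subset_ball hr.2)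
  rw [circleAverage_sym hF hs] at h1
  rw [← h1]
  field_simp

/-- first moment of the half disc -/
noncomputable def tR (R : ℝ) : ℝ := ∫ y in (0:ℝ)..R, y * (2 * √(R ^ 2 - y ^ 2))

theorem tR_cont (R : ℝ) : Continuous fun y : ℝ => y * (2 * √(R ^ 2 - y ^ 2)) := by fun_prop

theorem tR_pos {R : ℝ} (hR : 0 < R) : 0 < tR R := by
  unfold tR
  refine intervalIntegral.intervalIntegral_pos_of_pos_on ((tR_cont R).intervalIntegrable _ _) ?_ hR
  intro y hy
  have h1 : 0 < R ^ 2 - y ^ 2 := by nlinarith [hy.1, hy.2]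
  have := hy.1
  positivity

theorem continuous_horiz {F : ℂ → ℝ} (hF : Continuous F) (y : ℝ) : Continuous fun b : ℝ => F ⟨b, y⟩ :=
  hF.comp (continuous_mk.comp (continuous_id.prodMk continuous_const))

theorem slice_eq (F : ℂ → ℝ) (a x y : ℝ) :
    ∫ ξ in (-a)..a, F ⟨x + ξ, y⟩ = ∫ b in (x - a)..(x + a), F ⟨b, y⟩ := by
  rw [intervalIntegral.integral_comp_add_left (fun b => F ⟨b, y⟩)]
  congr 1

theorem tR_SS {u : ℝ → ℝ} (hu : BNM u) {R : ℝ} (hR : 0 < R) (x : ℝ) :
    tR R + SS R u x = ∫ y in Ioc 0 R, (y * (2 * √(R ^ 2 - y ^ 2)) + av R y u x) := by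
  unfold tR SS
  rw [← intervalIntegral.integral_add ((tR_cont R).intervalIntegrable _ _) (av_y_ii hR.le hu x),
    intervalIntegral.integral_of_le hR.le]

theorem slice_const_add {u : ℝ → ℝ} (hu : BNM u) {y : ℝ} (hy : 0 < y) (R x : ℝ) :
    ∫ b in (x - √(R ^ 2 - y ^ 2))..(x + √(R ^ 2 - y ^ 2)), (y + cv (pk y) u b) =
      y * (2 * √(R ^ 2 - y ^ 2)) + av R y u x := by
  rw [intervalIntegral.integral_add (by simp) ((cvpk_bnm hu hy).ii _ _), av_eq]
  unfold box
  simp only [intervalIntegral.integral_const, smul_eq_mul]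
  ring

theorem HD_le {F : ℂ → ℝ} (hF : Continuous F) {u : ℝ → ℝ} (hu : BNM u) {R : ℝ} (hR : 0 < R) (x : ℝ)
    (h : ∀ b y : ℝ, 0 < y → F ⟨b, y⟩ ≤ y + cv (pk y) u b) : HD R F x ≤ tR R + SS R u x := by
  rw [tR_SS hu hR]
  unfold HD
  rw [intervalIntegral.integral_of_le hR.le]
  refine setIntegral_mono_on (HD_slice_integrable hF hR x)
    (((tR_cont R).intervalIntegrable 0 R).1.add (av_y_ii hR.le hu x).1) measurableSet_Ioc
    fun y hy => ?_
  have h0 := Real.sqrt_nonneg (R ^ 2 - y ^ 2)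
  rw [slice_eq, ← slice_const_add hu hy.1]
  exact intervalIntegral.integral_mono_on (by linarith) ((continuous_horiz hF y).intervalIntegrable _ _)
    (IntervalIntegrable.add (by simp) ((cvpk_bnm hu hy.1).ii _ _)) fun b _ => h b y hy.1

theorem HD_ge {F : ℂ → ℝ} (hF : Continuous F) {u : ℝ → ℝ} (hu : BNM u) {R : ℝ} (hR : 0 < R) (x : ℝ)
    (h : ∀ b y : ℝ, 0 < y → y + cv (pk y) u b ≤ F ⟨b, y⟩) : tR R + SS R u x ≤ HD R F x := by
  rw [tR_SS hu hR]
  unfold HD
  rw [intervalIntegral.integral_of_le hR.le]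
  refine setIntegral_mono_on (((tR_cont R).intervalIntegrable 0 R).1.add (av_y_ii hR.le hu x).1)
    (HD_slice_integrable hF hR x) measurableSet_Ioc fun y hy => ?_
  have h0 := Real.sqrt_nonneg (R ^ 2 - y ^ 2)
  rw [slice_eq, ← slice_const_add hu hy.1]
  exact intervalIntegral.integral_mono_on (by linarith)
    (IntervalIntegrable.add (by simp) ((cvpk_bnm hu hy.1).ii _ _))
    ((continuous_horiz hF y).intervalIntegrable _ _) fun b _ => h b y hy.1

end Pool.Agent.Lib_helper51
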