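import Pool.Agent.Lib_helper51.Water

set_option autoImplicit false

/-!
# The periodic comparison function
-/

open MeasureTheory Set intervalIntegral

namespace Pool.Agent.Lib_helper51

theorem integral_congr_Ioo {a b : ℝ} {F H : ℝ → ℝ} (hab : a ≤ b) (hFH : ∀ θ ∈ Ioo a b, F θ = H θ) :
    ∫ θ in a..b, F θ = ∫ θ in a..b, H θ := by
  rw [intervalIntegral.integral_of_le hab, intervalIntegral.integral_of_le hab,
    integral_Ioc_eq_integral_Ioo, integral_Ioc_eq_integral_Ioo]
  exact setIntegral_congr_fun measurableSet_Ioo hFH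

theorem Profile.abs_eq {f : ℝ → ℝ} (hf : Profile f) (x : ℝ) : f |x| = f x := by
  rcases abs_cases x with ⟨h, _⟩ | ⟨h, _⟩ <;> rw [h]
  exact hf.even x

theorem Profile.level_eq {f : ℝ → ℝ} (hf : Profile f) {m : ℝ} (hm : m ∈ Icc (0:ℝ) 1) :
    ∫ x in (-(1/2 : ℝ))..(1/2), max (f x - f (m/2)) 0 = (∫ x in (-(m/2))..(m/2), f x) - m * f (m/2) := by
  have hl : 0 ≤ f (m/2) := hf.bnm.nonneg _
  have hP := hf.bnm.posPart hl
  have h1 := hm.1
  have h2 := hm.2
  rw [← intervalIntegral.integral_add_adjacent_intervals (hP.ii (-(1/2)) (-(m/2))) (hP.ii _ _),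
    ← intervalIntegral.integral_add_adjacent_intervals (hP.ii (-(m/2)) (m/2)) (hP.ii _ _)]
  have e1 : ∫ x in (-(1/2 : ℝ))..(-(m/2)), max (f x - f (m/2)) 0 = 0 := by
    rw [integral_congr_Ioo (H := fun _ => 0) (by linarith)]
    · simp
    · intro x hx
      refine max_eq_right ?_
      have : f |x| ≤ f (m/2) := hf.anti ⟨by linarith, by linarith⟩
        ⟨abs_nonneg _, by rw [abs_of_nonpos (by linarith [hx.2])]; linarith [hx.1]⟩
        (by rw [abs_of_nonpos (by linarith [hx.2])]; linarith [hx.2])
      rw [hf.abs_eq] at this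
      linarith
  have e3 : ∫ x in (m/2)..(1/2), max (f x - f (m/2)) 0 = 0 := by
    rw [integral_congr_Ioo (H := fun _ => 0) (by linarith)]
    · simp
    · intro x hx
      refine max_eq_right ?_
      have : f x ≤ f (m/2) := hf.anti ⟨by linarith, by linarith⟩
        ⟨by linarith [hx.1], by linarith [hx.2]⟩ hx.1.le
      linarith
  have e2 : ∫ x in (-(m/2))..(m/2), max (f x - f (m/2)) 0
      = (∫ x in (-(m/2))..(m/2), f x) - m * f (m/2) := by
    rw [integral_congr_Ioo (H := fun x => f x - f (m/2)) (by linarith),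
      intervalIntegral.integral_sub (hf.bnm.ii _ _) (by simp)]
    · simp only [intervalIntegral.integral_const, smul_eq_mul]
      ring
    · intro x hx
      refine max_eq_left ?_
      have hx' : |x| ≤ m/2 := abs_le.2 ⟨hx.1.le, hx.2.le⟩
      have : f (m/2) ≤ f |x| := hf.anti ⟨abs_nonneg _, by linarith⟩
        ⟨by linarith, by linarith⟩ hx'
      rw [hf.abs_eq] at this
      linarith
  rw [e1, e2, e3]
  ring

/-- the level form implies the set form -/
theorem set_form_of_level {w f : ℝ → ℝ} (hw : BNM w) (hf : Profile f) {a : ℝ}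
    (h : ∀ m ∈ Icc (0:ℝ) 1, ∫ x in a..(a + 1), max (w x - f (m/2)) 0
      ≤ ∫ x in (-(1/2 : ℝ))..(1/2), max (f x - f (m/2)) 0)
    {A : Set ℝ} (hA : MeasurableSet A) (hAs : A ⊆ Icc a (a + 1)) :
    ∫ x in A, w x ≤ ∫ x in (-((volume A).toReal / 2))..((volume A).toReal / 2), f x := by
  obtain ⟨hm1, hmt⟩ := vol_sub_one hAs
  set m := (volume A).toReal with hm
  have hm0 : 0 ≤ m := ENNReal.toReal_nonneg
  have hl : 0 ≤ f (m/2) := hf.bnm.nonneg _
  have hlev := hf.level_eq ⟨hm0, hm1⟩
  have hh := h m ⟨hm0, hm1⟩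
  have hP := hw.posPart hl
  have e1 : ∫ x in A, w x ≤ ∫ x in A, (max (w x - f (m/2)) 0 + f (m/2)) := by
    refine setIntegral_mono_on (hw.integrableOn hmt)
      ((hP.integrableOn hmt).add (integrableOn_const hmt (by simp))) hA fun x _ => ?_
    have := le_max_left (w x - f (m/2)) 0
    linarith
  rw [integral_add (hP.integrableOn hmt) (integrableOn_const hmt (by simp)), setIntegral_const] at e1
  have e2 : ∫ x in A, max (w x - f (m/2)) 0 ≤ ∫ x in a..(a+1), max (w x - f (m/2)) 0 := by
    rw [intervalIntegral.integral_of_le (by linarith), ← integral_Icc_eq_integral_Ioc]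
    exact setIntegral_mono_set (hP.integrableOn (by simp))
      (Filter.Eventually.of_forall fun x => le_max_right _ _) hAs.eventuallyLE
  have e3 : volume.real A = m := rfl
  rw [e3, smul_eq_mul] at e1
  linarith

/-- Existence of the periodic comparison function relative to the window `[0,1]`. -/
theorem exists_fill {v f : ℝ → ℝ} (hv : BNM v) (hf : Profile f) (h : Maj v f) :
    ∃ w : ℝ → ℝ, BNM w ∧ (∀ x, w (x + 1) = w x) ∧
      (∀ A : Set ℝ, MeasurableSet A → A ⊆ Icc 0 1 →
        ∫ x in A, w x ≤ ∫ x in (-((volume A).toReal / 2))..((volume A).toReal / 2), f x) ∧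
      (∀ α β : ℝ, α ≤ β → 0 ≤ α + β → α + β ≤ 2 → ∫ x in α..β, v x ≤ ∫ x in α..β, w x) := by
  obtain ⟨Mv, hMv⟩ := hv.bdd
  obtain ⟨Mf, hMf⟩ := hf.bnm.bdd
  set M := max Mv Mf with hMdef
  have hvM : ∀ x, v x ≤ M := fun x => (hMv x).trans (le_max_left _ _)
  have hfM : ∀ x, f x ≤ M := fun x => (hMf x).trans (le_max_right _ _)
  have hM : 0 ≤ M := (hv.nonneg 0).trans (hvM 0)
  set Φ : ℝ → ℝ := fun l => ∫ x in (-(1/2 : ℝ))..(1/2), max (f x - l) 0 with hΦ
  have hΦc : ContinuousOn Φ (Icc 0 M) := continuous_levelInt hf.bnm _ _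
  have hΦ0 : ∀ l ∈ Icc (0:ℝ) M, ∫ θ in (0:ℝ)..1, max (v θ - l) 0 ≤ Φ l := by
    intro l hl
    have := h.pos_part hv hf 0 hl.1
    rw [zero_add] at this
    exact this
  have hΦM : Φ M = 0 := by
    have : ∀ x, max (f x - M) 0 = 0 := fun x => max_eq_right (by linarith [hfM x])
    simp [hΦ, this]
  obtain ⟨lam, hlanti, hlmem, hP1, hP2, hP3⟩ := water_filling hv hM hvM hΦc hΦ0 hΦM
  set hat : ℝ → ℝ := fun θ => max (v θ) (lam (min θ (1 - θ))) with hhat
  have hatB : BNM hat := by
    refine ⟨?_, fun x => le_max_of_le_left (hv.nonneg x), ⟨M, fun x => max_le (hvM x) (hlmem _).2⟩⟩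
    exact hv.meas.max (hlanti.measurable.comp (measurable_id.min (measurable_const.sub measurable_id)))
  set w : ℝ → ℝ := fun x => hat (Int.fract x) with hw
  have hwB : BNM w := hatB.comp measurable_fract
  have hwper : ∀ x, w (x + 1) = w x := by
    intro x
    simp only [hw, Int.fract_add_one]
  have hwper' : Function.Periodic w 1 := hwper
  have hw01 : ∀ x ∈ Ioo (0:ℝ) 1, w x = hat x := by
    intro x hx
    simp only [hw]
    rw [Int.fract_eq_self.2 ⟨hx.1.le, hx.2⟩]
  have hwint : ∀ a b, 0 ≤ a → a ≤ b → b ≤ 1 → ∫ x in a..b, w x = ∫ x in a..b, hat x := by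
    intro a b ha hab hb
    exact integral_congr_Ioo hab fun x hx => hw01 x ⟨by linarith [hx.1], by linarith [hx.2]⟩
  -- total mass
  set V : ℝ := ∫ x in (-(1/2 : ℝ))..(1/2), f x with hV
  have htot : ∫ x in (0:ℝ)..1, hat x = V := by
    have hhalf : (1/2:ℝ) ∈ Icc (0:ℝ) (1/2) := ⟨by norm_num, le_rfl⟩
    obtain ⟨l, hl, hle⟩ := hP1 (1/2) hhalf
    have h2 := hP2 (1/2) hhalf 0 ⟨le_rfl, hM⟩
    have hsplit : (∫ x in (0:ℝ)..(1/2), hat x) + (∫ x in (1 - 1/2 : ℝ)..1, hat x)
        = ∫ x in (0:ℝ)..1, hat x := by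
      have : (1 - 1/2 : ℝ) = 1/2 := by norm_num
      rw [this, intervalIntegral.integral_add_adjacent_intervals (hatB.ii _ _) (hatB.ii _ _)]
    rw [hsplit] at hle h2
    have hXi : ∀ l, Xi v Φ (1/2) l = l + Φ l := by
      intro l
      unfold Xi
      have : (1 - 1/2 : ℝ) = 1/2 := by norm_num
      rw [this, intervalIntegral.integral_same]
      ring
    rw [hXi] at hle h2
    apply le_antisymm
    · refine h2.trans (le_of_eq ?_)
      have : ∀ x, max (f x - 0) 0 = f x := fun x => by
        rw [sub_zero]; exact max_eq_left (hf.bnm.nonneg x)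
      simp only [hΦ, this, zero_add, hV]
    · rw [hle]
      have : V ≤ ∫ x in (-(1/2 : ℝ))..(1/2), (max (f x - l) 0 + l) := by
        refine intervalIntegral.integral_mono_on (by norm_num) (hf.bnm.ii _ _)
          (((hf.bnm.posPart hl.1).ii _ _).add (by simp)) fun x _ => ?_
        have := le_max_left (f x - l) 0
        linarith
      rw [intervalIntegral.integral_add ((hf.bnm.posPart hl.1).ii _ _) (by simp)] at this
      simp only [intervalIntegral.integral_const, smul_eq_mul] at this
      simp only [hΦ]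
      linarith
  have hwin : ∀ c, ∫ x in c..(c + 1), w x = V := by
    intro c
    rw [hwper'.intervalIntegral_add_eq c 0, zero_add, hwint 0 1 le_rfl zero_le_one le_rfl, htot]
  -- windows of v
  have hvwin : ∀ c, ∫ x in c..(c + 1), v x ≤ V := by
    intro c
    have := h c (Icc c (c + 1)) measurableSet_Icc le_rfl
    have hvol : (volume (Icc c (c + 1))).toReal = 1 := by simp
    rw [integral_Icc_eq_integral_Ioc, ← intervalIntegral.integral_of_le (by linarith), hvol] at this
    exact this
  -- symmetric intervals around 0 and 1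
  have hsym : ∀ x ∈ Icc (0:ℝ) (1/2), ∫ θ in (-x)..x, w θ
      = (∫ θ in (0:ℝ)..x, hat θ) + ∫ θ in (1 - x)..1, hat θ := by
    intro x hx
    rw [← intervalIntegral.integral_add_adjacent_intervals (hwB.ii (-x) 0) (hwB.ii 0 x)]
    have : ∫ θ in (-x)..0, w θ = ∫ θ in (1 - x)..1, hat θ := by
      rw [← hwint (1 - x) 1 (by linarith [hx.2]) (by linarith [hx.1]) le_rfl]
      have e : ∫ θ in (-x)..0, w θ = ∫ θ in (-x)..0, w (θ + 1) := by simp_rw [hwper]
      rw [e, intervalIntegral.integral_comp_add_right]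
      congr 1 <;> ring
    rw [this, hwint 0 x le_rfl hx.1 (by linarith [hx.2])]
    ring
  have hsymv : ∀ x ∈ Icc (0:ℝ) (1/2), ∫ θ in (-x)..x, v θ ≤ ∫ θ in (-x)..x, w θ := by
    intro x hx
    obtain ⟨l, hl, hle⟩ := hP1 x hx
    rw [hsym x hx, hle]
    have hp := h.pos_part hv hf (-x) hl.1
    have e0 : -x + 1 = 1 - x := by ring
    rw [e0] at hp
    have hPv := hv.posPart hl.1
    rw [← intervalIntegral.integral_add_adjacent_intervals (hPv.ii (-x) x) (hPv.ii _ _)] at hp
    have : ∫ θ in (-x)..x, v θ ≤ ∫ θ in (-x)..x, (max (v θ - l) 0 + l) := by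
      refine intervalIntegral.integral_mono_on (by linarith [hx.1]) (hv.ii _ _)
        ((hPv.ii _ _).add (by simp)) fun x _ => ?_
      have := le_max_left (v x - l) 0
      linarith
    rw [intervalIntegral.integral_add (hPv.ii _ _) (by simp)] at this
    simp only [intervalIntegral.integral_const, smul_eq_mul] at this
    unfold Xi
    simp only [hΦ]
    linarith
  have hsymv1 : ∀ x ∈ Icc (0:ℝ) (1/2), ∫ θ in (1 - x)..(1 + x), v θ ≤ ∫ θ in (1 - x)..(1 + x), w θ := by
    intro x hx
    obtain ⟨l, hl, hle⟩ := hP1 x hx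
    have e : ∫ θ in (1 - x)..(1 + x), w θ = ∫ θ in (-x)..x, w θ := by
      have e' : ∫ θ in (-x)..x, w θ = ∫ θ in (-x)..x, w (θ + 1) := by simp_rw [hwper]
      rw [e', intervalIntegral.integral_comp_add_right]
      congr 1 <;> ring
    rw [e, hsym x hx, hle]
    have hp := h.pos_part hv hf x hl.1
    have hPv := hv.posPart hl.1
    rw [← intervalIntegral.integral_add_adjacent_intervals (hPv.ii x (1 - x)) (hPv.ii _ _)] at hp
    rw [add_comm x 1] at hp
    have : ∫ θ in (1 - x)..(1 + x), v θ ≤ ∫ θ in (1 - x)..(1 + x), (max (v θ - l) 0 + l) := by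
      refine intervalIntegral.integral_mono_on (by linarith [hx.1]) (hv.ii _ _)
        ((hPv.ii _ _).add (by simp)) fun x _ => ?_
      have := le_max_left (v x - l) 0
      linarith
    rw [intervalIntegral.integral_add (hPv.ii _ _) (by simp)] at this
    simp only [intervalIntegral.integral_const, smul_eq_mul] at this
    unfold Xi
    simp only [hΦ]
    linarith
  have hin : ∀ a b, 0 ≤ a → a ≤ b → b ≤ 1 → ∫ x in a..b, v x ≤ ∫ x in a..b, w x := by
    intro a b ha hab hb
    rw [hwint a b ha hab hb]
    exact intervalIntegral.integral_mono_on hab (hv.ii _ _) (hatB.ii _ _) fun x _ => le_max_left _ _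
  refine ⟨w, hwB, hwper, ?_, ?_⟩
  · intro A hA hAs
    have hAs' : A ⊆ Icc (0:ℝ) (0 + 1) := by simpa using hAs
    refine set_form_of_level hwB hf (a := 0) ?_ hA hAs'
    intro m hm
    rw [zero_add]
    have hl : f (m/2) ∈ Icc (0:ℝ) M := ⟨hf.bnm.nonneg _, hfM _⟩
    have := hP3 _ hl
    refine le_trans (le_of_eq ?_) this
    refine integral_congr_Ioo zero_le_one fun x hx => ?_
    rw [hw01 x hx]
  · -- domination
    have main : ∀ n : ℕ, ∀ α β : ℝ, α ≤ β → β - α < n + 1 → 0 ≤ α + β → α + β ≤ 2 →
        ∫ x in α..β, v x ≤ ∫ x in α..β, w x := by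
      intro n
      induction n with
      | zero =>
        intro α β hab hlen h0 h2
        simp only [Nat.cast_zero, zero_add] at hlen
        rcases lt_or_ge α 0 with hα | hα
        · have hx : -α ∈ Icc (0:ℝ) (1/2) := ⟨by linarith, by linarith⟩
          have s1 := hsymv (-α) hx
          rw [neg_neg] at s1
          have s2 := hin (-α) β (by linarith) (by linarith) (by linarith)
          rw [← intervalIntegral.integral_add_adjacent_intervals (hv.ii α (-α)) (hv.ii _ _),
            ← intervalIntegral.integral_add_adjacent_intervals (hwB.ii α (-α)) (hwB.ii _ _)]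
          linarith
        · rcases lt_or_ge 1 β with hβ | hβ
          · have hx : β - 1 ∈ Icc (0:ℝ) (1/2) := ⟨by linarith, by linarith⟩
            have s1 := hsymv1 (β - 1) hx
            have e1 : 1 - (β - 1) = 2 - β := by ring
            have e2 : 1 + (β - 1) = β := by ring
            rw [e1, e2] at s1
            have s2 := hin α (2 - β) hα (by linarith) (by linarith)
            rw [← intervalIntegral.integral_add_adjacent_intervals (hv.ii α (2 - β)) (hv.ii _ _),
              ← intervalIntegral.integral_add_adjacent_intervals (hwB.ii α (2 - β)) (hwB.ii _ _)]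
            linarith
          · exact hin α β hα hab hβ
      | succ n ih =>
        intro α β hab hlen h0 h2
        rcases lt_or_ge (β - α) 1 with hsmall | hbig
        · refine ih α β hab ?_ h0 h2
          have : (0:ℝ) ≤ n := by positivity
          linarith
        · push_cast at hlen
          rcases lt_or_ge (α + β) 1 with hc | hc
          · have s1 := ih (α + 1) β (by linarith) (by linarith) (by linarith) (by linarith)
            rw [← intervalIntegral.integral_add_adjacent_intervals (hv.ii α (α + 1)) (hv.ii _ _),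
              ← intervalIntegral.integral_add_adjacent_intervals (hwB.ii α (α + 1)) (hwB.ii _ _),
              hwin]
            linarith [hvwin α]
          · have s1 := ih α (β - 1) (by linarith) (by linarith) (by linarith) (by linarith)
            have e1 : ∫ x in (β - 1)..β, w x = V := by
              have := hwin (β - 1)
              rwa [sub_add_cancel] at this
            have e2 : ∫ x in (β - 1)..β, v x ≤ V := by
              have := hvwin (β - 1)
              rwa [sub_add_cancel] at this
            rw [← intervalIntegral.integral_add_adjacent_intervals (hv.ii α (β - 1)) (hv.ii _ _),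
              ← intervalIntegral.integral_add_adjacent_intervals (hwB.ii α (β - 1)) (hwB.ii _ _), e1]
            linarith
    intro α β hab h0 h2
    obtain ⟨n, hn⟩ := exists_nat_gt (β - α)
    exact main n α β hab (by linarith) h0 h2

end Pool.Agent.Lib_helper51
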