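import Pool.Agent.Lib_helper51.Oper

set_option autoImplicit false

/-!
# The iteration
-/

open MeasureTheory Set intervalIntegral
open scoped ENNReal Real

namespace Pool.Agent.Lib_helper51

theorem chiT_profile {g : ℝ} : Profile (chiT g) := by
  refine ⟨chiT_bnm, ?_, chiT_per, ?_⟩
  · intro x
    have h : |-x - round (-x)| = |x - round x| := by
      rw [abs_sub_round_eq_min, abs_sub_round_eq_min]
      by_cases hx : Int.fract x = 0
      · have h2 : Int.fract (-x) = 0 := Int.fract_neg_eq_zero.2 hx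
        rw [hx, h2]
      · rw [Int.fract_neg hx, min_comm]
        congr 1
        ring
    unfold chiT
    rw [h]
  · intro x hx y hy hxy
    have val : ∀ z ∈ Icc (0:ℝ) (1/2), chiT g z = if z < g / 2 then 1 else 0 := by
      intro z hz
      rcases hz.2.lt_or_eq with h | h
      · rw [chiT_eq ⟨by linarith [hz.1], h⟩, abs_of_nonneg hz.1]
      · have hr : round z = 1 := by
          rw [round_eq, Int.floor_eq_iff, h]; norm_num
        unfold chiT
        rw [hr, h]
        have h1 : |(1/2 : ℝ) - ((1:ℤ):ℝ)| = 1/2 := by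
          norm_num [abs_of_neg]
        rw [h1]
    rw [val x hx, val y hy]
    by_cases h : y < g / 2
    · rw [if_pos h, if_pos (lt_of_le_of_lt hxy h)]
    · rw [if_neg h]; split_ifs <;> norm_num

theorem one_bnm : BNM (fun _ : ℝ => (1:ℝ)) := ⟨measurable_const, fun _ => zero_le_one, ⟨1, fun _ => le_rfl⟩⟩

theorem cvpk_chiT_le {g y : ℝ} (hg : g ∈ Icc (0:ℝ) 1) (hy : 0 < y) (b : ℝ) :
    cv (pk y) (chiT g) b ≤ 1 - (1 - g) * pk y (1/2) := by
  have hint := pk_integrable hy
  have hB := chiT_bnm (β := g)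
  have hi := hB.integrable_mul hint b
  have e1 : cv (pk y) (chiT g) b = 1 - ∫ s, (1 - chiT g (b - s)) * pk y s := by
    have : ∫ s, (1 - chiT g (b - s)) * pk y s = ∫ s, (pk y s - chiT g (b - s) * pk y s) :=
      integral_congr_ae (Filter.Eventually.of_forall fun s => by simp only; ring)
    rw [this, integral_sub hint hi, pk_integral hy]
    unfold cv
    ring
  have hnn : ∀ s, 0 ≤ (1 - chiT g (b - s)) * pk y s := fun s =>
    mul_nonneg (by linarith [chiT_le (β := g) (b - s)]) (pk_nonneg hy.le s)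
  have hi2 : Integrable fun s => (1 - chiT g (b - s)) * pk y s := by
    refine (hint.sub hi).congr (Filter.Eventually.of_forall fun s => ?_)
    simp only [Pi.sub_apply]; ring
  have hS : BNM (fun s => chiT g (b - s)) := hB.comp (measurable_const.sub measurable_id)
  have hper : ∫ s in (-(1/2) : ℝ)..(1/2), chiT g (b - s) = g := by
    rw [intervalIntegral.integral_comp_sub_left]
    have hp : Function.Periodic (chiT g) 1 := chiT_per
    have := hp.intervalIntegral_add_eq (b - 1/2) 0
    rw [zero_add, chiT_int hg] at this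
    rw [show b - -(1/2 : ℝ) = b - 1/2 + 1 by ring]
    exact this
  have e2 : (1 - g) * pk y (1/2) ≤ ∫ s, (1 - chiT g (b - s)) * pk y s := by
    calc (1 - g) * pk y (1/2) = ∫ s in (-(1/2) : ℝ)..(1/2), (1 - chiT g (b - s)) * pk y (1/2) := by
          rw [intervalIntegral.integral_mul_const,
            intervalIntegral.integral_sub (by simp) (hS.ii _ _), hper]
          norm_num
      _ ≤ ∫ s in (-(1/2) : ℝ)..(1/2), (1 - chiT g (b - s)) * pk y s := by
          refine intervalIntegral.integral_mono_on (by norm_num)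
            (((one_bnm.ii _ _).sub (hS.ii _ _)).mul_const _) (hi2.intervalIntegrable) fun s hs => ?_
          refine mul_le_mul_of_nonneg_left ?_ (by linarith [chiT_le (β := g) (b - s)])
          have : pk y s = pk y |s| := by unfold pk; rw [sq_abs]
          rw [this]
          exact pk_anti hy (mem_Ici.2 (abs_nonneg _)) (mem_Ici.2 (by norm_num)) (abs_le.2 hs)
      _ ≤ ∫ s, (1 - chiT g (b - s)) * pk y s := by
          rw [intervalIntegral.integral_of_le (by norm_num)]
          exact setIntegral_le_integral hi2 (Filter.Eventually.of_forall hnn)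
  linarith

/-- the amount of killing -/
noncomputable def dR (R : ℝ) : ℝ := ∫ y in (0:ℝ)..R, pk y (1/2) * (2 * √(R ^ 2 - y ^ 2))

theorem dR_cont (R : ℝ) : Continuous fun y : ℝ => pk y (1/2) * (2 * √(R ^ 2 - y ^ 2)) := by
  unfold pk
  have : ∀ y : ℝ, ((1/2 : ℝ) ^ 2 + y ^ 2) ≠ 0 := fun y => by positivity
  fun_prop (disch := exact this _)

theorem dR_pos {R : ℝ} (hR : 0 < R) : 0 < dR R := by
  unfold dR
  refine intervalIntegral.intervalIntegral_pos_of_pos_on ((dR_cont R).intervalIntegrable _ _) ?_ hR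
  intro y hy
  have h1 : 0 < R ^ 2 - y ^ 2 := by nlinarith [hy.1, hy.2]
  have h2 : 0 < pk y (1/2) := by
    unfold pk
    have := hy.1
    positivity
  positivity

theorem SS_chiT_le {R g : ℝ} (hR : 0 ≤ R) (hg : g ∈ Icc (0:ℝ) 1) (x : ℝ) :
    SS R (chiT g) x ≤ NR R - (1 - g) * dR R := by
  unfold SS NR dR
  rw [← intervalIntegral.integral_const_mul, ← intervalIntegral.integral_sub
    ((NR_cont R).intervalIntegrable _ _) (((dR_cont R).const_mul (1 - g)).intervalIntegrable _ _),
    intervalIntegral.integral_of_le hR, intervalIntegral.integral_of_le hR]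
  refine setIntegral_mono_on (av_y_ii hR chiT_bnm x).1 ?_ measurableSet_Ioc fun y hy => ?_
  · exact (((NR_cont R).sub ((dR_cont R).const_mul (1 - g))).intervalIntegrable _ _).1
  · rw [av_eq]
    have h0 := Real.sqrt_nonneg (R ^ 2 - y ^ 2)
    calc box (√(R ^ 2 - y ^ 2)) (cv (pk y) (chiT g)) x
        ≤ ∫ b in (x - √(R ^ 2 - y ^ 2))..(x + √(R ^ 2 - y ^ 2)), (1 - (1 - g) * pk y (1/2)) :=
          intervalIntegral.integral_mono_on (by linarith) ((cvpk_bnm chiT_bnm hy.1).ii _ _) (by simp)
            fun b _ => cvpk_chiT_le hg hy.1 b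
      _ = 2 * √(R ^ 2 - y ^ 2) - (1 - g) * (pk y (1/2) * (2 * √(R ^ 2 - y ^ 2))) := by
          simp only [intervalIntegral.integral_const, smul_eq_mul]; ring

theorem cut_profile {g : ℝ} (hg : g ≤ 1) {w : ℝ → ℝ} (hw : Profile w) {c : ℝ} (hc : 0 ≤ c) :
    Profile (fun x => chiT g x * (w x + c)) := by
  have hχ := (chiT_profile (g := g))
  obtain ⟨M, hM⟩ := hw.bnm.bdd
  have hM0 : 0 ≤ M := (hw.bnm.nonneg 0).trans (hM 0)
  refine ⟨⟨hχ.bnm.meas.mul (hw.bnm.meas.add_const c),
    fun x => mul_nonneg (hχ.bnm.nonneg _) (add_nonneg (hw.bnm.nonneg _) hc), ⟨M + c, fun x => ?_⟩⟩,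
    ?_, ?_, ?_⟩
  · calc chiT g x * (w x + c) ≤ 1 * (w x + c) :=
          mul_le_mul_of_nonneg_right (chiT_le x) (add_nonneg (hw.bnm.nonneg _) hc)
      _ ≤ M + c := by linarith [hM x]
  · intro x; simp only [hχ.even, hw.even]
  · intro x; simp only [hχ.per, hw.per]
  · intro x hx y hy hxy
    exact mul_le_mul (hχ.anti hx hy hxy) (by linarith [hw.anti hx hy hxy])
      (add_nonneg (hw.bnm.nonneg _) hc) (hχ.bnm.nonneg _)

theorem iter_step {R τ g : ℝ} (hR : 0 < R) (hR2 : R ≤ 1/2) (hg : g ∈ Icc (0:ℝ) 1)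
    {Ω : Set ℝ} (hΩm : MeasurableSet Ω) (hΩ : ∀ x, (volume (Icc x (x + 1) ∩ Ω)).toReal ≤ g)
    {u w : ℝ → ℝ} (hu : BNM u) (hu0 : ∀ x, x ∉ Ω → u x = 0)
    (huT : ∀ x ∈ Ω, NR R * u x ≤ τ + SS R u x) (hw : Profile w)
    (hwT : ∀ x, |x| < g/2 → τ + SS R w x ≤ NR R * w x) {c : ℝ} (hc : 0 ≤ c)
    (h : Maj u (fun x => chiT g x * (w x + c))) :
    Maj u (fun x => chiT g x * (w x + (1 - (1 - g) * dR R / NR R) * c)) := by
  have hN := NR_pos hR
  set q := 1 - (1 - g) * dR R / NR R with hq
  have hχ := (chiT_profile (g := g))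
  have hcut := cut_profile hg.2 hw hc
  have hSc : ∀ x, SS R (fun x => chiT g x * (w x + c)) x ≤ SS R w x + c * (NR R * q) := by
    intro x
    have hχw := cut_profile hg.2 hw (le_refl 0)
    have e : (fun x => chiT g x * (w x + c)) = fun x => chiT g x * (w x + 0) + c * chiT g x := by
      funext x; ring
    rw [e, SS_add hR.le hχw.bnm hχ.bnm]
    have h1 : SS R (fun x => chiT g x * (w x + 0)) x ≤ SS R w x := by
      refine SS_mono hR.le hχw.bnm hw.bnm (fun x => ?_) x
      rw [add_zero]
      calc chiT g x * w x ≤ 1 * w x := mul_le_mul_of_nonneg_right (chiT_le x) (hw.bnm.nonneg _)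
        _ = w x := one_mul _
    have h2 : SS R (chiT g) x ≤ NR R * q := by
      refine (SS_chiT_le hR.le hg x).trans (le_of_eq ?_)
      rw [hq]; field_simp
    have h3 : c * SS R (chiT g) x ≤ c * (NR R * q) := mul_le_mul_of_nonneg_left h2 hc
    linarith
  have hNq : 0 ≤ NR R * q := by
    have h1 := (SS_bnm hR.le hχ.bnm).nonneg 0
    have h2 := SS_chiT_le hR.le hg 0
    have : NR R * q = NR R - (1 - g) * dR R := by rw [hq]; field_simp
    rw [this]; linarith
  have hq0 : 0 ≤ q := by
    by_contra hcon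
    push Not at hcon
    nlinarith
  have hqc : 0 ≤ q * c := mul_nonneg hq0 hc
  have hcut' := cut_profile hg.2 hw hqc
  intro a B hB hBs
  obtain ⟨hB1, hBt⟩ := vol_sub_one hBs
  set β := (volume B).toReal with hβ
  have hβ0 : 0 ≤ β := ENNReal.toReal_nonneg
  have hBΩ : MeasurableSet (B ∩ Ω) := hB.inter hΩm
  have hBΩs : B ∩ Ω ⊆ Icc a (a + 1) := inter_subset_left.trans hBs
  obtain ⟨hB1', hBt'⟩ := vol_sub_one hBΩs
  set β' := (volume (B ∩ Ω)).toReal with hβ'
  have hβ'0 : 0 ≤ β' := ENNReal.toReal_nonneg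
  have hβ'β : β' ≤ β := ENNReal.toReal_mono hBt (measure_mono inter_subset_left)
  have hβ'g : β' ≤ g := by
    refine le_trans (ENNReal.toReal_mono ?_ (measure_mono (inter_subset_inter_left Ω hBs))) (hΩ a)
    exact ne_top_of_le_ne_top (by simp : volume (Icc a (a+1)) ≠ ⊤) (measure_mono inter_subset_left)
  have e1 : ∫ x in B, u x = ∫ x in B ∩ Ω, u x := by
    refine setIntegral_eq_of_subset_of_forall_sdiff_eq_zero hB inter_subset_left ?_
    intro x hx
    refine hu0 x fun hxΩ => hx.2 ⟨hx.1, hxΩ⟩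
  have hSu := SS_bnm hR.le hu
  have e2 : NR R * ∫ x in B ∩ Ω, u x ≤ τ * β' + ∫ x in B ∩ Ω, SS R u x := by
    rw [← MeasureTheory.integral_const_mul]
    calc ∫ x in B ∩ Ω, NR R * u x ≤ ∫ x in B ∩ Ω, (τ + SS R u x) := by
          refine setIntegral_mono_on ((hu.integrableOn hBt').const_mul _)
            ((integrableOn_const hBt' (by simp)).add (hSu.integrableOn hBt')) hBΩ fun x hx => huT x hx.2
      _ = τ * β' + ∫ x in B ∩ Ω, SS R u x := by
          have i1 : IntegrableOn (fun _ : ℝ => τ) (B ∩ Ω) volume := integrableOn_const hBt' (by simp)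
          rw [MeasureTheory.integral_add i1 (hSu.integrableOn hBt'), setIntegral_const,
            smul_eq_mul, mul_comm]
          rfl
  have e3 := SS_maj hR.le hR2 hu hcut h a (B ∩ Ω) hBΩ hBΩs
  rw [← hβ'] at e3
  have hSw := SS_bnm hR.le hw.bnm
  have e4 : τ * β' + ∫ x in (-(β'/2))..(β'/2), SS R (fun x => chiT g x * (w x + c)) x
      ≤ ∫ x in (-(β'/2))..(β'/2), NR R * (chiT g x * (w x + q * c)) := by
    have e5 : τ * β' + ∫ x in (-(β'/2))..(β'/2), SS R (fun x => chiT g x * (w x + c)) x
        = ∫ x in (-(β'/2))..(β'/2), (τ + SS R (fun x => chiT g x * (w x + c)) x) := by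
      rw [intervalIntegral.integral_add (by simp) ((SS_bnm hR.le hcut.bnm).ii _ _)]
      simp only [intervalIntegral.integral_const, smul_eq_mul]
      ring
    rw [e5, intervalIntegral.integral_of_le (by linarith), intervalIntegral.integral_of_le (by linarith),
      integral_Ioc_eq_integral_Ioo, integral_Ioc_eq_integral_Ioo]
    refine setIntegral_mono_on
      ((integrableOn_const (by simp) (by simp)).add ((SS_bnm hR.le hcut.bnm).integrableOn (by simp)))
      ((hcut'.bnm.integrableOn (by simp)).const_mul _) measurableSet_Ioo fun x hx => ?_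
    have hx' : |x| < β'/2 := abs_lt.2 hx
    have hχx : chiT g x = 1 := by
      rw [chiT_eq ⟨by linarith [hx.1, hg.2], by linarith [hx.2, hg.2]⟩, if_pos (by linarith)]
    have h1 := hSc x
    have h2 := hwT x (by linarith)
    rw [hχx, one_mul]
    nlinarith
  rw [intervalIntegral.integral_const_mul] at e4
  have e6 : ∫ x in (-(β'/2))..(β'/2), chiT g x * (w x + q * c)
      ≤ ∫ x in (-(β/2))..(β/2), chiT g x * (w x + q * c) :=
    FF_mono hcut'.bnm hβ'β
  have e7 : NR R * ∫ x in B, u x ≤ NR R * ∫ x in (-(β/2))..(β/2), chiT g x * (w x + q * c) := by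
    rw [e1]
    have := mul_le_mul_of_nonneg_left e6 hN.le
    linarith
  exact le_of_mul_le_mul_left e7 hN

theorem rearr {R τ g : ℝ} (hR : 0 < R) (hR2 : R ≤ 1/2) (hg0 : 0 ≤ g) (hg1 : g < 1)
    {Ω : Set ℝ} (hΩm : MeasurableSet Ω) (hΩ : ∀ x, (volume (Icc x (x + 1) ∩ Ω)).toReal ≤ g)
    {u w : ℝ → ℝ} (hu : BNM u) (hu0 : ∀ x, x ∉ Ω → u x = 0)
    (huT : ∀ x ∈ Ω, NR R * u x ≤ τ + SS R u x) (hw : Profile w)
    (hwT : ∀ x, |x| < g/2 → τ + SS R w x ≤ NR R * w x) :
    Maj u (fun x => chiT g x * w x) := by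
  have hg : g ∈ Icc (0:ℝ) 1 := ⟨hg0, hg1.le⟩
  have hN := NR_pos hR
  have hd := dR_pos hR
  set q := 1 - (1 - g) * dR R / NR R with hq
  have hq1 : q < 1 := by
    have : 0 < (1 - g) * dR R / NR R := div_pos (mul_pos (by linarith) hd) hN
    linarith
  have hq0 : 0 ≤ q := by
    have h1 := (SS_bnm hR.le (chiT_bnm (β := g))).nonneg 0
    have h2 := SS_chiT_le hR.le hg 0
    have h3 : NR R * q = NR R - (1 - g) * dR R := by rw [hq]; field_simp
    by_contra hcon
    push Not at hcon
    nlinarith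
  obtain ⟨M, hM⟩ := hu.bdd
  have hM0 : 0 ≤ M := (hu.nonneg 0).trans (hM 0)
  have base : Maj u (fun x => chiT g x * (w x + M)) := by
    intro a B hB hBs
    obtain ⟨hB1, hBt⟩ := vol_sub_one hBs
    set β := (volume B).toReal with hβ
    have hβ0 : 0 ≤ β := ENNReal.toReal_nonneg
    have hBΩ : MeasurableSet (B ∩ Ω) := hB.inter hΩm
    have hBΩs : B ∩ Ω ⊆ Icc a (a + 1) := inter_subset_left.trans hBs
    obtain ⟨hB1', hBt'⟩ := vol_sub_one hBΩs
    set β' := (volume (B ∩ Ω)).toReal with hβ'
    have hβ'0 : 0 ≤ β' := ENNReal.toReal_nonneg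
    have hβ'β : β' ≤ β := ENNReal.toReal_mono hBt (measure_mono inter_subset_left)
    have hβ'g : β' ≤ g := by
      refine le_trans (ENNReal.toReal_mono ?_ (measure_mono (inter_subset_inter_left Ω hBs))) (hΩ a)
      exact ne_top_of_le_ne_top (by simp : volume (Icc a (a+1)) ≠ ⊤) (measure_mono inter_subset_left)
    have e1 : ∫ x in B, u x = ∫ x in B ∩ Ω, u x := by
      refine setIntegral_eq_of_subset_of_forall_sdiff_eq_zero hB inter_subset_left ?_
      intro x hx
      refine hu0 x fun hxΩ => hx.2 ⟨hx.1, hxΩ⟩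
    have hcut := cut_profile hg.2 hw hM0
    rw [e1]
    calc ∫ x in B ∩ Ω, u x ≤ ∫ x in B ∩ Ω, M :=
          setIntegral_mono_on (hu.integrableOn hBt') (integrableOn_const hBt' (by simp)) hBΩ fun x _ => hM x
      _ = β' * M := by rw [setIntegral_const, smul_eq_mul]; rfl
      _ = ∫ x in (-(β'/2))..(β'/2), M := by
          simp only [intervalIntegral.integral_const, smul_eq_mul]; ring
      _ ≤ ∫ x in (-(β'/2))..(β'/2), chiT g x * (w x + M) := by
          rw [intervalIntegral.integral_of_le (by linarith), intervalIntegral.integral_of_le (by linarith),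
            integral_Ioc_eq_integral_Ioo, integral_Ioc_eq_integral_Ioo]
          refine setIntegral_mono_on (integrableOn_const (by simp) (by simp))
            (hcut.bnm.integrableOn (by simp)) measurableSet_Ioo fun x hx => ?_
          have hx' : |x| < β'/2 := abs_lt.2 hx
          rw [chiT_eq ⟨by linarith [hx.1, hg.2], by linarith [hx.2, hg.2]⟩, if_pos (by linarith)]
          linarith [hw.bnm.nonneg x]
      _ ≤ ∫ x in (-(β/2))..(β/2), chiT g x * (w x + M) := FF_mono hcut.bnm hβ'β
  have iter : ∀ n : ℕ, Maj u (fun x => chiT g x * (w x + q ^ n * M)) := by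
    intro n
    induction n with
    | zero => simpa using base
    | succ n ih =>
      have := iter_step hR hR2 hg hΩm hΩ hu hu0 huT hw hwT (c := q ^ n * M) (by positivity) ih
      rw [← hq] at this
      have e : q * (q ^ n * M) = q ^ (n + 1) * M := by ring
      rw [e] at this
      exact this
  intro a B hB hBs
  obtain ⟨hB1, hBt⟩ := vol_sub_one hBs
  set β := (volume B).toReal with hβ
  have hβ0 : 0 ≤ β := ENNReal.toReal_nonneg
  have hcut0 := cut_profile hg.2 hw (le_refl 0)
  have bound : ∀ n : ℕ, ∫ x in B, u x ≤ (∫ x in (-(β/2))..(β/2), chiT g x * w x) + q ^ n * M * β := by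
    intro n
    have h1 := iter n a B hB hBs
    rw [← hβ] at h1
    refine h1.trans ?_
    have hc := cut_profile hg.2 hw (c := q ^ n * M) (by positivity)
    have hw0 : IntervalIntegrable (fun x => chiT g x * w x) volume (-(β/2)) (β/2) := by
      have := hcut0.bnm.ii (-(β/2)) (β/2)
      simpa using this
    calc ∫ x in (-(β/2))..(β/2), chiT g x * (w x + q ^ n * M)
        ≤ ∫ x in (-(β/2))..(β/2), (chiT g x * w x + q ^ n * M) := by
          refine intervalIntegral.integral_mono_on (by linarith) (hc.bnm.ii _ _) (hw0.add (by simp))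
            fun x _ => ?_
          have h2 : chiT g x * (q ^ n * M) ≤ 1 * (q ^ n * M) :=
            mul_le_mul_of_nonneg_right (chiT_le x) (by positivity)
          nlinarith
      _ = (∫ x in (-(β/2))..(β/2), chiT g x * w x) + q ^ n * M * β := by
          rw [intervalIntegral.integral_add hw0 (by simp)]
          simp only [intervalIntegral.integral_const, smul_eq_mul]
          ring
  have lim : Filter.Tendsto (fun n : ℕ => (∫ x in (-(β/2))..(β/2), chiT g x * w x) + q ^ n * M * β)
      Filter.atTop (nhds ((∫ x in (-(β/2))..(β/2), chiT g x * w x) + 0 * M * β)) :=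
    (((tendsto_pow_atTop_nhds_zero_of_lt_one hq0 hq1).mul_const M).mul_const β).const_add _
  have := ge_of_tendsto' lim bound
  simpa using this

/-- pointwise conclusion -/
theorem Maj.pointwise {u f : ℝ → ℝ} (h : Maj u f) (hf : Profile f) (hu : Continuous u) (x : ℝ) :
    u x ≤ f 0 := by
  by_contra hcon
  push Not at hcon
  obtain ⟨c, hc1, hc2⟩ := exists_between hcon
  have hopen : ∀ᶠ y in nhds x, c < u y := hu.continuousAt.eventually_const_lt hc2
  obtain ⟨ε, hε, hball⟩ := Metric.eventually_nhds_iff.1 hopen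
  set e := min (ε/2) (1/2) with he
  have he0 : 0 < e := lt_min (by linarith) (by norm_num)
  have he1 : e ≤ 1/2 := min_le_right _ _
  have he2 : e ≤ ε/2 := min_le_left _ _
  have hB := h x (Icc x (x + e)) measurableSet_Icc (Icc_subset_Icc le_rfl (by linarith))
  have hv : (volume (Icc x (x + e))).toReal = e := by simp [he0.le]
  rw [hv] at hB
  have l1 : e * c ≤ ∫ y in Icc x (x + e), u y := by
    have : ∫ y in Icc x (x + e), c ≤ ∫ y in Icc x (x + e), u y := by
      refine setIntegral_mono_on (integrableOn_const (by simp) (by simp))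
        (hu.continuousOn.integrableOn_compact isCompact_Icc) measurableSet_Icc fun y hy => ?_
      refine (hball ?_).le
      rw [Real.dist_eq, abs_lt]
      constructor <;> linarith [hy.1, hy.2]
    rw [setIntegral_const, smul_eq_mul] at this
    have hr : volume.real (Icc x (x + e)) = e := hv
    rwa [hr] at this
  have l2 : ∫ y in (-(e/2))..(e/2), f y ≤ e * f 0 := by
    calc ∫ y in (-(e/2))..(e/2), f y ≤ ∫ y in (-(e/2))..(e/2), f 0 := by
          refine intervalIntegral.integral_mono_on (by linarith) (hf.bnm.ii _ _) (by simp) fun y hy => ?_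
          rw [← hf.abs_eq y]
          have : |y| ≤ e/2 := abs_le.2 hy
          exact hf.anti ⟨le_rfl, by norm_num⟩ ⟨abs_nonneg _, by linarith⟩ (abs_nonneg _)
      _ = e * f 0 := by simp only [intervalIntegral.integral_const, smul_eq_mul]; ring
  nlinarith

end Pool.Agent.Lib_helper51
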