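import Pool.Agent.Lib_helper51.Disc

set_option autoImplicit false

/-!
# The explicit periodic model
-/

open MeasureTheory Set Filter Topology InnerProductSpace
open scoped Real ENNReal

namespace Pool.Agent.Lib_helper51

/-- half the sum of the distances to the points `1` and `-1` -/
noncomputable def cE (W : ℂ) : ℝ := (‖W - 1‖ + ‖W + 1‖) / 2

/-- Green function of the complement of the segment `[-1, 1]` with pole at infinity -/
noncomputable def Gf (W : ℂ) : ℝ := Real.arcosh (cE W)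

theorem one_le_cE (W : ℂ) : 1 ≤ cE W := by
  unfold cE
  have h : ‖(W + 1) - (W - 1)‖ ≤ ‖W + 1‖ + ‖W - 1‖ := norm_sub_le _ _
  have e : (W + 1) - (W - 1) = 2 := by ring
  rw [e] at h
  have : ‖(2:ℂ)‖ = 2 := by simp
  rw [this] at h
  linarith

theorem norm_le_cE (W : ℂ) : ‖W‖ ≤ cE W := by
  unfold cE
  have h : ‖(W + 1) + (W - 1)‖ ≤ ‖W + 1‖ + ‖W - 1‖ := norm_add_le _ _
  have e : (W + 1) + (W - 1) = 2 * W := by ring
  rw [e, norm_mul] at h
  have : ‖(2:ℂ)‖ = 2 := by simp
  rw [this] at h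
  linarith

theorem cE_le (W : ℂ) : cE W ≤ ‖W‖ + 1 := by
  unfold cE
  have h1 : ‖W - 1‖ ≤ ‖W‖ + ‖(1:ℂ)‖ := norm_sub_le _ _
  have h2 : ‖W + 1‖ ≤ ‖W‖ + ‖(1:ℂ)‖ := norm_add_le _ _
  rw [norm_one] at h1 h2
  linarith

theorem cE_neg (W : ℂ) : cE (-W) = cE W := by
  unfold cE
  have h1 : ‖-W - 1‖ = ‖W + 1‖ := by rw [← norm_neg]; congr 1; ring
  have h2 : ‖-W + 1‖ = ‖W - 1‖ := by rw [← norm_neg]; congr 1; ring
  rw [h1, h2, add_comm]

theorem cE_conj (W : ℂ) : cE (starRingEnd ℂ W) = cE W := by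
  unfold cE
  have h1 : ‖starRingEnd ℂ W - 1‖ = ‖W - 1‖ := by
    rw [← Complex.norm_conj (W - 1)]; simp
  have h2 : ‖starRingEnd ℂ W + 1‖ = ‖W + 1‖ := by
    rw [← Complex.norm_conj (W + 1)]; simp
  rw [h1, h2]

theorem cE_real (t : ℝ) : cE (t : ℂ) = max |t| 1 := by
  unfold cE
  have h1 : ‖(t : ℂ) - 1‖ = |t - 1| := by
    rw [← Complex.ofReal_one, ← Complex.ofReal_sub, Complex.norm_real, Real.norm_eq_abs]
  have h2 : ‖(t : ℂ) + 1‖ = |t + 1| := by
    rw [← Complex.ofReal_one, ← Complex.ofReal_add, Complex.norm_real, Real.norm_eq_abs]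
  rw [h1, h2]
  rcases le_total |t| 1 with h | h
  · rw [max_eq_right h]
    have := abs_le.1 h
    rw [abs_of_nonpos (by linarith), abs_of_nonneg (by linarith)]
    ring
  · rw [max_eq_left h]
    rcases le_total 0 t with h0 | h0
    · rw [abs_of_nonneg h0] at h ⊢
      rw [abs_of_nonneg (by linarith), abs_of_nonneg (by linarith)]
      ring
    · rw [abs_of_nonpos h0] at h ⊢
      rw [abs_of_nonpos (by linarith), abs_of_nonpos (by linarith)]
      ring

theorem cE_gt_of_im {W : ℂ} (h : W.im ≠ 0) : 1 < cE W := by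
  unfold cE
  have h1 : |W.re - 1| < ‖W - 1‖ := by
    have := Complex.abs_re_lt_norm (z := W - 1)
    have h2 : (W - 1).im ≠ 0 := by simpa using h
    simpa using this.2 h2
  have h2 : |W.re + 1| < ‖W + 1‖ := by
    have := Complex.abs_re_lt_norm (z := W + 1)
    have h2 : (W + 1).im ≠ 0 := by simpa using h
    simpa using this.2 h2
  have h3 : (2:ℝ) ≤ |W.re - 1| + |W.re + 1| := by
    have a := neg_abs_le (W.re - 1)
    have b := le_abs_self (W.re + 1)
    linarith
  linarith

theorem Gf_nonneg (W : ℂ) : 0 ≤ Gf W := Real.arcosh_nonneg (one_le_cE W)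

theorem Gf_neg (W : ℂ) : Gf (-W) = Gf W := by unfold Gf; rw [cE_neg]

theorem Gf_conj (W : ℂ) : Gf (starRingEnd ℂ W) = Gf W := by unfold Gf; rw [cE_conj]

theorem continuous_cE : Continuous cE := by unfold cE; fun_prop

theorem continuous_Gf : Continuous Gf :=
  Real.continuousOn_arcosh.comp_continuous continuous_cE one_le_cE

/-- the closed segment from `-1` to `1` -/
def Seg (W : ℂ) : Prop := W.im = 0 ∧ |W.re| ≤ 1

theorem Gf_pos {W : ℂ} (h : ¬ Seg W) : 0 < Gf W := by
  apply Real.arcosh_pos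
  by_cases him : W.im = 0
  · have hW : W = ((W.re : ℝ) : ℂ) := by
      apply Complex.ext <;> simp [him]
    have h2 : 1 < |W.re| := by
      by_contra hcon
      push Not at hcon
      exact h ⟨him, hcon⟩
    rw [hW, cE_real]
    exact lt_max_of_lt_left h2
  · exact cE_gt_of_im him

theorem Gf_zero {W : ℂ} (h : Seg W) : Gf W = 0 := by
  have hW : W = ((W.re : ℝ) : ℂ) := by
    apply Complex.ext <;> simp [h.1]
  unfold Gf
  rw [hW, cE_real, max_eq_right h.2, Real.arcosh_zero]

/-- the principal square root -/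
noncomputable def sq (z : ℂ) : ℂ := Complex.exp (Complex.log z / 2)

theorem sq_sq {z : ℂ} (hz : z ≠ 0) : sq z ^ 2 = z := by
  unfold sq
  rw [← Complex.exp_nat_mul]
  have : ((2:ℕ) : ℂ) * (Complex.log z / 2) = Complex.log z := by
    push_cast; ring
  rw [this, Complex.exp_log hz]

theorem sq_analytic {z : ℂ} (hz : z ∈ Complex.slitPlane) : AnalyticAt ℂ sq z := by
  unfold sq
  exact ((analyticAt_clog hz).div_const).cexp

theorem sq_re (z : ℂ) : (sq z).re = Real.exp ((Complex.log z).re / 2) * Real.cos (z.arg / 2) := by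
  unfold sq
  rw [Complex.exp_re]
  have h1 : (Complex.log z / 2).re = (Complex.log z).re / 2 := by simp
  have h2 : (Complex.log z / 2).im = z.arg / 2 := by simp [Complex.log_im]
  rw [h1, h2]

theorem sq_im (z : ℂ) : (sq z).im = Real.exp ((Complex.log z).re / 2) * Real.sin (z.arg / 2) := by
  unfold sq
  rw [Complex.exp_im]
  have h1 : (Complex.log z / 2).re = (Complex.log z).re / 2 := by simp
  have h2 : (Complex.log z / 2).im = z.arg / 2 := by simp [Complex.log_im]
  rw [h1, h2]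

theorem sq_re_nonneg (z : ℂ) : 0 ≤ (sq z).re := by
  rw [sq_re]
  have h1 := Complex.arg_le_pi z
  have h2 := Complex.neg_pi_lt_arg z
  exact mul_nonneg (Real.exp_pos _).le (Real.cos_nonneg_of_neg_pi_div_two_le_of_le (by linarith) (by linarith))

theorem sq_im_nonneg {z : ℂ} (hz : 0 ≤ z.im) : 0 ≤ (sq z).im := by
  rw [sq_im]
  have h1 := Complex.arg_nonneg_iff.2 hz
  have h2 := Complex.arg_le_pi z
  exact mul_nonneg (Real.exp_pos _).le (Real.sin_nonneg_of_nonneg_of_le_pi (by linarith) (by linarith [Real.pi_pos]))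

theorem sq_im_nonpos {z : ℂ} (hz : z.im < 0) : (sq z).im ≤ 0 := by
  rw [sq_im]
  have h1 := Complex.arg_neg_iff.2 hz
  have h2 := Complex.neg_pi_lt_arg z
  exact mul_nonpos_of_nonneg_of_nonpos (Real.exp_pos _).le
    (Real.sin_nonpos_of_nonpos_of_neg_pi_le (by linarith) (by linarith [Real.pi_pos]))

/-- the exterior conformal map -/
noncomputable def Ph (W : ℂ) : ℂ := W + sq (W - 1) * sq (W + 1)

theorem slit_add {W : ℂ} (h : W - 1 ∈ Complex.slitPlane) : W + 1 ∈ Complex.slitPlane := by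
  rw [Complex.mem_slitPlane_iff] at h ⊢
  simp only [Complex.sub_re, Complex.sub_im, Complex.add_re, Complex.add_im, Complex.one_re,
    Complex.one_im] at h ⊢
  rcases h with h | h
  · left; linarith
  · right; simpa using h

theorem Ph_analytic {W : ℂ} (h : W - 1 ∈ Complex.slitPlane) : AnalyticAt ℂ Ph W := by
  unfold Ph
  refine analyticAt_id.add (AnalyticAt.mul ?_ ?_)
  · exact (sq_analytic h).comp_of_eq (analyticAt_id.sub analyticAt_const) rfl
  · exact (sq_analytic (slit_add h)).comp_of_eq (analyticAt_id.add analyticAt_const) rfl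

theorem Ph_norm {W : ℂ} (h : W - 1 ∈ Complex.slitPlane) : ‖Ph W‖ = Real.exp (Gf W) := by
  have h1 : W - 1 ≠ 0 := Complex.slitPlane_ne_zero h
  have h2 : W + 1 ≠ 0 := Complex.slitPlane_ne_zero (slit_add h)
  set a := sq (W - 1) with ha
  set b := sq (W + 1) with hb
  have ha2 : a ^ 2 = W - 1 := sq_sq h1
  have hb2 : b ^ 2 = W + 1 := sq_sq h2
  have hP : 2 * Ph W = (a + b) ^ 2 := by
    unfold Ph
    rw [← ha, ← hb]
    linear_combination (-1 : ℂ) * ha2 - hb2
  have hPn : ‖Ph W‖ = ‖a + b‖ ^ 2 / 2 := by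
    have h3 : ‖(2:ℂ) * Ph W‖ = ‖(a + b) ^ 2‖ := by rw [hP]
    rw [norm_mul, norm_pow] at h3
    have h4 : ‖(2:ℂ)‖ = 2 := by simp
    rw [h4] at h3
    linarith
  have hsum : ‖a + b‖ ^ 2 + ‖a - b‖ ^ 2 = 4 * cE W := by
    have h3 : ‖a + b‖ ^ 2 + ‖a - b‖ ^ 2 = 2 * (‖a‖ ^ 2 + ‖b‖ ^ 2) := by
      rw [Complex.sq_norm, Complex.sq_norm, Complex.sq_norm, Complex.sq_norm, Complex.normSq_apply,
        Complex.normSq_apply, Complex.normSq_apply, Complex.normSq_apply]
      simp only [Complex.add_re, Complex.add_im, Complex.sub_re, Complex.sub_im]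
      ring
    rw [h3, ← norm_pow, ← norm_pow, ha2, hb2]
    unfold cE
    ring
  have hprod : ‖a + b‖ ^ 2 * ‖a - b‖ ^ 2 = 4 := by
    rw [← mul_pow, ← norm_mul]
    have : (a + b) * (a - b) = -2 := by linear_combination ha2 - hb2
    rw [this]
    norm_num
  have hdiff : ‖a - b‖ ^ 2 ≤ ‖a + b‖ ^ 2 := by
    rw [Complex.sq_norm, Complex.sq_norm, Complex.normSq_apply, Complex.normSq_apply]
    simp only [Complex.add_re, Complex.add_im, Complex.sub_re, Complex.sub_im]
    have r1 := sq_re_nonneg (W - 1)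
    have r2 := sq_re_nonneg (W + 1)
    have him : 0 ≤ a.im * b.im := by
      rcases le_or_gt 0 W.im with hi | hi
      · exact mul_nonneg (sq_im_nonneg (by simpa using hi)) (sq_im_nonneg (by simpa using hi))
      · exact mul_nonneg_of_nonpos_of_nonpos (sq_im_nonpos (by simpa using hi))
          (sq_im_nonpos (by simpa using hi))
    have hre : 0 ≤ a.re * b.re := mul_nonneg r1 r2
    nlinarith
  have hc := one_le_cE W
  unfold Gf
  rw [hPn, Real.exp_arcosh hc]
  have h5 : √(cE W ^ 2 - 1) = (‖a + b‖ ^ 2 - ‖a - b‖ ^ 2) / 4 := by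
    rw [Real.sqrt_eq_iff_mul_self_eq (by nlinarith) (by linarith)]
    nlinarith
  rw [h5]
  linarith

theorem Gf_eq_log {W : ℂ} (h : W - 1 ∈ Complex.slitPlane) : Gf W = Real.log ‖Ph W‖ := by
  rw [Ph_norm h, Real.log_exp]

theorem Ph_ne_zero {W : ℂ} (h : W - 1 ∈ Complex.slitPlane) : Ph W ≠ 0 := by
  intro h0
  have := Ph_norm h
  rw [h0, norm_zero] at this
  exact absurd this (Real.exp_pos _).ne

theorem Gf_harm_aux {h : ℂ → ℂ} {z : ℂ} (ha : AnalyticAt ℂ h z) (hs : h z - 1 ∈ Complex.slitPlane) :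
    HarmonicAt (fun z => Gf (h z)) z := by
  have han : AnalyticAt ℂ (fun z => Ph (h z)) z := (Ph_analytic hs).comp_of_eq ha rfl
  have h1 := han.harmonicAt_log_norm (Ph_ne_zero hs)
  refine (harmonicAt_congr_nhds ?_).1 h1
  have hc : ContinuousAt (fun z => h z - 1) z := ha.continuousAt.sub continuousAt_const
  have hev : ∀ᶠ w in 𝓝 z, h w - 1 ∈ Complex.slitPlane :=
    hc.eventually (Complex.isOpen_slitPlane.mem_nhds hs)
  filter_upwards [hev] with w hw
  exact (Gf_eq_log hw).symm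

theorem slit_or {W : ℂ} (h : ¬ Seg W) : W - 1 ∈ Complex.slitPlane ∨ -W - 1 ∈ Complex.slitPlane := by
  rw [Complex.mem_slitPlane_iff, Complex.mem_slitPlane_iff]
  simp only [Complex.sub_re, Complex.sub_im, Complex.neg_re, Complex.neg_im, Complex.one_re,
    Complex.one_im, sub_zero]
  by_cases him : W.im = 0
  · have h2 : 1 < |W.re| := by
      by_contra hcon
      push Not at hcon
      exact h ⟨him, hcon⟩
    rcases lt_abs.1 h2 with h3 | h3
    · left; left; linarith
    · right; left; linarith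
  · left; right; exact him

theorem Gf_harm {h : ℂ → ℂ} {z : ℂ} (ha : AnalyticAt ℂ h z) (hs : ¬ Seg (h z)) :
    HarmonicAt (fun z => Gf (h z)) z := by
  rcases slit_or hs with h1 | h1
  · exact Gf_harm_aux ha h1
  · have h2 := Gf_harm_aux (h := fun z => - h z) ha.neg h1
    simpa only [Gf_neg] using h2

/-- the model function with gap centred at the integers -/
noncomputable def Um (s : ℝ) (z : ℂ) : ℝ := (1 / π) * Gf (Complex.cos (π * z) / s)

theorem cos_re_im (z : ℂ) : Complex.cos (π * z) =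
    ⟨Real.cos (π * z.re) * Real.cosh (π * z.im), -(Real.sin (π * z.re) * Real.sinh (π * z.im))⟩ := by
  have h : (π : ℂ) * z = ((π * z.re : ℝ) : ℂ) + ((π * z.im : ℝ) : ℂ) * Complex.I := by
    apply Complex.ext <;> simp
  rw [h, Complex.cos_add_mul_I, ← Complex.ofReal_cos, ← Complex.ofReal_sin, ← Complex.ofReal_cosh,
    ← Complex.ofReal_sinh]
  apply Complex.ext
  · simp only [Complex.sub_re, Complex.mul_re, Complex.mul_im, Complex.ofReal_re, Complex.ofReal_im,
      Complex.I_re, Complex.I_im]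
    ring
  · simp only [Complex.sub_im, Complex.mul_re, Complex.mul_im, Complex.ofReal_re, Complex.ofReal_im,
      Complex.I_re, Complex.I_im]
    ring

theorem continuous_Um (s : ℝ) : Continuous (Um s) := by
  unfold Um
  refine continuous_const.mul (continuous_Gf.comp ?_)
  exact (Complex.continuous_cos.comp (continuous_const.mul continuous_id)).div_const _

theorem Um_nonneg (s : ℝ) (z : ℂ) : 0 ≤ Um s z :=
  mul_nonneg (by positivity) (Gf_nonneg _)

theorem Um_conj (s : ℝ) (z : ℂ) : Um s (starRingEnd ℂ z) = Um s z := by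
  unfold Um
  congr 1
  rw [← Gf_conj]
  congr 1
  rw [map_div₀, ← Complex.cos_conj, map_mul, Complex.conj_conj, Complex.conj_ofReal, Complex.conj_ofReal]

theorem Um_neg (s : ℝ) (z : ℂ) : Um s (-z) = Um s z := by
  unfold Um
  rw [mul_neg, Complex.cos_neg]

theorem Um_add_one (s : ℝ) (z : ℂ) : Um s (z + 1) = Um s z := by
  unfold Um
  rw [mul_add, mul_one, Complex.cos_add_pi, neg_div, Gf_neg]

theorem seg_iff {s : ℝ} (hs : 0 < s) (hs1 : s < 1) (z : ℂ) :
    Seg (Complex.cos (π * z) / s) ↔ z.im = 0 ∧ |Real.cos (π * z.re)| ≤ s := by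
  have hre : (Complex.cos (π * z) / s).re = Real.cos (π * z.re) * Real.cosh (π * z.im) / s := by
    rw [cos_re_im, Complex.div_ofReal_re]
  have him : (Complex.cos (π * z) / s).im = -(Real.sin (π * z.re) * Real.sinh (π * z.im)) / s := by
    rw [cos_re_im, Complex.div_ofReal_im]
  unfold Seg
  rw [hre, him]
  constructor
  · rintro ⟨h1, h2⟩
    have h3 : Real.sin (π * z.re) * Real.sinh (π * z.im) = 0 := by
      rcases div_eq_zero_iff.1 h1 with h | h
      · linarith
      · exact absurd h hs.ne'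
    rcases mul_eq_zero.1 h3 with h4 | h4
    · exfalso
      have h5 : |Real.cos (π * z.re)| = 1 := by
        have := Real.sin_sq_add_cos_sq (π * z.re)
        rw [h4] at this
        have h6 : Real.cos (π * z.re) ^ 2 = 1 := by linarith
        rw [← Real.sqrt_sq_eq_abs, h6, Real.sqrt_one]
      rw [abs_div, abs_mul, h5, one_mul, abs_of_pos (Real.cosh_pos _), abs_of_pos hs,
        div_le_one hs] at h2
      have := Real.one_le_cosh (π * z.im)
      linarith
    · have h5 : z.im = 0 := by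
        have := Real.sinh_eq_zero.1 h4
        rcases mul_eq_zero.1 this with h | h
        · exact absurd h Real.pi_ne_zero
        · exact h
      refine ⟨h5, ?_⟩
      rw [h5, mul_zero, Real.cosh_zero, mul_one, abs_div, abs_of_pos hs, div_le_one hs] at h2
      exact h2
  · rintro ⟨h1, h2⟩
    rw [h1, mul_zero, Real.sinh_zero, mul_zero, Real.cosh_zero, mul_one]
    refine ⟨by simp, ?_⟩
    rw [abs_div, abs_of_pos hs, div_le_one hs]
    exact h2

theorem Um_harm {s : ℝ} (hs : 0 < s) (hs1 : s < 1) {z : ℂ}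
    (h : ¬ (z.im = 0 ∧ |Real.cos (π * z.re)| ≤ s)) : HarmonicAt (Um s) z := by
  unfold Um
  have hseg : ¬ Seg (Complex.cos (π * z) / s) := fun h' => h ((seg_iff hs hs1 z).1 h')
  have han : AnalyticAt ℂ (fun z : ℂ => Complex.cos (π * z) / s) z := by
    have : Differentiable ℂ (fun z : ℂ => Complex.cos (π * z) / s) := by fun_prop
    exact this.analyticAt z
  exact (Gf_harm han hseg).const_smul (c := 1 / π)

theorem Um_pos {s : ℝ} (hs : 0 < s) (hs1 : s < 1) {z : ℂ}
    (h : ¬ (z.im = 0 ∧ |Real.cos (π * z.re)| ≤ s)) : 0 < Um s z :=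
  mul_pos (by positivity) (Gf_pos fun h' => h ((seg_iff hs hs1 z).1 h'))

theorem Um_zero {s : ℝ} (hs : 0 < s) (hs1 : s < 1) {z : ℂ}
    (h : z.im = 0 ∧ |Real.cos (π * z.re)| ≤ s) : Um s z = 0 := by
  unfold Um
  rw [Gf_zero ((seg_iff hs hs1 z).2 h), mul_zero]

theorem norm_cos_sq (z : ℂ) : ‖Complex.cos (π * z)‖ ^ 2 =
    Real.cos (π * z.re) ^ 2 + Real.sinh (π * z.im) ^ 2 := by
  rw [Complex.sq_norm, Complex.normSq_apply, cos_re_im]
  simp only
  have h1 := Real.sin_sq_add_cos_sq (π * z.re)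
  have h2 := Real.cosh_sq (π * z.im)
  have h3 : Real.sin (π * z.re) ^ 2 = 1 - Real.cos (π * z.re) ^ 2 := by linarith
  calc Real.cos (π * z.re) * Real.cosh (π * z.im) * (Real.cos (π * z.re) * Real.cosh (π * z.im)) +
      -(Real.sin (π * z.re) * Real.sinh (π * z.im)) * -(Real.sin (π * z.re) * Real.sinh (π * z.im))
      = Real.cos (π * z.re) ^ 2 * Real.cosh (π * z.im) ^ 2 +
        Real.sin (π * z.re) ^ 2 * Real.sinh (π * z.im) ^ 2 := by ring
    _ = Real.cos (π * z.re) ^ 2 + Real.sinh (π * z.im) ^ 2 := by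
        rw [h2, h3]; ring

theorem norm_cos_ge (z : ℂ) : Real.sinh (π * |z.im|) ≤ ‖Complex.cos (π * z)‖ := by
  have h0 : 0 ≤ Real.sinh (π * |z.im|) := Real.sinh_nonneg_iff.2 (by positivity)
  apply le_of_sq_le_sq _ (norm_nonneg _)
  rw [norm_cos_sq]
  have : Real.sinh (π * |z.im|) ^ 2 = Real.sinh (π * z.im) ^ 2 := by
    rcases abs_cases z.im with ⟨h, _⟩ | ⟨h, _⟩
    · rw [h]
    · rw [h, mul_neg, Real.sinh_neg, neg_sq]
  rw [this]
  have := sq_nonneg (Real.cos (π * z.re))
  linarith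

theorem norm_cos_le (z : ℂ) : ‖Complex.cos (π * z)‖ ≤ Real.cosh (π * |z.im|) := by
  apply le_of_sq_le_sq _ (Real.cosh_pos _).le
  rw [norm_cos_sq, Real.cosh_sq]
  have : Real.sinh (π * |z.im|) ^ 2 = Real.sinh (π * z.im) ^ 2 := by
    rcases abs_cases z.im with ⟨h, _⟩ | ⟨h, _⟩
    · rw [h]
    · rw [h, mul_neg, Real.sinh_neg, neg_sq]
  rw [this]
  have := Real.cos_sq_le_one (π * z.re)
  linarith

theorem Gf_ge_log (W : ℂ) : cE W ≤ Real.exp (Gf W) := by
  unfold Gf
  rw [Real.exp_arcosh (one_le_cE W)]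
  have := Real.sqrt_nonneg (cE W ^ 2 - 1)
  linarith

theorem Gf_le_log (W : ℂ) : Real.exp (Gf W) ≤ 2 * cE W := by
  unfold Gf
  have h := one_le_cE W
  rw [Real.exp_arcosh h]
  have : √(cE W ^ 2 - 1) ≤ cE W := by
    rw [Real.sqrt_le_left (by linarith)]
    linarith
  linarith

theorem Um_lower {s : ℝ} (hs : 0 < s) (hs1 : s < 1) (z : ℂ) :
    |z.im| - Real.log 4 / π ≤ Um s z := by
  have hpi := Real.pi_pos
  have h1 : Real.exp (π * |z.im|) / 4 ≤ cE (Complex.cos (π * z) / s) := by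
    have a1 := one_le_cE (Complex.cos (π * z) / s)
    have a2 := norm_le_cE (Complex.cos (π * z) / s)
    rw [norm_div, Complex.norm_real, Real.norm_of_nonneg hs.le] at a2
    have a3 : Real.sinh (π * |z.im|) ≤ ‖Complex.cos (π * z)‖ / s := by
      refine (norm_cos_ge z).trans ?_
      rw [le_div_iff₀ hs]
      nlinarith [norm_nonneg (Complex.cos (π * z))]
    rw [Real.sinh_eq] at a3
    have a4 : Real.exp (-(π * |z.im|)) ≤ 1 := Real.exp_le_one_iff.2 (by
      have := abs_nonneg z.im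
      nlinarith)
    rcases le_total (Real.exp (π * |z.im|)) 4 with h | h
    · linarith
    · linarith
  have h2 := h1.trans (Gf_ge_log _)
  have h3 : π * |z.im| - Real.log 4 ≤ Gf (Complex.cos (π * z) / s) := by
    rw [← Real.exp_le_exp, Real.exp_sub, Real.exp_log (by norm_num)]
    exact h2
  unfold Um
  have h4 : |z.im| - Real.log 4 / π = (1 / π) * (π * |z.im| - Real.log 4) := by
    field_simp
  rw [h4]
  exact mul_le_mul_of_nonneg_left h3 (by positivity)

theorem Um_upper {s : ℝ} (hs : 0 < s) (hs1 : s < 1) (z : ℂ) :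
    Um s z ≤ |z.im| + Real.log (4 / s) / π := by
  have hpi := Real.pi_pos
  have h1 : cE (Complex.cos (π * z) / s) ≤ (2 / s) * Real.exp (π * |z.im|) := by
    refine (cE_le _).trans ?_
    rw [norm_div, Complex.norm_real, Real.norm_of_nonneg hs.le]
    have a1 := norm_cos_le z
    have a2 : Real.cosh (π * |z.im|) ≤ Real.exp (π * |z.im|) := by
      rw [Real.cosh_eq]
      have : Real.exp (-(π * |z.im|)) ≤ Real.exp (π * |z.im|) := Real.exp_le_exp.2 (by
        have := abs_nonneg z.im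
        nlinarith)
      linarith
    have a3 : 1 ≤ Real.exp (π * |z.im|) := Real.one_le_exp (by positivity)
    have a4 : ‖Complex.cos (π * z)‖ / s ≤ Real.exp (π * |z.im|) / s :=
      div_le_div_of_nonneg_right (a1.trans a2) hs.le
    have a5 : 1 ≤ Real.exp (π * |z.im|) / s := by
      rw [le_div_iff₀ hs]
      linarith
    calc ‖Complex.cos (π * z)‖ / s + 1 ≤ Real.exp (π * |z.im|) / s + Real.exp (π * |z.im|) / s := by
          linarith
      _ = (2 / s) * Real.exp (π * |z.im|) := by ring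
  have h2 := (Gf_le_log (Complex.cos (π * z) / s)).trans (mul_le_mul_of_nonneg_left h1 zero_le_two)
  have h3 : Gf (Complex.cos (π * z) / s) ≤ π * |z.im| + Real.log (4 / s) := by
    rw [← Real.exp_le_exp, Real.exp_add, Real.exp_log (by positivity)]
    refine h2.trans (le_of_eq ?_)
    ring
  unfold Um
  have h4 : |z.im| + Real.log (4 / s) / π = (1 / π) * (π * |z.im| + Real.log (4 / s)) := by
    field_simp
  rw [h4]
  exact mul_le_mul_of_nonneg_left h3 (by positivity)

/-- the model on the real line -/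
noncomputable def wm (s x : ℝ) : ℝ := Um s ⟨x, 0⟩

theorem wm_eq {s : ℝ} (hs : 0 < s) (x : ℝ) :
    wm s x = (1 / π) * Real.arcosh (max (|Real.cos (π * x)| / s) 1) := by
  unfold wm Um Gf
  have h : Complex.cos (π * (⟨x, 0⟩ : ℂ)) / s = ((Real.cos (π * x) / s : ℝ) : ℂ) := by
    rw [cos_re_im]
    simp only [mul_zero, Real.sinh_zero, Real.cosh_zero, mul_one, neg_zero]
    rw [Complex.ofReal_div]
    rfl
  rw [h, cE_real, abs_div, abs_of_pos hs]

theorem wm_cont (s : ℝ) : Continuous (wm s) := continuous_line (continuous_Um s)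

theorem wm_mono_aux {a b : ℝ} (ha : 1 ≤ a) (hab : a ≤ b) : Real.arcosh a ≤ Real.arcosh b :=
  (Real.arcosh_le_arcosh (by linarith) (by linarith)).2 hab

theorem wm_profile {s : ℝ} (hs : 0 < s) : Profile (wm s) := by
  have hle : ∀ {x y : ℝ}, |Real.cos (π * y)| ≤ |Real.cos (π * x)| → wm s y ≤ wm s x := by
    intro x y h
    rw [wm_eq hs, wm_eq hs]
    apply mul_le_mul_of_nonneg_left _ (by positivity)
    apply wm_mono_aux (le_max_right _ _)
    apply max_le_max _ le_rfl
    exact div_le_div_of_nonneg_right h hs.le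
  refine ⟨⟨(wm_cont s).measurable, fun x => Um_nonneg s _, ⟨wm s 0, fun x => ?_⟩⟩, ?_, ?_, ?_⟩
  · apply hle
    rw [mul_zero, Real.cos_zero, abs_one]
    exact Real.abs_cos_le_one _
  · intro x
    unfold wm
    rw [← Um_neg]
    congr 1
    apply Complex.ext <;> simp
  · intro x
    unfold wm
    rw [← Um_add_one s ⟨x, 0⟩]
    congr 1
    apply Complex.ext <;> simp
  · intro x hx y hy hxy
    apply hle
    have hpi := Real.pi_pos
    have h1 : 0 ≤ Real.cos (π * y) := Real.cos_nonneg_of_neg_pi_div_two_le_of_le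
      (by nlinarith [hy.1]) (by nlinarith [hy.2])
    have h2 : Real.cos (π * y) ≤ Real.cos (π * x) := by
      apply Real.cos_le_cos_of_nonneg_of_le_pi
      · nlinarith [hx.1]
      · nlinarith [hy.2]
      · nlinarith
    rw [abs_of_nonneg h1, abs_of_nonneg (h1.trans h2)]
    exact h2

theorem wm_zero {δ : ℝ} (hδ : 0 < δ) (hδ1 : δ < 1) :
    wm (Real.sin (π * δ / 2)) 0 = (1 / π) * Real.log (Real.cot (π * δ / 4)) := by
  have hpi := Real.pi_pos
  have hs : 0 < Real.sin (π * δ / 2) := Real.sin_pos_of_pos_of_lt_pi (by positivity) (by nlinarith)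
  rw [wm_eq hs, mul_zero, Real.cos_zero, abs_one]
  congr 1
  have hs1 := Real.sin_le_one (π * δ / 2)
  have h1 : 1 ≤ 1 / Real.sin (π * δ / 2) := by
    rw [le_div_iff₀ hs]; linarith
  rw [max_eq_left h1]
  have hsin4 : 0 < Real.sin (π * δ / 4) :=
    Real.sin_pos_of_pos_of_lt_pi (by positivity) (by nlinarith)
  have hcos2 : 0 ≤ Real.cos (π * δ / 2) := Real.cos_nonneg_of_neg_pi_div_two_le_of_le
    (by nlinarith [mul_pos hpi hδ]) (by nlinarith)
  have hcos4 : 0 < Real.cos (π * δ / 4) := Real.cos_pos_of_mem_Ioo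
    ⟨by nlinarith [mul_pos hpi hδ], by nlinarith⟩
  have hd : π * δ / 2 = 2 * (π * δ / 4) := by ring
  have h2 : √((1 / Real.sin (π * δ / 2)) ^ 2 - 1) = Real.cos (π * δ / 2) / Real.sin (π * δ / 2) := by
    rw [Real.sqrt_eq_iff_mul_self_eq]
    · have := Real.sin_sq_add_cos_sq (π * δ / 2)
      field_simp
      linarith
    · nlinarith
    · positivity
  have h3 : Real.exp (Real.arcosh (1 / Real.sin (π * δ / 2))) = Real.cot (π * δ / 4) := by
    rw [Real.exp_arcosh h1, h2, Real.cot_eq_cos_div_sin, hd, Real.sin_two_mul, Real.cos_two_mul]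
    field_simp
    ring
  rw [← h3, Real.log_exp]

theorem Um_hp {s : ℝ} (hs : 0 < s) (hs1 : s < 1) : HP (Um s) := by
  refine ⟨continuous_Um s, fun z hz => Um_harm hs hs1 ?_, fun z _ => Um_nonneg s z⟩
  rintro ⟨h, -⟩
  change 0 < z.im at hz
  linarith

theorem Um_lim {s : ℝ} (hs : 0 < s) (hs1 : s < 1) :
    Tendsto (fun y : ℝ => Um s ⟨0, y⟩ / y) atTop (𝓝 1) := by
  have h1 : Tendsto (fun y : ℝ => 1 - Real.log 4 / π / y) atTop (𝓝 (1 - 0)) :=
    Tendsto.sub tendsto_const_nhds (Tendsto.div_atTop tendsto_const_nhds tendsto_id)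
  have h2 : Tendsto (fun y : ℝ => 1 + Real.log (4 / s) / π / y) atTop (𝓝 (1 + 0)) :=
    Tendsto.add tendsto_const_nhds (Tendsto.div_atTop tendsto_const_nhds tendsto_id)
  rw [sub_zero] at h1
  rw [add_zero] at h2
  refine tendsto_of_tendsto_of_tendsto_of_le_of_le' h1 h2 ?_ ?_
  · filter_upwards [eventually_gt_atTop 0] with y hy
    have h := Um_lower hs hs1 ⟨0, y⟩
    simp only [abs_of_pos hy] at h
    rw [le_div_iff₀ hy]
    have e : (1 - Real.log 4 / π / y) * y = y - Real.log 4 / π := by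
      field_simp
    linarith
  · filter_upwards [eventually_gt_atTop 0] with y hy
    have h := Um_upper hs hs1 ⟨0, y⟩
    simp only [abs_of_pos hy] at h
    rw [div_le_iff₀ hy]
    have e : (1 + Real.log (4 / s) / π / y) * y = y + Real.log (4 / s) / π := by
      field_simp
    linarith

/-- upper Poisson bound for normalized functions -/
theorem A2_of {U : ℂ → ℝ} (hU : HP U) (hlim : Tendsto (fun y : ℝ => U ⟨0, y⟩ / y) atTop (𝓝 1))
    (x y : ℝ) (hy : 0 < y) : U ⟨x, y⟩ ≤ y + cv (pk y) (fun t => U ⟨t, 0⟩) x := by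
  have h1 : Tendsto (fun η : ℝ => cv (pk y) (fun t => U ⟨t, 0⟩) x + y * (U ⟨0, η⟩ / η)) atTop
      (𝓝 (cv (pk y) (fun t => U ⟨t, 0⟩) x + y * 1)) :=
    Tendsto.add tendsto_const_nhds (Tendsto.mul tendsto_const_nhds hlim)
  have h2 := ge_of_tendsto h1 (by
    filter_upwards [eventually_gt_atTop 0] with η hη
    have := half_upper hU (x := x) hy hη
    refine this.trans (le_of_eq ?_)
    ring)
  linarith

theorem Um_A2 {s : ℝ} (hs : 0 < s) (hs1 : s < 1) (x y : ℝ) (hy : 0 < y) :
    Um s ⟨x, y⟩ ≤ y + cv (pk y) (wm s) x := A2_of (Um_hp hs hs1) (Um_lim hs hs1) x y hy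

theorem im_harm (z : ℂ) : HarmonicAt (fun z : ℂ => z.im) z := analyticAt_id.harmonicAt_im

theorem Um_A1 {s : ℝ} (hs : 0 < s) (hs1 : s < 1) (x y : ℝ) (hy : 0 < y) :
    y + cv (pk y) (wm s) x ≤ Um s ⟨x, y⟩ := by
  set C := Real.log 4 / π with hC
  have hV : HP (fun z : ℂ => Um s z - z.im + C) := by
    refine ⟨?_, ?_, ?_⟩
    · exact ((continuous_Um s).sub Complex.continuous_im).add continuous_const
    · intro z hz
      exact (((Um_hp hs hs1).harm z hz).sub (im_harm z)).add (harmonicAt_const C)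
    · intro z hz
      have := Um_lower hs hs1 z
      rw [abs_of_nonneg hz] at this
      linarith
  have h1 := half_lower_real hV (x := x) hy
  have hB := (wm_profile hs).bnm
  have e1 : cv (pk y) (fun t : ℝ => Um s ⟨t, 0⟩ - (⟨t, 0⟩ : ℂ).im + C) x = cv (pk y) (wm s) x + C := by
    unfold cv
    have : ∀ t : ℝ, (Um s ⟨x - t, 0⟩ - (⟨x - t, 0⟩ : ℂ).im + C) * pk y t =
        wm s (x - t) * pk y t + C * pk y t := by
      intro t
      simp only [wm]
      ring
    simp_rw [this]
    rw [integral_add (hB.integrable_mul (pk_integrable hy) x) ((pk_integrable hy).const_mul C),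
      MeasureTheory.integral_const_mul, pk_integral hy, mul_one]
  rw [e1] at h1
  linarith

theorem wm_T {s R x : ℝ} (hs : 0 < s) (hs1 : s < 1) (hR : 0 < R)
    (hdisc : ∀ t, |t - x| < R → s < |Real.cos (π * t)|) :
    tR R + SS R (wm s) x ≤ NR R * wm s x := by
  have h1 := HD_ge (continuous_Um s) (wm_profile hs).bnm hR x (Um_A1 hs hs1)
  have h2 := HD_mean (continuous_Um s) (Um_conj s) hR (x := x) (fun z hz => ?_)
  · unfold wm at *
    linarith
  · apply Um_harm hs hs1
    rintro ⟨h3, h4⟩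
    rw [Metric.mem_ball, dist_eq_norm] at hz
    have h5 := Complex.abs_re_le_norm (z - ⟨x, 0⟩)
    rw [Complex.sub_re] at h5
    have := hdisc z.re (lt_of_le_of_lt h5 hz)
    linarith

end Pool.Agent.Lib_helper51
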