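import Pool.Agent.Lib_helper51.Poisson

set_option autoImplicit false

/-!
# The averaging operator
-/

open MeasureTheory Set intervalIntegral
open scoped ENNReal Real

namespace Pool.Agent.Lib_helper51

/-- average over a horizontal chord of the disc of radius `R` of the Poisson extension at height `y` -/
noncomputable def av (R y : ℝ) (v : ℝ → ℝ) (x : ℝ) : ℝ :=
  cv (bk (√(R ^ 2 - y ^ 2))) (cv (pk y) v) x

/-- integral over the upper half disc of the Poisson extension -/
noncomputable def SS (R : ℝ) (v : ℝ → ℝ) (x : ℝ) : ℝ := ∫ y in (0:ℝ)..R, av R y v x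

theorem measurable_pk2 : Measurable fun p : ℝ × ℝ => pk p.1 p.2 := by
  unfold pk; fun_prop

theorem measurable_cvpk {v : ℝ → ℝ} (hv : Measurable v) :
    Measurable fun p : ℝ × ℝ => cv (pk p.1) v p.2 := by
  unfold cv
  have : Measurable fun q : (ℝ × ℝ) × ℝ => v (q.1.2 - q.2) * pk q.1.1 q.2 :=
    (hv.comp ((measurable_snd.comp measurable_fst).sub measurable_snd)).mul
      (measurable_pk2.comp ((measurable_fst.comp measurable_fst).prodMk measurable_snd))
  exact (this.stronglyMeasurable.integral_prod_right' (ν := volume)).measurable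

theorem bk_eq_ite (a s : ℝ) : bk a s = if (-a ≤ s ∧ s ≤ a) then 1 else 0 := by
  unfold bk
  by_cases h : s ∈ Icc (-a) a
  · rw [indicator_of_mem h, if_pos (mem_Icc.1 h)]
  · rw [indicator_of_notMem h, if_neg (fun h' => h (mem_Icc.2 h'))]

theorem measurable_av {R : ℝ} {v : ℝ → ℝ} (hv : Measurable v) :
    Measurable fun p : ℝ × ℝ => av R p.1 v p.2 := by
  unfold av
  have hG := measurable_cvpk hv
  have hsq : Measurable fun q : (ℝ × ℝ) × ℝ => √(R ^ 2 - q.1.1 ^ 2) :=
    (by fun_prop : Measurable fun y : ℝ => √(R ^ 2 - y ^ 2)).comp (measurable_fst.comp measurable_fst)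
  have : Measurable fun q : (ℝ × ℝ) × ℝ =>
      cv (pk q.1.1) v (q.1.2 - q.2) * bk (√(R ^ 2 - q.1.1 ^ 2)) q.2 := by
    refine (hG.comp ((measurable_fst.comp measurable_fst).prodMk
      ((measurable_snd.comp measurable_fst).sub measurable_snd))).mul ?_
    simp_rw [bk_eq_ite]
    exact Measurable.ite ((measurableSet_le hsq.neg measurable_snd).inter
      (measurableSet_le measurable_snd hsq)) measurable_const measurable_const
  change Measurable fun p : ℝ × ℝ => ∫ s, cv (pk p.1) v (p.2 - s) * bk (√(R ^ 2 - p.1 ^ 2)) s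
  exact (this.stronglyMeasurable.integral_prod_right' (ν := volume)).measurable

theorem cvpk_bnm {v : ℝ → ℝ} (hv : BNM v) {y : ℝ} (hy : 0 < y) : BNM (cv (pk y) v) :=
  cv_bnm hv (pk_measurable y) (pk_integrable hy) (pk_nonneg hy.le)

theorem cvpk_le {v : ℝ → ℝ} (hv : BNM v) {M : ℝ} (hM : ∀ x, v x ≤ M) {y : ℝ} (hy : 0 < y) (x : ℝ) :
    cv (pk y) v x ≤ M := by
  unfold cv
  calc ∫ s, v (x - s) * pk y s ≤ ∫ s, M * pk y s :=
        integral_mono (hv.integrable_mul (pk_integrable hy) x) ((pk_integrable hy).const_mul M)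
          fun s => mul_le_mul_of_nonneg_right (hM _) (pk_nonneg hy.le s)
    _ = M := by rw [MeasureTheory.integral_const_mul, pk_integral hy, mul_one]

theorem cvbk_eq {v : ℝ → ℝ} {a : ℝ} (ha : 0 ≤ a) (x : ℝ) : cv (bk a) v x = box a v x := by
  unfold cv bk
  have : ∀ s, v (x - s) * (Icc (-a) a).indicator (fun _ => (1:ℝ)) s
      = (Icc (-a) a).indicator (fun s => v (x - s)) s := by
    intro s
    by_cases hs : s ∈ Icc (-a) a
    · simp [indicator_of_mem hs]
    · simp [indicator_of_notMem hs]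
  simp_rw [this]
  rw [MeasureTheory.integral_indicator measurableSet_Icc, integral_Icc_eq_integral_Ioc,
    ← intervalIntegral.integral_of_le (by linarith), box_eq_sub]

theorem av_eq {R y : ℝ} {v : ℝ → ℝ} (x : ℝ) :
    av R y v x = box (√(R ^ 2 - y ^ 2)) (cv (pk y) v) x := cvbk_eq (Real.sqrt_nonneg _) x

theorem sqrt_le_half {R y : ℝ} (hR0 : 0 ≤ R) (hR : R ≤ 1/2) : √(R ^ 2 - y ^ 2) ≤ 1/2 := by
  refine (Real.sqrt_le_sqrt (by nlinarith [sq_nonneg y] : R ^ 2 - y ^ 2 ≤ R ^ 2)).trans ?_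
  rw [Real.sqrt_sq hR0]; exact hR

theorem bk_basic (a : ℝ) : Measurable (bk a) ∧ (∀ x, 0 ≤ bk a x) ∧ Integrable (bk a) :=
  ⟨measurable_const.indicator measurableSet_Icc, fun x => indicator_nonneg (fun _ _ => zero_le_one) x,
    (integrable_indicator_iff measurableSet_Icc).2 (integrableOn_const (by simp) (by simp))⟩

theorem av_bnm {R : ℝ} {v : ℝ → ℝ} (hv : BNM v) {y : ℝ} (hy : 0 < y) : BNM (av R y v) :=
  cv_bnm (cvpk_bnm hv hy) (bk_basic _).1 (bk_basic _).2.2 (bk_basic _).2.1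

theorem av_nonneg {R : ℝ} {v : ℝ → ℝ} (hv : BNM v) {y : ℝ} (hy : 0 ≤ y) (x : ℝ) : 0 ≤ av R y v x := by
  rcases hy.lt_or_eq with h | h
  · exact (av_bnm hv h).nonneg x
  · unfold av cv
    refine integral_nonneg fun s => mul_nonneg ?_ ((bk_basic _).2.1 s)
    exact integral_nonneg fun t => mul_nonneg (hv.nonneg _) (pk_nonneg hy t)

theorem av_le {R : ℝ} {v : ℝ → ℝ} (hv : BNM v) {M : ℝ} (hM : ∀ x, v x ≤ M) {y : ℝ} (hy : 0 < y) (x : ℝ) :
    av R y v x ≤ M * (2 * √(R ^ 2 - y ^ 2)) := by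
  rw [av_eq]
  have h0 := Real.sqrt_nonneg (R ^ 2 - y ^ 2)
  calc box (√(R ^ 2 - y ^ 2)) (cv (pk y) v) x
      ≤ ∫ b in (x - √(R ^ 2 - y ^ 2))..(x + √(R ^ 2 - y ^ 2)), M :=
        intervalIntegral.integral_mono_on (by linarith) ((cvpk_bnm hv hy).ii _ _) (by simp)
          fun b _ => cvpk_le hv hM hy b
    _ = M * (2 * √(R ^ 2 - y ^ 2)) := by
        simp only [intervalIntegral.integral_const, smul_eq_mul]; ring

theorem av_mono {R : ℝ} {v w : ℝ → ℝ} (hv : BNM v) (hw : BNM w) (hvw : ∀ x, v x ≤ w x)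
    {y : ℝ} (hy : 0 < y) (x : ℝ) : av R y v x ≤ av R y w x := by
  rw [av_eq, av_eq]
  have h0 := Real.sqrt_nonneg (R ^ 2 - y ^ 2)
  refine intervalIntegral.integral_mono_on (by linarith) ((cvpk_bnm hv hy).ii _ _)
    ((cvpk_bnm hw hy).ii _ _) fun b _ => ?_
  unfold cv
  exact integral_mono (hv.integrable_mul (pk_integrable hy) b) (hw.integrable_mul (pk_integrable hy) b)
    fun s => mul_le_mul_of_nonneg_right (hvw _) (pk_nonneg hy.le s)

theorem av_add {R : ℝ} {v w : ℝ → ℝ} (hv : BNM v) (hw : BNM w) {c : ℝ}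
    {y : ℝ} (hy : 0 < y) (x : ℝ) :
    av R y (fun x => v x + c * w x) x = av R y v x + c * av R y w x := by
  rw [av_eq, av_eq, av_eq]
  have e : ∀ b, cv (pk y) (fun x => v x + c * w x) b = cv (pk y) v b + c * cv (pk y) w b := by
    intro b
    unfold cv
    rw [← MeasureTheory.integral_const_mul, ← integral_add (hv.integrable_mul (pk_integrable hy) b)
      ((hw.integrable_mul (pk_integrable hy) b).const_mul c)]
    refine integral_congr_ae (Filter.Eventually.of_forall fun s => ?_)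
    simp only
    ring
  unfold box
  simp_rw [e]
  rw [intervalIntegral.integral_add ((cvpk_bnm hv hy).ii _ _) (((cvpk_bnm hw hy).ii _ _).const_mul c),
    intervalIntegral.integral_const_mul]

/-- cut-off version of `av` which is BNM in `y` -/
theorem av_y_ii {R : ℝ} (hR : 0 ≤ R) {v : ℝ → ℝ} (hv : BNM v) (x : ℝ) :
    IntervalIntegrable (fun y => av R y v x) volume 0 R := by
  obtain ⟨M, hM⟩ := hv.bdd
  have hM0 : 0 ≤ M := (hv.nonneg 0).trans (hM 0)
  rw [intervalIntegrable_iff, uIoc_of_le hR]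
  refine Measure.integrableOn_of_bounded (M := M * (2 * R)) (by simp) ?_ ?_
  · exact ((measurable_av hv.meas).comp (measurable_id.prodMk measurable_const)).aestronglyMeasurable
  · refine (ae_restrict_iff' measurableSet_Ioc).2 (Filter.Eventually.of_forall fun y hy => ?_)
    rw [Real.norm_eq_abs, abs_of_nonneg (av_nonneg hv hy.1.le x)]
    refine (av_le hv hM hy.1 x).trans ?_
    have : √(R ^ 2 - y ^ 2) ≤ R := by
      refine (Real.sqrt_le_sqrt (by nlinarith [sq_nonneg y] : R ^ 2 - y ^ 2 ≤ R ^ 2)).trans ?_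
      rw [Real.sqrt_sq hR]
    gcongr

/-- half of the area of the disc -/
noncomputable def NR (R : ℝ) : ℝ := ∫ y in (0:ℝ)..R, 2 * √(R ^ 2 - y ^ 2)

theorem NR_cont (R : ℝ) : Continuous fun y : ℝ => 2 * √(R ^ 2 - y ^ 2) := by fun_prop

theorem NR_pos {R : ℝ} (hR : 0 < R) : 0 < NR R := by
  unfold NR
  refine intervalIntegral.intervalIntegral_pos_of_pos_on ((NR_cont R).intervalIntegrable _ _) ?_ hR
  intro y hy
  have : 0 < R ^ 2 - y ^ 2 := by nlinarith [hy.1, hy.2]
  positivity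

theorem av_profile {R : ℝ} (hR : 0 ≤ R) (hR2 : R ≤ 1/2) {f : ℝ → ℝ} (hf : Profile f) {y : ℝ} (hy : 0 < y) :
    Profile (av R y f) :=
  cv_profile (cv_profile hf (pk_ker hy)) (bk_ker (sqrt_le_half hR hR2))

theorem av_maj {R : ℝ} (hR : 0 ≤ R) (hR2 : R ≤ 1/2) {v f : ℝ → ℝ} (hv : BNM v) (hf : Profile f)
    (h : Maj v f) {y : ℝ} (hy : 0 < y) : Maj (av R y v) (av R y f) :=
  maj_cv (cvpk_bnm hv hy) (cv_profile hf (pk_ker hy)) (bk_ker (sqrt_le_half hR hR2))
    (maj_cv hv hf (pk_ker hy) h)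

attribute [local irreducible] av

theorem SS_bnm {R : ℝ} (hR : 0 ≤ R) {v : ℝ → ℝ} (hv : BNM v) : BNM (SS R v) := by
  obtain ⟨M, hM⟩ := hv.bdd
  refine ⟨?_, fun x => ?_, ⟨M * NR R, fun x => ?_⟩⟩
  · have h1 : Measurable (Function.uncurry fun x y => av R y v x) :=
      (measurable_av (R := R) hv.meas).comp (measurable_snd.prodMk measurable_fst)
    have h2 := measurable_param h1 hR
    exact h2
  · exact intervalIntegral.integral_nonneg hR fun y hy => av_nonneg hv hy.1 x
  · unfold SS NR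
    rw [← intervalIntegral.integral_const_mul]
    rw [intervalIntegral.integral_of_le hR, intervalIntegral.integral_of_le hR]
    refine setIntegral_mono_on ((av_y_ii hR hv x).1) ?_ measurableSet_Ioc fun y hy => av_le hv hM hy.1 x
    exact (((NR_cont R).const_mul M).intervalIntegrable _ _).1

theorem SS_mono {R : ℝ} (hR : 0 ≤ R) {v w : ℝ → ℝ} (hv : BNM v) (hw : BNM w) (hvw : ∀ x, v x ≤ w x)
    (x : ℝ) : SS R v x ≤ SS R w x := by
  unfold SS
  rw [intervalIntegral.integral_of_le hR, intervalIntegral.integral_of_le hR]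
  exact setIntegral_mono_on (av_y_ii hR hv x).1 (av_y_ii hR hw x).1 measurableSet_Ioc
    fun y hy => av_mono hv hw hvw hy.1 x

theorem SS_add {R : ℝ} (hR : 0 ≤ R) {v w : ℝ → ℝ} (hv : BNM v) (hw : BNM w) {c : ℝ} (x : ℝ) :
    SS R (fun x => v x + c * w x) x = SS R v x + c * SS R w x := by
  unfold SS
  rw [← intervalIntegral.integral_const_mul,
    ← intervalIntegral.integral_add (av_y_ii hR hv x) ((av_y_ii hR hw x).const_mul c)]
  rw [intervalIntegral.integral_of_le hR, intervalIntegral.integral_of_le hR]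
  exact setIntegral_congr_fun measurableSet_Ioc fun y hy => av_add hv hw hy.1 x

theorem SS_swap {R : ℝ} (hR : 0 ≤ R) {v : ℝ → ℝ} (hv : BNM v) {B : Set ℝ} (hBt : volume B ≠ ⊤) :
    ∫ x in B, SS R v x = ∫ y in (0:ℝ)..R, ∫ x in B, av R y v x := by
  obtain ⟨M, hM⟩ := hv.bdd
  have hM0 : 0 ≤ M := (hv.nonneg 0).trans (hM 0)
  unfold SS
  simp only [intervalIntegral.integral_of_le hR]
  refine integral_integral_swap ?_
  have : IsFiniteMeasure (volume.restrict B) := ⟨by simpa using hBt.lt_top⟩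
  refine Integrable.of_bound ((measurable_av hv.meas).comp
    (measurable_snd.prodMk measurable_fst)).aestronglyMeasurable (M * (2 * R)) ?_
  have hae : ∀ᵐ p : ℝ × ℝ ∂((volume.restrict B).prod (volume.restrict (Ioc 0 R))), p.2 ∈ Ioc 0 R := by
    have h2 : ∀ᵐ y ∂(volume.restrict (Ioc (0:ℝ) R)), y ∈ Ioc 0 R := ae_restrict_mem measurableSet_Ioc
    exact Measure.quasiMeasurePreserving_snd.ae h2
  filter_upwards [hae] with p hp
  simp only [Function.uncurry]
  rw [Real.norm_eq_abs, abs_of_nonneg (av_nonneg hv hp.1.le _)]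
  refine (av_le hv hM hp.1 _).trans ?_
  have : √(R ^ 2 - p.2 ^ 2) ≤ R := by
    refine (Real.sqrt_le_sqrt (by nlinarith [sq_nonneg p.2] : R ^ 2 - p.2 ^ 2 ≤ R ^ 2)).trans ?_
    rw [Real.sqrt_sq hR]
  gcongr

theorem SS_profile {R : ℝ} (hR : 0 ≤ R) (hR2 : R ≤ 1/2) {f : ℝ → ℝ} (hf : Profile f) :
    Profile (SS R f) := by
  refine ⟨SS_bnm hR hf.bnm, ?_, ?_, ?_⟩
  · intro x
    unfold SS
    rw [intervalIntegral.integral_of_le hR, intervalIntegral.integral_of_le hR]
    exact setIntegral_congr_fun measurableSet_Ioc fun y hy => (av_profile hR hR2 hf hy.1).even x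
  · intro x
    unfold SS
    rw [intervalIntegral.integral_of_le hR, intervalIntegral.integral_of_le hR]
    exact setIntegral_congr_fun measurableSet_Ioc fun y hy => (av_profile hR hR2 hf hy.1).per x
  · intro x hx x' hx' hxx
    unfold SS
    rw [intervalIntegral.integral_of_le hR, intervalIntegral.integral_of_le hR]
    exact setIntegral_mono_on (av_y_ii hR hf.bnm x').1 (av_y_ii hR hf.bnm x).1 measurableSet_Ioc
      fun y hy => (av_profile hR hR2 hf hy.1).anti hx hx' hxx

theorem SS_maj {R : ℝ} (hR : 0 ≤ R) (hR2 : R ≤ 1/2) {v f : ℝ → ℝ} (hv : BNM v) (hf : Profile f)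
    (h : Maj v f) : Maj (SS R v) (SS R f) := by
  intro a B hB hBs
  obtain ⟨hB1, hBt⟩ := vol_sub_one hBs
  set β := (volume B).toReal with hβ
  have hβ0 : 0 ≤ β := ENNReal.toReal_nonneg
  rw [SS_swap hR hv hBt, intervalIntegral.integral_of_le (by linarith : -(β/2) ≤ β/2),
    SS_swap hR hf.bnm (by simp)]
  have hii : ∀ {g : ℝ → ℝ} (_ : BNM g) {C : Set ℝ} (_ : volume C ≠ ⊤),
      IntervalIntegrable (fun y => ∫ x in C, av R y g x) volume 0 R := by
    intro g hg C hC
    obtain ⟨M, hM⟩ := hg.bdd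
    have hM0 : 0 ≤ M := (hg.nonneg 0).trans (hM 0)
    have : IsFiniteMeasure (volume.restrict C) := ⟨by simpa using hC.lt_top⟩
    rw [intervalIntegrable_iff, uIoc_of_le hR]
    refine Measure.integrableOn_of_bounded (M := M * (2 * R) * (volume C).toReal) (by simp) ?_ ?_
    · exact ((measurable_av (R := R) hg.meas).stronglyMeasurable.integral_prod_right'
        (ν := volume.restrict C)).aestronglyMeasurable
    · refine (ae_restrict_iff' measurableSet_Ioc).2 (Filter.Eventually.of_forall fun y hy => ?_)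
      refine (norm_setIntegral_le_of_norm_le_const hC.lt_top (C := M * (2 * R)) ?_)
      intro x _
      rw [Real.norm_eq_abs, abs_of_nonneg (av_nonneg hg hy.1.le x)]
      refine (av_le hg hM hy.1 x).trans ?_
      have : √(R ^ 2 - y ^ 2) ≤ R := by
        refine (Real.sqrt_le_sqrt (by nlinarith [sq_nonneg y] : R ^ 2 - y ^ 2 ≤ R ^ 2)).trans ?_
        rw [Real.sqrt_sq hR]
      gcongr
  have i1 := (hii hv hBt).1
  have i2 := (hii hf.bnm (C := Ioc (-(β/2)) (β/2)) (by simp)).1
  rw [intervalIntegral.integral_of_le hR, intervalIntegral.integral_of_le hR]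
  refine setIntegral_mono_on i1 i2 measurableSet_Ioc fun y hy => ?_
  have := av_maj hR hR2 hv hf h hy.1 a B hB hBs
  rwa [← hβ, intervalIntegral.integral_of_le (by linarith : -(β/2) ≤ β/2)] at this

end Pool.Agent.Lib_helper51
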