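import Pool.Agent.Lib_helper51.Conv2

set_option autoImplicit false

/-!
# The Poisson kernel of the half plane and box kernels are good kernels
-/

open MeasureTheory Set intervalIntegral
open scoped ENNReal Real

namespace Pool.Agent.Lib_helper51

theorem periodize {g κ : ℝ → ℝ≥0∞} (hg : Measurable g) (hκ : Measurable κ)
    (hgp : ∀ x, g (x + 1) = g x) :
    ∫⁻ s, g s * κ s = ∫⁻ s in Icc (-(1/2) : ℝ) (1/2), g s * ∑' k : ℤ, κ (s + k) := by
  have hgp' : Function.Periodic g 1 := hgp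
  have hgk : ∀ (k : ℤ) (x : ℝ), g (x + k) = g x := by
    intro k x
    have := hgp'.int_mul k x
    rwa [mul_one] at this
  have hun : (⋃ k : ℤ, Ioc (-(1/2) + (k:ℝ)) (-(1/2) + (k:ℝ) + 1)) = univ :=
    iUnion_Ioc_add_intCast (-(1/2) : ℝ)
  have hdis : Pairwise (Function.onFun Disjoint fun k : ℤ => Ioc (-(1/2) + (k:ℝ)) (-(1/2) + (k:ℝ) + 1)) :=
    pairwise_disjoint_Ioc_add_intCast (-(1/2) : ℝ)
  rw [← setLIntegral_univ, ← hun, lintegral_iUnion (fun _ => measurableSet_Ioc) hdis]
  have e : ∀ k : ℤ, ∫⁻ s in Ioc (-(1/2) + (k:ℝ)) (-(1/2) + (k:ℝ) + 1), g s * κ s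
      = ∫⁻ s in Ioc (-(1/2) : ℝ) (1/2), g s * κ (s + k) := by
    intro k
    have hmp : MeasurePreserving (fun x : ℝ => x + (k:ℝ)) volume volume :=
      measurePreserving_add_right volume _
    have := hmp.setLIntegral_comp_preimage_emb (measurableEmbedding_addRight (k:ℝ))
      (fun s => g s * κ s) (Ioc (-(1/2) + (k:ℝ)) (-(1/2) + (k:ℝ) + 1))
    rw [← this]
    have hpre : (fun x : ℝ => x + (k:ℝ)) ⁻¹' Ioc (-(1/2) + (k:ℝ)) (-(1/2) + (k:ℝ) + 1)
        = Ioc (-(1/2) : ℝ) (1/2) := by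
      ext x
      simp only [mem_preimage, mem_Ioc]
      constructor <;> rintro ⟨a, b⟩ <;> constructor <;> linarith
    rw [hpre]
    refine lintegral_congr fun s => ?_
    rw [hgk]
  simp_rw [e]
  rw [← lintegral_tsum]
  · rw [← setLIntegral_congr (Ioc_ae_eq_Icc (μ := volume) (a := (-(1/2) : ℝ)) (b := 1/2))]
    refine lintegral_congr fun s => ?_
    rw [ENNReal.tsum_mul_left]
  · intro k
    exact (hg.mul (hκ.comp (measurable_add_const _))).aemeasurable

/-- the Poisson kernel of the upper half plane -/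
noncomputable def pk (y s : ℝ) : ℝ := (1 / π) * (y / (s ^ 2 + y ^ 2))

/-- its periodization -/
noncomputable def pK (y s : ℝ) : ℝ :=
  Real.sinh (π * y) * Real.cosh (π * y) / (Real.sin (π * s) ^ 2 + Real.sinh (π * y) ^ 2)

theorem pk_eq_im {y s : ℝ} : pk y s = -(1/π) * (1 / ((s : ℂ) + y * Complex.I)).im := by
  unfold pk
  rw [one_div ((s : ℂ) + y * Complex.I), Complex.inv_im, Complex.normSq_apply]
  simp
  ring

theorem cot_im {y s : ℝ} (hy : 0 < y) :
    -(Complex.cot (π * ((s : ℂ) + y * Complex.I))).im = pK y s := by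
  have e1 : (π : ℂ) * ((s : ℂ) + y * Complex.I) = ((π * s : ℝ) : ℂ) + ((π * y : ℝ) : ℂ) * Complex.I := by
    push_cast; ring
  rw [e1, Complex.cot, Complex.cos_add_mul_I, Complex.sin_add_mul_I]
  rw [← Complex.ofReal_cos, ← Complex.ofReal_sin, ← Complex.ofReal_cosh, ← Complex.ofReal_sinh]
  set a := π * s
  set b := π * y with hb
  have hb0 : 0 < b := by positivity
  rw [Complex.div_im, Complex.normSq_apply]
  simp only [Complex.sub_re, Complex.sub_im, Complex.add_re, Complex.add_im, Complex.mul_re,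
    Complex.mul_im, Complex.ofReal_re, Complex.ofReal_im, Complex.I_re, Complex.I_im]
  unfold pK
  rw [← hb]
  have hs : 0 < Real.sinh b := Real.sinh_pos_iff.2 hb0
  have hden : 0 < Real.sin a ^ 2 + Real.sinh b ^ 2 := by positivity
  have hc : Real.cosh b ^ 2 = Real.sinh b ^ 2 + 1 := Real.cosh_sq b
  have hsc : Real.sin a ^ 2 + Real.cos a ^ 2 = 1 := Real.sin_sq_add_cos_sq a
  have hD : Real.sin a * Real.cosh b * (Real.sin a * Real.cosh b)
      + Real.cos a * Real.sinh b * (Real.cos a * Real.sinh b) = Real.sin a ^ 2 + Real.sinh b ^ 2 := by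
    have : Real.sin a * Real.cosh b * (Real.sin a * Real.cosh b)
      + Real.cos a * Real.sinh b * (Real.cos a * Real.sinh b)
      = Real.sin a ^ 2 * Real.cosh b ^ 2 + Real.cos a ^ 2 * Real.sinh b ^ 2 := by ring
    rw [this, hc]
    have h2 : Real.cos a ^ 2 = 1 - Real.sin a ^ 2 := by linarith
    rw [h2]; ring
  simp only [mul_zero, zero_mul, mul_one, sub_zero, add_zero, zero_add, zero_sub]
  rw [hD, ← sub_div, ← neg_div]
  congr 1
  linear_combination (Real.sinh b * Real.cosh b) * hsc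

theorem pk_nonneg {y : ℝ} (hy : 0 ≤ y) (s : ℝ) : 0 ≤ pk y s := by
  unfold pk; positivity

theorem pK_nonneg {y : ℝ} (hy : 0 ≤ y) (s : ℝ) : 0 ≤ pK y s := by
  unfold pK
  have : 0 ≤ Real.sinh (π * y) := Real.sinh_nonneg_iff.2 (by positivity)
  have := Real.cosh_pos (π * y)
  positivity

theorem pk_sum {y : ℝ} (hy : 0 < y) (s : ℝ) :
    ∑' k : ℤ, ENNReal.ofReal (pk y (s + k)) = ENNReal.ofReal (pK y s) := by
  set z : ℂ := (s : ℂ) + y * Complex.I with hz
  have hzim : z.im = y := by simp [hz]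
  have hzc : z ∈ Complex.integerComplement := by
    rw [Complex.mem_integerComplement_iff]
    rintro ⟨n, hn⟩
    have : z.im = 0 := by rw [← hn]; simp
    rw [hzim] at this
    exact hy.ne' this
  have hs := summable_cotTerm hzc
  have hc := cot_series_rep' hzc
  -- real terms
  set a : ℕ → ℝ := fun n => pk y (s + ((n + 1 : ℕ) : ℤ)) + pk y (s + ((-((n:ℤ) + 1) : ℤ) : ℝ)) with ha
  have haim : ∀ n : ℕ, a n = -(1/π) * (1 / (z - (n + 1)) + 1 / (z + (n + 1))).im := by
    intro n
    simp only [ha]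
    rw [pk_eq_im, pk_eq_im, Complex.add_im, mul_add, add_comm]
    congr 4
    · rw [hz]; push_cast; ring
    · rw [hz]; push_cast; ring
  have ha0 : ∀ n, 0 ≤ a n := fun n => add_nonneg (pk_nonneg hy.le _) (pk_nonneg hy.le _)
  have hs' : Summable fun n : ℕ => (1 / (z - (n + 1)) + 1 / (z + (n + 1))) := hs
  have hsa : HasSum a (-(1/π) * (π * Complex.cot (π * z) - 1 / z).im) := by
    rw [hc]
    have h1 := (Complex.hasSum_im hs'.hasSum).mul_left (-(1/π))
    have h2 : a = fun i : ℕ => -(1 / π) * (1 / (z - (i + 1)) + 1 / (z + (i + 1))).im := funext haim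
    rw [h2]
    exact h1
  have htot : pk y s + ∑' n, a n = pK y s := by
    rw [hsa.tsum_eq, ← cot_im hy, pk_eq_im, ← hz, Complex.sub_im]
    have : ((π : ℂ) * Complex.cot (π * z)).im = π * (Complex.cot (π * z)).im := by
      rw [Complex.im_ofReal_mul]
    rw [this]
    have hpi : (π : ℝ) ≠ 0 := Real.pi_ne_zero
    field_simp
    ring
  rw [tsum_of_add_one_of_neg_add_one (f := fun k : ℤ => ENNReal.ofReal (pk y (s + k)))
    ENNReal.summable ENNReal.summable]
  have e1 : (∑' n : ℕ, ENNReal.ofReal (pk y (s + (((n:ℤ) + 1 : ℤ) : ℝ))))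
      + ∑' n : ℕ, ENNReal.ofReal (pk y (s + ((-((n:ℤ) + 1) : ℤ) : ℝ)))
      = ENNReal.ofReal (∑' n, a n) := by
    rw [← ENNReal.tsum_add, ENNReal.ofReal_tsum_of_nonneg ha0 hsa.summable]
    refine tsum_congr fun n => ?_
    rw [ha, ENNReal.ofReal_add (pk_nonneg hy.le _) (pk_nonneg hy.le _)]
    push_cast
    rfl
  rw [← htot, ENNReal.ofReal_add (pk_nonneg hy.le _) (tsum_nonneg ha0), ← e1]
  push_cast
  rw [add_zero]
  ring

theorem pk_measurable (y : ℝ) : Measurable (pk y) := by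
  unfold pk; fun_prop

theorem pk_integrable {y : ℝ} (hy : 0 < y) : Integrable (pk y) := by
  have h := (integrable_inv_one_add_sq.comp_div hy.ne').const_mul (1 / (π * y))
  refine h.congr (Filter.Eventually.of_forall fun s => ?_)
  simp only [pk]
  have : s ^ 2 + y ^ 2 ≠ 0 := by positivity
  have h2 : 1 + (s / y) ^ 2 ≠ 0 := by positivity
  have hpi : (π : ℝ) ≠ 0 := Real.pi_ne_zero
  field_simp
  ring

theorem pk_integral {y : ℝ} (hy : 0 < y) : ∫ s, pk y s = 1 := by
  have e : ∀ s, pk y s = (1 / (π * y)) * (1 + (s / y) ^ 2)⁻¹ := by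
    intro s
    simp only [pk]
    have : s ^ 2 + y ^ 2 ≠ 0 := by positivity
    have h2 : 1 + (s / y) ^ 2 ≠ 0 := by positivity
    have hpi : (π : ℝ) ≠ 0 := Real.pi_ne_zero
    field_simp
    ring
  simp_rw [e]
  rw [MeasureTheory.integral_const_mul, Measure.integral_comp_div (fun t : ℝ => (1 + t ^ 2)⁻¹),
    integral_univ_inv_one_add_sq, abs_of_pos hy, smul_eq_mul]
  have hpi : (π : ℝ) ≠ 0 := Real.pi_ne_zero
  field_simp

theorem pk_anti {y : ℝ} (hy : 0 < y) : AntitoneOn (pk y) (Ici 0) := by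
  intro a ha b hb hab
  rw [mem_Ici] at ha hb
  unfold pk
  gcongr

theorem pK_anti {y : ℝ} (hy : 0 < y) : AntitoneOn (pK y) (Icc 0 (1/2)) := by
  intro a ha b hb hab
  unfold pK
  have h1 : 0 < Real.sinh (π * y) := Real.sinh_pos_iff.2 (by positivity)
  have h2 := Real.cosh_pos (π * y)
  have hpi := Real.pi_pos
  have hsa : 0 ≤ Real.sin (π * a) := Real.sin_nonneg_of_nonneg_of_le_pi (by nlinarith [ha.1]) (by nlinarith [ha.2])
  have hsb : Real.sin (π * a) ≤ Real.sin (π * b) := by
    refine Real.sin_le_sin_of_le_of_le_pi_div_two ?_ ?_ ?_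
    · nlinarith [ha.1]
    · nlinarith [hb.2]
    · nlinarith
  gcongr

theorem pk_ker {y : ℝ} (hy : 0 < y) : Ker (pk y) := by
  refine ⟨pk_measurable y, pk_nonneg hy.le, ?_, pk_anti hy, pk_integrable hy, pK y, ?_,
    pK_nonneg hy.le, ?_, pK_anti hy, ?_⟩
  · intro x; unfold pk; rw [neg_sq]
  · unfold pK; fun_prop
  · intro x; unfold pK; rw [mul_neg, Real.sin_neg, neg_sq]
  · intro g hg hgp
    rw [periodize hg (pk_measurable y).ennreal_ofReal hgp]
    simp_rw [pk_sum hy]

/-- box kernels -/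
noncomputable def bk (a : ℝ) : ℝ → ℝ := (Icc (-a) a).indicator fun _ => (1:ℝ)

theorem bk_ker {a : ℝ} (ha : a ≤ 1/2) : Ker (bk a) := by
  have hm : Measurable (bk a) := measurable_const.indicator measurableSet_Icc
  have h0 : ∀ x, 0 ≤ bk a x := fun x => indicator_nonneg (fun _ _ => zero_le_one) x
  have he : ∀ x, bk a (-x) = bk a x := by
    intro x
    have : -x ∈ Icc (-a) a ↔ x ∈ Icc (-a) a := by
      simp only [mem_Icc]; constructor <;> rintro ⟨p, q⟩ <;> constructor <;> linarith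
    unfold bk
    by_cases hx : x ∈ Icc (-a) a
    · rw [indicator_of_mem hx, indicator_of_mem (this.2 hx)]
    · rw [indicator_of_notMem hx, indicator_of_notMem (fun h => hx (this.1 h))]
  have hanti : AntitoneOn (bk a) (Ici 0) := by
    intro x hx y hy hxy
    rw [mem_Ici] at hx hy
    unfold bk
    by_cases hyI : y ∈ Icc (-a) a
    · have hxI : x ∈ Icc (-a) a := ⟨by linarith [hyI.1, hyI.2], by linarith [hyI.2]⟩
      rw [indicator_of_mem hxI, indicator_of_mem hyI]
    · rw [indicator_of_notMem hyI]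
      exact indicator_nonneg (fun _ _ => zero_le_one) x
  have hint : Integrable (bk a) :=
    (integrable_indicator_iff measurableSet_Icc).2 (integrableOn_const (by simp) (by simp))
  refine ⟨hm, h0, he, hanti, hint, bk a, hm, h0, he,
    hanti.mono fun x hx => hx.1, ?_⟩
  intro g hg hgp
  have e : ∀ s, g s * ENNReal.ofReal (bk a s) = (Icc (-a) a).indicator g s := by
    intro s
    unfold bk
    by_cases hs : s ∈ Icc (-a) a
    · simp [indicator_of_mem hs]
    · simp [indicator_of_notMem hs]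
  simp_rw [e]
  rw [lintegral_indicator measurableSet_Icc, setLIntegral_indicator measurableSet_Icc,
    inter_eq_left.2 (Icc_subset_Icc (by linarith) ha)]

end Pool.Agent.Lib_helper51
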