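import Pool.Agent.Lib_helper51.Affine

set_option autoImplicit false

/-!
# The periodic set
-/

open MeasureTheory Set Filter Topology InnerProductSpace
open scoped Real ENNReal

namespace Pool.Agent.Lib_helper51

/-- the periodic set -/
def tE (N δ : ℝ) : Set ℝ := ⋃ n : ℤ, Icc (n * N - δ / 2) (n * N + δ / 2)

theorem cos_iff {δ : ℝ} (h0 : 0 < δ) (h1 : δ < 1) (t : ℝ) :
    |Real.cos (π * t)| ≤ Real.sin (π * δ / 2) ↔ ∃ n : ℤ, |t + 1/2 - n| ≤ δ / 2 := by
  have hpi := Real.pi_pos
  have key : ∀ n : ℤ, |Real.cos (π * t)| = |Real.sin (π * (t + 1/2 - n))| := by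
    intro n
    have e : π * (t + 1/2 - n) = (π * t + π / 2) - n * π := by ring
    rw [e, Real.sin_sub_int_mul_pi, Real.sin_add_pi_div_two, abs_mul, abs_zpow, abs_neg, abs_one,
      one_zpow, one_mul]
  constructor
  · intro h
    refine ⟨round (t + 1/2), ?_⟩
    by_contra hcon
    push Not at hcon
    have h2 : |t + 1/2 - round (t + 1/2)| ≤ 1/2 := abs_sub_round _
    have h3 := key (round (t + 1/2))
    set τ := t + 1/2 - (round (t + 1/2) : ℝ) with hτ
    have h4 : |Real.sin (π * τ)| = Real.sin (π * |τ|) := by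
      rw [Real.abs_sin_eq_sin_abs_of_abs_le_pi, abs_mul, abs_of_pos hpi]
      rw [abs_mul, abs_of_pos hpi]
      nlinarith
    have h5 : Real.sin (π * δ / 2) < Real.sin (π * |τ|) := by
      apply Real.sin_lt_sin_of_lt_of_le_pi_div_two
      · nlinarith [mul_pos hpi h0]
      · nlinarith
      · nlinarith
    rw [h3, h4] at h
    linarith
  · rintro ⟨n, hn⟩
    rw [key n, Real.abs_sin_eq_sin_abs_of_abs_le_pi, abs_mul, abs_of_pos hpi]
    · apply Real.sin_le_sin_of_le_of_le_pi_div_two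
      · have := abs_nonneg (t + 1/2 - (n:ℝ))
        nlinarith
      · nlinarith
      · nlinarith
    · rw [abs_mul, abs_of_pos hpi]
      nlinarith

theorem tE_iff {N δ : ℝ} (h0 : 0 < δ) (hN : δ < N) (r : ℝ) :
    r ∈ tE N δ ↔ |Real.cos (π * (r / N - 1/2))| ≤ Real.sin (π * (δ / N) / 2) := by
  have hN0 : 0 < N := h0.trans hN
  rw [cos_iff (div_pos h0 hN0) ((div_lt_one hN0).2 hN)]
  unfold tE
  rw [mem_iUnion]
  refine exists_congr fun n => ?_
  have e : r / N - 1/2 + 1/2 - (n:ℝ) = (r - n * N) / N := by field_simp; ring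
  rw [e, abs_div, abs_of_pos hN0, div_le_iff₀ hN0, mem_Icc, abs_le]
  have e2 : δ / N / 2 * N = δ / 2 := by field_simp
  rw [e2]
  constructor
  · rintro ⟨a, b⟩
    constructor <;> linarith
  · rintro ⟨a, b⟩
    constructor <;> linarith

theorem tE_closed {N δ : ℝ} (h0 : 0 < δ) (hN : δ < N) : IsClosed (tE N δ) := by
  have e : tE N δ = {r | |Real.cos (π * (r / N - 1/2))| ≤ Real.sin (π * (δ / N) / 2)} :=
    Set.ext fun r => tE_iff h0 hN r
  rw [e]
  exact isClosed_le (by fun_prop) continuous_const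

theorem tE_dens_one {δ : ℝ} (h0 : 0 < δ) (h1 : δ < 1) (x : ℝ) :
    ENNReal.ofReal δ ≤ volume (tE 1 δ ∩ Icc x (x + 1)) := by
  have hB := chiT_bnm (β := δ)
  have hper : Function.Periodic (chiT δ) 1 := chiT_per
  have h2 : ∫ t in x..(x + 1), chiT δ t = δ := by
    have h3 := hper.intervalIntegral_add_eq x 0
    rw [zero_add, chiT_int ⟨h0.le, h1.le⟩] at h3
    exact h3
  have h4 : ∫⁻ t in Icc x (x + 1), ENNReal.ofReal (chiT δ t) = ENNReal.ofReal δ := by
    rw [ofReal_ii hB (by linarith), h2]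
  rw [← h4]
  have hm : MeasurableSet (tE 1 δ) := (tE_closed h0 h1).measurableSet
  calc ∫⁻ t in Icc x (x + 1), ENNReal.ofReal (chiT δ t)
      ≤ ∫⁻ t in Icc x (x + 1), (tE 1 δ).indicator (fun _ => 1) t := by
        refine lintegral_mono fun t => ?_
        by_cases ht : t ∈ tE 1 δ
        · rw [indicator_of_mem ht, ← ENNReal.ofReal_one]
          exact ENNReal.ofReal_le_ofReal (chiT_le t)
        · rw [indicator_of_notMem ht]
          have : chiT δ t = 0 := by
            unfold chiT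
            rw [if_neg]
            intro hlt
            apply ht
            unfold tE
            rw [mem_iUnion]
            refine ⟨round t, ?_⟩
            rw [mul_one]
            have := abs_lt.1 hlt
            exact ⟨by linarith [this.1], by linarith [this.2]⟩
          rw [this, ENNReal.ofReal_zero]
    _ = volume (tE 1 δ ∩ Icc x (x + 1)) := by
        rw [setLIntegral_indicator hm]
        simp

theorem tE_dens {N δ : ℝ} (h0 : 0 < δ) (hN : δ < N) (x : ℝ) :
    ENNReal.ofReal δ ≤ volume (tE N δ ∩ Icc x (x + N)) := by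
  have hN0 : 0 < N := h0.trans hN
  have h1 := tE_dens_one (div_pos h0 hN0) ((div_lt_one hN0).2 hN) (x / N)
  have e : tE 1 (δ / N) ∩ Icc (x / N) (x / N + 1) = (fun t => N * t) ⁻¹' (tE N δ ∩ Icc x (x + N)) := by
    ext t
    simp only [mem_inter_iff, mem_preimage, mem_Icc]
    have hx1 : x / N ≤ t ↔ x ≤ N * t := by rw [div_le_iff₀ hN0, mul_comm]
    have hx2 : t ≤ x / N + 1 ↔ N * t ≤ x + N := by
      have : x / N + 1 = (x + N) / N := by field_simp
      rw [this, le_div_iff₀ hN0, mul_comm]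
    rw [hx1, hx2, tE_iff h0 hN, tE_iff (div_pos h0 hN0) ((div_lt_one hN0).2 hN)]
    have e1 : N * t / N = t / 1 := by field_simp
    rw [e1, div_one (δ / N)]
  rw [e, Real.volume_preimage_mul_left hN0.ne', abs_of_pos (inv_pos.2 hN0)] at h1
  have h2 := mul_le_mul_right h1 (ENNReal.ofReal N)
  rw [← ENNReal.ofReal_mul hN0.le, ← mul_assoc, ← ENNReal.ofReal_mul hN0.le,
    mul_inv_cancel₀ hN0.ne', ENNReal.ofReal_one, one_mul, mul_div_cancel₀ _ hN0.ne'] at h2
  exact h2

/-- the normalized function of the periodic set -/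
noncomputable def UT (N δ : ℝ) (z : ℂ) : ℝ := N * Um (Real.sin (π * (δ / N) / 2)) (z / N - 1/2)

theorem UT_nf {N δ : ℝ} (h0 : 0 < δ) (hN : δ < N) : NF (tE N δ) (UT N δ) := by
  have hN0 : 0 < N := h0.trans hN
  have hd0 : 0 < δ / N := div_pos h0 hN0
  have hd1 : δ / N < 1 := (div_lt_one hN0).2 hN
  have hs := sin_pos_of hd0 hd1
  have hs1 := sin_lt_of hd0 hd1
  have him : ∀ z : ℂ, (z / N - 1/2 : ℂ).im = z.im / N := by
    intro z
    rw [Complex.sub_im, Complex.div_ofReal_im]
    simp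
  have hre : ∀ z : ℂ, (z / N - 1/2 : ℂ).re = z.re / N - 1/2 := by
    intro z
    rw [Complex.sub_re, Complex.div_ofReal_re]
    simp
  have hiff : ∀ z : ℂ, ((z / N - 1/2 : ℂ).im = 0 ∧
      |Real.cos (π * (z / N - 1/2 : ℂ).re)| ≤ Real.sin (π * (δ / N) / 2)) ↔ z.im = 0 ∧ z.re ∈ tE N δ := by
    intro z
    rw [him, hre, tE_iff h0 hN]
    constructor
    · rintro ⟨a, b⟩
      rcases div_eq_zero_iff.1 a with h | h
      · exact ⟨h, b⟩
      · exact absurd h hN0.ne'
    · rintro ⟨a, b⟩
      exact ⟨by rw [a, zero_div], b⟩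
  refine ⟨?_, ?_, ?_, ?_, ?_, ?_⟩
  · unfold UT
    refine continuous_const.mul ((continuous_Um _).comp ?_)
    fun_prop
  · intro x hx
    unfold UT
    rw [Um_zero hs hs1 ((hiff ⟨x, 0⟩).2 ⟨rfl, hx⟩), mul_zero]
  · intro z hz
    exact mul_pos hN0 (Um_pos hs hs1 fun h => hz ((hiff z).1 h))
  · intro z hz
    have h1 : HarmonicAt (fun z : ℂ => Um (Real.sin (π * (δ / N) / 2)) (z / N - 1/2)) z := by
      refine harm_comp (h := fun z : ℂ => z / N - 1/2)
        (Um_harm hs hs1 fun h => hz ((hiff z).1 h)) ?_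
      have : Differentiable ℂ (fun z : ℂ => z / N - 1/2) := by fun_prop
      exact this.analyticAt z
    exact h1.const_smul (c := N)
  · intro z
    unfold UT
    rw [← Um_conj]
    congr 2
    rw [map_sub, map_div₀, map_div₀, Complex.conj_ofReal, map_one, map_ofNat, Complex.conj_conj]
  · have h1 : Tendsto (fun y : ℝ => 1 - N * (Real.log 4 / π) / y) atTop (𝓝 (1 - 0)) :=
      Tendsto.sub tendsto_const_nhds (Tendsto.div_atTop tendsto_const_nhds tendsto_id)
    have h2 : Tendsto (fun y : ℝ => 1 + N * (Real.log (4 / Real.sin (π * (δ / N) / 2)) / π) / y) atTop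
        (𝓝 (1 + 0)) :=
      Tendsto.add tendsto_const_nhds (Tendsto.div_atTop tendsto_const_nhds tendsto_id)
    rw [sub_zero] at h1
    rw [add_zero] at h2
    refine tendsto_of_tendsto_of_tendsto_of_le_of_le' h1 h2 ?_ ?_
    · filter_upwards [eventually_gt_atTop 0] with y hy
      have h := Um_lower hs hs1 (⟨0, y⟩ / N - 1/2)
      rw [him] at h
      simp only [abs_div, abs_of_pos hy, abs_of_pos hN0] at h
      unfold UT
      rw [le_div_iff₀ hy]
      have h3 := mul_le_mul_of_nonneg_left h hN0.le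
      refine le_trans (le_of_eq ?_) h3
      field_simp
    · filter_upwards [eventually_gt_atTop 0] with y hy
      have h := Um_upper hs hs1 (⟨0, y⟩ / N - 1/2)
      rw [him] at h
      simp only [abs_div, abs_of_pos hy, abs_of_pos hN0] at h
      unfold UT
      rw [div_le_iff₀ hy]
      have h3 := mul_le_mul_of_nonneg_left h hN0.le
      refine h3.trans (le_of_eq ?_)
      field_simp

theorem UT_value {N δ : ℝ} (h0 : 0 < δ) (hN : δ < N) :
    UT N δ ⟨N / 2, 0⟩ = N / π * Real.log (Real.cot (π * δ / (4 * N))) := by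
  have hN0 : 0 < N := h0.trans hN
  have hd0 : 0 < δ / N := div_pos h0 hN0
  have hd1 : δ / N < 1 := (div_lt_one hN0).2 hN
  have e : (⟨N / 2, 0⟩ : ℂ) / N - 1/2 = ⟨0, 0⟩ := by
    apply Complex.ext
    · rw [Complex.sub_re, Complex.div_ofReal_re]
      simp only
      have : N / 2 / N = 1 / 2 := by field_simp
      rw [this]
      simp
    · rw [Complex.sub_im, Complex.div_ofReal_im]
      simp
  have h1 := wm_zero hd0 hd1
  unfold wm at h1
  unfold UT
  rw [e, h1]
  have e2 : π * (δ / N) / 4 = π * δ / (4 * N) := by field_simp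
  rw [e2]
  ring

end Pool.Agent.Lib_helper51
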