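import Pool.Agent.Lib_helper51.Upper

set_option autoImplicit false

/-!
# Uniqueness of the extremal set
-/

open MeasureTheory Set Filter Topology InnerProductSpace
open scoped Real ENNReal

namespace Pool.Agent.Lib_helper51

theorem harm_comp {U : ℂ → ℝ} {h : ℂ → ℂ} {z : ℂ} (hU : HarmonicAt U (h z)) (ha : AnalyticAt ℂ h z) :
    HarmonicAt (fun z => U (h z)) z := by
  obtain ⟨r, hr, hball⟩ := Metric.isOpen_iff.1 (isOpen_setOfPred_harmonicAt U) (h z) hU
  have hon : HarmonicOnNhd U (Metric.ball (h z) r) := fun w hw => hball hw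
  obtain ⟨F, hF, hFre⟩ := hon.exists_analyticOnNhd_ball_re_eq
  have han : AnalyticAt ℂ (fun w => F (h w)) z :=
    (hF (h z) (Metric.mem_ball_self hr)).comp_of_eq ha rfl
  have h1 := han.harmonicAt_re
  refine (harmonicAt_congr_nhds ?_).1 h1
  have hev : ∀ᶠ w in 𝓝 z, h w ∈ Metric.ball (h z) r :=
    ha.continuousAt.eventually (Metric.ball_mem_nhds _ hr)
  filter_upwards [hev] with w hw
  exact hFre hw

variable {E : Set ℝ} {U : ℂ → ℝ}

theorem eq_mk_of_im {z : ℂ} (h : z.im = 0) : z = ⟨z.re, 0⟩ := by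
  apply Complex.ext <;> simp [h]

theorem NF.diff_bdd (h : NF E U) (hB : BNM (fun x : ℝ => U ⟨x, 0⟩)) {M : ℝ}
    (hM : ∀ x : ℝ, U ⟨x, 0⟩ ≤ M) {s : ℝ} (hs : 0 < s) (hs1 : s < 1) (z : ℂ) :
    U z - Um s z ≤ M + Real.log 4 / π := by
  have hlog : 0 ≤ Real.log 4 / π := div_nonneg (Real.log_nonneg (by norm_num)) Real.pi_pos.le
  have hup : ∀ x y : ℝ, 0 < y → U ⟨x, y⟩ - Um s ⟨x, y⟩ ≤ M + Real.log 4 / π := by
    intro x y hy
    have h1 := h.A2 x y hy
    have h2 := cvpk_le hB hM hy x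
    have h3 := Um_lower hs hs1 ⟨x, y⟩
    simp only [abs_of_pos hy] at h3
    linarith
  rcases lt_trichotomy z.im 0 with hz | hz | hz
  · rw [← h.sym z, ← Um_conj s z]
    have e : starRingEnd ℂ z = ⟨z.re, -z.im⟩ := by apply Complex.ext <;> simp
    rw [e]
    exact hup _ _ (by linarith)
  · rw [eq_mk_of_im hz]
    have h1 := hM z.re
    have h2 := Um_nonneg s ⟨z.re, 0⟩
    linarith
  · have e : z = ⟨z.re, z.im⟩ := rfl
    rw [e]
    exact hup _ _ hz

theorem abs_cos_le_of {δ t : ℝ} (h1 : δ ≤ 1) (ht : |t - 1/2| ≤ δ / 2) :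
    |Real.cos (π * t)| ≤ Real.sin (π * δ / 2) := by
  have hpi := Real.pi_pos
  have e : Real.cos (π * t) = -Real.sin (π * (t - 1/2)) := by
    have : π * (t - 1/2) = π * t - π / 2 := by ring
    rw [this, Real.sin_sub_pi_div_two, neg_neg]
  have habs : |π * (t - 1/2)| ≤ π * δ / 2 := by
    rw [abs_mul, abs_of_pos hpi]
    nlinarith
  rw [e, abs_neg, Real.abs_sin_eq_sin_abs_of_abs_le_pi (by nlinarith)]
  apply Real.sin_le_sin_of_le_of_le_pi_div_two
  · have := abs_nonneg (π * (t - 1/2))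
    linarith
  · nlinarith
  · exact habs

/-- comparison with the model -/
theorem NF.compare (h : NF E U) (hE : IsClosed E) {δ : ℝ} (h0 : 0 < δ) (h1 : δ < 1)
    (hd : Dens δ E) (hsub : ∀ t, |Real.cos (π * t)| ≤ Real.sin (π * δ / 2) → t ∈ E) (z0 : ℂ) :
    U z0 ≤ Um (Real.sin (π * δ / 2)) z0 := by
  set s := Real.sin (π * δ / 2) with hs
  have hspos : 0 < s := sin_pos_of h0 h1
  have hs1 : s < 1 := sin_lt_of h0 h1
  obtain ⟨M, hM⟩ := h.bdd hE h0 hd
  set M' := M + Real.log 4 / π with hM'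
  have hdiff := h.diff_bdd (h.bnm hE h0 hd) hM hspos hs1
  set g : ℂ → ℝ := fun z => Gf ((2 * z - 1) / δ) with hg
  have hgc : Continuous g := by
    refine continuous_Gf.comp ?_
    fun_prop
  have hgseg : ∀ z : ℂ, Seg ((2 * z - 1) / δ) → z.im = 0 ∧ |Real.cos (π * z.re)| ≤ s := by
    rintro z ⟨h2, h3⟩
    rw [Complex.div_ofReal_im] at h2
    rw [Complex.div_ofReal_re] at h3
    simp only [Complex.sub_im, Complex.mul_im, Complex.sub_re, Complex.mul_re, Complex.one_re,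
      Complex.one_im, Complex.re_ofNat, Complex.im_ofNat, zero_mul, sub_zero, add_zero] at h2 h3
    have h4 : z.im = 0 := by
      rcases div_eq_zero_iff.1 h2 with h5 | h5
      · linarith
      · exact absurd h5 h0.ne'
    refine ⟨h4, abs_cos_le_of h1.le ?_⟩
    rw [abs_div, abs_of_pos h0, div_le_one h0] at h3
    have e : z.re - 1/2 = (2 * z.re - 1) / 2 := by ring
    rw [e, abs_div, abs_two]
    linarith
  have hgh : ∀ z : ℂ, ¬ (z.im = 0 ∧ |Real.cos (π * z.re)| ≤ s) → HarmonicAt g z := by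
    intro z hz
    refine Gf_harm ?_ (fun hseg => hz (hgseg z hseg))
    have : Differentiable ℂ (fun z : ℂ => (2 * z - 1) / δ) := by fun_prop
    exact this.analyticAt z
  have hkey : ∀ ε : ℝ, 0 < ε → U z0 - Um s z0 - ε * g z0 ≤ 0 := by
    intro ε hε
    set ρ := max (‖z0‖ + 1) ((Real.exp (M' / ε) + 1) / 2) with hρ
    have hρ1 : ‖z0‖ + 1 ≤ ρ := le_max_left _ _
    have hρ2 : (Real.exp (M' / ε) + 1) / 2 ≤ ρ := le_max_right _ _
    have hmain := max_principle (f := fun z => U z - Um s z - ε * g z) (c := 0) (R := ρ)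
      (cs_closed hE) ?_ ?_ ?_ ?_
    · apply hmain
      rw [Metric.mem_closedBall, dist_zero_right]
      linarith
    · exact ((h.cont.sub (continuous_Um s)).sub (continuous_const.mul hgc)).continuousOn
    · rintro z ⟨-, hz⟩
      have hz' : ¬ (z.im = 0 ∧ |Real.cos (π * z.re)| ≤ s) := fun h2 => hz ⟨h2.1, hsub _ h2.2⟩
      exact ((h.harm z hz).sub (Um_harm hspos hs1 hz')).sub ((hgh z hz').const_smul (c := ε))
    · intro z hz
      rw [Metric.mem_sphere, dist_zero_right] at hz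
      have h2 : Real.exp (M' / ε) ≤ ‖(2 * z - 1) / (δ : ℂ)‖ := by
        rw [norm_div, Complex.norm_real, Real.norm_of_nonneg h0.le, le_div_iff₀ h0]
        have h3 : 2 * ρ - 1 ≤ ‖2 * z - 1‖ := by
          have h4 := norm_sub_norm_le (2 * z) 1
          rw [norm_mul, norm_one, hz] at h4
          have h5 : ‖(2:ℂ)‖ = 2 := by simp
          rw [h5] at h4
          linarith
        have h6 := Real.exp_pos (M' / ε)
        nlinarith
      have h3 : M' / ε ≤ g z := by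
        rw [← Real.exp_le_exp]
        exact h2.trans ((norm_le_cE _).trans (Gf_ge_log _))
      have h4 : M' ≤ ε * g z := by
        rw [div_le_iff₀ hε] at h3
        linarith
      have := hdiff z
      linarith
    · rintro z - ⟨h2, h3⟩
      have h4 : U z = 0 := by
        rw [eq_mk_of_im h2]
        exact h.zero _ h3
      have h5 := Um_nonneg s z
      have h6 : 0 ≤ ε * g z := mul_nonneg hε.le (Gf_nonneg _)
      linarith
  have hlim : Tendsto (fun ε : ℝ => U z0 - Um s z0 - ε * g z0) (𝓝[>] 0)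
      (𝓝 (U z0 - Um s z0 - 0 * g z0)) := by
    have : Continuous fun ε : ℝ => U z0 - Um s z0 - ε * g z0 := by fun_prop
    exact (this.tendsto 0).mono_left nhdsWithin_le_nhds
  have := le_of_tendsto hlim (by
    filter_upwards [self_mem_nhdsWithin] with ε hε
    exact hkey ε hε)
  linarith

/-- comparison of horizontal slices -/
theorem NF.slice_le (h : NF E U) (hE : IsClosed E) {δ : ℝ} (h0 : 0 < δ) (h1 : δ < 1)
    (hd : Dens δ E) {a y : ℝ} (ha : 0 ≤ a) (ha2 : a ≤ 1/2) (hy : 0 < y) :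
    ∫ ξ in (-a)..a, U ⟨ξ, y⟩ ≤ ∫ ξ in (-a)..a, Um (Real.sin (π * δ / 2)) ⟨ξ, y⟩ := by
  set s := Real.sin (π * δ / 2) with hs
  have hspos : 0 < s := sin_pos_of h0 h1
  have hs1 : s < 1 := sin_lt_of h0 h1
  have hB := h.bnm hE h0 hd
  have hP := wm_profile hspos
  have hmaj := maj_cv hB hP (pk_ker hy) (h.maj hE h0 h1 hd)
  have hcu := cvpk_bnm hB hy
  have hcw := cvpk_bnm hP.bnm hy
  have key := hmaj (-a) (Icc (-a) a) measurableSet_Icc (Icc_subset_Icc le_rfl (by linarith))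
  have hvol : (volume (Icc (-a) a)).toReal / 2 = a := by
    rw [Real.volume_Icc, ENNReal.toReal_ofReal (by linarith)]
    ring
  rw [hvol, integral_Icc_eq_integral_Ioc, ← intervalIntegral.integral_of_le (by linarith)] at key
  calc ∫ ξ in (-a)..a, U ⟨ξ, y⟩
      ≤ ∫ ξ in (-a)..a, (y + cv (pk y) (fun x => U ⟨x, 0⟩) ξ) :=
        intervalIntegral.integral_mono_on (by linarith)
          ((continuous_horiz h.cont y).intervalIntegrable _ _)
          (IntervalIntegrable.add (by simp) (hcu.ii _ _)) fun ξ _ => h.A2 ξ y hy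
    _ = y * (2 * a) + ∫ ξ in (-a)..a, cv (pk y) (fun x => U ⟨x, 0⟩) ξ := by
        rw [intervalIntegral.integral_add (by simp) (hcu.ii _ _)]
        simp only [intervalIntegral.integral_const, smul_eq_mul]
        ring
    _ ≤ y * (2 * a) + ∫ ξ in (-a)..a, cv (pk y) (wm s) ξ := by linarith
    _ = ∫ ξ in (-a)..a, (y + cv (pk y) (wm s) ξ) := by
        rw [intervalIntegral.integral_add (by simp) (hcw.ii _ _)]
        simp only [intervalIntegral.integral_const, smul_eq_mul]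
        ring
    _ ≤ ∫ ξ in (-a)..a, Um s ⟨ξ, y⟩ :=
        intervalIntegral.integral_mono_on (by linarith)
          (IntervalIntegrable.add (by simp) (hcw.ii _ _))
          ((continuous_horiz (continuous_Um s) y).intervalIntegrable _ _)
          fun ξ _ => Um_A1 hspos hs1 ξ y hy

theorem slice_cont {D : ℂ → ℝ} (hD : Continuous D) (R : ℝ) :
    Continuous fun y : ℝ => ∫ ξ in (-√(R ^ 2 - y ^ 2))..(√(R ^ 2 - y ^ 2)), D ⟨ξ, y⟩ := by
  have hf : Continuous (Function.uncurry fun (y ξ : ℝ) => D ⟨ξ, y⟩) :=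
    hD.comp (continuous_mk.comp (continuous_snd.prodMk continuous_fst))
  have hs : Continuous fun y : ℝ => √(R ^ 2 - y ^ 2) := by fun_prop
  have h1 : Continuous fun y : ℝ => ∫ ξ in (0:ℝ)..(√(R ^ 2 - y ^ 2)), D ⟨ξ, y⟩ :=
    intervalIntegral.continuous_parametric_intervalIntegral_of_continuous hf hs
  have h2 : Continuous fun y : ℝ => ∫ ξ in (0:ℝ)..(-√(R ^ 2 - y ^ 2)), D ⟨ξ, y⟩ :=
    intervalIntegral.continuous_parametric_intervalIntegral_of_continuous hf hs.neg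
  have e : ∀ y : ℝ, ∫ ξ in (-√(R ^ 2 - y ^ 2))..(√(R ^ 2 - y ^ 2)), D ⟨ξ, y⟩ =
      (∫ ξ in (0:ℝ)..(√(R ^ 2 - y ^ 2)), D ⟨ξ, y⟩) - ∫ ξ in (0:ℝ)..(-√(R ^ 2 - y ^ 2)), D ⟨ξ, y⟩ := by
    intro y
    have hi : ∀ a b : ℝ, IntervalIntegrable (fun ξ => D ⟨ξ, y⟩) volume a b :=
      fun a b => (continuous_horiz hD y).intervalIntegrable a b
    rw [← intervalIntegral.integral_interval_sub_left (hi _ _) (hi _ _)]
  simp_rw [e]
  exact h1.sub h2

theorem NF.slice_zero (h : NF E U) (hE : IsClosed E) {δ : ℝ} (h0 : 0 < δ) (h1 : δ < 1)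
    (hd : Dens δ E) (heq : U ⟨0, 0⟩ = Um (Real.sin (π * δ / 2)) ⟨0, 0⟩) {r0 : ℝ} (hr2 : r0 ≤ 1/2)
    (hU : HarmonicOnNhd U (Metric.ball (⟨0, 0⟩ : ℂ) r0))
    (hW : HarmonicOnNhd (Um (Real.sin (π * δ / 2))) (Metric.ball (⟨0, 0⟩ : ℂ) r0))
    {a y : ℝ} (ha : 0 < a) (hy : 0 < y) (hay : a ^ 2 + y ^ 2 < r0 ^ 2) (hr0 : 0 < r0) :
    ∫ ξ in (-a)..a, (Um (Real.sin (π * δ / 2)) ⟨ξ, y⟩ - U ⟨ξ, y⟩) = 0 := by
  set s := Real.sin (π * δ / 2) with hs
  set R := √(a ^ 2 + y ^ 2) with hR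
  have hR0 : 0 < R := Real.sqrt_pos.2 (by positivity)
  have hRsq : R ^ 2 = a ^ 2 + y ^ 2 := Real.sq_sqrt (by positivity)
  have hRr : R < r0 := lt_of_pow_lt_pow_left₀ 2 hr0.le (by rw [hRsq]; exact hay)
  have hyR : y < R := lt_of_pow_lt_pow_left₀ 2 hR0.le (by rw [hRsq]; nlinarith)
  have hsqrt : √(R ^ 2 - y ^ 2) = a := by
    rw [hRsq, add_sub_cancel_right, Real.sqrt_sq ha.le]
  set D : ℂ → ℝ := fun z => Um s z - U z with hD
  have hDc : Continuous D := (continuous_Um s).sub h.cont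
  set F : ℝ → ℝ := fun y => ∫ ξ in (-√(R ^ 2 - y ^ 2))..(√(R ^ 2 - y ^ 2)), D ⟨ξ, y⟩ with hF
  have hFc : Continuous F := slice_cont hDc R
  have hFnn : ∀ y' ∈ Ioc (0:ℝ) R, 0 ≤ F y' := by
    intro y' hy'
    have h2 := Real.sqrt_nonneg (R ^ 2 - y' ^ 2)
    have h3 : √(R ^ 2 - y' ^ 2) ≤ 1/2 := by
      calc √(R ^ 2 - y' ^ 2) ≤ √(R ^ 2) := Real.sqrt_le_sqrt (by nlinarith [sq_nonneg y'])
        _ = R := Real.sqrt_sq hR0.le
        _ ≤ 1/2 := by linarith
    have h4 := h.slice_le hE h0 h1 hd h2 h3 hy'.1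
    rw [hF, hD]
    simp only
    rw [intervalIntegral.integral_sub ((continuous_horiz (continuous_Um s) y').intervalIntegrable _ _)
      ((continuous_horiz h.cont y').intervalIntegrable _ _)]
    linarith
  have hHD : ∀ G : ℂ → ℝ, HD R G 0 = ∫ y in (0:ℝ)..R,
      ∫ ξ in (-√(R ^ 2 - y ^ 2))..(√(R ^ 2 - y ^ 2)), G ⟨ξ, y⟩ := by
    intro G
    unfold HD
    simp only [zero_add]
  have hball : Metric.ball (⟨0, 0⟩ : ℂ) R ⊆ Metric.ball (⟨0, 0⟩ : ℂ) r0 :=
    Metric.ball_subset_ball hRr.le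
  have m1 := HD_mean h.cont h.sym hR0 (x := 0) (hU.mono hball)
  have m2 := HD_mean (continuous_Um s) (Um_conj s) hR0 (x := 0) (hW.mono hball)
  have hint : ∫ y in (0:ℝ)..R, F y = 0 := by
    have e1 : ∀ y, F y = (∫ ξ in (-√(R ^ 2 - y ^ 2))..(√(R ^ 2 - y ^ 2)), Um s ⟨ξ, y⟩) -
        ∫ ξ in (-√(R ^ 2 - y ^ 2))..(√(R ^ 2 - y ^ 2)), U ⟨ξ, y⟩ := by
      intro y
      rw [hF, hD]
      simp only
      rw [intervalIntegral.integral_sub ((continuous_horiz (continuous_Um s) y).intervalIntegrable _ _)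
        ((continuous_horiz h.cont y).intervalIntegrable _ _)]
    simp_rw [e1]
    rw [intervalIntegral.integral_sub ((slice_cont (continuous_Um s) R).intervalIntegrable _ _)
      ((slice_cont h.cont R).intervalIntegrable _ _), ← hHD, ← hHD, ← m1, ← m2, heq, sub_self]
  have hFy : F y = 0 := by
    by_contra hne
    have hpos : 0 < F y := lt_of_le_of_ne (hFnn y ⟨hy, hyR.le⟩) (Ne.symm hne)
    have := intervalIntegral.integral_pos hR0 hFc.continuousOn hFnn ⟨y, ⟨hy.le, hyR.le⟩, hpos⟩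
    linarith
  rw [hF] at hFy
  simp only at hFy
  rwa [hsqrt] at hFy

theorem pair_zero {D : ℂ → ℝ} (hD : Continuous D) {r0 y : ℝ}
    (hz : ∀ a : ℝ, 0 < a → a ^ 2 + y ^ 2 < r0 ^ 2 → ∫ ξ in (-a)..a, D ⟨ξ, y⟩ = 0)
    {a : ℝ} (ha : 0 < a) (hay : a ^ 2 + y ^ 2 < r0 ^ 2) : D ⟨a, y⟩ + D ⟨-a, y⟩ = 0 := by
  set d : ℝ → ℝ := fun ξ => D ⟨ξ, y⟩ with hd
  have hdc : Continuous d := continuous_horiz hD y
  have hi : ∀ a b : ℝ, IntervalIntegrable d volume a b := fun a b => hdc.intervalIntegrable a b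
  have h1 : ∀ b, HasDerivAt (fun a => ∫ ξ in (0:ℝ)..a, d ξ) (d b) b := fun b =>
    intervalIntegral.integral_hasDerivAt_right (hi _ _) (hdc.stronglyMeasurableAtFilter _ _) hdc.continuousAt
  have h2 : HasDerivAt (fun a => (∫ ξ in (0:ℝ)..a, d ξ) - ∫ ξ in (0:ℝ)..(-a), d ξ) (d a + d (-a)) a := by
    have h3 : HasDerivAt (fun a => ∫ ξ in (0:ℝ)..(-a), d ξ) (d (-a) * -1) a :=
      (h1 (-a)).comp a (hasDerivAt_neg a)
    have h4 := (h1 a).sub h3
    rw [show d a + d (-a) = d a - d (-a) * -1 by ring]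
    exact h4
  have h5 : (fun a => (∫ ξ in (0:ℝ)..a, d ξ) - ∫ ξ in (0:ℝ)..(-a), d ξ) =ᶠ[𝓝 a] fun _ => 0 := by
    have e1 : ∀ᶠ b in 𝓝 a, 0 < b := eventually_gt_nhds ha
    have e2 : ∀ᶠ b in 𝓝 a, b ^ 2 + y ^ 2 < r0 ^ 2 := by
      have : ContinuousAt (fun b : ℝ => b ^ 2 + y ^ 2) a := by fun_prop
      exact this.eventually_lt_const hay
    filter_upwards [e1, e2] with b hb1 hb2
    rw [intervalIntegral.integral_interval_sub_left (hi _ _) (hi _ _)]
    exact hz b hb1 hb2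
  have h6 : HasDerivAt (fun a => (∫ ξ in (0:ℝ)..a, d ξ) - ∫ ξ in (0:ℝ)..(-a), d ξ) 0 a :=
    (hasDerivAt_const a (0:ℝ)).congr_of_eventuallyEq h5
  exact h2.unique h6

theorem refl_eq {V : ℂ → ℝ} (hV : ∀ z, V (starRingEnd ℂ z) = V z) (a y : ℝ) :
    V (-(⟨a, y⟩ : ℂ)) = V ⟨-a, y⟩ := by
  rw [← hV ⟨-a, y⟩]
  congr 1

theorem NF.sym_identity (h : NF E U) (hE : IsClosed E) {δ : ℝ} (h0 : 0 < δ) (h1 : δ < 1)
    (hd : Dens δ E) (heq : U ⟨0, 0⟩ = Um (Real.sin (π * δ / 2)) ⟨0, 0⟩) (t : ℝ) :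
    2 * Um (Real.sin (π * δ / 2)) ⟨t, 0⟩ - U ⟨t, 0⟩ - U ⟨-t, 0⟩ = 0 := by
  set s := Real.sin (π * δ / 2) with hs
  have hspos : 0 < s := sin_pos_of h0 h1
  have hs1 : s < 1 := sin_lt_of h0 h1
  -- the origin is not in the set
  have h0E : (0:ℝ) ∉ E := by
    intro hmem
    have h2 := h.zero 0 hmem
    have h3 : 0 < Um s ⟨0, 0⟩ := by
      apply Um_pos hspos hs1
      rintro ⟨-, h4⟩
      simp only [mul_zero, Real.cos_zero, abs_one] at h4
      linarith
    linarith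
  obtain ⟨r1, hr1, hball⟩ := Metric.isOpen_iff.1 hE.isOpen_compl 0 h0E
  set r0 := min r1 ((1 - δ) / 2) with hr0
  have hr0pos : 0 < r0 := lt_min hr1 (by linarith)
  have hr01 : r0 ≤ r1 := min_le_left _ _
  have hr02 : r0 ≤ (1 - δ) / 2 := min_le_right _ _
  have hre : ∀ z ∈ Metric.ball (⟨0, 0⟩ : ℂ) r0, |z.re| < r0 := by
    intro z hz
    rw [Metric.mem_ball, dist_eq_norm] at hz
    have h5 := Complex.abs_re_le_norm (z - ⟨0, 0⟩)
    rw [Complex.sub_re] at h5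
    simp only [sub_zero] at h5
    linarith
  have hU : HarmonicOnNhd U (Metric.ball (⟨0, 0⟩ : ℂ) r0) := by
    intro z hz
    apply h.harm
    rintro ⟨-, h3⟩
    have h4 := hre z hz
    have h5 : z.re ∈ Metric.ball (0:ℝ) r1 := by
      rw [Metric.mem_ball, Real.dist_eq, sub_zero]
      linarith
    exact hball h5 h3
  have hW : HarmonicOnNhd (Um s) (Metric.ball (⟨0, 0⟩ : ℂ) r0) := by
    intro z hz
    apply Um_harm hspos hs1
    rintro ⟨-, h3⟩
    have h4 := hre z hz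
    have h5 := cos_gt_of h0 (t := z.re) (by linarith)
    linarith
  set D : ℂ → ℝ := fun z => Um s z - U z with hD
  have hDc : Continuous D := (continuous_Um s).sub h.cont
  have hpair : ∀ a y : ℝ, 0 < a → 0 < y → a ^ 2 + y ^ 2 < r0 ^ 2 → D ⟨a, y⟩ + D ⟨-a, y⟩ = 0 := by
    intro a y ha hy hay
    refine pair_zero hDc (fun b hb hby => ?_) ha hay
    exact h.slice_zero hE h0 h1 hd heq (by linarith) hU hW hb hy hby hr0pos
  set H : ℂ → ℝ := fun z => 2 * Um s z - U z - U (-z) with hH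
  have hHc : Continuous H :=
    ((continuous_const.mul (continuous_Um s)).sub h.cont).sub (h.cont.comp continuous_neg)
  have hHz : ∀ a y : ℝ, 0 < a → 0 < y → a ^ 2 + y ^ 2 < r0 ^ 2 → H ⟨a, y⟩ = 0 := by
    intro a y ha hy hay
    have h2 := hpair a y ha hy hay
    have h3 := refl_eq h.sym a y
    have h4 := refl_eq (Um_conj s) a y
    rw [Um_neg] at h4
    simp only [hH, hD] at h2 ⊢
    rw [h3]
    rw [← h4] at h2
    linarith
  have hHan : AnalyticOnNhd ℝ H {z : ℂ | 0 < z.im} := by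
    intro z hz
    change 0 < z.im at hz
    have a1 : HarmonicAt (Um s) z := Um_harm hspos hs1 (by rintro ⟨h2, -⟩; linarith)
    have a2 : HarmonicAt U z := h.harm z (by rintro ⟨h2, -⟩; linarith)
    have a3 : HarmonicAt U (-z) := h.harm (-z) (by
      rintro ⟨h2, -⟩
      rw [Complex.neg_im] at h2
      linarith)
    have a4 : HarmonicAt (fun z => U (-z)) z := harm_comp (h := fun z => -z) a3 analyticAt_id.neg
    have a5 : HarmonicAt H z := ((a1.const_smul (c := 2)).sub a2).sub a4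
    exact HarmonicAt.analyticAt a5
  have hpre : IsPreconnected {z : ℂ | 0 < z.im} := (convex_halfSpace_im_gt 0).isPreconnected
  have hz0 : (⟨r0 / 2, r0 / 2⟩ : ℂ) ∈ {z : ℂ | 0 < z.im} := by
    change 0 < r0 / 2
    linarith
  have hev : H =ᶠ[𝓝 (⟨r0 / 2, r0 / 2⟩ : ℂ)] fun _ => 0 := by
    have e1 : ∀ᶠ z : ℂ in 𝓝 (⟨r0 / 2, r0 / 2⟩ : ℂ), 0 < z.re :=
      Complex.continuous_re.continuousAt.eventually_const_lt (by change 0 < r0 / 2; linarith)
    have e2 : ∀ᶠ z : ℂ in 𝓝 (⟨r0 / 2, r0 / 2⟩ : ℂ), 0 < z.im :=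
      Complex.continuous_im.continuousAt.eventually_const_lt (by change 0 < r0 / 2; linarith)
    have e3 : ∀ᶠ z : ℂ in 𝓝 (⟨r0 / 2, r0 / 2⟩ : ℂ), z.re ^ 2 + z.im ^ 2 < r0 ^ 2 := by
      have hc : Continuous fun z : ℂ => z.re ^ 2 + z.im ^ 2 :=
        (Complex.continuous_re.pow 2).add (Complex.continuous_im.pow 2)
      refine hc.continuousAt.eventually_lt_const ?_
      simp only
      nlinarith
    filter_upwards [e1, e2, e3] with z h2 h3 h4
    exact hHz z.re z.im h2 h3 h4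
  have hEq := hHan.eqOn_of_preconnected_of_eventuallyEq (g := fun _ => 0) analyticOnNhd_const hpre hz0 hev
  have hlim : Tendsto (fun y : ℝ => H ⟨t, y⟩) (𝓝[>] 0) (𝓝 (H ⟨t, 0⟩)) := by
    have hc : Continuous fun y : ℝ => H ⟨t, y⟩ :=
      hHc.comp (continuous_mk.comp (continuous_const.prodMk continuous_id))
    exact (hc.tendsto 0).mono_left nhdsWithin_le_nhds
  have hlim2 : Tendsto (fun y : ℝ => H ⟨t, y⟩) (𝓝[>] 0) (𝓝 0) := by
    refine tendsto_const_nhds.congr' ?_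
    filter_upwards [self_mem_nhdsWithin] with y hy
    exact (hEq (x := ⟨t, y⟩) hy).symm
  have h5 := tendsto_nhds_unique hlim hlim2
  simp only [hH] at h5
  rwa [refl_eq h.sym] at h5

theorem NF.unique_zero (h : NF E U) (hE : IsClosed E) {δ : ℝ} (h0 : 0 < δ) (h1 : δ < 1)
    (hd : Dens δ E) (heq : U ⟨0, 0⟩ = Um (Real.sin (π * δ / 2)) ⟨0, 0⟩) (t : ℝ) :
    t ∈ E ↔ |Real.cos (π * t)| ≤ Real.sin (π * δ / 2) := by
  set s := Real.sin (π * δ / 2) with hs
  have hspos : 0 < s := sin_pos_of h0 h1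
  have hs1 : s < 1 := sin_lt_of h0 h1
  have hsym := h.sym_identity hE h0 h1 hd heq
  have hsub : ∀ t, |Real.cos (π * t)| ≤ s → t ∈ E := by
    intro t ht
    by_contra hnot
    have h2 : Um s ⟨t, 0⟩ = 0 := Um_zero hspos hs1 ⟨rfl, ht⟩
    have h3 := hsym t
    have h4 : 0 < U ⟨t, 0⟩ := h.pos _ (fun h5 => hnot h5.2)
    have h5 := h.nonneg ⟨-t, 0⟩
    rw [h2] at h3
    linarith
  refine ⟨fun ht => ?_, hsub t⟩
  by_contra hnot
  have h2 : 0 < Um s ⟨t, 0⟩ := Um_pos hspos hs1 (fun h5 => hnot h5.2)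
  have h3 := hsym t
  have h4 := h.zero t ht
  have h5 := h.compare hE h0 h1 hd hsub ⟨-t, 0⟩
  have h6 : Um s ⟨-t, 0⟩ = Um s ⟨t, 0⟩ := by
    rw [← Um_neg s ⟨t, 0⟩]
    congr 1
    apply Complex.ext <;> simp
  rw [h6] at h5
  linarith

end Pool.Agent.Lib_helper51
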