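import Pool.Agent.Lib_helper51.Model
import Pool.Agent.Lib_helper51.Bdd

set_option autoImplicit false

/-!
# The upper bound
-/

open MeasureTheory Set Filter Topology InnerProductSpace
open scoped Real ENNReal

namespace Pool.Agent.Lib_helper51

/-- normalized positive harmonic functions vanishing on `E` -/
structure NF (E : Set ℝ) (U : ℂ → ℝ) : Prop where
  cont : Continuous U
  zero : ∀ x ∈ E, U ⟨x, 0⟩ = 0
  pos : ∀ z : ℂ, ¬ (z.im = 0 ∧ z.re ∈ E) → 0 < U z
  harm : ∀ z : ℂ, ¬ (z.im = 0 ∧ z.re ∈ E) → HarmonicAt U z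
  sym : ∀ z, U (starRingEnd ℂ z) = U z
  lim : Tendsto (fun y : ℝ => U ⟨0, y⟩ / y) atTop (𝓝 1)

/-- density of `E` in unit windows -/
def Dens (δ : ℝ) (E : Set ℝ) : Prop := ∀ x : ℝ, ENNReal.ofReal δ ≤ volume (E ∩ Icc x (x + 1))

/-- the complex points of `E` -/
def cs (E : Set ℝ) : Set ℂ := {z | z.im = 0 ∧ z.re ∈ E}

theorem cs_closed {E : Set ℝ} (hE : IsClosed E) : IsClosed (cs E) := by
  have h1 : IsClosed {z : ℂ | z.im = 0} := isClosed_eq Complex.continuous_im continuous_const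
  have h2 : IsClosed {z : ℂ | z.re ∈ E} := hE.preimage Complex.continuous_re
  exact h1.inter h2

variable {E : Set ℝ} {U : ℂ → ℝ}

theorem NF.nonneg (h : NF E U) (z : ℂ) : 0 ≤ U z := by
  by_cases hz : z.im = 0 ∧ z.re ∈ E
  · have : z = ⟨z.re, 0⟩ := by apply Complex.ext <;> simp [hz.1]
    rw [this, h.zero _ hz.2]
  · exact (h.pos z hz).le

theorem NF.hp (h : NF E U) : HP U :=
  ⟨h.cont, fun z hz => h.harm z (by rintro ⟨h1, -⟩; change 0 < z.im at hz; linarith),
    fun z _ => h.nonneg z⟩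

theorem NF.A2 (h : NF E U) (x y : ℝ) (hy : 0 < y) : U ⟨x, y⟩ ≤ y + cv (pk y) (fun t => U ⟨t, 0⟩) x :=
  A2_of h.hp h.lim x y hy

theorem NF.sub (h : NF E U) (hE : IsClosed E) {R : ℝ} (hR : 0 < R) (x : ℝ) :
    NR R * U ⟨x, 0⟩ ≤ HD R U x := by
  refine HD_submean h.cont h.sym hR fun r hr => ?_
  refine sub_mean (cs_closed hE) h.cont h.nonneg ?_ ?_ _ hr
  · rintro z ⟨h1, h2⟩
    have : z = ⟨z.re, 0⟩ := by apply Complex.ext <;> simp [h1]
    rw [this]
    exact h.zero _ h2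
  · intro z hz
    exact h.harm z hz

theorem NF.bdd (h : NF E U) (hE : IsClosed E) {δ : ℝ} (hδ : 0 < δ) (hd : Dens δ E) :
    ∃ M, ∀ x : ℝ, U ⟨x, 0⟩ ≤ M :=
  bounded_of h.hp h.A2 (R := 1/2) (by norm_num) le_rfl (h.sub hE (by norm_num)) hE.measurableSet
    h.zero hδ hd

theorem NF.bnm (h : NF E U) (hE : IsClosed E) {δ : ℝ} (hδ : 0 < δ) (hd : Dens δ E) :
    BNM (fun x : ℝ => U ⟨x, 0⟩) :=
  ⟨(continuous_line h.cont).measurable, fun _ => h.nonneg _, h.bdd hE hδ hd⟩

theorem dens_compl {δ : ℝ} (hE : MeasurableSet E) (hd : Dens δ E) (x : ℝ) :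
    (volume (Icc x (x + 1) ∩ Eᶜ)).toReal ≤ 1 - δ := by
  have h1 : volume (Icc x (x + 1) ∩ E) + volume (Icc x (x + 1) ∩ Eᶜ) = volume (Icc x (x + 1)) := by
    rw [← sdiff_eq]
    exact measure_inter_add_sdiff _ hE
  have h2 : volume (Icc x (x + 1)) = 1 := by simp
  rw [h2] at h1
  have hA : volume (Icc x (x + 1) ∩ E) ≠ ⊤ := by
    intro h; rw [h, top_add] at h1; exact absurd h1 (by simp)
  have hB : volume (Icc x (x + 1) ∩ Eᶜ) ≠ ⊤ := by
    intro h; rw [h, add_top] at h1; exact absurd h1 (by simp)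
  have h3 := congrArg ENNReal.toReal h1
  rw [ENNReal.toReal_add hA hB, ENNReal.toReal_one] at h3
  have h4 : δ ≤ (volume (Icc x (x + 1) ∩ E)).toReal := by
    rw [inter_comm]
    rw [inter_comm] at hA
    exact (ENNReal.ofReal_le_iff_le_toReal hA).1 (hd x)
  linarith

theorem dens_le_one {δ : ℝ} (hd : Dens δ E) : δ ≤ 1 := by
  have h := (hd 0).trans (measure_mono inter_subset_right)
  have h2 : volume (Icc (0:ℝ) (0 + 1)) = ENNReal.ofReal 1 := by simp
  rw [h2] at h
  exact (ENNReal.ofReal_le_ofReal_iff zero_le_one).1 h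

theorem cos_gt_of {δ' t : ℝ} (hδ' : 0 < δ') (ht : |t| < (1 - δ') / 2) :
    Real.sin (π * δ' / 2) < |Real.cos (π * t)| := by
  have hpi := Real.pi_pos
  refine lt_of_lt_of_le ?_ (le_abs_self _)
  have h1 : Real.sin (π * δ' / 2) = Real.cos (π * ((1 - δ') / 2)) := by
    rw [← Real.cos_pi_div_two_sub]
    congr 1
    ring
  rw [h1, ← Real.cos_abs (π * t), abs_mul, abs_of_pos hpi]
  apply Real.cos_lt_cos_of_nonneg_of_le_pi
  · positivity
  · nlinarith
  · exact mul_lt_mul_of_pos_left ht hpi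

theorem sin_pos_of {δ : ℝ} (h0 : 0 < δ) (h1 : δ < 1) : 0 < Real.sin (π * δ / 2) :=
  Real.sin_pos_of_pos_of_lt_pi (by positivity) (by nlinarith [Real.pi_pos])

theorem sin_lt_of {δ : ℝ} (h0 : 0 < δ) (h1 : δ < 1) : Real.sin (π * δ / 2) < 1 := by
  have hpi := Real.pi_pos
  rw [← Real.sin_pi_div_two]
  apply Real.sin_lt_sin_of_lt_of_le_pi_div_two
  · nlinarith [mul_pos hpi h0]
  · exact le_rfl
  · nlinarith

theorem NF.maj_aux (h : NF E U) (hE : IsClosed E) {δ δ' : ℝ} (hδ' : 0 < δ') (hδδ : δ' < δ)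
    (hd : Dens δ E) :
    Maj (fun x : ℝ => U ⟨x, 0⟩) (fun x => chiT (1 - δ) x * wm (Real.sin (π * δ' / 2)) x) := by
  have hδ1 := dens_le_one hd
  have hδ : 0 < δ := hδ'.trans hδδ
  have hs := sin_pos_of hδ' (by linarith : δ' < 1)
  have hs1 := sin_lt_of hδ' (by linarith : δ' < 1)
  have hB := h.bnm hE hδ hd
  set R := (δ - δ') / 2 with hR
  have hR0 : 0 < R := by rw [hR]; linarith
  have hR2 : R ≤ 1/2 := by rw [hR]; linarith
  refine rearr (τ := tR R) hR0 hR2 (by linarith) (by linarith) hE.measurableSet.compl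
    (fun x => dens_compl hE.measurableSet hd x) hB ?_ ?_ (wm_profile hs) ?_
  · intro x hx
    exact h.zero x (not_not.1 hx)
  · intro x _
    exact (h.sub hE hR0 x).trans (HD_le h.cont hB hR0 x h.A2)
  · intro x hx
    refine wm_T hs hs1 hR0 fun t ht => ?_
    apply cos_gt_of hδ'
    have h1 : |t| ≤ |t - x| + |x| := by
      have := abs_add_le (t - x) x
      rwa [sub_add_cancel] at this
    rw [hR] at ht
    linarith

theorem wm_int_tendsto {δ : ℝ} (h0 : 0 < δ) (h1 : δ < 1) (b : ℝ) :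
    Tendsto (fun δ' => ∫ x in (-b)..b, wm (Real.sin (π * δ' / 2)) x) (𝓝[<] δ)
      (𝓝 (∫ x in (-b)..b, wm (Real.sin (π * δ / 2)) x)) := by
  set s := Real.sin (π * δ / 2) with hs
  have hspos : 0 < s := sin_pos_of h0 h1
  set f : ℝ → ℝ → ℝ := fun t x => (1 / π) * Real.arcosh (max (|Real.cos (π * x)| / max t (s / 2)) 1)
    with hf
  have hmax : ∀ t : ℝ, max t (s / 2) ≠ 0 := fun t => by
    have : s / 2 ≤ max t (s / 2) := le_max_right _ _
    have : 0 < max t (s / 2) := by linarith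
    exact this.ne'
  have hfc : Continuous (Function.uncurry f) := by
    have h2 : Continuous fun p : ℝ × ℝ => max (|Real.cos (π * p.2)| / max p.1 (s / 2)) 1 := by
      refine Continuous.max (Continuous.div (by fun_prop) (by fun_prop) fun p => hmax p.1)
        continuous_const
    exact continuous_const.mul
      (Real.continuousOn_arcosh.comp_continuous h2 fun p => mem_Ici.2 (le_max_right _ _))
  have hF : Continuous fun t => ∫ x in (-b)..b, f t x :=
    intervalIntegral.continuous_parametric_intervalIntegral_of_continuous' hfc _ _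
  have hsin : Tendsto (fun δ' => Real.sin (π * δ' / 2)) (𝓝[<] δ) (𝓝 s) := by
    have : Continuous fun δ' => Real.sin (π * δ' / 2) := by fun_prop
    exact (this.tendsto δ).mono_left nhdsWithin_le_nhds
  have heq : ∀ t, s / 2 ≤ t → ∀ x, f t x = wm t x := by
    intro t ht x
    rw [wm_eq (by linarith) x, hf]
    simp only
    rw [max_eq_left ht]
  have hlim := (hF.tendsto s).comp hsin
  have e1 : ∫ x in (-b)..b, f s x = ∫ x in (-b)..b, wm s x := by
    congr 1
    funext x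
    exact heq s (by linarith) x
  rw [e1] at hlim
  refine hlim.congr' ?_
  have hev : ∀ᶠ δ' in 𝓝[<] δ, s / 2 < Real.sin (π * δ' / 2) :=
    hsin.eventually_const_lt (by linarith)
  filter_upwards [hev] with δ' hδ'
  simp only [Function.comp]
  congr 1
  funext x
  exact heq _ hδ'.le x

theorem NF.maj (h : NF E U) (hE : IsClosed E) {δ : ℝ} (h0 : 0 < δ) (h1 : δ < 1) (hd : Dens δ E) :
    Maj (fun x : ℝ => U ⟨x, 0⟩) (wm (Real.sin (π * δ / 2))) := by
  intro a B hB hBs
  set β := (volume B).toReal with hβ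
  have hβ0 : 0 ≤ β := ENNReal.toReal_nonneg
  refine ge_of_tendsto (wm_int_tendsto h0 h1 (β / 2)) ?_
  have hev : ∀ᶠ δ' in 𝓝[<] δ, 0 < δ' := by
    have : ∀ᶠ δ' in 𝓝 δ, 0 < δ' := eventually_gt_nhds h0
    exact this.filter_mono nhdsWithin_le_nhds
  filter_upwards [hev, self_mem_nhdsWithin] with δ' h2 h3
  have h3' : δ' < δ := h3
  have hs := sin_pos_of h2 (by linarith : δ' < 1)
  have hP := wm_profile hs
  have hcut := cut_profile (g := 1 - δ) (by linarith) hP (le_refl 0)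
  have key := h.maj_aux hE h2 h3' hd a B hB hBs
  rw [← hβ] at key
  refine key.trans ?_
  refine intervalIntegral.integral_mono_on (by linarith) ?_ (hP.bnm.ii _ _) fun x _ => ?_
  · have := hcut.bnm.ii (-(β / 2)) (β / 2)
    simpa using this
  · calc chiT (1 - δ) x * wm (Real.sin (π * δ' / 2)) x ≤ 1 * wm (Real.sin (π * δ' / 2)) x :=
        mul_le_mul_of_nonneg_right (chiT_le x) (hP.bnm.nonneg x)
      _ = _ := one_mul _

theorem NF.upper (h : NF E U) (hE : IsClosed E) {δ : ℝ} (h0 : 0 < δ) (h1 : δ < 1) (hd : Dens δ E)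
    (x : ℝ) : U ⟨x, 0⟩ ≤ (1 / π) * Real.log (Real.cot (π * δ / 4)) := by
  rw [← wm_zero h0 h1]
  exact (h.maj hE h0 h1 hd).pointwise (wm_profile (sin_pos_of h0 h1)) (continuous_line h.cont) x

end Pool.Agent.Lib_helper51
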