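import Pool.Agent.Lib_helper51.Basic

set_option autoImplicit false

/-!
# The water-filling lemma
-/

open MeasureTheory Set intervalIntegral

namespace Pool.Agent.Lib_helper51

/-- the functional which is minimised over the level `l` -/
noncomputable def Xi (v Φ : ℝ → ℝ) (x l : ℝ) : ℝ :=
  2 * l * x + Φ l - ∫ θ in x..(1 - x), max (v θ - l) 0

theorem Xi_diff {v Φ : ℝ → ℝ} (hv : BNM v) {x x' l : ℝ} (hl : 0 ≤ l) :
    Xi v Φ x' l - Xi v Φ x l
      = (∫ θ in x..x', max (v θ) l) + ∫ θ in (1 - x')..(1 - x), max (v θ) l := by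
  have hp := hv.posPart hl
  have e1 : ∀ a b : ℝ, ∫ θ in a..b, max (v θ) l = (∫ θ in a..b, max (v θ - l) 0) + l * (b - a) := by
    intro a b
    have : ∀ θ, max (v θ) l = max (v θ - l) 0 + l := by
      intro θ
      rw [← max_add_add_right]; simp
    simp_rw [this]
    rw [intervalIntegral.integral_add (hp.ii _ _) (by simp)]
    simp only [intervalIntegral.integral_const, smul_eq_mul]
    ring
  rw [e1, e1]
  unfold Xi
  have e2 : ∫ θ in x..(1 - x), max (v θ - l) 0
      = (∫ θ in x..x', max (v θ - l) 0) + (∫ θ in x'..(1 - x'), max (v θ - l) 0)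
        + ∫ θ in (1 - x')..(1 - x), max (v θ - l) 0 := by
    rw [intervalIntegral.integral_add_adjacent_intervals (hp.ii _ _) (hp.ii _ _),
      intervalIntegral.integral_add_adjacent_intervals (hp.ii _ _) (hp.ii _ _)]
  rw [e2]
  ring

theorem abs_max_sub_le (a l l' : ℝ) : |max (a - l) 0 - max (a - l') 0| ≤ |l - l'| := by
  rcases le_total (a - l) 0 with h | h <;> rcases le_total (a - l') 0 with h' | h' <;>
    simp only [max_eq_left, max_eq_right, h, h'] <;> rw [abs_le] <;>
    constructor <;> cases abs_cases (l - l') <;> linarith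

theorem continuous_levelInt {v : ℝ → ℝ} (hv : BNM v) (a b : ℝ) {M : ℝ} :
    ContinuousOn (fun l => ∫ θ in a..b, max (v θ - l) 0) (Icc 0 M) := by
  have key : ∀ l ∈ Icc (0:ℝ) M, ∀ l' ∈ Icc (0:ℝ) M,
      dist (∫ θ in a..b, max (v θ - l) 0) (∫ θ in a..b, max (v θ - l') 0) ≤ |b - a| * dist l l' := by
    intro l hl l' hl'
    rw [Real.dist_eq, ← intervalIntegral.integral_sub ((hv.posPart hl.1).ii _ _)
      ((hv.posPart hl'.1).ii _ _)]
    have := intervalIntegral.norm_integral_le_of_norm_le_const (a := a) (b := b)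
      (f := fun θ => max (v θ - l) 0 - max (v θ - l') 0) (C := |l - l'|)
      (fun x _ => by rw [Real.norm_eq_abs]; exact abs_max_sub_le _ _ _)
    rw [Real.norm_eq_abs] at this
    rw [Real.dist_eq]
    linarith
  have : LipschitzOnWith (Real.toNNReal |b - a|) (fun l => ∫ θ in a..b, max (v θ - l) 0) (Icc 0 M) := by
    refine LipschitzOnWith.of_dist_le_mul fun l hl l' hl' => ?_
    rw [Real.coe_toNNReal _ (abs_nonneg _)]
    exact key l hl l' hl'
  exact this.continuousOn

theorem exists_argmin {v Φ : ℝ → ℝ} (hv : BNM v) {M : ℝ} (hM : 0 ≤ M)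
    (hΦ : ContinuousOn Φ (Icc 0 M)) (x : ℝ) :
    ∃ l ∈ Icc (0:ℝ) M, (∀ l' ∈ Icc (0:ℝ) M, Xi v Φ x l ≤ Xi v Φ x l') ∧
      ∀ l' ∈ Icc (0:ℝ) M, (∀ l'' ∈ Icc (0:ℝ) M, Xi v Φ x l' ≤ Xi v Φ x l'') → l' ≤ l := by
  have hc : ContinuousOn (fun l => Xi v Φ x l) (Icc 0 M) := by
    unfold Xi
    exact ((by fun_prop : ContinuousOn (fun l : ℝ => 2 * l * x) (Icc 0 M)).add hΦ).sub
      (continuous_levelInt hv _ _)
  obtain ⟨l0, hl0, hl0m⟩ := isCompact_Icc.exists_isMinOn (nonempty_Icc.2 hM) hc
  set A : Set ℝ := Icc (0:ℝ) M ∩ {l | Xi v Φ x l ≤ Xi v Φ x l0} with hA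
  have hAc : IsCompact A := by
    refine isCompact_Icc.of_isClosed_subset ?_ inter_subset_left
    have := hc.preimage_isClosed_of_isClosed isClosed_Icc (isClosed_Iic (a := Xi v Φ x l0))
    exact this
  obtain ⟨l, hlA, hlub⟩ := hAc.exists_isGreatest ⟨l0, hl0, (le_refl _ : Xi v Φ x l0 ≤ Xi v Φ x l0)⟩
  refine ⟨l, hlA.1, fun l' hl' => hlA.2.trans (hl0m hl'), fun l' hl' hmin => hlub ⟨hl', hmin l0 hl0⟩⟩

/-- A function whose increments are controlled by `(x' - x) * (L x - L x')` is constant. -/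
theorem const_of_increments {h L : ℝ → ℝ} {C r : ℝ} (hr : 0 ≤ r)
    (hinc : ∀ x ∈ Icc 0 r, ∀ x' ∈ Icc 0 r, x ≤ x' → |h x' - h x| ≤ C * (x' - x) * (L x - L x')) :
    ∀ x ∈ Icc 0 r, h x = h 0 := by
  intro x hx
  have bound : ∀ n : ℕ, 0 < n → |h x - h 0| ≤ C * x * (L 0 - L x) / n := by
    intro n hn
    have hn' : (0:ℝ) < n := by exact_mod_cast hn
    have tel : h x - h 0 = ∑ i ∈ Finset.range n, (h (x * ((i + 1 : ℕ) : ℝ) / n) - h (x * (i : ℝ) / n)) := by
      rw [Finset.sum_range_sub (fun i : ℕ => h (x * (i : ℝ) / n))]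
      congr 2
      · field_simp
      · simp
    have tel2 : L 0 - L x = ∑ i ∈ Finset.range n, (L (x * (i : ℝ) / n) - L (x * ((i + 1 : ℕ) : ℝ) / n)) := by
      rw [Finset.sum_range_sub' (fun i : ℕ => L (x * (i : ℝ) / n))]
      congr 2
      · simp
      · field_simp
    rw [tel]
    calc |∑ i ∈ Finset.range n, (h (x * ((i + 1 : ℕ) : ℝ) / n) - h (x * (i : ℝ) / n))|
        ≤ ∑ i ∈ Finset.range n, |h (x * ((i + 1 : ℕ) : ℝ) / n) - h (x * (i : ℝ) / n)| :=
          Finset.abs_sum_le_sum_abs _ _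
      _ ≤ ∑ i ∈ Finset.range n, C * (x / n) * (L (x * (i : ℝ) / n) - L (x * ((i + 1 : ℕ) : ℝ) / n)) := by
          refine Finset.sum_le_sum fun i hi => ?_
          have hi' : i < n := Finset.mem_range.1 hi
          have h1 : (0:ℝ) ≤ i := by positivity
          have h2 : ((i + 1 : ℕ) : ℝ) ≤ n := by exact_mod_cast hi'
          have h3 : (i : ℝ) ≤ ((i + 1 : ℕ) : ℝ) := by push_cast; linarith
          have hx0 : 0 ≤ x := hx.1
          have m1 : x * (i : ℝ) / n ∈ Icc 0 r := by
            refine ⟨by positivity, ?_⟩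
            rw [div_le_iff₀ hn']
            have : (i : ℝ) ≤ n := by linarith
            nlinarith [hx.2]
          have m2 : x * ((i + 1 : ℕ) : ℝ) / n ∈ Icc 0 r := by
            refine ⟨by positivity, ?_⟩
            rw [div_le_iff₀ hn']
            nlinarith [hx.2]
          have m3 : x * (i : ℝ) / n ≤ x * ((i + 1 : ℕ) : ℝ) / n := by
            gcongr
          refine (hinc _ m1 _ m2 m3).trans (le_of_eq ?_)
          congr 2
          push_cast
          ring
      _ = C * x * (L 0 - L x) / n := by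
          rw [← Finset.mul_sum, ← tel2]
          ring
  have lim : Filter.Tendsto (fun n : ℕ => C * x * (L 0 - L x) / (n : ℝ)) Filter.atTop (nhds 0) :=
    tendsto_const_div_atTop_nhds_zero_nat _
  have : |h x - h 0| ≤ 0 :=
    ge_of_tendsto lim (Filter.eventually_atTop.2 ⟨1, fun n hn => bound n hn⟩)
  have h0 : h x - h 0 = 0 := abs_eq_zero.1 (le_antisymm this (abs_nonneg _))
  linarith


theorem water_filling {v Φ : ℝ → ℝ} (hv : BNM v) {M : ℝ} (hM : 0 ≤ M) (hvM : ∀ x, v x ≤ M)
    (hΦc : ContinuousOn Φ (Icc 0 M))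
    (hΦ0 : ∀ l ∈ Icc (0:ℝ) M, ∫ θ in (0:ℝ)..1, max (v θ - l) 0 ≤ Φ l) (hΦM : Φ M = 0) :
    ∃ lam : ℝ → ℝ, Antitone lam ∧ (∀ x, lam x ∈ Icc (0:ℝ) M) ∧
      (∀ x ∈ Icc (0:ℝ) (1/2), ∃ l ∈ Icc (0:ℝ) M,
        (∫ θ in (0:ℝ)..x, max (v θ) (lam (min θ (1 - θ))))
          + (∫ θ in (1 - x)..1, max (v θ) (lam (min θ (1 - θ)))) = Xi v Φ x l) ∧
      (∀ x ∈ Icc (0:ℝ) (1/2), ∀ l ∈ Icc (0:ℝ) M,
        (∫ θ in (0:ℝ)..x, max (v θ) (lam (min θ (1 - θ))))
          + (∫ θ in (1 - x)..1, max (v θ) (lam (min θ (1 - θ)))) ≤ Xi v Φ x l) ∧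
      (∀ l ∈ Icc (0:ℝ) M,
        ∫ θ in (0:ℝ)..1, max (max (v θ) (lam (min θ (1 - θ))) - l) 0 ≤ Φ l) := by
  choose lam0 h1 h2 h3 using exists_argmin hv hM hΦc
  have hanti0 : ∀ x ∈ Icc (0:ℝ) (1/2), ∀ x' ∈ Icc (0:ℝ) (1/2), x ≤ x' → lam0 x' ≤ lam0 x := by
    intro x hx x' hx' hxx
    by_contra hcon
    push Not at hcon
    have hnot : ¬ ∀ l'' ∈ Icc (0:ℝ) M, Xi v Φ x (lam0 x') ≤ Xi v Φ x l'' := by
      intro hall
      exact absurd (h3 x _ (h1 x') hall) (not_le.2 hcon)
    push Not at hnot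
    obtain ⟨l'', hl'', hlt⟩ := hnot
    have hlt2 : Xi v Φ x (lam0 x) < Xi v Φ x (lam0 x') := (h2 x l'' hl'').trans_lt hlt
    have d1 := Xi_diff (Φ := Φ) hv (x := x) (x' := x') (h1 x').1
    have d2 := Xi_diff (Φ := Φ) hv (x := x) (x' := x') (h1 x).1
    have m1 : ∫ θ in x..x', max (v θ) (lam0 x) ≤ ∫ θ in x..x', max (v θ) (lam0 x') :=
      intervalIntegral.integral_mono_on hxx ((hv.max_const _ (h1 x).1).ii _ _)
        ((hv.max_const _ (h1 x').1).ii _ _) fun θ _ => max_le_max le_rfl hcon.le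
    have m2 : ∫ θ in (1 - x')..(1 - x), max (v θ) (lam0 x)
        ≤ ∫ θ in (1 - x')..(1 - x), max (v θ) (lam0 x') :=
      intervalIntegral.integral_mono_on (by linarith) ((hv.max_const _ (h1 x).1).ii _ _)
        ((hv.max_const _ (h1 x').1).ii _ _) fun θ _ => max_le_max le_rfl hcon.le
    have := h2 x' (lam0 x) (h1 x)
    linarith
  set cl : ℝ → ℝ := fun x => max 0 (min x (1/2)) with hcl
  have hcl1 : ∀ x, cl x ∈ Icc (0:ℝ) (1/2) := fun x =>
    ⟨le_max_left _ _, max_le (by norm_num) (min_le_right _ _)⟩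
  have hcl2 : ∀ x ∈ Icc (0:ℝ) (1/2), cl x = x := by
    intro x hx
    simp only [hcl]
    rw [min_eq_left hx.2, max_eq_right hx.1]
  have hclm : Monotone cl := fun x y hxy => max_le_max le_rfl (min_le_min hxy le_rfl)
  set lam : ℝ → ℝ := fun x => lam0 (cl x) with hlam
  have hlanti : Antitone lam := fun x y hxy => hanti0 _ (hcl1 x) _ (hcl1 y) (hclm hxy)
  have hlmem : ∀ x, lam x ∈ Icc (0:ℝ) M := fun x => h1 _
  have hlmin : ∀ x ∈ Icc (0:ℝ) (1/2), ∀ l ∈ Icc (0:ℝ) M, Xi v Φ x (lam x) ≤ Xi v Φ x l := by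
    intro x hx l hl
    simp only [hlam, hcl2 x hx]
    exact h2 x l hl
  set hat : ℝ → ℝ := fun θ => max (v θ) (lam (min θ (1 - θ))) with hhat
  have hatB : BNM hat := by
    refine ⟨?_, fun x => le_max_of_le_left (hv.nonneg x), ⟨M, fun x => max_le (hvM x) (hlmem _).2⟩⟩
    exact hv.meas.max (hlanti.measurable.comp (measurable_id.min (measurable_const.sub measurable_id)))
  set G : ℝ → ℝ := fun x => (∫ θ in (0:ℝ)..x, hat θ) + ∫ θ in (1 - x)..1, hat θ with hG
  have hGdiff : ∀ x x', G x' - G x = (∫ θ in x..x', hat θ) + ∫ θ in (1 - x')..(1 - x), hat θ := by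
    intro x x'
    simp only [hG]
    rw [← intervalIntegral.integral_add_adjacent_intervals (hatB.ii 0 x) (hatB.ii x x'),
      ← intervalIntegral.integral_add_adjacent_intervals (hatB.ii (1 - x') (1 - x))
        (hatB.ii (1 - x) 1)]
    ring
  have hGg : ∀ x ∈ Icc (0:ℝ) (1/2), G x = Xi v Φ x (lam x) := by
    have hinc : ∀ x ∈ Icc (0:ℝ) (1/2), ∀ x' ∈ Icc (0:ℝ) (1/2), x ≤ x' →
        |(Xi v Φ x' (lam x') - G x') - (Xi v Φ x (lam x) - G x)| ≤ 2 * (x' - x) * (lam x - lam x') := by
      intro x hx x' hx' hxx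
      have hb : ∀ θ ∈ Icc x x', lam x' ≤ lam (min θ (1 - θ)) ∧ lam (min θ (1 - θ)) ≤ lam x := by
        intro θ hθ
        have : min θ (1 - θ) = θ := min_eq_left (by linarith [hθ.2, hx'.2])
        rw [this]
        exact ⟨hlanti hθ.2, hlanti hθ.1⟩
      have hb2 : ∀ θ ∈ Icc (1 - x') (1 - x),
          lam x' ≤ lam (min θ (1 - θ)) ∧ lam (min θ (1 - θ)) ≤ lam x := by
        intro θ hθ
        have : min θ (1 - θ) = 1 - θ := min_eq_right (by linarith [hθ.1, hx'.2])
        rw [this]
        exact ⟨hlanti (by linarith [hθ.1]), hlanti (by linarith [hθ.2])⟩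
      have d1 := Xi_diff (Φ := Φ) hv (x := x) (x' := x') (hlmem x).1
      have d2 := Xi_diff (Φ := Φ) hv (x := x) (x' := x') (hlmem x').1
      have g1 := hlmin x' hx' (lam x) (hlmem x)
      have g2 := hlmin x hx (lam x') (hlmem x')
      have gd := hGdiff x x'
      -- upper estimates
      have hii : ∀ a b c : ℝ, 0 ≤ c → IntervalIntegrable (fun θ => max (v θ) c) volume a b :=
        fun a b c hc => (hv.max_const _ hc).ii _ _
      have u1 : (∫ θ in x..x', max (v θ) (lam x)) - ∫ θ in x..x', hat θ ≤ (x' - x) * (lam x - lam x') := by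
        rw [← intervalIntegral.integral_sub (hii _ _ _ (hlmem x).1) (hatB.ii _ _)]
        calc ∫ θ in x..x', (max (v θ) (lam x) - hat θ) ≤ ∫ θ in x..x', (lam x - lam x') := by
              refine intervalIntegral.integral_mono_on hxx
                ((hii _ _ _ (hlmem x).1).sub (hatB.ii _ _)) (by simp) fun θ hθ => ?_
              obtain ⟨b1, b2⟩ := hb θ hθ
              simp only [hhat]
              have := le_max_right (v θ) (lam (min θ (1 - θ)))
              have := le_max_left (v θ) (lam (min θ (1 - θ)))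
              rcases max_cases (v θ) (lam x) with ⟨e, _⟩ | ⟨e, _⟩ <;> rw [e] <;> linarith
          _ = (x' - x) * (lam x - lam x') := by
              simp only [intervalIntegral.integral_const, smul_eq_mul]
      have u2 : (∫ θ in (1 - x')..(1 - x), max (v θ) (lam x)) - ∫ θ in (1 - x')..(1 - x), hat θ
          ≤ (x' - x) * (lam x - lam x') := by
        rw [← intervalIntegral.integral_sub (hii _ _ _ (hlmem x).1) (hatB.ii _ _)]
        calc ∫ θ in (1 - x')..(1 - x), (max (v θ) (lam x) - hat θ)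
              ≤ ∫ θ in (1 - x')..(1 - x), (lam x - lam x') := by
              refine intervalIntegral.integral_mono_on (by linarith)
                ((hii _ _ _ (hlmem x).1).sub (hatB.ii _ _)) (by simp) fun θ hθ => ?_
              obtain ⟨b1, b2⟩ := hb2 θ hθ
              simp only [hhat]
              have := le_max_right (v θ) (lam (min θ (1 - θ)))
              have := le_max_left (v θ) (lam (min θ (1 - θ)))
              rcases max_cases (v θ) (lam x) with ⟨e, _⟩ | ⟨e, _⟩ <;> rw [e] <;> linarith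
          _ = (x' - x) * (lam x - lam x') := by
              simp only [intervalIntegral.integral_const, smul_eq_mul]; ring
      have l1 : (∫ θ in x..x', hat θ) - (∫ θ in x..x', max (v θ) (lam x')) ≤ (x' - x) * (lam x - lam x') := by
        rw [← intervalIntegral.integral_sub (hatB.ii _ _) (hii _ _ _ (hlmem x').1)]
        calc ∫ θ in x..x', (hat θ - max (v θ) (lam x')) ≤ ∫ θ in x..x', (lam x - lam x') := by
              refine intervalIntegral.integral_mono_on hxx
                ((hatB.ii _ _).sub (hii _ _ _ (hlmem x').1)) (by simp) fun θ hθ => ?_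
              obtain ⟨b1, b2⟩ := hb θ hθ
              simp only [hhat]
              have := le_max_right (v θ) (lam x')
              have := le_max_left (v θ) (lam x')
              rcases max_cases (v θ) (lam (min θ (1 - θ))) with ⟨e, _⟩ | ⟨e, _⟩ <;> rw [e] <;> linarith
          _ = (x' - x) * (lam x - lam x') := by
              simp only [intervalIntegral.integral_const, smul_eq_mul]
      have l2 : (∫ θ in (1 - x')..(1 - x), hat θ) - (∫ θ in (1 - x')..(1 - x), max (v θ) (lam x'))
          ≤ (x' - x) * (lam x - lam x') := by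
        rw [← intervalIntegral.integral_sub (hatB.ii _ _) (hii _ _ _ (hlmem x').1)]
        calc ∫ θ in (1 - x')..(1 - x), (hat θ - max (v θ) (lam x'))
              ≤ ∫ θ in (1 - x')..(1 - x), (lam x - lam x') := by
              refine intervalIntegral.integral_mono_on (by linarith)
                ((hatB.ii _ _).sub (hii _ _ _ (hlmem x').1)) (by simp) fun θ hθ => ?_
              obtain ⟨b1, b2⟩ := hb2 θ hθ
              simp only [hhat]
              have := le_max_right (v θ) (lam x')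
              have := le_max_left (v θ) (lam x')
              rcases max_cases (v θ) (lam (min θ (1 - θ))) with ⟨e, _⟩ | ⟨e, _⟩ <;> rw [e] <;> linarith
          _ = (x' - x) * (lam x - lam x') := by
              simp only [intervalIntegral.integral_const, smul_eq_mul]; ring
      rw [abs_le]
      constructor <;> linarith
    have hconst := const_of_increments (h := fun x => Xi v Φ x (lam x) - G x) (L := lam)
      (C := 2) (r := 1/2) (by norm_num) hinc
    have h00 : Xi v Φ 0 (lam 0) - G 0 = 0 := by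
      have hG0 : G 0 = 0 := by simp [hG]
      have hlow : 0 ≤ Xi v Φ 0 (lam 0) := by
        unfold Xi
        have := hΦ0 (lam 0) (hlmem 0)
        simp only [mul_zero, zero_add, sub_zero]
        linarith
      have hup : Xi v Φ 0 (lam 0) ≤ 0 := by
        have h := hlmin 0 ⟨le_rfl, by norm_num⟩ M ⟨hM, le_rfl⟩
        refine h.trans (le_of_eq ?_)
        unfold Xi
        have : ∀ θ, max (v θ - M) 0 = 0 := fun θ => max_eq_right (by linarith [hvM θ])
        simp [this, hΦM]
      rw [hG0]; linarith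
    intro x hx
    have := hconst x hx
    linarith
  refine ⟨lam, hlanti, hlmem, ?_, ?_, ?_⟩
  · intro x hx
    exact ⟨lam x, hlmem x, hGg x hx⟩
  · intro x hx l hl
    have := hGg x hx
    have h := hlmin x hx l hl
    simp only [hG, hhat] at this
    linarith
  · intro l hl
    -- threshold
    set S : Set ℝ := {x | x ∈ Icc (0:ℝ) (1/2) ∧ l < lam x} ∪ {0} with hS
    have hSne : S.Nonempty := ⟨0, Or.inr rfl⟩
    have hSb : BddAbove S := ⟨1/2, by
      rintro x (hx | hx)
      · exact hx.1.2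
      · rw [hx]; norm_num⟩
    set xl := sSup S with hxl
    have hxl0 : 0 ≤ xl := le_csSup hSb (Or.inr rfl)
    have hxl1 : xl ≤ 1/2 := csSup_le hSne (by
      rintro x (hx | hx)
      · exact hx.1.2
      · rw [hx]; norm_num)
    have big : ∀ θ, 0 ≤ θ → θ < xl → l < lam θ := by
      intro θ hθ0 hθ
      obtain ⟨x, hxS, hθx⟩ := exists_lt_of_lt_csSup hSne hθ
      rcases hxS with hx | hx
      · exact hx.2.trans_le (hlanti hθx.le)
      · rw [hx] at hθx; linarith
    have small : ∀ θ, xl < θ → θ ≤ 1/2 → lam θ ≤ l := by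
      intro θ hθ hθ2
      by_contra hcon
      push Not at hcon
      have : θ ≤ xl := le_csSup hSb (Or.inl ⟨⟨by linarith, hθ2⟩, hcon⟩)
      linarith
    have hP := hatB.posPart hl.1
    have e0 : ∫ θ in (0:ℝ)..1, max (hat θ - l) 0
        = (∫ θ in (0:ℝ)..xl, max (hat θ - l) 0) + (∫ θ in xl..(1 - xl), max (hat θ - l) 0)
          + ∫ θ in (1 - xl)..1, max (hat θ - l) 0 := by
      rw [intervalIntegral.integral_add_adjacent_intervals (hP.ii _ _) (hP.ii _ _),
        intervalIntegral.integral_add_adjacent_intervals (hP.ii _ _) (hP.ii _ _)]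
    have ae_of : ∀ {a b : ℝ} {F H : ℝ → ℝ}, a ≤ b → (∀ θ ∈ Ioo a b, F θ = H θ) →
        ∫ θ in a..b, F θ = ∫ θ in a..b, H θ := by
      intro a b F H hab hFH
      rw [intervalIntegral.integral_of_le hab, intervalIntegral.integral_of_le hab,
        integral_Ioc_eq_integral_Ioo, integral_Ioc_eq_integral_Ioo]
      exact setIntegral_congr_fun measurableSet_Ioo hFH
    have e1 : ∫ θ in (0:ℝ)..xl, max (hat θ - l) 0 = (∫ θ in (0:ℝ)..xl, hat θ) - l * xl := by
      rw [ae_of (F := fun θ => max (hat θ - l) 0) (H := fun θ => hat θ - l) hxl0 ?_,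
        intervalIntegral.integral_sub (hatB.ii _ _) (by simp)]
      · simp [mul_comm]
      · intro θ hθ
        refine max_eq_left ?_
        have hmin : min θ (1 - θ) = θ := min_eq_left (by linarith [hθ.2])
        have := big θ hθ.1.le hθ.2
        have h2 : lam θ ≤ hat θ := by simp only [hhat, hmin]; exact le_max_right _ _
        linarith
    have e3 : ∫ θ in (1 - xl)..1, max (hat θ - l) 0 = (∫ θ in (1 - xl)..1, hat θ) - l * xl := by
      rw [ae_of (F := fun θ => max (hat θ - l) 0) (H := fun θ => hat θ - l) (by linarith) ?_,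
        intervalIntegral.integral_sub (hatB.ii _ _) (by simp)]
      · simp [mul_comm]
      · intro θ hθ
        refine max_eq_left ?_
        have hmin : min θ (1 - θ) = 1 - θ := min_eq_right (by linarith [hθ.1])
        have := big (1 - θ) (by linarith [hθ.2]) (by linarith [hθ.1])
        have h2 : lam (1 - θ) ≤ hat θ := by simp only [hhat, hmin]; exact le_max_right _ _
        linarith
    have e2 : ∫ θ in xl..(1 - xl), max (hat θ - l) 0 = ∫ θ in xl..(1 - xl), max (v θ - l) 0 := by
      refine ae_of (by linarith) ?_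
      intro θ hθ
      have hle : lam (min θ (1 - θ)) ≤ l := by
        rcases le_total θ (1 - θ) with h | h
        · rw [min_eq_left h]; exact small θ hθ.1 (by linarith)
        · rw [min_eq_right h]; exact small (1 - θ) (by linarith [hθ.2]) (by linarith)
      simp only [hhat]
      rcases le_total (v θ) (lam (min θ (1 - θ))) with h | h
      · rw [max_eq_right h, max_eq_right (by linarith), max_eq_right (by linarith)]
      · rw [max_eq_left h]
    have hGx := hGg xl ⟨hxl0, hxl1⟩
    have hmin := hlmin xl ⟨hxl0, hxl1⟩ l hl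
    rw [e0, e1, e2, e3]
    simp only [hG] at hGx
    unfold Xi at hmin
    unfold Xi at hGx
    linarith

end Pool.Agent.Lib_helper51
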